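import Mathlib
import Pool.Agent.Lib.MP_72b52d_lc.CR.Stmt

/-!
# MP_f8e9b8_lc : definable predicates and functions over a transitive model

`W` is a set of sets, the universe of a transitive model of `ZF`.  `DP W P`: the predicate `P` of
assignments is definable over `(W, ∈)` with parameters.  `DF W f`: the function `f` of assignments
maps assignments of `W` into `W` and its graph is definable.
-/

set_option autoImplicit false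

namespace Pool.Agent.CM

open Pool.Agent.CR (V Fml cons Sat nat)

/-- `N` is a transitive model of `ZF`. -/
structure IsTransModelZF (N : Set V) : Prop where
  transitive : ∀ x ∈ N, ∀ y ∈ x, y ∈ N
  extensionality : ∀ x ∈ N, ∀ y ∈ N, (∀ z ∈ N, z ∈ x ↔ z ∈ y) → x = y
  foundation : ∀ x ∈ N, (∃ y ∈ N, y ∈ x) → ∃ y ∈ N, y ∈ x ∧ ∀ z ∈ N, z ∈ y → z ∉ x
  pairing : ∀ x ∈ N, ∀ y ∈ N, ∃ z ∈ N, ∀ w ∈ N, w ∈ z ↔ w = x ∨ w = y
  union : ∀ x ∈ N, ∃ z ∈ N, ∀ w ∈ N, w ∈ z ↔ ∃ y ∈ N, y ∈ x ∧ w ∈ y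
  powerset : ∀ x ∈ N, ∃ z ∈ N, ∀ w ∈ N, w ∈ z ↔ ∀ u ∈ N, u ∈ w → u ∈ x
  infinity : ∃ x ∈ N, (∃ e ∈ N, (∀ u ∈ N, u ∉ e) ∧ e ∈ x) ∧
    ∀ y ∈ N, y ∈ x → ∃ z ∈ N, z ∈ x ∧ ∀ w ∈ N, w ∈ z ↔ w ∈ y ∨ w = y
  separation : ∀ (φ : Fml) (v : ℕ → V), (∀ n, v n ∈ N) → ∀ a ∈ N, ∃ b ∈ N, ∀ x ∈ N,
    x ∈ b ↔ x ∈ a ∧ Sat N φ (cons x v)
  replacement : ∀ (φ : Fml) (v : ℕ → V), (∀ n, v n ∈ N) → ∀ a ∈ N,
    (∀ x ∈ N, x ∈ a → ∃! y, y ∈ N ∧ Sat N φ (cons y (cons x v))) →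
      ∃ b ∈ N, ∀ y ∈ N, y ∈ b ↔ ∃ x ∈ N, x ∈ a ∧ Sat N φ (cons y (cons x v))

theorem _root_.Pool.Agent.CR.IsTransModelZFC.zf {N : Set V}
    (h : Pool.Agent.CR.IsTransModelZFC N) : IsTransModelZF N :=
  ⟨h.transitive, h.extensionality, h.foundation, h.pairing, h.union, h.powerset, h.infinity,
    h.separation, h.replacement⟩

/-! ### renaming of variables -/

/-- renaming under a quantifier -/
def lift (f : ℕ → ℕ) : ℕ → ℕ
  | 0 => 0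
  | n + 1 => f n + 1

/-- renaming of the variables of a formula -/
def ren (f : ℕ → ℕ) : Fml → Fml
  | .bot => .bot
  | .mem i j => .mem (f i) (f j)
  | .eq i j => .eq (f i) (f j)
  | .imp φ ψ => .imp (ren f φ) (ren f ψ)
  | .all φ => .all (ren (lift f) φ)

end Pool.Agent.CM
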