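import Mathlib
import Pool.Agent.Lib.MP_f8e9b8_lc.Base

/-!
# MP_f8e9b8_lc : the calculus of definable predicates, logical part
-/

set_option autoImplicit false

namespace Pool.Agent.CM

open Pool.Agent.CR (V Fml cons Sat nat cons_zero cons_succ)

theorem cons_lift (x : V) (v : ℕ → V) (f : ℕ → ℕ) :
    (fun n => cons x v (lift f n)) = cons x (fun n => v (f n)) := by
  funext n
  cases n <;> rfl

theorem sat_ren (N : Set V) (φ : Fml) : ∀ (f : ℕ → ℕ) (v : ℕ → V),
    Sat N (ren f φ) v ↔ Sat N φ (fun n => v (f n)) := by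
  induction φ with
  | bot => intro f v; exact Iff.rfl
  | mem i j => intro f v; exact Iff.rfl
  | eq i j => intro f v; exact Iff.rfl
  | imp φ ψ h1 h2 => intro f v; exact imp_congr (h1 f v) (h2 f v)
  | all φ h =>
    intro f v
    refine forall_congr' fun x => imp_congr_right fun _ => ?_
    rw [h, cons_lift]

/-- assignments of variables and parameters are mixed: variables at even places -/
def mix (v c : ℕ → V) : ℕ → V := fun n => if n % 2 = 0 then v (n / 2) else c (n / 2)

theorem mix_even (v c : ℕ → V) (n : ℕ) : mix v c (2 * n) = v n := by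
  unfold mix
  rw [if_pos (by omega)]
  congr 1
  omega

theorem mix_odd (v c : ℕ → V) (n : ℕ) : mix v c (2 * n + 1) = c n := by
  unfold mix
  rw [if_neg (by omega)]
  congr 1
  omega

theorem mix_ext {v c w : ℕ → V} (h1 : ∀ n, w (2 * n) = v n) (h2 : ∀ n, w (2 * n + 1) = c n) :
    w = mix v c := by
  funext n
  rcases Nat.even_or_odd' n with ⟨k, rfl | rfl⟩
  · rw [h1, mix_even]
  · rw [h2, mix_odd]

/-- the predicate `P` of assignments is definable over `(W, ∈)` with parameters -/
def DP (W : Set V) (P : (ℕ → V) → Prop) : Prop :=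
  ∃ (φ : Fml) (c : ℕ → V), (∀ n, c n ∈ W) ∧ ∀ v : ℕ → V, (∀ n, v n ∈ W) →
    (P v ↔ Sat W φ (mix v c))

/-- `f` maps assignments of `W` into `W`, with a definable graph -/
def DF (W : Set V) (f : (ℕ → V) → V) : Prop :=
  (∀ v : ℕ → V, (∀ n, v n ∈ W) → f v ∈ W) ∧ DP W (fun v => v 0 = f (fun n => v (n + 1)))

variable {W : Set V}

theorem DP.congr {P Q : (ℕ → V) → Prop} (hP : DP W P)
    (h : ∀ v : ℕ → V, (∀ n, v n ∈ W) → (Q v ↔ P v)) : DP W Q := by
  obtain ⟨φ, c, hc, hφ⟩ := hP
  exact ⟨φ, c, hc, fun v hv => (h v hv).trans (hφ v hv)⟩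

/-- renaming of variables -/
theorem DP.ren {P : (ℕ → V) → Prop} (hP : DP W P) (f : ℕ → ℕ) :
    DP W (fun v => P (fun n => v (f n))) := by
  obtain ⟨φ, c, hc, hφ⟩ := hP
  refine ⟨CM.ren (fun n => if n % 2 = 0 then 2 * f (n / 2) else n) φ, c, hc, fun v hv => ?_⟩
  show P (fun n => v (f n)) ↔ _
  rw [sat_ren, hφ _ fun n => hv _]
  have : (fun n => mix v c (if n % 2 = 0 then 2 * f (n / 2) else n)) =
      mix (fun n => v (f n)) c := by
    apply mix_ext
    · intro n
      rw [if_pos (by omega), mix_even]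
      congr 2
      omega
    · intro n
      rw [if_neg (by omega), mix_odd]
  rw [this]

theorem DP.bot (hW : W.Nonempty) : DP W (fun _ => False) := by
  obtain ⟨a, ha⟩ := hW
  exact ⟨.bot, fun _ => a, fun _ => ha, fun v _ => Iff.rfl⟩

theorem DP.memv (hW : W.Nonempty) (i j : ℕ) : DP W (fun v => v i ∈ v j) := by
  obtain ⟨a, ha⟩ := hW
  refine ⟨.mem (2 * i) (2 * j), fun _ => a, fun _ => ha, fun v _ => ?_⟩
  show _ ↔ mix v _ (2 * i) ∈ mix v _ (2 * j)
  rw [mix_even, mix_even]

theorem DP.eqv (hW : W.Nonempty) (i j : ℕ) : DP W (fun v => v i = v j) := by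
  obtain ⟨a, ha⟩ := hW
  refine ⟨.eq (2 * i) (2 * j), fun _ => a, fun _ => ha, fun v _ => ?_⟩
  show _ ↔ mix v _ (2 * i) = mix v _ (2 * j)
  rw [mix_even, mix_even]

theorem DP.imp {P Q : (ℕ → V) → Prop} (hP : DP W P) (hQ : DP W Q) :
    DP W (fun v => P v → Q v) := by
  obtain ⟨φ, c, hc, hφ⟩ := hP
  obtain ⟨ψ, d, hd, hψ⟩ := hQ
  refine ⟨.imp (CM.ren (fun n => if n % 2 = 0 then n else 4 * (n / 2) + 1) φ)
    (CM.ren (fun n => if n % 2 = 0 then n else 4 * (n / 2) + 3) ψ), mix c d, fun n => ?_,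
    fun v hv => ?_⟩
  · unfold mix
    split_ifs
    · exact hc _
    · exact hd _
  · show (P v → Q v) ↔ (Sat W _ _ → Sat W _ _)
    rw [sat_ren, sat_ren, hφ v hv, hψ v hv]
    have h1 : (fun n => mix v (mix c d) (if n % 2 = 0 then n else 4 * (n / 2) + 1)) = mix v c := by
      apply mix_ext
      · intro n
        rw [if_pos (by omega), mix_even]
      · intro n
        rw [if_neg (by omega), show 4 * ((2 * n + 1) / 2) + 1 = 2 * (2 * n) + 1 by omega, mix_odd,
          mix_even]
    have h2 : (fun n => mix v (mix c d) (if n % 2 = 0 then n else 4 * (n / 2) + 3)) = mix v d := by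
      apply mix_ext
      · intro n
        rw [if_pos (by omega), mix_even]
      · intro n
        rw [if_neg (by omega), show 4 * ((2 * n + 1) / 2) + 3 = 2 * (2 * n + 1) + 1 by omega,
          mix_odd, mix_odd]
    rw [h1, h2]

theorem DP.all {Q : V → (ℕ → V) → Prop} (h : DP W (fun v => Q (v 0) (fun n => v (n + 1)))) :
    DP W (fun v => ∀ x ∈ W, Q x v) := by
  obtain ⟨φ, c, hc, hφ⟩ := h
  refine ⟨.all (CM.ren (fun n => if n = 0 then 0 else if n % 2 = 0 then n - 1 else n + 1) φ), c, hc,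
    fun v hv => ?_⟩
  refine forall_congr' fun x => forall_congr' fun hx => ?_
  rw [sat_ren]
  have hv' : ∀ n, cons x v n ∈ W := by
    intro n
    cases n
    · exact hx
    · exact hv _
  have := hφ (cons x v) hv'
  simp only [cons_zero, cons_succ] at this
  rw [this]
  have h1 : (fun n => cons x (mix v c) (if n = 0 then 0 else if n % 2 = 0 then n - 1 else n + 1)) =
      mix (cons x v) c := by
    apply mix_ext
    · intro n
      cases n with
      | zero => rfl
      | succ n =>
        rw [if_neg (by omega), if_pos (by omega), show 2 * (n + 1) - 1 = 2 * n + 1 by omega,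
          cons_succ, mix_even, cons_succ]
    · intro n
      rw [if_neg (by omega), if_neg (by omega), cons_succ, mix_odd]
  rw [h1]

/-- a parameter in the place of the first variable -/
theorem DP.param {P : (ℕ → V) → Prop} (hP : DP W P) {a : V} (ha : a ∈ W) :
    DP W (fun v => P (cons a v)) := by
  obtain ⟨φ, c, hc, hφ⟩ := hP
  refine ⟨CM.ren (fun n => if n = 0 then 1 else if n % 2 = 0 then n - 2 else n + 2) φ, cons a c,
    fun n => ?_, fun v hv => ?_⟩
  · cases n
    · exact ha
    · exact hc _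
  · rw [sat_ren]
    have hv' : ∀ n, cons a v n ∈ W := by
      intro n
      cases n
      · exact ha
      · exact hv _
    show P (cons a v) ↔ _
    rw [hφ _ hv']
    have h1 : (fun n => mix v (cons a c) (if n = 0 then 1 else if n % 2 = 0 then n - 2
        else n + 2)) = mix (cons a v) c := by
      apply mix_ext
      · intro n
        cases n with
        | zero => exact mix_odd v (cons a c) 0
        | succ n =>
          rw [if_neg (by omega), if_pos (by omega), show 2 * (n + 1) - 2 = 2 * n by omega,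
            mix_even, cons_succ]
      · intro n
        rw [if_neg (by omega), if_neg (by omega), show 2 * n + 1 + 2 = 2 * (n + 1) + 1 by omega,
          mix_odd, cons_succ]
    rw [h1]

/-! ### connectives -/

theorem DP.nonempty {P : (ℕ → V) → Prop} (hP : DP W P) : W.Nonempty := by
  obtain ⟨φ, c, hc, hφ⟩ := hP
  exact ⟨c 0, hc 0⟩

theorem DP.not {P : (ℕ → V) → Prop} (hP : DP W P) : DP W (fun v => ¬ P v) :=
  hP.imp (DP.bot hP.nonempty)

theorem DP.and {P Q : (ℕ → V) → Prop} (hP : DP W P) (hQ : DP W Q) :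
    DP W (fun v => P v ∧ Q v) :=
  (hP.imp hQ.not).not.congr fun v _ => by tauto

theorem DP.or {P Q : (ℕ → V) → Prop} (hP : DP W P) (hQ : DP W Q) :
    DP W (fun v => P v ∨ Q v) :=
  (hP.not.imp hQ).congr fun v _ => by tauto

theorem DP.iff {P Q : (ℕ → V) → Prop} (hP : DP W P) (hQ : DP W Q) :
    DP W (fun v => P v ↔ Q v) :=
  ((hP.imp hQ).and (hQ.imp hP)).congr fun v _ => by tauto

theorem DP.ex {Q : V → (ℕ → V) → Prop} (h : DP W (fun v => Q (v 0) (fun n => v (n + 1)))) :
    DP W (fun v => ∃ x ∈ W, Q x v) :=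
  (DP.all (Q := fun x v => ¬ Q x v) h.not).not.congr fun _ _ => by push Not; rfl

/-! ### functions and substitution -/

theorem DF.mem {f : (ℕ → V) → V} (hf : DF W f) {v : ℕ → V} (hv : ∀ n, v n ∈ W) : f v ∈ W :=
  hf.1 v hv

theorem DF.nonempty {f : (ℕ → V) → V} (hf : DF W f) : W.Nonempty := hf.2.nonempty

theorem DF.congr {f g : (ℕ → V) → V} (hf : DF W f)
    (h : ∀ v : ℕ → V, (∀ n, v n ∈ W) → g v = f v) : DF W g :=
  ⟨fun v hv => by rw [h v hv]; exact hf.1 v hv,
    hf.2.congr fun v hv => by rw [h _ fun n => hv _]⟩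

theorem DF.var (hW : W.Nonempty) (i : ℕ) : DF W (fun v => v i) :=
  ⟨fun _ hv => hv i, DP.eqv hW 0 (i + 1)⟩

theorem DF.const {a : V} (ha : a ∈ W) : DF W (fun _ => a) :=
  ⟨fun _ _ => ha, ((DP.eqv ⟨a, ha⟩ 0 1).param ha).congr fun v _ =>
    ⟨fun h => h.symm, fun h => h.symm⟩⟩

/-- renaming of the variables of a function -/
theorem DF.ren {f : (ℕ → V) → V} (hf : DF W f) (g : ℕ → ℕ) : DF W (fun v => f (fun n => v (g n))) :=
  ⟨fun v hv => hf.1 _ fun n => hv _, (hf.2.ren (fun n => if n = 0 then 0 else g (n - 1) + 1)).congr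
    fun v _ => by simp⟩

/-- substitution of functions for all the variables of a predicate -/
theorem DP.comp {P : (ℕ → V) → Prop} (hP : DP W P) {f : ℕ → (ℕ → V) → V}
    (hf : ∀ n, DF W (f n)) : DP W (fun v => P (fun n => f n v)) := by
  have key : ∀ (φ : Fml) (f : ℕ → (ℕ → V) → V), (∀ n, DF W (f n)) →
      DP W (fun v => Sat W φ (fun n => f n v)) := by
    intro φ
    induction φ with
    | bot => intro f hf; exact DP.bot (hf 0).nonempty
    | mem i j =>
      intro f hf
      have hW := (hf 0).nonempty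
      have h1 : DP W (fun v => ∃ x ∈ W, ∃ y ∈ W, x = f i v ∧ y = f j v ∧ x ∈ y) := by
        refine DP.ex (Q := fun x v => ∃ y ∈ W, x = f i v ∧ y = f j v ∧ x ∈ y) ?_
        refine DP.ex (Q := fun y v => v 0 = f i (fun n => v (n + 1)) ∧
          y = f j (fun n => v (n + 1)) ∧ v 0 ∈ y) ?_
        refine DP.and ?_ (DP.and ?_ (DP.memv hW 1 0))
        · exact ((hf i).2.ren (fun n => if n = 0 then 1 else n + 1)).congr fun v _ => by simp
        · exact ((hf j).2.ren (fun n => if n = 0 then 0 else n + 1)).congr fun v _ => by simp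
      refine h1.congr fun v hv => ⟨fun h => ⟨_, (hf i).1 v hv, _, (hf j).1 v hv, rfl, rfl, h⟩, ?_⟩
      rintro ⟨x, _, y, _, rfl, rfl, h⟩
      exact h
    | eq i j =>
      intro f hf
      have hW := (hf 0).nonempty
      have h1 : DP W (fun v => ∃ x ∈ W, x = f i v ∧ x = f j v) := by
        refine DP.ex (Q := fun x v => x = f i v ∧ x = f j v) ?_
        exact DP.and (hf i).2 (hf j).2
      refine h1.congr fun v hv => ⟨fun h => ⟨_, (hf i).1 v hv, rfl, h⟩, ?_⟩
      rintro ⟨x, _, h1, h2⟩
      exact (h1.symm.trans h2 : f i v = f j v)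
    | imp φ ψ h1 h2 => intro f hf; exact DP.imp (h1 f hf) (h2 f hf)
    | all φ h =>
      intro f hf
      have hW := (hf 0).nonempty
      refine DP.all (Q := fun x v => Sat W φ (cons x (fun n => f n v))) ?_
      refine (h (fun n v => match n with | 0 => v 0 | n + 1 => f n (fun n => v (n + 1)))
        ?_).congr fun v _ => ?_
      · intro n
        cases n with
        | zero => exact DF.var hW 0
        | succ n => exact (hf n).ren _
      · have : (fun n => match n with | 0 => v 0 | n + 1 => f n (fun n => v (n + 1))) =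
            cons (v 0) (fun n => f n (fun n => v (n + 1))) := by
          funext n; cases n <;> rfl
        rw [this]
  obtain ⟨φ, c, hc, hφ⟩ := hP
  refine (key φ (fun n v => mix (fun k => f k v) c n) fun n => ?_).congr fun v hv =>
    hφ _ fun n => (hf n).1 v hv
  by_cases h : n % 2 = 0
  · exact (hf (n / 2)).congr fun v _ => by simp [mix, h]
  · exact (DF.const (hc (n / 2))).congr fun v _ => by simp [mix, h]

theorem DF.comp {g : (ℕ → V) → V} (hg : DF W g) {f : ℕ → (ℕ → V) → V}
    (hf : ∀ n, DF W (f n)) : DF W (fun v => g (fun n => f n v)) := by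
  refine ⟨fun v hv => hg.1 _ fun n => (hf n).1 v hv, ?_⟩
  refine (hg.2.comp (f := fun n v => match n with | 0 => v 0 | n + 1 => f n (fun k => v (k + 1)))
    ?_).congr fun _ _ => Iff.rfl
  intro n
  cases n with
  | zero => exact DF.var hg.nonempty 0
  | succ n => exact (hf n).ren _

/-- the family `f, g, g, ...` -/
def fam2 (f g : (ℕ → V) → V) : ℕ → (ℕ → V) → V
  | 0 => f
  | _ + 1 => g

/-- the family `f, g, h, h, ...` -/
def fam3 (f g h : (ℕ → V) → V) : ℕ → (ℕ → V) → V
  | 0 => f
  | 1 => g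
  | _ + 2 => h

/-- the family `f, g, h, k, k, ...` -/
def fam4 (f g h k : (ℕ → V) → V) : ℕ → (ℕ → V) → V
  | 0 => f
  | 1 => g
  | 2 => h
  | _ + 3 => k

/-- definable relations and functions of few arguments -/
def DP1 (W : Set V) (P : V → Prop) : Prop := DP W (fun v => P (v 0))
def DP2 (W : Set V) (P : V → V → Prop) : Prop := DP W (fun v => P (v 0) (v 1))
def DP3 (W : Set V) (P : V → V → V → Prop) : Prop := DP W (fun v => P (v 0) (v 1) (v 2))
def DP4 (W : Set V) (P : V → V → V → V → Prop) : Prop :=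
  DP W (fun v => P (v 0) (v 1) (v 2) (v 3))
def DF1 (W : Set V) (F : V → V) : Prop := DF W (fun v => F (v 0))
def DF2 (W : Set V) (F : V → V → V) : Prop := DF W (fun v => F (v 0) (v 1))
def DF3 (W : Set V) (F : V → V → V → V) : Prop := DF W (fun v => F (v 0) (v 1) (v 2))
def DF4 (W : Set V) (F : V → V → V → V → V) : Prop :=
  DF W (fun v => F (v 0) (v 1) (v 2) (v 3))

theorem DP1.app {P : V → Prop} (hP : DP1 W P) {f : (ℕ → V) → V} (hf : DF W f) :
    DP W (fun v => P (f v)) :=
  DP.comp (P := fun v => P (v 0)) hP (f := fun _ => f) fun _ => hf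

theorem DP2.app {P : V → V → Prop} (hP : DP2 W P) {f g : (ℕ → V) → V} (hf : DF W f)
    (hg : DF W g) : DP W (fun v => P (f v) (g v)) :=
  DP.comp (P := fun v => P (v 0) (v 1)) hP (f := fam2 f g) fun n => by
    rcases n with _ | n <;> assumption

theorem DP3.app {P : V → V → V → Prop} (hP : DP3 W P) {f g h : (ℕ → V) → V} (hf : DF W f)
    (hg : DF W g) (hh : DF W h) : DP W (fun v => P (f v) (g v) (h v)) :=
  DP.comp (P := fun v => P (v 0) (v 1) (v 2)) hP (f := fam3 f g h) fun n => by
    rcases n with _ | _ | n <;> assumption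

theorem DP4.app {P : V → V → V → V → Prop} (hP : DP4 W P) {f g h k : (ℕ → V) → V} (hf : DF W f)
    (hg : DF W g) (hh : DF W h) (hk : DF W k) : DP W (fun v => P (f v) (g v) (h v) (k v)) :=
  DP.comp (P := fun v => P (v 0) (v 1) (v 2) (v 3)) hP (f := fam4 f g h k) fun n => by
    rcases n with _ | _ | _ | n <;> assumption

theorem DF1.app {F : V → V} (hF : DF1 W F) {f : (ℕ → V) → V} (hf : DF W f) :
    DF W (fun v => F (f v)) :=
  DF.comp (g := fun v => F (v 0)) hF (f := fun _ => f) fun _ => hf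

theorem DF2.app {F : V → V → V} (hF : DF2 W F) {f g : (ℕ → V) → V} (hf : DF W f)
    (hg : DF W g) : DF W (fun v => F (f v) (g v)) :=
  DF.comp (g := fun v => F (v 0) (v 1)) hF (f := fam2 f g) fun n => by
    rcases n with _ | n <;> assumption

theorem DF3.app {F : V → V → V → V} (hF : DF3 W F) {f g h : (ℕ → V) → V} (hf : DF W f)
    (hg : DF W g) (hh : DF W h) : DF W (fun v => F (f v) (g v) (h v)) :=
  DF.comp (g := fun v => F (v 0) (v 1) (v 2)) hF (f := fam3 f g h) fun n => by
    rcases n with _ | _ | n <;> assumption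

theorem DF4.app {F : V → V → V → V → V} (hF : DF4 W F) {f g h k : (ℕ → V) → V} (hf : DF W f)
    (hg : DF W g) (hh : DF W h) (hk : DF W k) : DF W (fun v => F (f v) (g v) (h v) (k v)) :=
  DF.comp (g := fun v => F (v 0) (v 1) (v 2) (v 3)) hF (f := fam4 f g h k) fun n => by
    rcases n with _ | _ | _ | n <;> assumption

theorem DP.mem {f g : (ℕ → V) → V} (hf : DF W f) (hg : DF W g) : DP W (fun v => f v ∈ g v) :=
  DP2.app (P := fun x y => x ∈ y) (DP.memv hf.nonempty 0 1) hf hg

theorem DP.eq {f g : (ℕ → V) → V} (hf : DF W f) (hg : DF W g) : DP W (fun v => f v = g v) :=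
  DP2.app (P := fun x y => x = y) (DP.eqv hf.nonempty 0 1) hf hg

/-- a function given by its definition -/
theorem DF.mk' {f : (ℕ → V) → V} (h1 : ∀ v : ℕ → V, (∀ n, v n ∈ W) → f v ∈ W)
    {P : V → (ℕ → V) → Prop} (h2 : DP W (fun v => P (v 0) (fun n => v (n + 1))))
    (h3 : ∀ v : ℕ → V, (∀ n, v n ∈ W) → ∀ y ∈ W, (P y v ↔ y = f v)) : DF W f :=
  ⟨h1, h2.congr fun v hv => (h3 (fun n => v (n + 1)) (fun n => hv _) (v 0) (hv 0)).symm⟩

/-- definition by cases -/
theorem DF.ite {P : (ℕ → V) → Prop} [∀ v, Decidable (P v)] (hP : DP W P) {f g : (ℕ → V) → V}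
    (hf : DF W f) (hg : DF W g) : DF W (fun v => if P v then f v else g v) := by
  refine DF.mk' (fun v hv => ?_) (P := fun y v => (P v → y = f v) ∧ (¬ P v → y = g v)) ?_ ?_
  · split_ifs
    · exact hf.1 v hv
    · exact hg.1 v hv
  · exact ((hP.ren fun n => n + 1).imp hf.2).and ((hP.ren fun n => n + 1).not.imp hg.2)
  · intro v hv y _
    by_cases h : P v <;> simp [h]

end Pool.Agent.CM
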