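import Mathlib
import Pool.Agent.Lib.MP_f8e9b8_lc.Calc

/-!
# MP_f8e9b8_lc : definable operations on sets
-/

set_option autoImplicit false

namespace Pool.Agent.CM

open Pool.Agent.CR (V Fml cons Sat nat cons_zero cons_succ)

/-- union of the elements -/
noncomputable abbrev sU (x : V) : V := ZFSet.sUnion x

theorem mem_sU {x y : V} : y ∈ sU x ↔ ∃ z ∈ x, y ∈ z := ZFSet.mem_sUnion

/-- image of a set under a function -/
noncomputable def img (g : V → V) (a : V) : V := ZFSet.range (fun z : {z : V // z ∈ a} => g z.1)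

theorem mem_img {g : V → V} {a y : V} : y ∈ img g a ↔ ∃ z ∈ a, g z = y := by
  unfold img
  rw [ZFSet.mem_range]
  constructor
  · rintro ⟨⟨z, hz⟩, rfl⟩
    exact ⟨z, hz, rfl⟩
  · rintro ⟨z, hz, rfl⟩
    exact ⟨⟨z, hz⟩, rfl⟩

/-- graph of the restriction of `F` to the set `a` -/
noncomputable def gr (F : V → V) (a : V) : V := img (fun z => ZFSet.pair z (F z)) a

theorem mem_gr {F : V → V} {a p : V} : p ∈ gr F a ↔ ∃ z ∈ a, ZFSet.pair z (F z) = p := mem_img

theorem pair_mem_gr {F : V → V} {a x y : V} : ZFSet.pair x y ∈ gr F a ↔ x ∈ a ∧ F x = y := by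
  rw [mem_gr]
  constructor
  · rintro ⟨z, hz, h⟩
    obtain ⟨rfl, rfl⟩ := ZFSet.pair_inj.1 h
    exact ⟨hz, rfl⟩
  · rintro ⟨hz, rfl⟩
    exact ⟨x, hz, rfl⟩

/-- value of the set of pairs `f` at `x` (the empty set if there is none) -/
noncomputable def ap (f x : V) : V :=
  sU (ZFSet.sep (fun y => ZFSet.pair x y ∈ f) (sU (sU f)))

theorem mem_sU_of_pair_mem {x y f : V} (h : ZFSet.pair x y ∈ f) :
    x ∈ sU (sU f) ∧ y ∈ sU (sU f) := by
  have h1 : ({x, y} : V) ∈ sU f := mem_sU.2 ⟨_, h, by simp [ZFSet.pair]⟩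
  exact ⟨mem_sU.2 ⟨_, h1, by simp⟩, mem_sU.2 ⟨_, h1, by simp⟩⟩

theorem ap_eq {f x y : V} (h : ZFSet.pair x y ∈ f) (hu : ∀ y', ZFSet.pair x y' ∈ f → y' = y) :
    ap f x = y := by
  have : ZFSet.sep (fun y => ZFSet.pair x y ∈ f) (sU (sU f)) = {y} := by
    ext z
    rw [ZFSet.mem_sep, ZFSet.mem_singleton]
    constructor
    · rintro ⟨_, h⟩
      exact hu z h
    · rintro rfl
      exact ⟨(mem_sU_of_pair_mem h).2, h⟩
  rw [ap, this]
  exact ZFSet.sUnion_singleton

theorem ap_gr {F : V → V} {a x : V} (h : x ∈ a) : ap (gr F a) x = F x :=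
  ap_eq (pair_mem_gr.2 ⟨h, rfl⟩) fun _ h' => (pair_mem_gr.1 h').2.symm

/-- first component of a pair -/
noncomputable def fst (p : V) : V :=
  sU (ZFSet.sep (fun a => ∃ b ∈ sU p, p = ZFSet.pair a b) (sU p))

/-- second component of a pair -/
noncomputable def snd (p : V) : V :=
  sU (ZFSet.sep (fun b => ∃ a ∈ sU p, p = ZFSet.pair a b) (sU p))

theorem mem_sU_pair (x y : V) : x ∈ sU (ZFSet.pair x y) ∧ y ∈ sU (ZFSet.pair x y) :=
  ⟨mem_sU.2 ⟨{x, y}, by simp [ZFSet.pair], by simp⟩,
    mem_sU.2 ⟨{x, y}, by simp [ZFSet.pair], by simp⟩⟩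

@[simp] theorem fst_pair (x y : V) : fst (ZFSet.pair x y) = x := by
  have : ZFSet.sep (fun a => ∃ b ∈ sU (ZFSet.pair x y), ZFSet.pair x y = ZFSet.pair a b)
      (sU (ZFSet.pair x y)) = {x} := by
    ext z
    rw [ZFSet.mem_sep, ZFSet.mem_singleton]
    constructor
    · rintro ⟨_, b, _, h⟩
      exact (ZFSet.pair_inj.1 h).1.symm
    · rintro rfl
      exact ⟨(mem_sU_pair _ _).1, y, (mem_sU_pair _ _).2, rfl⟩
  rw [fst, this]
  exact ZFSet.sUnion_singleton

@[simp] theorem snd_pair (x y : V) : snd (ZFSet.pair x y) = y := by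
  have : ZFSet.sep (fun b => ∃ a ∈ sU (ZFSet.pair x y), ZFSet.pair x y = ZFSet.pair a b)
      (sU (ZFSet.pair x y)) = {y} := by
    ext z
    rw [ZFSet.mem_sep, ZFSet.mem_singleton]
    constructor
    · rintro ⟨_, b, _, h⟩
      exact (ZFSet.pair_inj.1 h).2.symm
    · rintro rfl
      exact ⟨(mem_sU_pair _ _).2, x, (mem_sU_pair _ _).1, rfl⟩
  rw [snd, this]
  exact ZFSet.sUnion_singleton

/-- the subsets of `x` which belong to `W` -/
noncomputable def pwr (W : Set V) (x : V) : V := ZFSet.sep (fun y => y ∈ W) (ZFSet.powerset x)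

theorem mem_pwr {W : Set V} {x y : V} : y ∈ pwr W x ↔ y ∈ W ∧ y ⊆ x := by
  rw [pwr, ZFSet.mem_sep, ZFSet.mem_powerset, and_comm]

/-- the set of natural numbers -/
noncomputable def om : V := ZFSet.range nat

theorem mem_om {x : V} : x ∈ om ↔ ∃ n, nat n = x := ZFSet.mem_range

variable {W : Set V}

/-! ### bounded quantifiers, subsets -/

theorem DP.ball (hW : IsTransModelZF W) {Q : V → (ℕ → V) → Prop} {f : (ℕ → V) → V}
    (hf : DF W f) (h : DP W (fun v => Q (v 0) (fun n => v (n + 1)))) :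
    DP W (fun v => ∀ x ∈ f v, Q x v) := by
  refine DP.congr (P := fun v => ∀ x ∈ W, x ∈ f v → Q x v)
    (DP.all (Q := fun x v => x ∈ f v → Q x v)
      ((DP.mem (DF.var hf.nonempty 0) (hf.ren fun n => n + 1)).imp h)) fun v hv => ?_
  exact ⟨fun h x _ hx => h x hx, fun h x hx => h x (hW.transitive _ (hf.1 v hv) _ hx) hx⟩

theorem DP.bex (hW : IsTransModelZF W) {Q : V → (ℕ → V) → Prop} {f : (ℕ → V) → V}
    (hf : DF W f) (h : DP W (fun v => Q (v 0) (fun n => v (n + 1)))) :
    DP W (fun v => ∃ x ∈ f v, Q x v) := by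
  refine DP.congr (P := fun v => ∃ x ∈ W, x ∈ f v ∧ Q x v)
    (DP.ex (Q := fun x v => x ∈ f v ∧ Q x v)
      ((DP.mem (DF.var hf.nonempty 0) (hf.ren fun n => n + 1)).and h)) fun v hv => ?_
  exact ⟨fun ⟨x, hx, h⟩ => ⟨x, hW.transitive _ (hf.1 v hv) _ hx, hx, h⟩,
    fun ⟨x, _, hx, h⟩ => ⟨x, hx, h⟩⟩

theorem DP.sub (hW : IsTransModelZF W) {f g : (ℕ → V) → V} (hf : DF W f) (hg : DF W g) :
    DP W (fun v => f v ⊆ g v) := by
  refine DP.congr (P := fun v => ∀ x ∈ f v, x ∈ g v)
    (DP.ball hW hf (Q := fun x v => x ∈ g v) (DP.mem (DF.var hf.nonempty 0) (hg.ren fun n => n + 1)))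
    fun v hv => Iff.rfl

/-- predicates on the elements of `W` are determined by the elements of `W` -/
theorem ext_mem (hW : IsTransModelZF W) {x y : V} (hx : x ∈ W) (hy : y ∈ W)
    (h : ∀ z ∈ W, z ∈ x ↔ z ∈ y) : x = y := by
  ext z
  exact ⟨fun hz => (h z (hW.transitive x hx z hz)).1 hz,
    fun hz => (h z (hW.transitive y hy z hz)).2 hz⟩

/-! ### separation and replacement -/

theorem sep_mem (hW : IsTransModelZF W) {P : V → (ℕ → V) → Prop}
    (hP : DP W (fun v => P (v 0) (fun n => v (n + 1)))) {v : ℕ → V} (hv : ∀ n, v n ∈ W) {a : V}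
    (ha : a ∈ W) : ZFSet.sep (fun z => P z v) a ∈ W := by
  obtain ⟨φ, c, hc, hφ⟩ := hP
  have hm : ∀ n, mix v c n ∈ W := fun n => by
    unfold mix
    split_ifs
    · exact hv _
    · exact hc _
  obtain ⟨b, hb, h⟩ := hW.separation
    (CM.ren (fun n => if n = 0 then 0 else if n % 2 = 0 then n - 1 else n + 1) φ) (mix v c) hm a ha
  convert hb using 1
  refine ZFSet.ext fun z => ?_
  rw [ZFSet.mem_sep]
  have key : ∀ z ∈ W, (P z v ↔ Sat W (CM.ren (fun n => if n = 0 then 0 else
      if n % 2 = 0 then n - 1 else n + 1) φ) (cons z (mix v c))) := by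
    intro z hz
    have hv' : ∀ n, cons z v n ∈ W := by
      intro n
      cases n
      · exact hz
      · exact hv _
    have := hφ (cons z v) hv'
    simp only [cons_zero, cons_succ] at this
    rw [this, sat_ren]
    have h1 : (fun n => cons z (mix v c) (if n = 0 then 0 else if n % 2 = 0 then n - 1
        else n + 1)) = mix (cons z v) c := by
      apply mix_ext
      · intro n
        cases n with
        | zero => rfl
        | succ n =>
          rw [if_neg (by omega), if_pos (by omega), show 2 * (n + 1) - 1 = 2 * n + 1 by omega,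
            cons_succ, mix_even, cons_succ]
      · intro n
        rw [if_neg (by omega), if_neg (by omega), cons_succ, mix_odd]
    rw [h1]
  constructor
  · rintro ⟨hz, hp⟩
    have hzW := hW.transitive a ha z hz
    exact (h z hzW).2 ⟨hz, (key z hzW).1 hp⟩
  · intro hz
    have hzW := hW.transitive b hb z hz
    obtain ⟨h1, h2⟩ := (h z hzW).1 hz
    exact ⟨h1, (key z hzW).2 h2⟩

theorem DF.sep (hW : IsTransModelZF W) {P : V → (ℕ → V) → Prop} {f : (ℕ → V) → V}
    (hf : DF W f) (hP : DP W (fun v => P (v 0) (fun n => v (n + 1)))) :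
    DF W (fun v => ZFSet.sep (fun z => P z v) (f v)) := by
  refine DF.mk' (fun v hv => sep_mem hW hP hv (hf.1 v hv))
    (P := fun y v => ∀ z ∈ W, z ∈ y ↔ z ∈ f v ∧ P z v) ?_ ?_
  · refine DP.all (Q := fun z v => z ∈ v 0 ↔ z ∈ f (fun n => v (n + 1)) ∧ P z (fun n => v (n + 1)))
      ?_
    refine (DP.memv hf.nonempty 0 1).iff (DP.and ?_ ?_)
    · exact DP.mem (DF.var hf.nonempty 0) (hf.ren fun n => n + 2)
    · exact (hP.ren fun n => if n = 0 then 0 else n + 1).congr fun v hv => by simp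
  · intro v hv y hy
    constructor
    · intro h
      refine ext_mem hW hy (sep_mem hW hP hv (hf.1 v hv)) fun z hz => ?_
      rw [h z hz, ZFSet.mem_sep]
    · rintro rfl z hz
      rw [ZFSet.mem_sep]

theorem img_mem (hW : IsTransModelZF W) {g : V → (ℕ → V) → V}
    (hg : DF W (fun v => g (v 0) (fun n => v (n + 1)))) {v : ℕ → V} (hv : ∀ n, v n ∈ W) {a : V}
    (ha : a ∈ W) : img (fun z => g z v) a ∈ W := by
  obtain ⟨hg1, φ, c, hc, hφ⟩ := hg
  have hm : ∀ n, mix v c n ∈ W := fun n => by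
    unfold mix
    split_ifs
    · exact hv _
    · exact hc _
  have hgW : ∀ x ∈ W, g x v ∈ W := fun x hx => by
    have := hg1 (cons x v) (fun n => by cases n; exacts [hx, hv _])
    simpa only [cons_zero, cons_succ] using this
  let ρ : ℕ → ℕ := fun n => if n = 0 then 0 else if n = 2 then 1 else
    if n % 2 = 0 then n - 2 else n + 2
  have key : ∀ x ∈ W, ∀ y ∈ W, (Sat W (CM.ren ρ φ) (cons y (cons x (mix v c))) ↔ y = g x v) := by
    intro x hx y hy
    have hv' : ∀ n, cons y (cons x v) n ∈ W := by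
      intro n
      rcases n with _ | _ | n
      · exact hy
      · exact hx
      · exact hv _
    have := hφ (cons y (cons x v)) hv'
    simp only [cons_zero, cons_succ] at this
    rw [this, sat_ren]
    have h1 : (fun n => cons y (cons x (mix v c)) (ρ n)) = mix (cons y (cons x v)) c := by
      apply mix_ext
      · intro n
        rcases n with _ | _ | n
        · rfl
        · rfl
        · have : ρ (2 * (n + 2)) = 2 * n + 2 := by
            simp only [ρ]
            rw [if_neg (by omega), if_neg (by omega), if_pos (by omega)]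
            omega
          rw [this]
          show mix v c (2 * n) = v n
          exact mix_even v c n
      · intro n
        have : ρ (2 * n + 1) = 2 * n + 1 + 2 := by
          simp only [ρ]
          rw [if_neg (by omega), if_neg (by omega), if_neg (by omega)]
        rw [this]
        exact mix_odd v c n
    rw [h1]
  obtain ⟨b, hb, h⟩ := hW.replacement (CM.ren ρ φ) (mix v c) hm a ha fun x hx _ =>
    ⟨g x v, ⟨hgW x hx, (key x hx _ (hgW x hx)).2 rfl⟩, fun y hy => (key x hx y hy.1).1 hy.2⟩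
  convert hb using 1
  refine ZFSet.ext fun y => ?_
  rw [mem_img]
  constructor
  · rintro ⟨x, hx, rfl⟩
    have hxW := hW.transitive a ha x hx
    exact (h _ (hgW x hxW)).2 ⟨x, hxW, hx, (key x hxW _ (hgW x hxW)).2 rfl⟩
  · intro hy
    have hyW := hW.transitive b hb y hy
    obtain ⟨x, hxW, hx, h1⟩ := (h y hyW).1 hy
    exact ⟨x, hx, ((key x hxW y hyW).1 h1).symm⟩

theorem DF.img (hW : IsTransModelZF W) {g : V → (ℕ → V) → V} {f : (ℕ → V) → V}
    (hf : DF W f) (hg : DF W (fun v => g (v 0) (fun n => v (n + 1)))) :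
    DF W (fun v => CM.img (fun z => g z v) (f v)) := by
  refine DF.mk' (fun v hv => img_mem hW hg hv (hf.1 v hv))
    (P := fun y v => ∀ z ∈ W, z ∈ y ↔ ∃ x ∈ f v, g x v = z) ?_ ?_
  · refine DP.all (Q := fun z v => z ∈ v 0 ↔ ∃ x ∈ f (fun n => v (n + 1)),
      g x (fun n => v (n + 1)) = z) ?_
    refine (DP.memv hf.nonempty 0 1).iff ?_
    refine DP.bex hW (hf.ren fun n => n + 2) (Q := fun x v => g x (fun n => v (n + 2)) = v 0) ?_
    exact DP.eq ((hg.ren fun n => if n = 0 then 0 else n + 2).congr fun v hv => by simp)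
      (DF.var hf.nonempty 1)
  · intro v hv y hy
    constructor
    · intro h
      refine ext_mem hW hy (img_mem hW hg hv (hf.1 v hv)) fun z hz => ?_
      rw [h z hz, mem_img]
    · rintro rfl z hz
      rw [mem_img]

end Pool.Agent.CM
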