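import Mathlib
import Pool.Agent.Lib.MP_f8e9b8_lc.Ops

/-!
# MP_f8e9b8_lc : the basic operations are definable over transitive models
-/

set_option autoImplicit false

namespace Pool.Agent.CM

open Pool.Agent.CR (V Fml cons Sat nat cons_zero cons_succ)

variable {W : Set V}

theorem IsTransModelZF.nonempty (hW : IsTransModelZF W) : W.Nonempty := by
  obtain ⟨x, hx, _⟩ := hW.infinity
  exact ⟨x, hx⟩

theorem empty_mem (hW : IsTransModelZF W) : (∅ : V) ∈ W := by
  obtain ⟨x, hx, ⟨e, he, h1, _⟩, _⟩ := hW.infinity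
  have : e = ∅ := by
    rw [ZFSet.eq_empty]
    exact fun y hy => h1 y (hW.transitive e he y hy) hy
  rwa [← this]

theorem DF.v (hW : IsTransModelZF W) (i : ℕ) : DF W (fun v => v i) := DF.var hW.nonempty i

theorem DF.empty (hW : IsTransModelZF W) : DF W (fun _ => (∅ : V)) := DF.const (empty_mem hW)

theorem dbl_mem (hW : IsTransModelZF W) {x y : V} (hx : x ∈ W) (hy : y ∈ W) :
    ({x, y} : V) ∈ W := by
  obtain ⟨z, hz, h⟩ := hW.pairing x hx y hy
  convert hz using 1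
  refine ZFSet.ext fun w => ?_
  rw [ZFSet.mem_pair]
  constructor
  · rintro (rfl | rfl)
    · exact (h _ hx).2 (Or.inl rfl)
    · exact (h _ hy).2 (Or.inr rfl)
  · intro hw
    exact (h w (hW.transitive z hz w hw)).1 hw

theorem sU_mem (hW : IsTransModelZF W) {x : V} (hx : x ∈ W) : sU x ∈ W := by
  obtain ⟨z, hz, h⟩ := hW.union x hx
  convert hz using 1
  refine ZFSet.ext fun w => ?_
  rw [mem_sU]
  constructor
  · rintro ⟨y, hy, hw⟩
    have hyW := hW.transitive x hx y hy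
    exact (h w (hW.transitive y hyW w hw)).2 ⟨y, hyW, hy, hw⟩
  · intro hw
    obtain ⟨y, _, hy, h'⟩ := (h w (hW.transitive z hz w hw)).1 hw
    exact ⟨y, hy, h'⟩

theorem pwr_mem (hW : IsTransModelZF W) {x : V} (hx : x ∈ W) : pwr W x ∈ W := by
  obtain ⟨z, hz, h⟩ := hW.powerset x hx
  convert hz using 1
  refine ZFSet.ext fun w => ?_
  rw [mem_pwr]
  constructor
  · rintro ⟨hw, hs⟩
    exact (h w hw).2 fun u _ hu => hs hu
  · intro hw
    have hwW := hW.transitive z hz w hw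
    exact ⟨hwW, fun u hu => (h w hwW).1 hw u (hW.transitive w hwW u hu) hu⟩

/-! ### functions -/

theorem DF.dbl (hW : IsTransModelZF W) {f g : (ℕ → V) → V} (hf : DF W f) (hg : DF W g) :
    DF W (fun v => ({f v, g v} : V)) := by
  refine DF2.app (F := fun x y => ({x, y} : V)) (DF.mk' (fun v hv => dbl_mem hW (hv 0) (hv 1))
    (P := fun y v => ∀ z ∈ W, z ∈ y ↔ z = v 0 ∨ z = v 1) ?_ ?_) hf hg
  · exact DP.all (Q := fun z v => z ∈ v 0 ↔ z = v 1 ∨ z = v 2)
      ((DP.memv hf.nonempty 0 1).iff ((DP.eqv hf.nonempty 0 2).or (DP.eqv hf.nonempty 0 3)))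
  · intro v hv y hy
    constructor
    · intro h
      refine ext_mem hW hy (dbl_mem hW (hv 0) (hv 1)) fun z hz => ?_
      rw [h z hz, ZFSet.mem_pair]
    · rintro rfl z hz
      rw [ZFSet.mem_pair]

theorem DF.sgl (hW : IsTransModelZF W) {f : (ℕ → V) → V} (hf : DF W f) :
    DF W (fun v => ({f v} : V)) :=
  (DF.dbl hW hf hf).congr fun v _ => by
    refine ZFSet.ext fun z => ?_
    rw [ZFSet.mem_pair, ZFSet.mem_singleton, or_self]

theorem DF.sU (hW : IsTransModelZF W) {f : (ℕ → V) → V} (hf : DF W f) :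
    DF W (fun v => CM.sU (f v)) := by
  refine DF1.app (F := CM.sU) (DF.mk' (fun v hv => sU_mem hW (hv 0))
    (P := fun y v => ∀ z ∈ W, z ∈ y ↔ ∃ u ∈ v 0, z ∈ u) ?_ ?_) hf
  · exact DP.all (Q := fun z v => z ∈ v 0 ↔ ∃ u ∈ v 1, z ∈ u)
      ((DP.memv hf.nonempty 0 1).iff (DP.bex hW (DF.v hW 2) (Q := fun u v => v 0 ∈ u)
        (DP.memv hf.nonempty 1 0)))
  · intro v hv y hy
    constructor
    · intro h
      refine ext_mem hW hy (sU_mem hW (hv 0)) fun z hz => ?_
      rw [h z hz, mem_sU]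
    · rintro rfl z hz
      rw [mem_sU]

theorem DF.pwr (hW : IsTransModelZF W) {f : (ℕ → V) → V} (hf : DF W f) :
    DF W (fun v => CM.pwr W (f v)) := by
  refine DF1.app (F := CM.pwr W) (DF.mk' (fun v hv => pwr_mem hW (hv 0))
    (P := fun y v => ∀ z ∈ W, z ∈ y ↔ z ⊆ v 0) ?_ ?_) hf
  · exact DP.all (Q := fun z v => z ∈ v 0 ↔ z ⊆ v 1)
      ((DP.memv hf.nonempty 0 1).iff (DP.sub hW (DF.v hW 0) (DF.v hW 2)))
  · intro v hv y hy
    constructor
    · intro h
      refine ext_mem hW hy (pwr_mem hW (hv 0)) fun z hz => ?_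
      rw [h z hz, mem_pwr]
      simp [hz]
    · rintro rfl z hz
      rw [mem_pwr]
      simp [hz]

theorem DF.un (hW : IsTransModelZF W) {f g : (ℕ → V) → V} (hf : DF W f) (hg : DF W g) :
    DF W (fun v => f v ∪ g v) :=
  (DF.sU hW (DF.dbl hW hf hg)).congr fun v _ => by
    refine ZFSet.ext fun z => ?_
    rw [ZFSet.mem_union, mem_sU]
    simp

theorem DF.ins (hW : IsTransModelZF W) {f g : (ℕ → V) → V} (hf : DF W f) (hg : DF W g) :
    DF W (fun v => (insert (f v) (g v) : V)) :=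
  (DF.un hW (DF.sgl hW hf) hg).congr fun v _ => by
    refine ZFSet.ext fun z => ?_
    rw [ZFSet.mem_union, ZFSet.mem_insert_iff, ZFSet.mem_singleton]

theorem DF.pair (hW : IsTransModelZF W) {f g : (ℕ → V) → V} (hf : DF W f) (hg : DF W g) :
    DF W (fun v => ZFSet.pair (f v) (g v)) :=
  DF.dbl hW (DF.sgl hW hf) (DF.dbl hW hf hg)

theorem DF.inter (hW : IsTransModelZF W) {f g : (ℕ → V) → V} (hf : DF W f) (hg : DF W g) :
    DF W (fun v => f v ∩ g v) :=
  (DF.sep hW hf (P := fun z v => z ∈ g v) (DP.mem (DF.v hW 0) (hg.ren fun n => n + 1))).congr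
    fun v _ => by
      refine ZFSet.ext fun z => ?_
      rw [ZFSet.mem_sep, ZFSet.mem_inter]

theorem DF.diff (hW : IsTransModelZF W) {f g : (ℕ → V) → V} (hf : DF W f) (hg : DF W g) :
    DF W (fun v => f v \ g v) :=
  (DF.sep hW hf (P := fun z v => z ∉ g v) (DP.mem (DF.v hW 0) (hg.ren fun n => n + 1)).not).congr
    fun v _ => by
      refine ZFSet.ext fun z => ?_
      rw [ZFSet.mem_sep, ZFSet.mem_sdiff]

/-- union of a family of sets -/
theorem DF.bU (hW : IsTransModelZF W) {g : V → (ℕ → V) → V} {f : (ℕ → V) → V}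
    (hf : DF W f) (hg : DF W (fun v => g (v 0) (fun n => v (n + 1)))) :
    DF W (fun v => CM.sU (CM.img (fun z => g z v) (f v))) :=
  DF.sU hW (DF.img hW hf hg)

theorem DF.prod (hW : IsTransModelZF W) {f g : (ℕ → V) → V} (hf : DF W f) (hg : DF W g) :
    DF W (fun v => ZFSet.prod (f v) (g v)) := by
  have h : DF W (fun v => CM.sU (CM.img (fun z => CM.img (fun w => ZFSet.pair z w) (g v)) (f v))) :=
    DF.bU hW hf (g := fun z v => CM.img (fun w => ZFSet.pair z w) (g v))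
      (DF.img hW (hg.ren fun n => n + 1) (g := fun w v => ZFSet.pair (v 0) w)
        (DF.pair hW (DF.v hW 1) (DF.v hW 0)))
  refine h.congr fun v _ => ZFSet.ext fun p => ?_
  rw [ZFSet.mem_prod, mem_sU]
  constructor
  · rintro ⟨a, ha, b, hb, rfl⟩
    exact ⟨_, mem_img.2 ⟨a, ha, rfl⟩, mem_img.2 ⟨b, hb, rfl⟩⟩
  · rintro ⟨z, hz, hp⟩
    obtain ⟨a, ha, rfl⟩ := mem_img.1 hz
    obtain ⟨b, hb, rfl⟩ := mem_img.1 hp
    exact ⟨a, ha, b, hb, rfl⟩

theorem DF.gr (hW : IsTransModelZF W) {F : V → (ℕ → V) → V} {f : (ℕ → V) → V}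
    (hf : DF W f) (hF : DF W (fun v => F (v 0) (fun n => v (n + 1)))) :
    DF W (fun v => CM.gr (fun z => F z v) (f v)) :=
  DF.img hW hf (g := fun z v => ZFSet.pair z (F z v)) (DF.pair hW (DF.v hW 0) hF)

theorem DF.ap (hW : IsTransModelZF W) {f g : (ℕ → V) → V} (hf : DF W f) (hg : DF W g) :
    DF W (fun v => CM.ap (f v) (g v)) :=
  DF.sU hW (DF.sep hW (DF.sU hW (DF.sU hW hf)) (P := fun y v => ZFSet.pair (g v) y ∈ f v)
    (DP.mem (DF.pair hW (hg.ren fun n => n + 1) (DF.v hW 0)) (hf.ren fun n => n + 1)))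

theorem DF.fst (hW : IsTransModelZF W) {f : (ℕ → V) → V} (hf : DF W f) :
    DF W (fun v => CM.fst (f v)) :=
  DF.sU hW (DF.sep hW (DF.sU hW hf) (P := fun a v => ∃ b ∈ CM.sU (f v), f v = ZFSet.pair a b)
    (DP.bex hW (DF.sU hW (hf.ren fun n => n + 1))
      (Q := fun b v => f (fun n => v (n + 1)) = ZFSet.pair (v 0) b)
      (DP.eq (hf.ren fun n => n + 2) (DF.pair hW (DF.v hW 1) (DF.v hW 0)))))

theorem DF.snd (hW : IsTransModelZF W) {f : (ℕ → V) → V} (hf : DF W f) :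
    DF W (fun v => CM.snd (f v)) :=
  DF.sU hW (DF.sep hW (DF.sU hW hf) (P := fun b v => ∃ a ∈ CM.sU (f v), f v = ZFSet.pair a b)
    (DP.bex hW (DF.sU hW (hf.ren fun n => n + 1))
      (Q := fun a v => f (fun n => v (n + 1)) = ZFSet.pair a (v 0))
      (DP.eq (hf.ren fun n => n + 2) (DF.pair hW (DF.v hW 0) (DF.v hW 1)))))

/-! ### ordinals and natural numbers -/

theorem DP.trans (hW : IsTransModelZF W) {f : (ℕ → V) → V} (hf : DF W f) :
    DP W (fun v => (f v).IsTransitive) := by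
  refine DP1.app (P := fun x : V => x.IsTransitive) ?_ hf
  exact DP.congr (P := fun v => ∀ y ∈ v 0, y ⊆ v 0)
    (DP.ball hW (DF.v hW 0) (Q := fun y v => y ⊆ v 0) (DP.sub hW (DF.v hW 0) (DF.v hW 1)))
    fun v _ => Iff.rfl

theorem DP.ord (hW : IsTransModelZF W) {f : (ℕ → V) → V} (hf : DF W f) :
    DP W (fun v => (f v).IsOrdinal) := by
  refine DP1.app (P := fun x : V => x.IsOrdinal) ?_ hf
  refine DP.congr (P := fun v => (v 0).IsTransitive ∧ ∀ y ∈ v 0, y.IsTransitive)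
    ((DP.trans hW (DF.v hW 0)).and (DP.ball hW (DF.v hW 0) (Q := fun y _ => y.IsTransitive)
      (DP.trans hW (DF.v hW 0)))) fun v _ => ?_
  exact ZFSet.isOrdinal_iff_forall_mem_isTransitive

end Pool.Agent.CM
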