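import Mathlib
import Pool.Agent.Lib.MP_f8e9b8_lc.Ops2

/-!
# MP_f8e9b8_lc : transitive closure and the recursion theorem
-/

set_option autoImplicit false

namespace Pool.Agent.CM

open Pool.Agent.CR (V Fml cons Sat nat cons_zero cons_succ)

variable {W : Set V}

/-! ### natural numbers -/

theorem nat_mem (hW : IsTransModelZF W) : ∀ n, nat n ∈ W
  | 0 => empty_mem hW
  | n + 1 => by
    have h := nat_mem hW n
    have := (DF.ins hW (DF.v hW 0) (DF.v hW 0)).1 (fun _ => nat n) fun _ => h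
    exact this

theorem nat_ord : ∀ n, (nat n).IsOrdinal
  | 0 => ZFSet.isOrdinal_empty
  | n + 1 => ZFSet.isOrdinal_succ (nat_ord n)

theorem mem_nat_succ {n : ℕ} {x : V} : x ∈ nat (n + 1) ↔ x = nat n ∨ x ∈ nat n :=
  ZFSet.mem_insert_iff

theorem mem_nat {n : ℕ} {x : V} : x ∈ nat n ↔ ∃ m < n, x = nat m := by
  induction n with
  | zero => exact ⟨fun h => absurd h (ZFSet.notMem_empty _), fun ⟨m, hm, _⟩ => absurd hm (by omega)⟩
  | succ n ih =>
    rw [mem_nat_succ, ih]
    constructor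
    · rintro (rfl | ⟨m, hm, rfl⟩)
      · exact ⟨n, by omega, rfl⟩
      · exact ⟨m, by omega, rfl⟩
    · rintro ⟨m, hm, rfl⟩
      rcases Nat.lt_succ_iff_lt_or_eq.1 hm with h | rfl
      · exact Or.inr ⟨m, h, rfl⟩
      · exact Or.inl rfl

theorem nat_injective : Function.Injective nat := by
  intro m n h
  by_contra hne
  rcases Nat.lt_or_gt_of_ne hne with h1 | h1
  · have : nat m ∈ nat n := mem_nat.2 ⟨m, h1, rfl⟩
    rw [h] at this
    exact ZFSet.mem_irrefl _ this
  · have : nat n ∈ nat m := mem_nat.2 ⟨n, h1, rfl⟩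
    rw [h] at this
    exact ZFSet.mem_irrefl _ this

theorem sU_nat_succ (n : ℕ) : sU (nat (n + 1)) = nat n := by
  refine ZFSet.ext fun x => ?_
  rw [mem_sU]
  constructor
  · rintro ⟨y, hy, hx⟩
    rcases mem_nat_succ.1 hy with rfl | hy
    · exact hx
    · exact (nat_ord n).mem_trans hx hy
  · intro hx
    exact ⟨nat n, mem_nat_succ.2 (Or.inl rfl), hx⟩

/-- internal description of the natural numbers -/
theorem mem_om_iff {z : V} : z ∈ om ↔ z.IsOrdinal ∧
    ∀ y ∈ (insert z z : V), y = ∅ ∨ ∃ u ∈ y, y = insert u u := by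
  constructor
  · intro hz
    obtain ⟨n, rfl⟩ := mem_om.1 hz
    refine ⟨nat_ord n, fun y hy => ?_⟩
    obtain ⟨m, -, rfl⟩ := mem_nat.1 (show y ∈ nat (n + 1) from hy)
    cases m with
    | zero => exact Or.inl rfl
    | succ m => exact Or.inr ⟨nat m, mem_nat_succ.2 (Or.inl rfl), rfl⟩
  · induction z using ZFSet.inductionOn with
    | _ z ih =>
      rintro ⟨h1, h2⟩
      rcases h2 z (ZFSet.mem_insert_iff.2 (Or.inl rfl)) with rfl | ⟨u, hu, h3⟩
      · exact mem_om.2 ⟨0, rfl⟩
      · have h4 : u ∈ om := ih u hu ⟨h1.mem hu, fun y hy => h2 y (by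
          rw [ZFSet.mem_insert_iff]
          right
          rw [h3]
          exact hy)⟩
        obtain ⟨n, rfl⟩ := mem_om.1 h4
        rw [h3]
        exact mem_om.2 ⟨n + 1, rfl⟩

theorem om_mem (hW : IsTransModelZF W) : om ∈ W := by
  obtain ⟨x, hx, ⟨e, he, h1, h2⟩, h3⟩ := hW.infinity
  have he' : e = ∅ := by
    rw [ZFSet.eq_empty]
    exact fun y hy => h1 y (hW.transitive e he y hy) hy
  have hn : ∀ n, nat n ∈ x := by
    intro n
    induction n with
    | zero =>
      show (∅ : V) ∈ x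
      rw [← he']
      exact h2
    | succ n ih =>
      obtain ⟨z, hz, hzx, h⟩ := h3 (nat n) (nat_mem hW n) ih
      have : z = nat (n + 1) := ext_mem hW hz (nat_mem hW _) fun w hw => by
        rw [h w hw, mem_nat_succ, or_comm]
      rwa [← this]
  have hs : ZFSet.sep (fun z => z.IsOrdinal ∧
      ∀ y ∈ (insert z z : V), y = ∅ ∨ ∃ u ∈ y, y = insert u u) x ∈ W := by
    refine sep_mem hW (v := fun _ => ∅) (P := fun z _ => z.IsOrdinal ∧
      ∀ y ∈ (insert z z : V), y = ∅ ∨ ∃ u ∈ y, y = insert u u) ?_ (fun _ => empty_mem hW) hx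
    refine (DP.ord hW (DF.v hW 0)).and (DP.ball hW (DF.ins hW (DF.v hW 0) (DF.v hW 0))
      (Q := fun y _ => y = ∅ ∨ ∃ u ∈ y, y = insert u u) ?_)
    refine (DP.eq (DF.v hW 0) (DF.empty hW)).or (DP.bex hW (DF.v hW 0)
      (Q := fun u v => v 0 = insert u u) ?_)
    exact DP.eq (DF.v hW 1) (DF.ins hW (DF.v hW 0) (DF.v hW 0))
  convert hs using 1
  refine ZFSet.ext fun z => ?_
  rw [ZFSet.mem_sep, ← mem_om_iff]
  constructor
  · intro hz
    obtain ⟨n, rfl⟩ := mem_om.1 hz
    exact ⟨hn n, hz⟩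
  · exact fun h => h.2

theorem DF.om (hW : IsTransModelZF W) : DF W (fun _ => CM.om) := DF.const (om_mem hW)

theorem DF.nat (hW : IsTransModelZF W) (n : ℕ) : DF W (fun _ => Pool.Agent.CR.nat n) :=
  DF.const (nat_mem hW n)

/-! ### transitive closure -/

/-- transitive closure -/
noncomputable def tc (x : V) : V :=
  ZFSet.sep (fun z => Relation.TransGen (fun a b : V => a ∈ b) z x)
    (ZFSet.vonNeumann (ZFSet.rank x))

theorem rank_lt_of_transGen {z x : V} (h : Relation.TransGen (fun a b : V => a ∈ b) z x) :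
    ZFSet.rank z < ZFSet.rank x := by
  induction h with
  | single h => exact ZFSet.rank_lt_of_mem h
  | tail _ h ih => exact ih.trans (ZFSet.rank_lt_of_mem h)

theorem mem_tc {x z : V} : z ∈ tc x ↔ Relation.TransGen (fun a b : V => a ∈ b) z x := by
  rw [tc, ZFSet.mem_sep, ZFSet.mem_vonNeumann]
  exact ⟨fun h => h.2, fun h => ⟨rank_lt_of_transGen h, h⟩⟩

theorem mem_tc_of_mem {x z : V} (h : z ∈ x) : z ∈ tc x := mem_tc.2 (.single h)

theorem sub_tc (x : V) : x ⊆ tc x := fun _ h => mem_tc_of_mem h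

theorem mem_tc_iff {x z : V} : z ∈ tc x ↔ ∃ y ∈ x, z = y ∨ z ∈ tc y := by
  rw [mem_tc, Relation.TransGen.tail'_iff]
  constructor
  · rintro ⟨y, h, hy⟩
    refine ⟨y, hy, ?_⟩
    rw [Relation.reflTransGen_iff_eq_or_transGen] at h
    rcases h with rfl | h
    · exact Or.inl rfl
    · exact Or.inr (mem_tc.2 h)
  · rintro ⟨y, hy, h⟩
    refine ⟨y, ?_, hy⟩
    rcases h with rfl | h
    · exact .refl
    · exact (mem_tc.1 h).to_reflTransGen

theorem tc_trans (x : V) : (tc x).IsTransitive := fun _ hy _ hz =>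
  mem_tc.2 ((Relation.TransGen.single (r := fun a b : V => a ∈ b) hz).trans (mem_tc.1 hy))

theorem tc_sub_of_mem_tc {x y : V} (h : y ∈ tc x) : tc y ⊆ tc x := fun _ hz =>
  mem_tc.2 ((mem_tc.1 hz).trans (mem_tc.1 h))

theorem tc_least {x d : V} (hd : d.IsTransitive) (h : x ⊆ d) : tc x ⊆ d := by
  intro z hz
  have : ∀ z x : V, Relation.TransGen (fun a b : V => a ∈ b) z x → x ⊆ d → z ∈ d := by
    intro z x hzx
    induction hzx with
    | single h => intro hs; exact hs h
    | tail _ h ih => intro hs; exact ih (hd _ (hs h))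
  exact this z x (mem_tc.1 hz) h

theorem tc_of_trans {d : V} (hd : d.IsTransitive) : tc d = d :=
  ZFSet.ext fun _ => ⟨fun h => tc_least hd (fun _ h => h) h, fun h => sub_tc _ h⟩

/-- transitive closure together with the set itself -/
noncomputable def tcs (x : V) : V := insert x (tc x)

theorem mem_tcs {x z : V} : z ∈ tcs x ↔ z = x ∨ z ∈ tc x := ZFSet.mem_insert_iff

theorem self_mem_tcs (x : V) : x ∈ tcs x := mem_tcs.2 (Or.inl rfl)

theorem tcs_trans (x : V) : (tcs x).IsTransitive := by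
  intro y hy z hz
  rcases mem_tcs.1 hy with rfl | hy
  · exact mem_tcs.2 (Or.inr (mem_tc_of_mem hz))
  · exact mem_tcs.2 (Or.inr (tc_trans x y hy hz))

/-! ### recursion -/

/-- the function given by `∈`-recursion -/
noncomputable def rec0 (G : V → V → V) : V → V :=
  ZFSet.mem_wf.fix fun x ih => G x (ZFSet.range (fun y : {y : V // y ∈ x} =>
    ZFSet.pair y.1 (ih y.1 y.2)))

theorem rec0_eq (G : V → V → V) (x : V) : rec0 G x = G x (gr (rec0 G) x) := by
  rw [rec0, ZFSet.mem_wf.fix_eq]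
  rfl

theorem gr_congr {F F' : V → V} {a : V} (h : ∀ x ∈ a, F x = F' x) : gr F a = gr F' a := by
  refine ZFSet.ext fun p => ?_
  rw [mem_gr, mem_gr]
  constructor
  · rintro ⟨z, hz, rfl⟩
    exact ⟨z, hz, by rw [h z hz]⟩
  · rintro ⟨z, hz, rfl⟩
    exact ⟨z, hz, by rw [h z hz]⟩

theorem img_congr {F F' : V → V} {a : V} (h : ∀ x ∈ a, F x = F' x) : img F a = img F' a := by
  refine ZFSet.ext fun p => ?_
  rw [mem_img, mem_img]
  constructor
  · rintro ⟨z, hz, rfl⟩
    exact ⟨z, hz, (h z hz).symm⟩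
  · rintro ⟨z, hz, rfl⟩
    exact ⟨z, hz, h z hz⟩

/-- approximations: `f` is the restriction to the transitive set `D` of the function defined by
the recursion -/
def GoodA (G : V → V → V) (D f : V) : Prop :=
  D.IsTransitive ∧ f = gr (ap f) D ∧ ∀ z ∈ D, ap f z = G z (gr (ap f) z)

theorem GoodA.eq {G : V → V → V} {D f : V} (h : GoodA G D f) : ∀ z ∈ D, ap f z = rec0 G z := by
  intro z
  induction z using ZFSet.inductionOn with
  | _ z ih =>
    intro hz
    rw [h.2.2 z hz, rec0_eq]
    congr 1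
    exact gr_congr fun y hy => ih y hy (h.1 z hz hy)

theorem goodA_gr (G : V → V → V) {D : V} (hD : D.IsTransitive) : GoodA G D (gr (rec0 G) D) := by
  refine ⟨hD, gr_congr fun x hx => (ap_gr hx).symm, fun z hz => ?_⟩
  rw [ap_gr hz, rec0_eq]
  congr 1
  exact gr_congr fun y hy => (ap_gr (hD z hz hy)).symm

theorem DP.goodA (hW : IsTransModelZF W) {G : (ℕ → V) → V → V → V}
    (hG : DF W (fun v => G (fun n => v (n + 2)) (v 0) (v 1))) {d f : (ℕ → V) → V}
    (hd : DF W d) (hf : DF W f) : DP W (fun v => GoodA (G v) (d v) (f v)) := by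
  have h : DP W (fun v => GoodA (G (fun n => v (n + 2))) (v 0) (v 1)) := by
    refine (DP.trans hW (DF.v hW 0)).and ((DP.eq (DF.v hW 1) (DF.gr hW (DF.v hW 0)
      (F := fun z v => ap (v 1) z) (DF.ap hW (DF.v hW 2) (DF.v hW 0)))).and ?_)
    refine DP.ball hW (DF.v hW 0) (Q := fun z v => ap (v 1) z =
      G (fun n => v (n + 2)) z (gr (ap (v 1)) z)) ?_
    refine DP.eq (DF.ap hW (DF.v hW 2) (DF.v hW 0)) ?_
    exact hG.comp (f := fun n => match n with
      | 0 => fun v => v 0
      | 1 => fun v => gr (ap (v 2)) (v 0)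
      | n + 2 => fun v => v (n + 3)) fun n => by
        rcases n with _ | _ | n
        · exact DF.v hW 0
        · exact DF.gr hW (DF.v hW 0) (F := fun z v => ap (v 2) z)
            (DF.ap hW (DF.v hW 3) (DF.v hW 0))
        · exact DF.v hW (n + 3)
  exact h.comp (f := fun n => match n with
    | 0 => d
    | 1 => f
    | n + 2 => fun v => v n) fun n => by
      rcases n with _ | _ | n
      · exact hd
      · exact hf
      · exact DF.v hW n

/-- values of the recursion for which there is an approximation in `W` -/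
theorem rec_core (hW : IsTransModelZF W) {G : (ℕ → V) → V → V → V}
    (hG : DF W (fun v => G (fun n => v (n + 2)) (v 0) (v 1))) {v : ℕ → V} (hv : ∀ n, v n ∈ W)
    {x : V} (hx : x ∈ W) (ht : ∀ z ∈ tcs x, tcs z ∈ W) : gr (rec0 (G v)) (tcs x) ∈ W := by
  classical
  -- the total function which is the recursion where an approximation exists
  let g : V → (ℕ → V) → V := fun z v =>
    if (∃ D ∈ W, ∃ f ∈ W, GoodA (G v) D f ∧ z ∈ D) then rec0 (G v) z else ∅
  have hE : DP W (fun v => ∃ D ∈ W, ∃ f ∈ W, GoodA (G (fun n => v (n + 1))) D f ∧ v 0 ∈ D) := by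
    refine DP.ex (Q := fun D v => ∃ f ∈ W, GoodA (G (fun n => v (n + 1))) D f ∧ v 0 ∈ D) ?_
    refine DP.ex (Q := fun f v => GoodA (G (fun n => v (n + 2))) (v 0) f ∧ v 1 ∈ v 0) ?_
    refine DP.and ?_ (DP.memv hW.nonempty 2 1)
    exact (DP.goodA hW (G := fun v => G (fun n => v (n + 3)))
      (hG.ren fun n => if n < 2 then n else n + 3) (DF.v hW 1) (DF.v hW 0))
  have hval : ∀ v : ℕ → V, (∀ n, v n ∈ W) → ∀ D ∈ W, ∀ f ∈ W, GoodA (G v) D f → ∀ z ∈ D,
      rec0 (G v) z ∈ W := by
    intro v hv D hD f hf h z hz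
    rw [← h.eq z hz]
    exact (DF.ap hW (DF.v hW 0) (DF.v hW 1)).1 (cons f (fun _ => z)) fun n => by
      cases n
      · exact hf
      · exact hW.transitive D hD z hz
  have hg : DF W (fun v => g (v 0) (fun n => v (n + 1))) := by
    refine DF.mk' (fun v hv => ?_) (P := fun y v =>
      (∃ D ∈ W, ∃ f ∈ W, GoodA (G (fun n => v (n + 1))) D f ∧ v 0 ∈ D ∧ y = ap f (v 0)) ∨
      ((¬ ∃ D ∈ W, ∃ f ∈ W, GoodA (G (fun n => v (n + 1))) D f ∧ v 0 ∈ D) ∧ y = ∅)) ?_ ?_
    · simp only [g]
      split_ifs with h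
      · obtain ⟨D, hD, f, hf, h1, h2⟩ := h
        exact hval _ (fun n => hv _) D hD f hf h1 _ h2
      · exact empty_mem hW
    · refine DP.or ?_ (DP.and (hE.ren fun n => n + 1).not (DP.eq (DF.v hW 0) (DF.empty hW)))
      refine DP.ex (Q := fun D v => ∃ f ∈ W, GoodA (G (fun n => v (n + 2))) D f ∧ v 1 ∈ D ∧
        v 0 = ap f (v 1)) ?_
      refine DP.ex (Q := fun f v => GoodA (G (fun n => v (n + 3))) (v 0) f ∧ v 2 ∈ v 0 ∧
        v 1 = ap f (v 2)) ?_
      refine DP.and ?_ (DP.and (DP.memv hW.nonempty 3 1)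
        (DP.eq (DF.v hW 2) (DF.ap hW (DF.v hW 0) (DF.v hW 3))))
      exact (DP.goodA hW (G := fun v => G (fun n => v (n + 4)))
        (hG.ren fun n => if n < 2 then n else n + 4) (DF.v hW 1) (DF.v hW 0))
    · intro v hv y hy
      simp only [g]
      constructor
      · rintro (⟨D, hD, f, hf, h1, h2, rfl⟩ | ⟨h, rfl⟩)
        · rw [if_pos ⟨D, hD, f, hf, h1, h2⟩]
          exact h1.eq _ h2
        · rw [if_neg h]
      · intro h
        split_ifs at h with h'
        · obtain ⟨D, hD, f, hf, h1, h2⟩ := h'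
          exact Or.inl ⟨D, hD, f, hf, h1, h2, by rw [h, h1.eq _ h2]⟩
        · exact Or.inr ⟨h', h⟩
  revert hx ht
  induction x using ZFSet.inductionOn with
  | _ x ih =>
    intro hx ht
    have htx := ht x (self_mem_tcs x)
    have htcW : tc x ∈ W := by
      have : tc x = tcs x \ {x} := by
        refine ZFSet.ext fun z => ?_
        rw [ZFSet.mem_sdiff, mem_tcs, ZFSet.mem_singleton]
        constructor
        · intro h
          refine ⟨Or.inr h, ?_⟩
          rintro rfl
          exact lt_irrefl _ (rank_lt_of_transGen (mem_tc.1 h))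
        · rintro ⟨h | h, h'⟩
          · exact absurd h h'
          · exact h
      rw [this]
      exact (DF.diff hW (DF.v hW 0) (DF.sgl hW (DF.v hW 1))).1 (cons (tcs x) (fun _ => x))
        fun n => by
          cases n
          · exact htx
          · exact hx
    have hz : ∀ z ∈ tc x, g z v = rec0 (G v) z := by
      intro z hz
      obtain ⟨y, hy, h⟩ := mem_tc_iff.1 hz
      have hyt : y ∈ tc x := mem_tc_of_mem hy
      have hyW : y ∈ W := hW.transitive x hx y hy
      have h1 := ih y hy hyW fun z hz => ht z (mem_tcs.2 (Or.inr (by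
        rcases mem_tcs.1 hz with rfl | hz
        · exact hyt
        · exact tc_sub_of_mem_tc hyt hz)))
      have h2 : z ∈ tcs y := mem_tcs.2 h
      simp only [g]
      rw [if_pos ⟨tcs y, ht y (mem_tcs.2 (Or.inr hyt)), _, h1, goodA_gr _ (tcs_trans y), h2⟩]
    have h3 : gr (rec0 (G v)) (tc x) ∈ W := by
      rw [gr_congr fun z h => (hz z h).symm]
      exact (DF.gr hW (DF.v hW 0) (F := fun z v => g z (fun n => v (n + 1)))
        (hg.ren fun n => if n = 0 then 0 else n + 1)).1 (cons (tc x) v) fun n => by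
          cases n
          · exact htcW
          · exact hv _
    have h4 : gr (rec0 (G v)) x ∈ W := by
      rw [gr_congr fun z h => (hz z (mem_tc_of_mem h)).symm]
      exact (DF.gr hW (DF.v hW 0) (F := fun z v => g z (fun n => v (n + 1)))
        (hg.ren fun n => if n = 0 then 0 else n + 1)).1 (cons x v) fun n => by
          cases n
          · exact hx
          · exact hv _
    have h5 : rec0 (G v) x ∈ W := by
      rw [rec0_eq]
      exact hG.1 (cons x (cons (gr (rec0 (G v)) x) v)) fun n => by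
        rcases n with _ | _ | n
        · exact hx
        · exact h4
        · exact hv _
    have h6 : gr (rec0 (G v)) (tcs x) = insert (ZFSet.pair x (rec0 (G v) x))
        (gr (rec0 (G v)) (tc x)) := by
      refine ZFSet.ext fun p => ?_
      rw [mem_gr, ZFSet.mem_insert_iff, mem_gr]
      constructor
      · rintro ⟨z, hz, rfl⟩
        rcases mem_tcs.1 hz with rfl | hz
        · exact Or.inl rfl
        · exact Or.inr ⟨z, hz, rfl⟩
      · rintro (rfl | ⟨z, hz, rfl⟩)
        · exact ⟨x, self_mem_tcs x, rfl⟩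
        · exact ⟨z, mem_tcs.2 (Or.inr hz), rfl⟩
    rw [h6]
    exact (DF.ins hW (DF.pair hW (DF.v hW 0) (DF.v hW 1)) (DF.v hW 2)).1
      (cons x (cons (rec0 (G v) x) (fun _ => gr (rec0 (G v)) (tc x)))) fun n => by
        rcases n with _ | _ | n
        · exact hx
        · exact h5
        · exact h3

end Pool.Agent.CM
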