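import Mathlib
import Pool.Agent.Lib.MP_f8e9b8_lc.Rec

/-!
# MP_f8e9b8_lc : the recursion theorem
-/

set_option autoImplicit false

namespace Pool.Agent.CM

open Pool.Agent.CR (V Fml cons Sat nat cons_zero cons_succ)

variable {W : Set V}

theorem tcs_nat (n : ℕ) : tcs (nat n) = nat (n + 1) := by
  rw [tcs, tc_of_trans (nat_ord n).isTransitive]
  rfl

/-- recursion with the class of all sets which have a transitive closure in `W`: definability -/
theorem DF.rec_core (hW : IsTransModelZF W) {G : (ℕ → V) → V → V → V}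
    (hG : DF W (fun v => G (fun n => v (n + 2)) (v 0) (v 1))) {a : (ℕ → V) → V} (ha : DF W a)
    (ht : ∀ v : ℕ → V, (∀ n, v n ∈ W) → ∀ z ∈ tcs (a v), tcs z ∈ W) :
    DF W (fun v => CM.rec0 (G v) (a v)) := by
  have hmem : ∀ v : ℕ → V, (∀ n, v n ∈ W) → CM.gr (CM.rec0 (G v)) (CM.tcs (a v)) ∈ W := fun v hv =>
    CM.rec_core hW hG hv (ha.1 v hv) (ht v hv)
  refine DF.mk' (fun v hv => ?_) (P := fun y v => ∃ D ∈ W, ∃ f ∈ W, GoodA (G v) D f ∧ a v ∈ D ∧
    y = CM.ap f (a v)) ?_ ?_
  · have h1 := (DF.ap hW (DF.v hW 0) (DF.v hW 1)).1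
      (cons (CM.gr (CM.rec0 (G v)) (CM.tcs (a v))) (fun _ => a v)) fun n => by
        cases n
        · exact hmem v hv
        · exact ha.1 v hv
    have h2 : CM.ap (CM.gr (CM.rec0 (G v)) (CM.tcs (a v))) (a v) = CM.rec0 (G v) (a v) :=
      ap_gr (self_mem_tcs _)
    rw [← h2]
    exact h1
  · refine DP.ex (Q := fun D v => ∃ f ∈ W, GoodA (G (fun n => v (n + 1))) D f ∧
      a (fun n => v (n + 1)) ∈ D ∧ v 0 = CM.ap f (a (fun n => v (n + 1)))) ?_
    refine DP.ex (Q := fun f v => GoodA (G (fun n => v (n + 2))) (v 0) f ∧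
      a (fun n => v (n + 2)) ∈ v 0 ∧ v 1 = CM.ap f (a (fun n => v (n + 2)))) ?_
    refine DP.and ?_ (DP.and (DP.mem (ha.ren fun n => n + 3) (DF.v hW 1))
      (DP.eq (DF.v hW 2) (DF.ap hW (DF.v hW 0) (ha.ren fun n => n + 3))))
    exact (DP.goodA hW (G := fun v => G (fun n => v (n + 3)))
      (hG.ren fun n => if n < 2 then n else n + 3) (DF.v hW 1) (DF.v hW 0))
  · intro v hv y hy
    constructor
    · rintro ⟨D, hD, f, hf, h1, h2, rfl⟩
      exact h1.eq _ h2
    · intro h
      exact ⟨tcs (a v), ht v hv _ (self_mem_tcs _), _, hmem v hv, goodA_gr _ (tcs_trans _),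
        self_mem_tcs _, by rw [h, ap_gr (self_mem_tcs _)]⟩

/-! ### iteration along the natural numbers -/

open Classical in
/-- the step of the iteration of `g` starting with `a` -/
noncomputable def itG (g : V → V) (a : V) (x h : V) : V :=
  if x = ∅ then a else g (ap h (sU x))

/-- iteration: `itn g a (nat n)` is the `n`-th iterate of `g` at `a` -/
noncomputable def itn (g : V → V) (a x : V) : V := rec0 (itG g a) x

theorem itn_zero (g : V → V) (a : V) : itn g a ∅ = a := by
  rw [itn, rec0_eq, itG, if_pos rfl]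

theorem nat_succ_ne (n : ℕ) : nat (n + 1) ≠ ∅ := by
  intro h
  have : nat n ∈ (∅ : V) := by
    rw [← h]
    exact mem_nat_succ.2 (Or.inl rfl)
  exact ZFSet.notMem_empty _ this

theorem itn_succ (g : V → V) (a : V) (n : ℕ) : itn g a (nat (n + 1)) = g (itn g a (nat n)) := by
  rw [itn, rec0_eq, itG, if_neg (nat_succ_ne n), sU_nat_succ, ap_gr]
  · rfl
  · exact mem_nat_succ.2 (Or.inl rfl)

theorem itn_eq (g : V → V) (a : V) (n : ℕ) : itn g a (nat n) = g^[n] a := by
  induction n with
  | zero => exact itn_zero g a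
  | succ n ih => rw [itn_succ, ih, Function.iterate_succ_apply']

open Classical in
theorem DF.itG (hW : IsTransModelZF W) {g : V → (ℕ → V) → V}
    (hg : DF W (fun v => g (v 0) (fun n => v (n + 1)))) {a x h : (ℕ → V) → V} (ha : DF W a)
    (hx : DF W x) (hh : DF W h) :
    DF W (fun v => CM.itG (fun z => g z v) (a v) (x v) (h v)) := by
  refine (DF.ite (DP.eq hx (DF.empty hW)) ha
    (g := fun v => g (CM.ap (h v) (CM.sU (x v))) v) ?_).congr fun v _ => by
      simp only [CM.itG]
  exact hg.comp (f := fun n => match n with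
    | 0 => fun v => CM.ap (h v) (CM.sU (x v))
    | n + 1 => fun v => v n) fun n => by
      rcases n with _ | n
      · exact DF.ap hW hh (DF.sU hW hx)
      · exact DF.v hW n

/-- iterates along the natural numbers are definable -/
theorem DF.itn (hW : IsTransModelZF W) {g : V → (ℕ → V) → V}
    (hg : DF W (fun v => g (v 0) (fun n => v (n + 1)))) {a x : (ℕ → V) → V} (ha : DF W a)
    (hx : DF W x) (hx' : ∀ v : ℕ → V, (∀ n, v n ∈ W) → x v ∈ CM.om) :
    DF W (fun v => CM.itn (fun z => g z v) (a v) (x v)) := by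
  refine DF.rec_core hW (G := fun v => CM.itG (fun z => g z v) (a v)) ?_ hx ?_
  · exact DF.itG hW (g := fun z v => g z (fun n => v (n + 2)))
      (hg.ren fun n => if n = 0 then 0 else n + 2) (ha.ren fun n => n + 2) (DF.v hW 0) (DF.v hW 1)
  · intro v hv z hz
    obtain ⟨n, hn⟩ := mem_om.1 (hx' v hv)
    rw [← hn, tcs_nat] at hz
    obtain ⟨m, -, rfl⟩ := mem_nat.1 hz
    rw [tcs_nat]
    exact nat_mem hW _

/-- union of all the iterates -/
noncomputable def itU (g : V → V) (a : V) : V := sU (img (itn g a) om)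

theorem mem_itU {g : V → V} {a z : V} : z ∈ itU g a ↔ ∃ n, z ∈ g^[n] a := by
  rw [itU, mem_sU]
  constructor
  · rintro ⟨y, hy, hz⟩
    obtain ⟨x, hx, rfl⟩ := mem_img.1 hy
    obtain ⟨n, rfl⟩ := mem_om.1 hx
    exact ⟨n, by rwa [itn_eq] at hz⟩
  · rintro ⟨n, hz⟩
    exact ⟨_, mem_img.2 ⟨nat n, mem_om.2 ⟨n, rfl⟩, rfl⟩, by rwa [itn_eq]⟩

theorem DF.itU (hW : IsTransModelZF W) {g : V → (ℕ → V) → V}
    (hg : DF W (fun v => g (v 0) (fun n => v (n + 1)))) {a : (ℕ → V) → V} (ha : DF W a) :
    DF W (fun v => CM.itU (fun z => g z v) (a v)) := by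
  classical
  -- replace the argument by a natural number everywhere
  have h1 : DF W (fun v => CM.sU (CM.img (fun x => CM.itn (fun z => g z v) (a v)
      (if x ∈ CM.om then x else ∅)) CM.om)) := by
    refine DF.sU hW (DF.img hW (DF.om hW) (g := fun x v => CM.itn (fun z => g z v) (a v)
      (if x ∈ CM.om then x else ∅)) ?_)
    refine DF.itn hW (g := fun z v => g z (fun n => v (n + 1)))
      (hg.ren fun n => if n = 0 then 0 else n + 1) (ha.ren fun n => n + 1)
      (DF.ite (DP.mem (DF.v hW 0) (DF.om hW)) (DF.v hW 0) (DF.empty hW)) ?_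
    intro v _
    split_ifs with h
    · exact h
    · exact mem_om.2 ⟨0, rfl⟩
  refine h1.congr fun v _ => ?_
  rw [CM.itU]
  congr 1
  exact img_congr fun x hx => by rw [if_pos hx]

/-! ### transitive closure and recursion for all sets -/

theorem tc_eq_itU (x : V) : tc x = itU sU x := by
  refine ZFSet.ext fun z => ⟨fun h => ?_, fun h => ?_⟩
  · have : ∀ z x : V, Relation.TransGen (fun a b : V => a ∈ b) z x → ∃ n, z ∈ sU^[n] x := by
      intro z x h
      induction h with
      | single h => exact ⟨0, h⟩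
      | @tail b c _ h ih =>
        obtain ⟨n, hn⟩ := ih
        refine ⟨n + 1, ?_⟩
        have mono : ∀ n, ∀ b c : V, b ∈ c → ∀ z ∈ sU^[n] b, z ∈ sU^[n + 1] c := by
          intro n
          induction n with
          | zero => intro b c hbc z hz; exact mem_sU.2 ⟨b, hbc, hz⟩
          | succ n ih =>
            intro b c hbc z hz
            rw [Function.iterate_succ_apply'] at hz
            obtain ⟨y, hy, hzy⟩ := mem_sU.1 hz
            rw [Function.iterate_succ_apply']
            exact mem_sU.2 ⟨y, ih b c hbc y hy, hzy⟩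
        exact mono n b c h z hn
    obtain ⟨n, hn⟩ := this z x (mem_tc.1 h)
    exact mem_itU.2 ⟨n, hn⟩
  · obtain ⟨n, hn⟩ := mem_itU.1 h
    revert z
    induction n with
    | zero => intro z _ hn; exact mem_tc_of_mem hn
    | succ n ih =>
      intro z _ hn
      rw [Function.iterate_succ_apply'] at hn
      obtain ⟨y, hy, hzy⟩ := mem_sU.1 hn
      exact tc_trans x y (ih y (mem_itU.2 ⟨n, hy⟩) hy) hzy

theorem DF.tc (hW : IsTransModelZF W) {f : (ℕ → V) → V} (hf : DF W f) :
    DF W (fun v => CM.tc (f v)) :=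
  (DF.itU hW (g := fun z _ => CM.sU z) (DF.sU hW (DF.v hW 0)) hf).congr fun v _ => tc_eq_itU _

theorem DF.tcs (hW : IsTransModelZF W) {f : (ℕ → V) → V} (hf : DF W f) :
    DF W (fun v => CM.tcs (f v)) := DF.ins hW hf (DF.tc hW hf)

theorem tcs_mem (hW : IsTransModelZF W) {x : V} (hx : x ∈ W) : tcs x ∈ W :=
  (DF.tcs hW (DF.v hW 0)).1 (fun _ => x) fun _ => hx

theorem tcs_sub (hW : IsTransModelZF W) {x : V} (hx : x ∈ W) : ∀ z ∈ tcs x, z ∈ W :=
  fun z hz => hW.transitive _ (tcs_mem hW hx) z hz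

/-- `∈`-recursion -/
theorem DF.rec0 (hW : IsTransModelZF W) {G : (ℕ → V) → V → V → V}
    (hG : DF W (fun v => G (fun n => v (n + 2)) (v 0) (v 1))) {a : (ℕ → V) → V} (ha : DF W a) :
    DF W (fun v => CM.rec0 (G v) (a v)) :=
  DF.rec_core hW hG ha fun v' hv z hz => tcs_mem hW (tcs_sub hW (ha.1 v' hv) z hz)

/-- the graph on the transitive closure, by recursion -/
noncomputable def recH (G : V → V → V) : V → V :=
  CM.rec0 fun x h => sU (img (fun y => insert (ZFSet.pair y (G y (ap h y))) (ap h y)) x)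

theorem recH_eq (G : V → V → V) (x : V) : recH G x =
    sU (img (fun y => insert (ZFSet.pair y (G y (recH G y))) (recH G y)) x) := by
  rw [recH, rec0_eq]
  congr 1
  exact img_congr fun y hy => by rw [ap_gr hy]

/-- recursion along the transitive closure: `recT G x = G x (gr (recT G) (tc x))` -/
noncomputable def recT (G : V → V → V) (x : V) : V := G x (recH G x)

theorem recH_eq_gr (G : V → V → V) (x : V) : recH G x = gr (recT G) (tc x) := by
  induction x using ZFSet.inductionOn with
  | _ x ih =>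
    rw [recH_eq]
    refine ZFSet.ext fun p => ?_
    rw [mem_sU, mem_gr]
    constructor
    · rintro ⟨u, hu, hp⟩
      obtain ⟨y, hy, rfl⟩ := mem_img.1 hu
      rcases ZFSet.mem_insert_iff.1 hp with rfl | hp
      · exact ⟨y, mem_tc_of_mem hy, rfl⟩
      · rw [ih y hy, mem_gr] at hp
        obtain ⟨z, hz, rfl⟩ := hp
        exact ⟨z, tc_sub_of_mem_tc (mem_tc_of_mem hy) hz, rfl⟩
    · rintro ⟨z, hz, rfl⟩
      obtain ⟨y, hy, h⟩ := mem_tc_iff.1 hz
      refine ⟨_, mem_img.2 ⟨y, hy, rfl⟩, ?_⟩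
      rcases h with rfl | h
      · exact ZFSet.mem_insert_iff.2 (Or.inl rfl)
      · refine ZFSet.mem_insert_iff.2 (Or.inr ?_)
        rw [ih y hy]
        exact mem_gr.2 ⟨z, h, rfl⟩

theorem recT_eq (G : V → V → V) (x : V) : recT G x = G x (gr (recT G) (tc x)) := by
  conv_lhs => rw [recT, recH_eq_gr]

/-- uniqueness of functions defined by recursion -/
theorem eq_recT {G : V → V → V} {F : V → V} (h : ∀ x, F x = G x (gr F (tc x))) (x : V) :
    F x = recT G x := by
  have : ∀ x : V, (∀ z ∈ tc x, F z = recT G z) ∧ F x = recT G x := by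
    intro x
    induction x using ZFSet.inductionOn with
    | _ x ih =>
      have h1 : ∀ z ∈ tc x, F z = recT G z := by
        intro z hz
        obtain ⟨y, hy, h⟩ := mem_tc_iff.1 hz
        rcases h with rfl | h
        · exact (ih z hy).2
        · exact (ih y hy).1 z h
      exact ⟨h1, by rw [h, recT_eq, gr_congr h1]⟩
  exact (this x).2

theorem DF.recT (hW : IsTransModelZF W) {G : (ℕ → V) → V → V → V}
    (hG : DF W (fun v => G (fun n => v (n + 2)) (v 0) (v 1))) {a : (ℕ → V) → V} (ha : DF W a) :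
    DF W (fun v => CM.recT (G v) (a v)) := by
  have hH : DF W (fun v => recH (G v) (a v)) := by
    refine DF.rec0 hW (G := fun v x h => CM.sU (CM.img (fun y =>
      insert (ZFSet.pair y (G v y (CM.ap h y))) (CM.ap h y)) x)) ?_ ha
    refine DF.sU hW (DF.img hW (DF.v hW 0) (g := fun y v =>
      insert (ZFSet.pair y (G (fun n => v (n + 2)) y (CM.ap (v 1) y))) (CM.ap (v 1) y)) ?_)
    refine DF.ins hW (DF.pair hW (DF.v hW 0) ?_) (DF.ap hW (DF.v hW 2) (DF.v hW 0))
    exact hG.comp (f := fun n => match n with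
      | 0 => fun v => v 0
      | 1 => fun v => CM.ap (v 2) (v 0)
      | n + 2 => fun v => v (n + 3)) fun n => by
        rcases n with _ | _ | n
        · exact DF.v hW 0
        · exact DF.ap hW (DF.v hW 2) (DF.v hW 0)
        · exact DF.v hW (n + 3)
  exact hG.comp (f := fun n => match n with
    | 0 => a
    | 1 => fun v => recH (G v) (a v)
    | n + 2 => fun v => v n) fun n => by
      rcases n with _ | _ | n
      · exact ha
      · exact hH
      · exact DF.v hW n

end Pool.Agent.CM
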