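import Mathlib
import Pool.Agent.Lib.MP_f8e9b8_lc.Rec2

/-!
# MP_f8e9b8_lc : ranks, collection
-/

set_option autoImplicit false

namespace Pool.Agent.CM

open Pool.Agent.CR (V Fml cons Sat nat cons_zero cons_succ)

variable {W : Set V}

/-- the rank as a von Neumann ordinal -/
noncomputable def rk (x : V) : V := (ZFSet.rank x).toZFSet

theorem rk_ord (x : V) : (rk x).IsOrdinal := ZFSet.isOrdinal_toZFSet _

theorem mem_rk {x z : V} : z ∈ rk x ↔ ∃ y ∈ x, z ∈ (insert (rk y) (rk y) : V) := by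
  rw [rk, Ordinal.mem_toZFSet_iff]
  constructor
  · rintro ⟨a, ha, rfl⟩
    obtain ⟨y, hy, h⟩ := ZFSet.lt_rank_iff.1 ha
    refine ⟨y, hy, ?_⟩
    rw [ZFSet.mem_insert_iff, rk]
    rcases h.eq_or_lt with h | h
    · exact Or.inl (by rw [h])
    · exact Or.inr (Ordinal.toZFSet_mem_toZFSet_iff.2 h)
  · rintro ⟨y, hy, h⟩
    rw [ZFSet.mem_insert_iff, rk] at h
    rcases h with rfl | h
    · exact ⟨_, ZFSet.rank_lt_of_mem hy, rfl⟩
    · obtain ⟨a, ha, rfl⟩ := Ordinal.mem_toZFSet_iff.1 h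
      exact ⟨a, ha.trans (ZFSet.rank_lt_of_mem hy), rfl⟩

theorem rk_eq (x : V) : rk x = sU (img (fun y => insert (rk y) (rk y)) x) := by
  refine ZFSet.ext fun z => ?_
  rw [mem_rk, mem_sU]
  constructor
  · rintro ⟨y, hy, h⟩
    exact ⟨_, mem_img.2 ⟨y, hy, rfl⟩, h⟩
  · rintro ⟨u, hu, h⟩
    obtain ⟨y, hy, rfl⟩ := mem_img.1 hu
    exact ⟨y, hy, h⟩

theorem DF.rk (hW : IsTransModelZF W) {f : (ℕ → V) → V} (hf : DF W f) :
    DF W (fun v => CM.rk (f v)) := by
  have h : DF W (fun v => CM.rec0 (fun x h => CM.sU (CM.img (fun y =>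
      insert (CM.ap h y) (CM.ap h y)) x)) (f v)) := by
    refine DF.rec0 hW (G := fun _ x h => CM.sU (CM.img (fun y =>
      insert (CM.ap h y) (CM.ap h y)) x)) ?_ hf
    refine DF.sU hW (DF.img hW (DF.v hW 0) (g := fun y v => insert (CM.ap (v 1) y) (CM.ap (v 1) y))
      ?_)
    exact DF.ins hW (DF.ap hW (DF.v hW 2) (DF.v hW 0)) (DF.ap hW (DF.v hW 2) (DF.v hW 0))
  refine h.congr fun v _ => ?_
  generalize f v = x
  induction x using ZFSet.inductionOn with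
  | _ x ih =>
    rw [rk_eq, rec0_eq]
    congr 1
    exact img_congr fun y hy => by rw [ap_gr hy, ← ih y hy]

/-- the elements of `W` of rank smaller than the rank of `x` -/
noncomputable def vW (W : Set V) (x : V) : V :=
  ZFSet.sep (fun z => z ∈ W) (ZFSet.vonNeumann (ZFSet.rank x))

theorem mem_vW {x z : V} : z ∈ vW W x ↔ z ∈ W ∧ ZFSet.rank z < ZFSet.rank x := by
  rw [vW, ZFSet.mem_sep, ZFSet.mem_vonNeumann, and_comm]

theorem vW_eq (hW : IsTransModelZF W) (x : V) : vW W x = sU (img (fun y => pwr W (vW W y)) x) := by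
  refine ZFSet.ext fun z => ?_
  rw [mem_vW, mem_sU]
  constructor
  · rintro ⟨hz, h⟩
    obtain ⟨y, hy, h⟩ := ZFSet.lt_rank_iff.1 h
    exact ⟨_, mem_img.2 ⟨y, hy, rfl⟩, mem_pwr.2 ⟨hz, fun u hu =>
      mem_vW.2 ⟨hW.transitive z hz u hu, (ZFSet.rank_lt_of_mem hu).trans_le h⟩⟩⟩
  · rintro ⟨u, hu, h⟩
    obtain ⟨y, hy, rfl⟩ := mem_img.1 hu
    obtain ⟨h1, h2⟩ := mem_pwr.1 h
    exact ⟨h1, (ZFSet.rank_le_iff.2 fun w hw => (mem_vW.1 (h2 hw)).2).trans_lt
      (ZFSet.rank_lt_of_mem hy)⟩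

theorem DF.vW (hW : IsTransModelZF W) {f : (ℕ → V) → V} (hf : DF W f) :
    DF W (fun v => CM.vW W (f v)) := by
  have h : DF W (fun v => CM.rec0 (fun x h => CM.sU (CM.img (fun y =>
      CM.pwr W (CM.ap h y)) x)) (f v)) := by
    refine DF.rec0 hW (G := fun _ x h => CM.sU (CM.img (fun y => CM.pwr W (CM.ap h y)) x)) ?_ hf
    refine DF.sU hW (DF.img hW (DF.v hW 0) (g := fun y v => CM.pwr W (CM.ap (v 1) y)) ?_)
    exact DF.pwr hW (DF.ap hW (DF.v hW 2) (DF.v hW 0))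
  refine h.congr fun v _ => ?_
  generalize f v = x
  induction x using ZFSet.inductionOn with
  | _ x ih =>
    rw [vW_eq hW, rec0_eq]
    congr 1
    exact img_congr fun y hy => by rw [ap_gr hy, ← ih y hy]

theorem rk_mem (hW : IsTransModelZF W) {x : V} (hx : x ∈ W) : rk x ∈ W :=
  (DF.rk hW (DF.v hW 0)).1 (fun _ => x) fun _ => hx

theorem rank_rk (x : V) : ZFSet.rank (rk x) = ZFSet.rank x := Ordinal.rank_toZFSet _

theorem rk_of_ord {α : V} (h : α.IsOrdinal) : rk α = α := h.toZFSet_rank_eq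

theorem rk_sub {x y : V} : rk x ⊆ rk y ↔ ZFSet.rank x ≤ ZFSet.rank y :=
  Ordinal.toZFSet_subset_toZFSet_iff

/-- collection -/
theorem coll (hW : IsTransModelZF W) {R : V → V → (ℕ → V) → Prop}
    (hR : DP W (fun v => R (v 0) (v 1) (fun n => v (n + 2)))) {v : ℕ → V} (hv : ∀ n, v n ∈ W)
    {a : V} (ha : a ∈ W) (h : ∀ x ∈ a, ∃ y ∈ W, R x y v) :
    ∃ b ∈ W, ∀ x ∈ a, ∃ y ∈ b, R x y v := by
  classical
  -- the least rank of a witness
  let m : V → (ℕ → V) → V := fun x v => if (∃ y ∈ W, R x y v) then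
    (sInf {o : Ordinal.{0} | ∃ y ∈ W, R x y v ∧ ZFSet.rank y = o}).toZFSet else ∅
  have key : ∀ v : ℕ → V, (∀ n, v n ∈ W) → ∀ x ∈ W, (∃ y ∈ W, R x y v) → ∀ α ∈ W,
      ((∃ y ∈ W, R x y v ∧ rk y = α ∧ ∀ z ∈ W, R x z v → α ⊆ rk z) ↔ α = m x v) := by
    intro v hv x hx hxy α hα
    have hne : {o : Ordinal.{0} | ∃ y ∈ W, R x y v ∧ ZFSet.rank y = o}.Nonempty := by
      obtain ⟨y, hy, h⟩ := hxy
      exact ⟨_, y, hy, h, rfl⟩
    simp only [m]
    rw [if_pos hxy]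
    constructor
    · rintro ⟨y, hy, h1, rfl, h2⟩
      show (ZFSet.rank y).toZFSet = _
      congr 1
      refine le_antisymm (le_csInf hne ?_) (csInf_le' (show ZFSet.rank y ∈
        {o : Ordinal.{0} | ∃ y ∈ W, R x y v ∧ ZFSet.rank y = o} from ⟨y, hy, h1, rfl⟩))
      rintro o ⟨z, hz, h3, rfl⟩
      exact rk_sub.1 (h2 z hz h3)
    · rintro rfl
      obtain ⟨y, hy, h1, h2⟩ := csInf_mem hne
      refine ⟨y, hy, h1, by rw [rk, h2], fun z hz h3 => ?_⟩
      rw [rk]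
      exact Ordinal.toZFSet_subset_toZFSet_iff.2 (csInf_le' (show ZFSet.rank z ∈
        {o : Ordinal.{0} | ∃ y ∈ W, R x y v ∧ ZFSet.rank y = o} from ⟨z, hz, h3, rfl⟩))
  have hE : DP W (fun v => ∃ y ∈ W, R (v 0) y (fun n => v (n + 1))) := by
    refine DP.ex (Q := fun y v => R (v 0) y (fun n => v (n + 1))) ?_
    exact (hR.ren fun n => match n with | 0 => 1 | 1 => 0 | n + 2 => n + 2)
  have hm : DF W (fun v => m (v 0) (fun n => v (n + 1))) := by
    refine DF.mk' (fun v hv => ?_) (P := fun α v =>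
      (∃ y ∈ W, R (v 0) y (fun n => v (n + 1)) ∧ rk y = α ∧
        ∀ z ∈ W, R (v 0) z (fun n => v (n + 1)) → α ⊆ rk z) ∨
      ((¬ ∃ y ∈ W, R (v 0) y (fun n => v (n + 1))) ∧ α = ∅)) ?_ ?_
    · simp only [m]
      split_ifs with h
      · have hne : {o : Ordinal.{0} | ∃ y ∈ W, R (v 0) y (fun n => v (n + 1)) ∧
            ZFSet.rank y = o}.Nonempty := by
          obtain ⟨y, hy, h⟩ := h
          exact ⟨_, y, hy, h, rfl⟩
        obtain ⟨y, hy, h1, h2⟩ := csInf_mem hne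
        rw [← h2]
        exact rk_mem hW hy
      · exact empty_mem hW
    · refine DP.or ?_ (DP.and (hE.ren fun n => n + 1).not (DP.eq (DF.v hW 0) (DF.empty hW)))
      refine DP.ex (Q := fun y v => R (v 1) y (fun n => v (n + 2)) ∧ rk y = v 0 ∧
        ∀ z ∈ W, R (v 1) z (fun n => v (n + 2)) → v 0 ⊆ rk z) ?_
      refine DP.and (hR.ren fun n => match n with | 0 => 2 | 1 => 0 | n + 2 => n + 3)
        (DP.and (DP.eq (DF.rk hW (DF.v hW 0)) (DF.v hW 1)) ?_)
      refine DP.all (Q := fun z v => R (v 2) z (fun n => v (n + 3)) → v 1 ⊆ rk z) ?_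
      exact DP.imp (hR.ren fun n => match n with | 0 => 3 | 1 => 0 | n + 2 => n + 4)
        (DP.sub hW (DF.v hW 2) (DF.rk hW (DF.v hW 0)))
    · intro v hv α hα
      by_cases h : ∃ y ∈ W, R (v 0) y (fun n => v (n + 1))
      · rw [← key _ (fun n => hv _) (v 0) (hv 0) h α hα]
        constructor
        · rintro (h1 | h1)
          · exact h1
          · exact absurd h h1.1
        · exact Or.inl
      · have : m (v 0) (fun n => v (n + 1)) = ∅ := by
          simp only [m]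
          rw [if_neg h]
        rw [this]
        constructor
        · rintro (⟨y, hy, h1, -⟩ | h1)
          · exact absurd ⟨y, hy, h1⟩ h
          · exact h1.2
        · exact fun h1 => Or.inr ⟨h, h1⟩
  refine ⟨sU (img (fun x => vW W (insert (m x v) (m x v))) a), ?_, fun x hx => ?_⟩
  · refine sU_mem hW (img_mem hW (g := fun x v => vW W (insert (m x v) (m x v))) ?_ hv ha)
    exact DF.vW hW (DF.ins hW hm hm)
  · have hxW := hW.transitive a ha x hx
    have hmW : m x v ∈ W := by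
      have := hm.1 (cons x v) fun n => by
        cases n
        · exact hxW
        · exact hv _
      exact this
    obtain ⟨y, hy, h1, h2, -⟩ := (key v hv x hxW (h x hx) _ hmW).2 rfl
    refine ⟨y, mem_sU.2 ⟨_, mem_img.2 ⟨x, hx, rfl⟩, mem_vW.2 ⟨hy, ?_⟩⟩, h1⟩
    rw [← rank_rk y, h2]
    exact ZFSet.rank_lt_of_mem (ZFSet.mem_insert_iff.2 (Or.inl rfl))

end Pool.Agent.CM
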