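import Mathlib
import Pool.Agent.Lib.MP_f8e9b8_lc.Coll

/-!
# MP_f8e9b8_lc : finite sequences

`lst l` codes the finite sequence `l`: `lst [] = ∅`, `lst (x :: l) = (lst l, x)`, so the head of
the list is the LAST entry of the sequence (and the entry `0`).  `Ls b` is the set of all finite
sequences of elements of `b`, `nth f i` the entry with the number `i` (counted from the end),
`Init v` the set of the initial segments of `v`, `len v` the length.
-/

set_option autoImplicit false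

namespace Pool.Agent.CM

open Pool.Agent.CR (V Fml cons Sat nat cons_zero cons_succ)

variable {W : Set V}

/-! ### the closure of `a` under pairing with the elements of `b` -/

/-- the least set which contains `a` and is closed under `z ↦ (z, y)`, `y ∈ b` -/
noncomputable def Cl (a b : V) : V := itU (fun Z => Z ∪ ZFSet.prod Z b) a

theorem Cl_base {a b : V} : a ⊆ Cl a b := fun _ h => mem_itU.2 ⟨0, h⟩

theorem Cl_pair {a b z y : V} (hz : z ∈ Cl a b) (hy : y ∈ b) : ZFSet.pair z y ∈ Cl a b := by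
  obtain ⟨n, hn⟩ := mem_itU.1 hz
  refine mem_itU.2 ⟨n + 1, ?_⟩
  rw [Function.iterate_succ_apply']
  exact ZFSet.mem_union.2 (Or.inr (ZFSet.pair_mem_prod.2 ⟨hn, hy⟩))

theorem Cl_ind {a b : V} {p : V → Prop} (h0 : ∀ z ∈ a, p z)
    (h1 : ∀ z ∈ Cl a b, p z → ∀ y ∈ b, p (ZFSet.pair z y)) : ∀ z ∈ Cl a b, p z := by
  intro z hz
  obtain ⟨n, hn⟩ := mem_itU.1 hz
  revert z
  induction n with
  | zero => intro z _ hz; exact h0 z hz
  | succ n ih =>
    intro z _ hn
    rw [Function.iterate_succ_apply'] at hn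
    rcases ZFSet.mem_union.1 hn with h | h
    · exact ih z (mem_itU.2 ⟨n, h⟩) h
    · obtain ⟨w, hw, y, hy, rfl⟩ := ZFSet.mem_prod.1 h
      exact h1 w (mem_itU.2 ⟨n, hw⟩) (ih w (mem_itU.2 ⟨n, hw⟩) hw) y hy

theorem DF.Cl (hW : IsTransModelZF W) {f g : (ℕ → V) → V} (hf : DF W f) (hg : DF W g) :
    DF W (fun v => CM.Cl (f v) (g v)) :=
  DF.itU hW (g := fun Z v => Z ∪ ZFSet.prod Z (g v))
    (DF.un hW (DF.v hW 0) (DF.prod hW (DF.v hW 0) (hg.ren fun n => n + 1))) hf

/-! ### finite sequences -/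

/-- code of a finite sequence -/
noncomputable def lst : List V → V
  | [] => ∅
  | x :: l => ZFSet.pair (lst l) x

@[simp] theorem lst_nil : lst [] = ∅ := rfl
@[simp] theorem lst_cons (x : V) (l : List V) : lst (x :: l) = ZFSet.pair (lst l) x := rfl

theorem pair_ne_empty (x y : V) : ZFSet.pair x y ≠ ∅ := by
  intro h
  have : ({x} : V) ∈ ZFSet.pair x y := by simp [ZFSet.pair]
  rw [h] at this
  exact ZFSet.notMem_empty _ this

theorem lst_injective : Function.Injective lst := by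
  intro l
  induction l with
  | nil =>
    intro l' h
    cases l' with
    | nil => rfl
    | cons x l' => exact absurd h.symm (pair_ne_empty _ _)
  | cons x l ih =>
    intro l' h
    cases l' with
    | nil => exact absurd h (pair_ne_empty _ _)
    | cons x' l' =>
      obtain ⟨h1, h2⟩ := ZFSet.pair_inj.1 h
      rw [ih h1, h2]

/-- the set of all finite sequences of elements of `b` -/
noncomputable def Ls (b : V) : V := Cl {∅} b

theorem mem_Ls {b z : V} : z ∈ Ls b ↔ ∃ l : List V, (∀ x ∈ l, x ∈ b) ∧ z = lst l := by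
  constructor
  · intro hz
    refine Cl_ind (p := fun z => ∃ l : List V, (∀ x ∈ l, x ∈ b) ∧ z = lst l) ?_ ?_ z hz
    · intro z hz
      exact ⟨[], by simp, ZFSet.mem_singleton.1 hz⟩
    · rintro z - ⟨l, hl, rfl⟩ y hy
      refine ⟨y :: l, ?_, rfl⟩
      intro x hx
      rcases List.mem_cons.1 hx with rfl | hx
      · exact hy
      · exact hl x hx
  · rintro ⟨l, hl, rfl⟩
    induction l with
    | nil => exact Cl_base (ZFSet.mem_singleton.2 rfl)
    | cons x l ih =>
      exact Cl_pair (ih fun y hy => hl y (List.mem_cons_of_mem _ hy)) (hl x List.mem_cons_self)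

theorem Ls_nil (b : V) : (∅ : V) ∈ Ls b := mem_Ls.2 ⟨[], by simp, rfl⟩

theorem Ls_pair {b u x : V} : ZFSet.pair u x ∈ Ls b ↔ u ∈ Ls b ∧ x ∈ b := by
  constructor
  · intro h
    obtain ⟨l, hl, h⟩ := mem_Ls.1 h
    cases l with
    | nil => exact absurd h (pair_ne_empty _ _)
    | cons y l =>
      obtain ⟨rfl, rfl⟩ := ZFSet.pair_inj.1 h
      exact ⟨mem_Ls.2 ⟨l, fun x hx => hl x (List.mem_cons_of_mem _ hx), rfl⟩,
        hl _ List.mem_cons_self⟩
  · rintro ⟨h1, h2⟩
    exact Cl_pair h1 h2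

theorem Ls_ind {b : V} {p : V → Prop} (h0 : p ∅)
    (h1 : ∀ u ∈ Ls b, p u → ∀ x ∈ b, p (ZFSet.pair u x)) : ∀ z ∈ Ls b, p z :=
  Cl_ind (fun z hz => by rw [ZFSet.mem_singleton.1 hz]; exact h0) h1

theorem Ls_cases {b z : V} (hz : z ∈ Ls b) :
    z = ∅ ∨ ∃ u ∈ Ls b, ∃ x ∈ b, z = ZFSet.pair u x :=
  Ls_ind (p := fun z => z = ∅ ∨ ∃ u ∈ Ls b, ∃ x ∈ b, z = ZFSet.pair u x) (Or.inl rfl)
    (fun u hu _ x hx => Or.inr ⟨u, hu, x, hx, rfl⟩) z hz

theorem DF.Ls (hW : IsTransModelZF W) {f : (ℕ → V) → V} (hf : DF W f) :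
    DF W (fun v => CM.Ls (f v)) := DF.Cl hW (DF.sgl hW (DF.empty hW)) hf

theorem fst_empty : fst ∅ = ∅ := by
  rw [ZFSet.eq_empty]
  intro y hy
  obtain ⟨z, hz, _⟩ := mem_sU.1 hy
  obtain ⟨w, hw, _⟩ := mem_sU.1 (ZFSet.mem_sep.1 hz).1
  exact ZFSet.notMem_empty _ hw

theorem snd_empty : snd ∅ = ∅ := by
  rw [ZFSet.eq_empty]
  intro y hy
  obtain ⟨z, hz, _⟩ := mem_sU.1 hy
  obtain ⟨w, hw, _⟩ := mem_sU.1 (ZFSet.mem_sep.1 hz).1
  exact ZFSet.notMem_empty _ hw

theorem fst_iter (l : List V) (n : ℕ) : fst^[n] (lst l) = lst (l.drop n) := by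
  induction n generalizing l with
  | zero => rfl
  | succ n ih =>
    rw [Function.iterate_succ_apply]
    cases l with
    | nil =>
      rw [lst_nil, fst_empty]
      have := ih []
      simpa using this
    | cons x l => rw [lst_cons, fst_pair, ih, List.drop_succ_cons]

theorem itn_fst (l : List V) (n : ℕ) : itn fst (lst l) (nat n) = lst (l.drop n) := by
  rw [itn_eq, fst_iter]

/-- the entry with the number `i` (counted from the end) -/
noncomputable def nth (f i : V) : V := snd (itn fst f i)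

theorem nth_lst (l : List V) (n : ℕ) : nth (lst l) (nat n) = l.getD n ∅ := by
  rw [nth, itn_fst]
  induction l generalizing n with
  | nil => simp [snd_empty]
  | cons x l ih =>
    cases n with
    | zero => simp
    | succ n => rw [List.drop_succ_cons, ih, List.getD_cons_succ]

theorem DF.nth (hW : IsTransModelZF W) {f g : (ℕ → V) → V} (hf : DF W f) (hg : DF W g)
    (hg' : ∀ v : ℕ → V, (∀ n, v n ∈ W) → g v ∈ CM.om) : DF W (fun v => CM.nth (f v) (g v)) :=
  DF.snd hW (DF.itn hW (g := fun z _ => CM.fst z) (DF.fst hW (DF.v hW 0)) hf hg hg')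

/-- the infinite sequence given by a finite sequence (entries counted from the end) -/
noncomputable def asg (f : V) (n : ℕ) : V := nth f (nat n)

theorem asg_lst (l : List V) (n : ℕ) : asg (lst l) n = l.getD n ∅ := nth_lst l n

theorem asg_pair {u x b : V} (hu : u ∈ Ls b) : asg (ZFSet.pair u x) = cons x (asg u) := by
  obtain ⟨l, -, rfl⟩ := mem_Ls.1 hu
  funext n
  rw [← lst_cons, asg_lst]
  cases n with
  | zero => simp
  | succ n => rw [List.getD_cons_succ, cons_succ, asg_lst]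

theorem DF.asg (hW : IsTransModelZF W) {f : (ℕ → V) → V} (hf : DF W f) (n : ℕ) :
    DF W (fun v => CM.asg (f v) n) :=
  DF.nth hW hf (DF.nat hW n) fun _ _ => mem_om.2 ⟨n, rfl⟩

theorem asg_mem {u b : V} (hu : u ∈ Ls b) (n : ℕ) : asg u n ∈ b ∨ asg u n = ∅ := by
  obtain ⟨l, hl, rfl⟩ := mem_Ls.1 hu
  rw [asg_lst]
  by_cases h : n < l.length
  · left
    rw [List.getD_eq_getElem _ _ h]
    exact hl _ (List.getElem_mem h)
  · right
    exact List.getD_eq_default _ _ (by omega)

/-! ### initial segments -/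

/-- the set of the initial segments of `v` -/
noncomputable def Init (v : V) : V := img (itn fst v) om

theorem mem_Init {u v : V} : u ∈ Init v ↔ ∃ n, u = fst^[n] v := by
  rw [Init, mem_img]
  constructor
  · rintro ⟨x, hx, rfl⟩
    obtain ⟨n, rfl⟩ := mem_om.1 hx
    exact ⟨n, itn_eq _ _ _⟩
  · rintro ⟨n, rfl⟩
    exact ⟨nat n, mem_om.2 ⟨n, rfl⟩, itn_eq _ _ _⟩

theorem mem_Init_lst {u : V} {l : List V} : u ∈ Init (lst l) ↔ ∃ n, u = lst (l.drop n) := by
  rw [mem_Init]
  simp only [fst_iter]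

theorem Init_self (v : V) : v ∈ Init v := mem_Init.2 ⟨0, rfl⟩

theorem Init_trans {u v w : V} (h1 : u ∈ Init v) (h2 : v ∈ Init w) : u ∈ Init w := by
  obtain ⟨n, rfl⟩ := mem_Init.1 h1
  obtain ⟨m, rfl⟩ := mem_Init.1 h2
  exact mem_Init.2 ⟨n + m, by rw [Function.iterate_add_apply]⟩

theorem mem_Init_pair {u v x : V} : u ∈ Init (ZFSet.pair v x) ↔ u = ZFSet.pair v x ∨ u ∈ Init v := by
  rw [mem_Init]
  constructor
  · rintro ⟨n, rfl⟩
    cases n with
    | zero => exact Or.inl rfl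
    | succ n =>
      right
      rw [Function.iterate_succ_apply, fst_pair]
      exact mem_Init.2 ⟨n, rfl⟩
  · rintro (rfl | h)
    · exact ⟨0, rfl⟩
    · obtain ⟨n, rfl⟩ := mem_Init.1 h
      exact ⟨n + 1, by rw [Function.iterate_succ_apply, fst_pair]⟩

theorem mem_Init_empty {u : V} : u ∈ Init ∅ ↔ u = ∅ := by
  rw [← lst_nil, mem_Init_lst]
  simp

theorem Init_sub {b v : V} (hv : v ∈ Ls b) : Init v ⊆ Ls b := by
  obtain ⟨l, hl, rfl⟩ := mem_Ls.1 hv
  intro u hu
  obtain ⟨n, rfl⟩ := mem_Init_lst.1 hu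
  exact mem_Ls.2 ⟨_, fun x hx => hl x (List.mem_of_mem_drop hx), rfl⟩

theorem empty_mem_Init {b v : V} (hv : v ∈ Ls b) : ∅ ∈ Init v := by
  obtain ⟨l, hl, rfl⟩ := mem_Ls.1 hv
  exact mem_Init_lst.2 ⟨l.length, by simp⟩

/-- two initial segments are comparable -/
theorem Init_linear {v u w : V} (hu : u ∈ Init v) (hw : w ∈ Init v) :
    u ∈ Init w ∨ w ∈ Init u := by
  obtain ⟨n, rfl⟩ := mem_Init.1 hu
  obtain ⟨m, rfl⟩ := mem_Init.1 hw
  rcases le_total n m with h | h
  · right
    obtain ⟨k, rfl⟩ := Nat.exists_eq_add_of_le h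
    exact mem_Init.2 ⟨k, by rw [add_comm, Function.iterate_add_apply]⟩
  · left
    obtain ⟨k, rfl⟩ := Nat.exists_eq_add_of_le h
    exact mem_Init.2 ⟨k, by rw [add_comm, Function.iterate_add_apply]⟩

/-- initial segments have smaller rank -/
theorem Init_rank {u v : V} (h : u ∈ Init v) (hb : ∃ b, v ∈ Ls b) :
    u = v ∨ ZFSet.rank u < ZFSet.rank v := by
  obtain ⟨b, hb⟩ := hb
  revert u
  refine Ls_ind (b := b) (p := fun v => ∀ {u : V}, u ∈ Init v → u = v ∨ ZFSet.rank u <
    ZFSet.rank v) ?_ ?_ v hb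
  · intro u hu
    exact Or.inl (mem_Init_empty.1 hu)
  · intro v _ ih x _ u hu
    rcases mem_Init_pair.1 hu with rfl | hu
    · exact Or.inl rfl
    · right
      have h1 : ZFSet.rank v < ZFSet.rank (ZFSet.pair v x) := by
        have h2 : v ∈ ({v} : V) := ZFSet.mem_singleton.2 rfl
        have h3 : ({v} : V) ∈ ZFSet.pair v x := by simp [ZFSet.pair]
        exact (ZFSet.rank_lt_of_mem h2).trans (ZFSet.rank_lt_of_mem h3)
      rcases ih hu with rfl | h
      · exact h1
      · exact h.trans h1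

theorem Init_antisymm {b u v : V} (hu : u ∈ Ls b) (hv : v ∈ Ls b) (h1 : u ∈ Init v)
    (h2 : v ∈ Init u) : u = v := by
  rcases Init_rank h1 ⟨b, hv⟩ with h | h
  · exact h
  · rcases Init_rank h2 ⟨b, hu⟩ with h' | h'
    · exact h'.symm
    · exact absurd (h.trans h') (lt_irrefl _)

theorem DF.Init (hW : IsTransModelZF W) {f : (ℕ → V) → V} (hf : DF W f) :
    DF W (fun v => CM.Init (f v)) := by
  classical
  have h1 : DF W (fun v => CM.img (fun x => CM.itn CM.fst (f v) (if x ∈ CM.om then x else ∅))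
      CM.om) := by
    refine DF.img hW (DF.om hW) (g := fun x v => CM.itn CM.fst (f v)
      (if x ∈ CM.om then x else ∅)) ?_
    refine DF.itn hW (g := fun z _ => CM.fst z) (DF.fst hW (DF.v hW 0)) (hf.ren fun n => n + 1)
      (DF.ite (DP.mem (DF.v hW 0) (DF.om hW)) (DF.v hW 0) (DF.empty hW)) ?_
    intro v _
    split_ifs with h
    · exact h
    · exact mem_om.2 ⟨0, rfl⟩
  refine h1.congr fun v _ => ?_
  rw [CM.Init]
  exact img_congr fun x hx => by rw [if_pos hx]

/-- the length -/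
noncomputable def len (v : V) : V := ZFSet.sep (fun n => itn fst v n ≠ ∅) om

theorem len_lst (l : List V) : len (lst l) = nat l.length := by
  refine ZFSet.ext fun x => ?_
  rw [len, ZFSet.mem_sep, mem_nat]
  constructor
  · rintro ⟨hx, h⟩
    obtain ⟨n, rfl⟩ := mem_om.1 hx
    rw [itn_fst] at h
    refine ⟨n, ?_, rfl⟩
    by_contra hn
    rw [List.drop_eq_nil_of_le (by omega)] at h
    exact h rfl
  · rintro ⟨n, hn, rfl⟩
    refine ⟨mem_om.2 ⟨n, rfl⟩, ?_⟩
    rw [itn_fst]
    intro h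
    have := lst_injective (show lst (l.drop n) = lst [] from h)
    rw [List.drop_eq_nil_iff] at this
    omega

theorem DF.len (hW : IsTransModelZF W) {f : (ℕ → V) → V} (hf : DF W f) :
    DF W (fun v => CM.len (f v)) := by
  classical
  have h1 : DF W (fun v => ZFSet.sep (fun x => CM.itn CM.fst (f v)
      (if x ∈ CM.om then x else ∅) ≠ ∅) CM.om) := by
    refine DF.sep hW (DF.om hW) (P := fun x v => CM.itn CM.fst (f v)
      (if x ∈ CM.om then x else ∅) ≠ ∅) ?_
    refine DP.not (DP.eq ?_ (DF.empty hW))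
    refine DF.itn hW (g := fun z _ => CM.fst z) (DF.fst hW (DF.v hW 0)) (hf.ren fun n => n + 1)
      (DF.ite (DP.mem (DF.v hW 0) (DF.om hW)) (DF.v hW 0) (DF.empty hW)) ?_
    intro v _
    split_ifs with h
    · exact h
    · exact mem_om.2 ⟨0, rfl⟩
  refine h1.congr fun v _ => ?_
  refine ZFSet.ext fun x => ?_
  rw [CM.len, ZFSet.mem_sep, ZFSet.mem_sep]
  constructor
  · rintro ⟨h1, h2⟩
    exact ⟨h1, by rwa [if_pos h1]⟩
  · rintro ⟨h1, h2⟩
    exact ⟨h1, by rwa [if_pos h1] at h2⟩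

end Pool.Agent.CM
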