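import Mathlib
import Pool.Agent.Lib.MP_f8e9b8_lc.Lists

/-!
# MP_f8e9b8_lc : forcing over a transitive model, definitions

The conditions are the elements of a set `P`, ordered by inclusion (`q ⊆ p`: `q` is stronger).
Every set is a name; `val G τ` is the value of the name `τ`.
-/

set_option autoImplicit false

namespace Pool.Agent.CM

open Pool.Agent.CR (V Fml cons Sat nat cons_zero cons_succ)

variable {W : Set V}

/-- the relation `r` (a set of pairs) is, from outside, a strict well order of the set `X`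
(transitivity is not required) -/
def WOn (r X : V) : Prop :=
  (∀ x ∈ X, ∀ y ∈ X, x ≠ y → ZFSet.pair x y ∈ r ∨ ZFSet.pair y x ∈ r) ∧
  ∀ Y : Set V, Y.Nonempty → (∀ y ∈ Y, y ∈ X) → ∃ m ∈ Y, ∀ y ∈ Y, ZFSet.pair y m ∉ r

/-- ground models: transitive models of `ZF` in which every set has a well order -/
structure GM (M : Set V) : Prop where
  zf : IsTransModelZF M
  wo : ∀ X ∈ M, ∃ r ∈ M, WOn r X

/-- `G` is an `M`-generic filter on `P` with the weakest condition `t` -/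
structure Gen (M : Set V) (P t : V) (G : Set V) : Prop where
  memP : P ∈ M
  top : t ∈ P ∧ ∀ p ∈ P, p ⊆ t
  topG : t ∈ G
  sub : ∀ p ∈ G, p ∈ P
  up : ∀ p ∈ G, ∀ q ∈ P, p ⊆ q → q ∈ G
  dir : ∀ p ∈ G, ∀ q ∈ G, ∃ r ∈ G, r ⊆ p ∧ r ⊆ q
  gen : ∀ D ∈ M, D ⊆ P → (∀ p ∈ P, ∃ q ∈ D, q ⊆ p) → ∃ p ∈ G, p ∈ D

open Classical in
/-- the value of a name -/
noncomputable def val (G : Set V) : V → V :=
  recT fun τ h => img (fun q => ap h (fst q))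
    (ZFSet.sep (fun q => ∃ σ p, q = ZFSet.pair σ p ∧ p ∈ G) τ)

theorem mem_tc_of_pair {σ p τ : V} (h : ZFSet.pair σ p ∈ τ) : σ ∈ tc τ := by
  have h1 : ({σ} : V) ∈ tc τ := tc_trans τ _ (mem_tc_of_mem h) (by simp [ZFSet.pair])
  exact tc_trans τ _ h1 (ZFSet.mem_singleton.2 rfl)

theorem mem_val {G : Set V} {τ y : V} :
    y ∈ val G τ ↔ ∃ σ p, ZFSet.pair σ p ∈ τ ∧ p ∈ G ∧ y = val G σ := by
  rw [val, recT_eq, mem_img]
  constructor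
  · rintro ⟨q, hq, rfl⟩
    obtain ⟨hq, σ, p, rfl, hp⟩ := ZFSet.mem_sep.1 hq
    exact ⟨σ, p, hq, hp, by rw [fst_pair, ap_gr (mem_tc_of_pair hq)]⟩
  · rintro ⟨σ, p, hq, hp, rfl⟩
    exact ⟨ZFSet.pair σ p, ZFSet.mem_sep.2 ⟨hq, σ, p, rfl, hp⟩, by
      rw [fst_pair, ap_gr (mem_tc_of_pair hq)]⟩

/-- the generic extension -/
def Ext (M : Set V) (G : Set V) : Set V := {x | ∃ τ ∈ M, x = val G τ}

/-- the pairs `(σ, p)`, `σ ∈ X`, `p ∈ P` such that `p` forces `τ = σ` -/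
noncomputable def FE (P X : V) : V → V :=
  recT fun τ h => ZFSet.sep (fun z =>
    (∀ π ∈ tc τ, ∀ r ∈ P, ZFSet.pair π r ∈ τ → ∀ q ∈ P, q ⊆ snd z → q ⊆ r →
      ∃ q' ∈ P, q' ⊆ q ∧ ∃ ρ ∈ X, ∃ s ∈ P, ZFSet.pair ρ s ∈ fst z ∧ q' ⊆ s ∧
        ZFSet.pair ρ q' ∈ ap h π) ∧
    (∀ ρ ∈ X, ∀ s ∈ P, ZFSet.pair ρ s ∈ fst z → ∀ q ∈ P, q ⊆ snd z → q ⊆ s →
      ∃ q' ∈ P, q' ⊆ q ∧ ∃ π ∈ tc τ, ∃ r ∈ P, ZFSet.pair π r ∈ τ ∧ q' ⊆ r ∧
        ZFSet.pair ρ q' ∈ ap h π)) (ZFSet.prod X P)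

/-- `p` forces `τ = σ` -/
def fEq (P p τ σ : V) : Prop := ZFSet.pair σ p ∈ FE P (tcs σ) τ

/-- `p` forces `π ∈ σ` -/
def fMem (P p π σ : V) : Prop :=
  ∀ q ∈ P, q ⊆ p → ∃ q' ∈ P, q' ⊆ q ∧ ∃ ρ s, ZFSet.pair ρ s ∈ σ ∧ s ∈ P ∧ q' ⊆ s ∧
    fEq P q' π ρ

/-- the forcing relation -/
def Fo (M : Set V) (P : V) : Fml → V → (ℕ → V) → Prop
  | .bot, _, _ => False
  | .mem i j, p, v => fMem P p (v i) (v j)
  | .eq i j, p, v => fEq P p (v i) (v j)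
  | .imp φ ψ, p, v => ∀ q ∈ P, q ⊆ p → Fo M P φ q v → Fo M P ψ q v
  | .all φ, p, v => ∀ x ∈ M, Fo M P φ p (cons x v)

end Pool.Agent.CM
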