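import Mathlib
import Pool.Agent.Lib.MP_f8e9b8_lc.Lists

/-!
# MP_f8e9b8_lc : the constructible hierarchy

`opL` comprises seven operations which generate all definable subsets; `Step A` is closed under one
application of them, `Sg α` is the level `α`, `Lc W` is the union of the levels in `W`.
-/

set_option autoImplicit false

namespace Pool.Agent.CM

open Pool.Agent.CR (V Fml cons Sat nat cons_zero cons_succ)

variable {W : Set V}

open Classical in
/-- the operations; `a` is a set, finite sequences of elements of `a` are assignments -/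
noncomputable def opL (k a b c : V) : V :=
  if k = nat 0 then insert b a else
  if k = nat 1 then ZFSet.pair a b else
  if k = nat 2 then (if b ∈ om ∧ c ∈ om then ZFSet.sep (fun f => nth f b ∈ nth f c) (Ls a)
    else ∅) else
  if k = nat 3 then (if b ∈ om ∧ c ∈ om then ZFSet.sep (fun f => nth f b = nth f c) (Ls a)
    else ∅) else
  if k = nat 4 then ZFSet.sep (fun f => f ∈ b → f ∈ c) (Ls a) else
  if k = nat 5 then ZFSet.sep (fun f => ∀ x ∈ a, ZFSet.pair f x ∈ b) (Ls a) else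
  ZFSet.sep (fun z => ZFSet.pair c z ∈ b) a

/-- one step of the hierarchy -/
noncomputable def Step (A : V) : V :=
  insert A A ∪ sU (img (fun k => sU (img (fun a => sU (img (fun b => img (fun c => opL k a b c)
    A) A)) A)) A)

theorem mem_Step {A x : V} : x ∈ Step A ↔ x ∈ A ∨ x = A ∨
    ∃ k ∈ A, ∃ a ∈ A, ∃ b ∈ A, ∃ c ∈ A, x = opL k a b c := by
  rw [Step, ZFSet.mem_union, ZFSet.mem_insert_iff, mem_sU]
  constructor
  · rintro ((h | h) | ⟨u, hu, h⟩)
    · exact Or.inr (Or.inl h)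
    · exact Or.inl h
    · obtain ⟨k, hk, rfl⟩ := mem_img.1 hu
      obtain ⟨u, hu, h⟩ := mem_sU.1 h
      obtain ⟨a, ha, rfl⟩ := mem_img.1 hu
      obtain ⟨u, hu, h⟩ := mem_sU.1 h
      obtain ⟨b, hb, rfl⟩ := mem_img.1 hu
      obtain ⟨c, hc, rfl⟩ := mem_img.1 h
      exact Or.inr (Or.inr ⟨k, hk, a, ha, b, hb, c, hc, rfl⟩)
  · rintro (h | h | ⟨k, hk, a, ha, b, hb, c, hc, rfl⟩)
    · exact Or.inl (Or.inr h)
    · exact Or.inl (Or.inl h)
    · exact Or.inr ⟨_, mem_img.2 ⟨k, hk, rfl⟩, mem_sU.2 ⟨_, mem_img.2 ⟨a, ha, rfl⟩,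
        mem_sU.2 ⟨_, mem_img.2 ⟨b, hb, rfl⟩, mem_img.2 ⟨c, hc, rfl⟩⟩⟩⟩

/-- the levels of the hierarchy -/
noncomputable def Sg : V → V := rec0 fun x h => sU (img (fun y => Step (ap h y)) x)

theorem Sg_eq (x : V) : Sg x = sU (img (fun y => Step (Sg y)) x) := by
  rw [Sg, rec0_eq]
  congr 1
  exact img_congr fun y hy => by rw [ap_gr hy]

theorem mem_Sg {x z : V} : z ∈ Sg x ↔ ∃ y ∈ x, z ∈ Step (Sg y) := by
  rw [Sg_eq, mem_sU]
  constructor
  · rintro ⟨u, hu, h⟩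
    obtain ⟨y, hy, rfl⟩ := mem_img.1 hu
    exact ⟨y, hy, h⟩
  · rintro ⟨y, hy, h⟩
    exact ⟨_, mem_img.2 ⟨y, hy, rfl⟩, h⟩

/-- the constructible sets of `W` -/
def Lc (W : Set V) : Set V := {x | ∃ α ∈ W, α.IsOrdinal ∧ x ∈ Sg α}

/-! ### definability -/

open Classical in
theorem DF.opL (hW : IsTransModelZF W) {k a b c : (ℕ → V) → V} (hk : DF W k) (ha : DF W a)
    (hb : DF W b) (hc : DF W c) : DF W (fun v => CM.opL (k v) (a v) (b v) (c v)) := by
  have h0 : ∀ _ : ℕ → V, Pool.Agent.CR.nat 0 ∈ CM.om := fun _ => mem_om.2 ⟨0, rfl⟩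
  -- the entries with a number replaced by `0` if it is not a natural number
  let b' : (ℕ → V) → V := fun v => if b v ∈ CM.om then b v else Pool.Agent.CR.nat 0
  let c' : (ℕ → V) → V := fun v => if c v ∈ CM.om then c v else Pool.Agent.CR.nat 0
  have hb' : DF W b' := DF.ite (DP.mem hb (DF.om hW)) hb (DF.nat hW 0)
  have hc' : DF W c' := DF.ite (DP.mem hc (DF.om hW)) hc (DF.nat hW 0)
  have hb'' : ∀ v, b' v ∈ CM.om := fun v => by
    simp only [b']
    split_ifs with h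
    · exact h
    · exact h0 v
  have hc'' : ∀ v, c' v ∈ CM.om := fun v => by
    simp only [c']
    split_ifs with h
    · exact h
    · exact h0 v
  have hE : DF W (fun v => if b v ∈ CM.om ∧ c v ∈ CM.om then
      ZFSet.sep (fun f => CM.nth f (b' v) ∈ CM.nth f (c' v)) (CM.Ls (a v)) else ∅) := by
    refine DF.ite ((DP.mem hb (DF.om hW)).and (DP.mem hc (DF.om hW))) ?_ (DF.empty hW)
    refine DF.sep hW (DF.Ls hW ha) (P := fun f v => CM.nth f (b' v) ∈ CM.nth f (c' v)) ?_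
    exact DP.mem (DF.nth hW (DF.v hW 0) (hb'.ren fun n => n + 1) fun v _ => hb'' _)
      (DF.nth hW (DF.v hW 0) (hc'.ren fun n => n + 1) fun v _ => hc'' _)
  have hQ : DF W (fun v => if b v ∈ CM.om ∧ c v ∈ CM.om then
      ZFSet.sep (fun f => CM.nth f (b' v) = CM.nth f (c' v)) (CM.Ls (a v)) else ∅) := by
    refine DF.ite ((DP.mem hb (DF.om hW)).and (DP.mem hc (DF.om hW))) ?_ (DF.empty hW)
    refine DF.sep hW (DF.Ls hW ha) (P := fun f v => CM.nth f (b' v) = CM.nth f (c' v)) ?_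
    exact DP.eq (DF.nth hW (DF.v hW 0) (hb'.ren fun n => n + 1) fun v _ => hb'' _)
      (DF.nth hW (DF.v hW 0) (hc'.ren fun n => n + 1) fun v _ => hc'' _)
  have hI : DF W (fun v => ZFSet.sep (fun f => f ∈ b v → f ∈ c v) (CM.Ls (a v))) :=
    DF.sep hW (DF.Ls hW ha) (P := fun f v => f ∈ b v → f ∈ c v)
      ((DP.mem (DF.v hW 0) (hb.ren fun n => n + 1)).imp (DP.mem (DF.v hW 0) (hc.ren fun n => n + 1)))
  have hA : DF W (fun v => ZFSet.sep (fun f => ∀ x ∈ a v, ZFSet.pair f x ∈ b v) (CM.Ls (a v))) :=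
    DF.sep hW (DF.Ls hW ha) (P := fun f v => ∀ x ∈ a v, ZFSet.pair f x ∈ b v)
      (DP.ball hW (ha.ren fun n => n + 1) (Q := fun x v => ZFSet.pair (v 0) x ∈
        b (fun n => v (n + 1))) (DP.mem (DF.pair hW (DF.v hW 1) (DF.v hW 0))
          (hb.ren fun n => n + 2)))
  have hS : DF W (fun v => ZFSet.sep (fun z => ZFSet.pair (c v) z ∈ b v) (a v)) :=
    DF.sep hW ha (P := fun z v => ZFSet.pair (c v) z ∈ b v)
      (DP.mem (DF.pair hW (hc.ren fun n => n + 1) (DF.v hW 0)) (hb.ren fun n => n + 1))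
  have := DF.ite (DP.eq hk (DF.nat hW 0)) (DF.ins hW hb ha)
    (DF.ite (DP.eq hk (DF.nat hW 1)) (DF.pair hW ha hb)
    (DF.ite (DP.eq hk (DF.nat hW 2)) hE (DF.ite (DP.eq hk (DF.nat hW 3)) hQ
    (DF.ite (DP.eq hk (DF.nat hW 4)) hI (DF.ite (DP.eq hk (DF.nat hW 5)) hA hS)))))
  refine this.congr fun v _ => ?_
  unfold CM.opL
  by_cases h : b v ∈ CM.om ∧ c v ∈ CM.om
  · have e1 : b' v = b v := if_pos h.1
    have e2 : c' v = c v := if_pos h.2
    rw [e1, e2]
  · simp only [if_neg h]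

theorem DF.Step (hW : IsTransModelZF W) {f : (ℕ → V) → V} (hf : DF W f) :
    DF W (fun v => CM.Step (f v)) := by
  refine DF1.app (F := CM.Step) ?_ hf
  refine DF.un hW (DF.ins hW (DF.v hW 0) (DF.v hW 0)) ?_
  refine DF.bU hW (DF.v hW 0) (g := fun k v => CM.sU (CM.img (fun a => CM.sU (CM.img (fun b =>
    CM.img (fun c => CM.opL k a b c) (v 0)) (v 0))) (v 0))) ?_
  refine DF.bU hW (DF.v hW 1) (g := fun a v => CM.sU (CM.img (fun b =>
    CM.img (fun c => CM.opL (v 0) a b c) (v 1)) (v 1))) ?_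
  refine DF.bU hW (DF.v hW 2) (g := fun b v =>
    CM.img (fun c => CM.opL (v 1) (v 0) b c) (v 2)) ?_
  refine DF.img hW (DF.v hW 3) (g := fun c v => CM.opL (v 2) (v 1) (v 0) c) ?_
  exact DF.opL hW (DF.v hW 3) (DF.v hW 2) (DF.v hW 1) (DF.v hW 0)

theorem DF.Sg (hW : IsTransModelZF W) {f : (ℕ → V) → V} (hf : DF W f) :
    DF W (fun v => CM.Sg (f v)) := by
  refine DF.rec0 hW (G := fun _ x h => CM.sU (CM.img (fun y => CM.Step (CM.ap h y)) x)) ?_ hf
  exact DF.bU hW (DF.v hW 0) (g := fun y v => CM.Step (CM.ap (v 1) y))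
    (DF.Step hW (DF.ap hW (DF.v hW 2) (DF.v hW 0)))

theorem Sg_mem (hW : IsTransModelZF W) {x : V} (hx : x ∈ W) : Sg x ∈ W :=
  (DF.Sg hW (DF.v hW 0)).1 (fun _ => x) fun _ => hx

/-- the constructible sets belong to every transitive model with the same ordinals -/
theorem Lc_sub {W' : Set V} (hW' : IsTransModelZF W')
    (h : ∀ α ∈ W, α.IsOrdinal → α ∈ W') : Lc W ⊆ W' := by
  rintro x ⟨α, hα, ho, hx⟩
  exact hW'.transitive _ (Sg_mem hW' (h α hα ho)) x hx

end Pool.Agent.CM
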