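import Mathlib
import Pool.Agent.Lib.MP_f8e9b8_lc.FDefs
import Pool.Agent.Lib.MP_f8e9b8_lc.LDefs

/-!
# MP_f8e9b8_lc : well orders of the levels, Laver trees, definitions
-/

set_option autoImplicit false

namespace Pool.Agent.CM

open Pool.Agent.CR (V Fml cons Sat nat cons_zero cons_succ)

/-! ### the constructible hierarchy -/

/-- the level `γ` contains witnesses for the quantifiers of the formula -/
def CLo (W : Set V) (γ : V) : Fml → Prop
  | .bot => True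
  | .mem _ _ => True
  | .eq _ _ => True
  | .imp φ ψ => CLo W γ φ ∧ CLo W γ ψ
  | .all φ => CLo W γ φ ∧ ∀ v : ℕ → V, (∀ n, v n ∈ Sg γ) →
      (∃ x ∈ Lc W, ¬ Sat (Lc W) φ (cons x v)) → ∃ x ∈ Sg γ, ¬ Sat (Lc W) φ (cons x v)

/-- the lexicographic order of quadruples -/
def Lx (r k a b c k' a' b' c' : V) : Prop :=
  ZFSet.pair k k' ∈ r ∨ (k = k' ∧ (ZFSet.pair a a' ∈ r ∨ (a = a' ∧ (ZFSet.pair b b' ∈ r ∨
    (b = b' ∧ ZFSet.pair c c' ∈ r)))))

/-- the order of the new elements of `Step A`, given the order `r` of `A` -/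
def OL (A r x y : V) : Prop :=
  (x = A ∧ y ≠ A) ∨ (x ≠ A ∧ y ≠ A ∧ ∃ k ∈ A, ∃ a ∈ A, ∃ b ∈ A, ∃ c ∈ A, opL k a b c = x ∧
    ∀ k' ∈ A, ∀ a' ∈ A, ∀ b' ∈ A, ∀ c' ∈ A, opL k' a' b' c' = y → Lx r k a b c k' a' b' c')

/-- the part of the order belonging to one step -/
noncomputable def Rst (A r : V) : V :=
  ZFSet.prod A (Step A \ A) ∪
    ZFSet.sep (fun p => OL A r (fst p) (snd p)) (ZFSet.prod (Step A \ A) (Step A \ A))

/-- well orders of the levels -/
noncomputable def Rg : V → V := rec0 fun x h => sU (img (fun y => Rst (Sg y) (ap h y)) x)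

/-! ### maps onto ordinals -/

/-- in `M` there is a function which maps `Y` onto a superset of `β` -/
def Onto (M : Set V) (Y β : V) : Prop := ∃ f ∈ M, ∀ ξ ∈ β, ∃ y ∈ Y, ap f y = ξ

/-- `κ` is an ordinal of `M` such that the functions from `H` to `κ` are bounded -/
structure Kap (M : Set V) (κ H : V) : Prop where
  mem : κ ∈ M
  memH : H ∈ M
  ord : κ.IsOrdinal
  zero : ∅ ∈ κ
  succ : ∀ β ∈ κ, insert β β ∈ κ
  bd : ∀ f ∈ M, (∀ x ∈ H, ap f x ∈ κ) → ∃ β ∈ κ, ∀ x ∈ H, ap f x ⊆ β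

/-! ### Laver trees -/

/-- trees of finite sequences in `κ` -/
def Tree (κ T : V) : Prop := T ⊆ Ls κ ∧ ∀ v ∈ T, Init v ⊆ T

/-- `T` is a tree with the stem `t` such that the nodes above the stem have unboundedly many
successors -/
def Lav (κ T t : V) : Prop :=
  Tree κ T ∧ t ∈ T ∧ (∀ u ∈ T, u ∈ Init t ∨ t ∈ Init u) ∧
    ∀ u ∈ T, t ∈ Init u → ∀ β ∈ κ, ∃ α ∈ κ, β ⊆ α ∧ ZFSet.pair u α ∈ T

/-- the set of conditions -/
noncomputable def PL (M : Set V) (κ : V) : V :=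
  ZFSet.sep (fun T => ∃ t ∈ Ls κ, Lav κ T t) (pwr M (Ls κ))

/-- `b` is (the set of the initial segments of) an infinite sequence in `κ` -/
structure Br (κ b : V) : Prop where
  sub : b ⊆ Ls κ
  zero : ∅ ∈ b
  init : ∀ v ∈ b, Init v ⊆ b
  next : ∀ u ∈ b, ∃ α ∈ κ, ZFSet.pair u α ∈ b
  uniq : ∀ u α β, ZFSet.pair u α ∈ b → ZFSet.pair u β ∈ b → α = β

/-- `g` is a function from `Ls κ` to `κ` -/
def Fn (κ g : V) : Prop := ∀ u ∈ Ls κ, ap g u ∈ κ

/-- the branch `b` exceeds the bounds given by `g` above `t` -/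
def Fre (g b t : V) : Prop := ∀ u ∈ b, t ∈ Init u → ∀ α, ZFSet.pair u α ∈ b → ap g u ⊆ α

/-- for all bounds the tree `T` has a branch through `t` exceeding them above `t` -/
def Pos (M : Set V) (κ T t : V) : Prop :=
  ∀ g ∈ M, Fn κ g → ∃ b ∈ M, Br κ b ∧ b ⊆ T ∧ t ∈ b ∧ Fre g b t

/-- `D` is an open subset of `P` -/
def OpenD (P D : V) : Prop := D ⊆ P ∧ ∀ p ∈ D, ∀ q ∈ P, q ⊆ p → q ∈ D

/-- `D` is dense in `P` -/
def DenseD (P D : V) : Prop := ∀ p ∈ P, ∃ q ∈ D, q ⊆ p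

/-- some element of `D` below `S` has the stem `v` -/
def Good (κ D S v : V) : Prop := ∃ S' ∈ D, S' ⊆ S ∧ Lav κ S' v

/-- the nodes of `S` which are compatible with `u` and have no good node strictly above `u` before
them -/
noncomputable def BadT (κ D S u : V) : V :=
  ZFSet.sep (fun v => v ∈ Init u ∨ (u ∈ Init v ∧ ∀ w ∈ Init v, u ∈ Init w → w ≠ u →
    ¬ Good κ D S w)) S

/-- the least element of `Z` with respect to `r` -/
noncomputable def lea (r Z : V) : V := sU (ZFSet.sep (fun m => ∀ y ∈ Z, ZFSet.pair y m ∉ r) Z)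

open Classical in
/-- the next state at the node `v`; states are pairs (current tree, stage) -/
noncomputable def nxt (κ D r t σ v : V) : V :=
  if t ∈ Init v ∧ Good κ (ap D (snd σ)) (fst σ) v then
    ZFSet.pair (lea r (ZFSet.sep (fun S' => S' ⊆ fst σ ∧ Lav κ S' v) (ap D (snd σ))))
      (insert (snd σ) (snd σ))
  else σ

open Classical in
/-- the state at a node -/
noncomputable def stt (κ D r t T : V) : V → V :=
  recT fun v h => nxt κ D r t (if v = ∅ then ZFSet.pair T ∅ else ap h (fst v)) v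

/-- the nodes which stay in the current trees -/
noncomputable def TT (κ D r t T : V) : V :=
  ZFSet.sep (fun v => ∀ w ∈ Init v, w = ∅ ∨ w ∈ fst (stt κ D r t T (fst w))) (Ls κ)

/-- the situation of the fusion argument -/
structure Sit (M : Set V) (κ H D r t T : V) : Prop where
  gm : GM M
  kap : Kap M κ H
  memD : D ∈ M
  opn : ∀ n ∈ om, OpenD (PL M κ) (ap D n)
  dns : ∀ n ∈ om, DenseD (PL M κ) (ap D n)
  memr : r ∈ M
  wo : WOn r (PL M κ)
  memT : T ∈ M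
  lav : Lav κ T t

/-- the generic branch -/
noncomputable def bG (κ : V) (G : Set V) : V := ZFSet.sep (fun u => ∀ T ∈ G, u ∈ T) (Ls κ)

/-- the generic sequence -/
noncomputable def fG (κ : V) (G : Set V) : V :=
  img (fun z => ZFSet.pair (len (fst z)) (snd z)) (ZFSet.sep (fun z => z ≠ ∅) (bG κ G))

/-! ### the final statement -/

/-- `f` is a function from `a` to `b` (as a set of pairs) -/
abbrev FnV (a b f : V) : Prop := ZFSet.IsFunc a b f

/-- the countable sequence `s` as a set -/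
noncomputable def seqV (s : ℕ → V) : V := ZFSet.range (fun n => ZFSet.pair (nat n) (s n))

/-- `W` is an inner model of `N`: a transitive model of `ZF` contained in `N` which contains all
ordinals of `N` -/
def IsInner (N W : Set V) : Prop := W ⊆ N ∧ IsTransModelZF W ∧ ∀ α ∈ N, α.IsOrdinal → α ∈ W

/-- `C` is the Chang model of `N`: the least inner model which contains all countable sequences of
ordinals -/
def IsChang (N C : Set V) : Prop :=
  IsInner N C ∧ (∀ s : ℕ → V, (∀ n, (s n).IsOrdinal) → seqV s ∈ N → seqV s ∈ C) ∧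
    ∀ W, IsInner N W → (∀ s : ℕ → V, (∀ n, (s n).IsOrdinal) → seqV s ∈ N → seqV s ∈ W) → C ⊆ W

/-- `K` is the model `L(ℝ)` of `N`: the least inner model which contains all reals (subsets of
`ω`) of `N` -/
def IsLR (N K : Set V) : Prop :=
  IsInner N K ∧ (∀ x ∈ N, x ⊆ om → x ∈ K) ∧
    ∀ W, IsInner N W → (∀ x ∈ N, x ⊆ om → x ∈ W) → K ⊆ W

/-- `κ` is an uncountable regular cardinal of `K` -/
def RegIn (K : Set V) (κ : V) : Prop :=
  κ ∈ K ∧ κ.IsOrdinal ∧ om ∈ κ ∧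
    ∀ μ ∈ κ, ∀ f ∈ K, FnV μ κ f → ∃ β ∈ κ, ∀ x y, ZFSet.pair x y ∈ f → y ∈ β

/-- `κ` is a measurable cardinal of `K`: there is a `κ`-complete nonprincipal ultrafilter on `κ` -/
def MeasIn (K : Set V) (κ : V) : Prop :=
  κ ∈ K ∧ κ.IsOrdinal ∧ om ∈ κ ∧ ∃ U ∈ K, (∀ X ∈ U, X ⊆ κ) ∧ κ ∈ U ∧ ∅ ∉ U ∧
    (∀ X ∈ U, ∀ Y ∈ K, X ⊆ Y → Y ⊆ κ → Y ∈ U) ∧
    (∀ X ∈ K, X ⊆ κ → X ∈ U ∨ κ \ X ∈ U) ∧
    (∀ ξ ∈ κ, ({ξ} : V) ∉ U) ∧
    ∀ μ ∈ κ, ∀ f ∈ K, FnV μ U f →
      ZFSet.sep (fun β => ∀ x y, ZFSet.pair x y ∈ f → β ∈ y) κ ∈ U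

end Pool.Agent.CM
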