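import Mathlib
import Pool.Agent.Lib.MP_f8e9b8_lc.TDefs

/-!
# MP_f8e9b8_lc : well orders, choice in the ground model, ordinals, definability of the notions
-/

set_option autoImplicit false

namespace Pool.Agent.CM

open Pool.Agent.CR (V Fml cons Sat nat cons_zero cons_succ)

variable {W M : Set V}

/-! ### assignments -/

theorem cons_mem {x : V} {v : ℕ → V} (hx : x ∈ W) (hv : ∀ n, v n ∈ W) : ∀ n, cons x v n ∈ W := by
  intro n
  cases n
  · exact hx
  · exact hv _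

theorem const_mem {x : V} (hx : x ∈ W) : ∀ n : ℕ, (fun _ => x : ℕ → V) n ∈ W := fun _ => hx

/-- a value of a definable function of one variable -/
theorem DF.mem1 {F : V → V} (hF : DF W (fun v => F (v 0))) {x : V} (hx : x ∈ W) : F x ∈ W :=
  hF.1 (fun _ => x) fun _ => hx

theorem DF.mem2 {F : V → V → V} (hF : DF W (fun v => F (v 0) (v 1))) {x y : V} (hx : x ∈ W)
    (hy : y ∈ W) : F x y ∈ W :=
  hF.1 (cons x fun _ => y) (cons_mem hx fun _ => hy)

theorem DF.mem3 {F : V → V → V → V} (hF : DF W (fun v => F (v 0) (v 1) (v 2))) {x y z : V}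
    (hx : x ∈ W) (hy : y ∈ W) (hz : z ∈ W) : F x y z ∈ W :=
  hF.1 (cons x (cons y fun _ => z)) (cons_mem hx (cons_mem hy fun _ => hz))

theorem DF.mem4 {F : V → V → V → V → V} (hF : DF W (fun v => F (v 0) (v 1) (v 2) (v 3)))
    {x y z u : V} (hx : x ∈ W) (hy : y ∈ W) (hz : z ∈ W) (hu : u ∈ W) : F x y z u ∈ W :=
  hF.1 (cons x (cons y (cons z fun _ => u))) (cons_mem hx (cons_mem hy (cons_mem hz fun _ => hu)))

/-! ### separation, images, functions in the model, in the form used most often -/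

theorem pair_mem (hW : IsTransModelZF W) {x y : V} (hx : x ∈ W) (hy : y ∈ W) :
    ZFSet.pair x y ∈ W := (DF.pair hW (DF.v hW 0) (DF.v hW 1)).mem2 (F := ZFSet.pair) hx hy

theorem ins_mem (hW : IsTransModelZF W) {x y : V} (hx : x ∈ W) (hy : y ∈ W) :
    (insert x y : V) ∈ W := (DF.ins hW (DF.v hW 0) (DF.v hW 1)).mem2 (F := fun x y => insert x y) hx hy

theorem sgl_mem (hW : IsTransModelZF W) {x : V} (hx : x ∈ W) : ({x} : V) ∈ W :=
  (DF.sgl hW (DF.v hW 0)).mem1 (F := fun x => {x}) hx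

theorem un_mem (hW : IsTransModelZF W) {x y : V} (hx : x ∈ W) (hy : y ∈ W) : x ∪ y ∈ W :=
  (DF.un hW (DF.v hW 0) (DF.v hW 1)).mem2 (F := fun x y => x ∪ y) hx hy

theorem prod_mem (hW : IsTransModelZF W) {x y : V} (hx : x ∈ W) (hy : y ∈ W) :
    ZFSet.prod x y ∈ W := (DF.prod hW (DF.v hW 0) (DF.v hW 1)).mem2 (F := ZFSet.prod) hx hy

theorem ap_mem (hW : IsTransModelZF W) {x y : V} (hx : x ∈ W) (hy : y ∈ W) : ap x y ∈ W :=
  (DF.ap hW (DF.v hW 0) (DF.v hW 1)).mem2 (F := ap) hx hy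

theorem fst_mem (hW : IsTransModelZF W) {x : V} (hx : x ∈ W) : fst x ∈ W :=
  (DF.fst hW (DF.v hW 0)).mem1 (F := fst) hx

theorem snd_mem (hW : IsTransModelZF W) {x : V} (hx : x ∈ W) : snd x ∈ W :=
  (DF.snd hW (DF.v hW 0)).mem1 (F := snd) hx

theorem Ls_mem (hW : IsTransModelZF W) {x : V} (hx : x ∈ W) : Ls x ∈ W :=
  (DF.Ls hW (DF.v hW 0)).mem1 (F := Ls) hx

theorem Init_mem (hW : IsTransModelZF W) {x : V} (hx : x ∈ W) : Init x ∈ W :=
  (DF.Init hW (DF.v hW 0)).mem1 (F := Init) hx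

theorem tc_mem (hW : IsTransModelZF W) {x : V} (hx : x ∈ W) : tc x ∈ W :=
  (DF.tc hW (DF.v hW 0)).mem1 (F := tc) hx

/-- subsets of a set of the model given by a definable predicate -/
theorem sep_mem' (hW : IsTransModelZF W) {P : V → (ℕ → V) → Prop}
    (hP : DP W (fun v => P (v 0) (fun n => v (n + 1)))) {v : ℕ → V} (hv : ∀ n, v n ∈ W) {a : V}
    (ha : a ∈ W) {Q : V → Prop} (hQ : ∀ z ∈ a, Q z ↔ P z v) : ZFSet.sep Q a ∈ W := by
  have h := sep_mem hW hP hv ha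
  have e : ZFSet.sep Q a = ZFSet.sep (fun z => P z v) a := by
    refine ZFSet.ext fun z => ?_
    rw [ZFSet.mem_sep, ZFSet.mem_sep]
    exact and_congr_right fun hz => hQ z hz
  rw [e]
  exact h

theorem sep_sub {P : V → Prop} {a : V} : ZFSet.sep P a ⊆ a := fun _ h => (ZFSet.mem_sep.1 h).1

/-- the graph of a definable function -/
theorem gr_mem (hW : IsTransModelZF W) {F : V → (ℕ → V) → V}
    (hF : DF W (fun v => F (v 0) (fun n => v (n + 1)))) {v : ℕ → V} (hv : ∀ n, v n ∈ W) {a : V}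
    (ha : a ∈ W) : gr (fun z => F z v) a ∈ W := by
  have := (DF.gr hW (f := fun v => v 0) (DF.v hW 0) (F := fun z v => F z (fun n => v (n + 1)))
    (hF.ren fun n => if n = 0 then 0 else n + 1)).1 (cons a v) (cons_mem ha hv)
  exact this

/-! ### well orders -/

theorem WOn.mono {r X Y : V} (h : WOn r X) (hY : Y ⊆ X) : WOn r Y :=
  ⟨fun x hx y hy => h.1 x (hY hx) y (hY hy), fun Z hZ hs => h.2 Z hZ fun y hy => hY (hs y hy)⟩

theorem WOn.irrefl {r X : V} (h : WOn r X) {x : V} (hx : x ∈ X) : ZFSet.pair x x ∉ r := by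
  obtain ⟨m, hm, h1⟩ := h.2 {x} ⟨x, rfl⟩ (by rintro y rfl; exact hx)
  obtain rfl : m = x := hm
  exact h1 m rfl

theorem WOn.asymm {r X : V} (h : WOn r X) {x y : V} (hx : x ∈ X) (hy : y ∈ X)
    (hxy : ZFSet.pair x y ∈ r) : ZFSet.pair y x ∉ r := by
  obtain ⟨m, hm, h1⟩ := h.2 {x, y} ⟨x, Or.inl rfl⟩ (by
    rintro z (rfl | rfl)
    · exact hx
    · exact hy)
  rcases hm with rfl | hm
  · exact h1 y (Or.inr rfl)
  · obtain rfl : m = y := hm
    exact absurd hxy (h1 x (Or.inl rfl))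

theorem WOn.trans {r X : V} (h : WOn r X) {x y z : V} (hx : x ∈ X) (hy : y ∈ X) (hz : z ∈ X)
    (hxy : ZFSet.pair x y ∈ r) (hyz : ZFSet.pair y z ∈ r) : ZFSet.pair x z ∈ r := by
  obtain ⟨m, hm, h1⟩ := h.2 {x, y, z} ⟨x, Or.inl rfl⟩ (by
    rintro u (rfl | rfl | rfl)
    · exact hx
    · exact hy
    · exact hz)
  rcases hm with rfl | rfl | hm
  · have h2 := h1 z (Or.inr (Or.inr rfl))
    by_cases h3 : m = z
    · subst h3
      exact absurd hyz (h.asymm hx hy hxy)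
    · rcases h.1 m hx z hz h3 with h4 | h4
      · exact h4
      · exact absurd h4 h2
  · exact absurd hxy (h1 x (Or.inl rfl))
  · obtain rfl : m = z := hm
    exact absurd hyz (h1 y (Or.inr (Or.inl rfl)))

theorem lea_spec {r X Z : V} (h : WOn r X) (hZ : Z ⊆ X) (hne : ∃ z, z ∈ Z) :
    lea r Z ∈ Z ∧ ∀ y ∈ Z, ZFSet.pair y (lea r Z) ∉ r := by
  obtain ⟨m, hm, h1⟩ := h.2 {z | z ∈ Z} hne fun y hy => hZ hy
  have e : ZFSet.sep (fun m => ∀ y ∈ Z, ZFSet.pair y m ∉ r) Z = {m} := by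
    refine ZFSet.ext fun z => ?_
    rw [ZFSet.mem_sep, ZFSet.mem_singleton]
    constructor
    · rintro ⟨hz, h2⟩
      by_contra hne
      rcases h.1 z (hZ hz) m (hZ hm) hne with h3 | h3
      · exact h1 z hz h3
      · exact h2 m hm h3
    · rintro rfl
      exact ⟨hm, h1⟩
  have e2 : lea r Z = m := by
    rw [lea, e]
    exact ZFSet.sUnion_singleton
  rw [e2]
  exact ⟨hm, h1⟩

theorem DF.lea (hW : IsTransModelZF W) {r Z : (ℕ → V) → V} (hr : DF W r) (hZ : DF W Z) :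
    DF W (fun v => CM.lea (r v) (Z v)) :=
  DF.sU hW (DF.sep hW hZ (P := fun m v => ∀ y ∈ Z v, ZFSet.pair y m ∉ r v)
    (DP.ball hW (hZ.ren fun n => n + 1) (Q := fun y v => ZFSet.pair y (v 0) ∉ r (fun n => v (n + 1)))
      (DP.not (DP.mem (DF.pair hW (DF.v hW 0) (DF.v hW 1)) (hr.ren fun n => n + 2)))))

/-- choice in the ground model -/
theorem GM.choose (hM : GM M) {R : V → V → (ℕ → V) → Prop}
    (hR : DP M (fun v => R (v 0) (v 1) (fun n => v (n + 2)))) {v : ℕ → V} (hv : ∀ n, v n ∈ M)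
    {a : V} (ha : a ∈ M) (h : ∀ x ∈ a, ∃ y ∈ M, R x y v) :
    ∃ f ∈ M, ∀ x ∈ a, ap f x ∈ M ∧ R x (ap f x) v := by
  obtain ⟨b, hb, h1⟩ := coll hM.zf hR hv ha h
  obtain ⟨r, hr, h2⟩ := hM.wo b hb
  have hF : DF M (fun v => CM.lea (v 1) (ZFSet.sep (fun y => R (v 0) y (fun n => v (n + 3)))
      (v 2))) := by
    refine DF.lea hM.zf (DF.v hM.zf 1) (DF.sep hM.zf (DF.v hM.zf 2)
      (P := fun y v => R (v 0) y (fun n => v (n + 3))) ?_)
    exact (hR.ren fun n => match n with | 0 => 1 | 1 => 0 | n + 2 => n + 4)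
  have hg := gr_mem hM.zf (F := fun x v => CM.lea (v 0) (ZFSet.sep (fun y => R x y
    (fun n => v (n + 2))) (v 1))) hF (v := cons r (cons b v)) (cons_mem hr (cons_mem hb hv)) ha
  refine ⟨_, hg, fun x hx => ?_⟩
  rw [ap_gr hx]
  have h3 := lea_spec (Z := ZFSet.sep (fun y => R x y v) b) h2 sep_sub (by
    obtain ⟨y, hy, h3⟩ := h1 x hx
    exact ⟨y, ZFSet.mem_sep.2 ⟨hy, h3⟩⟩)
  obtain ⟨h4, h5⟩ := ZFSet.mem_sep.1 h3.1
  exact ⟨hM.zf.transitive b hb _ h4, h5⟩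

/-! ### ordinals -/

theorem ord_lin {α β : V} (ha : α.IsOrdinal) (hb : β.IsOrdinal) : α ∈ β ∨ β ⊆ α :=
  ha.mem_or_subset hb

theorem ord_un {α β : V} (ha : α.IsOrdinal) (hb : β.IsOrdinal) : (α ∪ β).IsOrdinal := by
  rcases ha.subset_total hb with h | h
  · have : α ∪ β = β := ZFSet.ext fun z => by
      rw [ZFSet.mem_union]
      exact ⟨fun h' => h'.elim (fun h' => h h') id, Or.inr⟩
    rw [this]
    exact hb
  · have : α ∪ β = α := ZFSet.ext fun z => by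
      rw [ZFSet.mem_union]
      exact ⟨fun h' => h'.elim id (fun h' => h h'), Or.inl⟩
    rw [this]
    exact ha

/-- unions of sets of ordinals are ordinals -/
theorem ord_sU {x : V} (h : ∀ y ∈ x, y.IsOrdinal) : (sU x).IsOrdinal := by
  rw [ZFSet.isOrdinal_iff_forall_mem_isTransitive]
  constructor
  · intro y hy z hz
    obtain ⟨u, hu, hyu⟩ := mem_sU.1 hy
    exact mem_sU.2 ⟨u, hu, (h u hu).mem_trans hz hyu⟩
  · intro y hy
    obtain ⟨u, hu, hyu⟩ := mem_sU.1 hy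
    exact ((h u hu).mem hyu).isTransitive

theorem ord_succ {α : V} (h : α.IsOrdinal) : (insert α α : V).IsOrdinal := ZFSet.isOrdinal_succ h

/-- a nonempty class of ordinals has a least element -/
theorem ord_min {P : V → Prop} (h : ∃ α : V, α.IsOrdinal ∧ P α) :
    ∃ α : V, α.IsOrdinal ∧ P α ∧ ∀ β ∈ α, ¬ P β := by
  obtain ⟨α, h1, h2⟩ := h
  induction α using ZFSet.inductionOn with
  | _ α ih =>
    by_cases h3 : ∃ β ∈ α, P β
    · obtain ⟨β, hβ, h4⟩ := h3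
      exact ih β hβ (h1.mem hβ) h4
    · push Not at h3
      exact ⟨α, h1, h2, h3⟩

theorem ord_of_mem_om {x : V} (h : x ∈ om) : x.IsOrdinal := by
  obtain ⟨n, rfl⟩ := mem_om.1 h
  exact nat_ord n

theorem om_ord : om.IsOrdinal := by
  rw [ZFSet.isOrdinal_iff_forall_mem_isTransitive]
  constructor
  · intro y hy z hz
    obtain ⟨n, rfl⟩ := mem_om.1 hy
    obtain ⟨m, -, rfl⟩ := mem_nat.1 hz
    exact mem_om.2 ⟨m, rfl⟩
  · intro y hy
    exact (ord_of_mem_om hy).isTransitive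

/-- the least element of a set of ordinals -/
noncomputable def mn (Z : V) : V := ZFSet.sep (fun α => ∀ β ∈ Z, α ∈ β) (sU Z)

theorem mn_spec {Z : V} (hZ : ∀ α ∈ Z, α.IsOrdinal) (hne : ∃ z, z ∈ Z) :
    mn Z ∈ Z ∧ ∀ β ∈ Z, mn Z ⊆ β := by
  obtain ⟨α, h1, h2, h3⟩ := ord_min (P := fun α => α ∈ Z) (by
    obtain ⟨z, hz⟩ := hne
    exact ⟨z, hZ z hz, hz⟩)
  have e : mn Z = α := by
    refine ZFSet.ext fun z => ?_
    rw [mn, ZFSet.mem_sep]
    constructor
    · intro h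
      exact h.2 α h2
    · intro hz
      refine ⟨mem_sU.2 ⟨α, h2, hz⟩, fun β hβ => ?_⟩
      rcases ord_lin (hZ β hβ) h1 with h | h
      · exact absurd hβ (h3 β h)
      · exact h hz
  rw [e]
  refine ⟨h2, fun β hβ => ?_⟩
  rcases ord_lin (hZ β hβ) h1 with h | h
  · exact absurd hβ (h3 β h)
  · exact h

theorem DF.mn (hW : IsTransModelZF W) {f : (ℕ → V) → V} (hf : DF W f) :
    DF W (fun v => CM.mn (f v)) :=
  DF.sep hW (DF.sU hW hf) (P := fun α v => ∀ β ∈ f v, α ∈ β)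
    (DP.ball hW (hf.ren fun n => n + 1) (Q := fun β v => v 0 ∈ β)
      (DP.mem (DF.v hW 1) (DF.v hW 0)))

/-- no set of a transitive model contains all the ordinals of the model -/
theorem not_all_ord (hW : IsTransModelZF W) {b : V} (hb : b ∈ W) :
    ∃ α ∈ W, α.IsOrdinal ∧ α ∉ b := by
  have h1 : ZFSet.sep (fun z => z.IsOrdinal) b ∈ W :=
    sep_mem hW (P := fun z _ => z.IsOrdinal) (DP.ord hW (DF.v hW 0)) (const_mem hb) hb
  have h2 := sU_mem hW h1
  have h3 : (sU (ZFSet.sep (fun z => z.IsOrdinal) b)).IsOrdinal :=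
    ord_sU fun y hy => (ZFSet.mem_sep.1 hy).2
  refine ⟨_, ins_mem hW h2 h2, ord_succ h3, fun h => ?_⟩
  have h4 : sU (ZFSet.sep (fun z => z.IsOrdinal) b) ∈ sU (ZFSet.sep (fun z => z.IsOrdinal) b) :=
    mem_sU.2 ⟨_, ZFSet.mem_sep.2 ⟨h, ord_succ h3⟩, ZFSet.mem_insert_iff.2 (Or.inl rfl)⟩
  exact ZFSet.mem_irrefl _ h4

end Pool.Agent.CM
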