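import Mathlib
import Pool.Agent.Lib.MP_f8e9b8_lc.Util

/-!
# MP_f8e9b8_lc : the levels of the constructible hierarchy
-/

set_option autoImplicit false

namespace Pool.Agent.CM

open Pool.Agent.CR (V Fml cons Sat nat cons_zero cons_succ)

variable {W : Set V}

/-! ### the operations -/

theorem nat_ne {m n : ℕ} (h : m ≠ n) : nat m ≠ nat n := fun h' => h (nat_injective h')

theorem opL_0 (a b c : V) : opL (nat 0) a b c = insert b a := by rw [opL, if_pos rfl]

theorem opL_1 (a b c : V) : opL (nat 1) a b c = ZFSet.pair a b := by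
  rw [opL, if_neg (nat_ne (by omega)), if_pos rfl]

theorem opL_2 (a : V) (i j : ℕ) : opL (nat 2) a (nat i) (nat j) =
    ZFSet.sep (fun f => asg f i ∈ asg f j) (Ls a) := by
  rw [opL, if_neg (nat_ne (by omega)), if_neg (nat_ne (by omega)), if_pos rfl,
    if_pos ⟨mem_om.2 ⟨i, rfl⟩, mem_om.2 ⟨j, rfl⟩⟩]
  rfl

theorem opL_3 (a : V) (i j : ℕ) : opL (nat 3) a (nat i) (nat j) =
    ZFSet.sep (fun f => asg f i = asg f j) (Ls a) := by
  rw [opL, if_neg (nat_ne (by omega)), if_neg (nat_ne (by omega)), if_neg (nat_ne (by omega)),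
    if_pos rfl, if_pos ⟨mem_om.2 ⟨i, rfl⟩, mem_om.2 ⟨j, rfl⟩⟩]
  rfl

theorem opL_4 (a b c : V) : opL (nat 4) a b c = ZFSet.sep (fun f => f ∈ b → f ∈ c) (Ls a) := by
  rw [opL, if_neg (nat_ne (by omega)), if_neg (nat_ne (by omega)), if_neg (nat_ne (by omega)),
    if_neg (nat_ne (by omega)), if_pos rfl]

theorem opL_5 (a b c : V) : opL (nat 5) a b c =
    ZFSet.sep (fun f => ∀ x ∈ a, ZFSet.pair f x ∈ b) (Ls a) := by
  rw [opL, if_neg (nat_ne (by omega)), if_neg (nat_ne (by omega)), if_neg (nat_ne (by omega)),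
    if_neg (nat_ne (by omega)), if_neg (nat_ne (by omega)), if_pos rfl]

theorem opL_6 (a b c : V) : opL (nat 6) a b c = ZFSet.sep (fun z => ZFSet.pair c z ∈ b) a := by
  rw [opL, if_neg (nat_ne (by omega)), if_neg (nat_ne (by omega)), if_neg (nat_ne (by omega)),
    if_neg (nat_ne (by omega)), if_neg (nat_ne (by omega)), if_neg (nat_ne (by omega))]

/-! ### levels -/

theorem Sg_mono {x y : V} (h : x ⊆ y) : Sg x ⊆ Sg y := by
  intro z hz
  obtain ⟨u, hu, hz⟩ := mem_Sg.1 hz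
  exact mem_Sg.2 ⟨u, h hu, hz⟩

theorem Step_sub_Sg {x y : V} (h : y ∈ x) : Step (Sg y) ⊆ Sg x := fun _ hz => mem_Sg.2 ⟨y, h, hz⟩

theorem Sg_mem_Sg {x y : V} (h : y ∈ x) : Sg y ∈ Sg x :=
  Step_sub_Sg h (mem_Step.2 (Or.inr (Or.inl rfl)))

theorem opL_mem_Sg {x y k a b c : V} (h : y ∈ x) (hk : k ∈ Sg y) (ha : a ∈ Sg y) (hb : b ∈ Sg y)
    (hc : c ∈ Sg y) : opL k a b c ∈ Sg x :=
  Step_sub_Sg h (mem_Step.2 (Or.inr (Or.inr ⟨k, hk, a, ha, b, hb, c, hc, rfl⟩)))

theorem Lc_of_Sg {α x : V} (hα : α ∈ W) (ho : α.IsOrdinal) (hx : x ∈ Sg α) : x ∈ Lc W :=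
  ⟨α, hα, ho, hx⟩

theorem Lc_sub_W (hW : IsTransModelZF W) : Lc W ⊆ W := Lc_sub hW fun _ h _ => h

/-- finitely many constructible sets belong to a common level -/
theorem common (hW : IsTransModelZF W) (l : List V) (hl : ∀ x ∈ l, x ∈ Lc W) :
    ∃ γ ∈ W, γ.IsOrdinal ∧ ∀ x ∈ l, x ∈ Sg γ := by
  induction l with
  | nil => exact ⟨∅, empty_mem hW, ZFSet.isOrdinal_empty, by simp⟩
  | cons a l ih =>
    obtain ⟨γ, h1, h2, h3⟩ := ih fun x hx => hl x (List.mem_cons_of_mem _ hx)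
    obtain ⟨δ, h4, h5, h6⟩ := hl a List.mem_cons_self
    refine ⟨γ ∪ δ, un_mem hW h1 h4, ord_un h2 h5, fun x hx => ?_⟩
    rcases List.mem_cons.1 hx with rfl | hx
    · exact Sg_mono (fun z hz => ZFSet.mem_union.2 (Or.inr hz)) h6
    · exact Sg_mono (fun z hz => ZFSet.mem_union.2 (Or.inl hz)) (h3 x hx)

theorem Sg_Lc (hW : IsTransModelZF W) {α : V} (hα : α ∈ W) (ho : α.IsOrdinal) : Sg α ∈ Lc W :=
  ⟨insert α α, ins_mem hW hα hα, ord_succ ho, Sg_mem_Sg (ZFSet.mem_insert_iff.2 (Or.inl rfl))⟩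

theorem opL_Lc (hW : IsTransModelZF W) {k a b c : V} (hk : k ∈ Lc W) (ha : a ∈ Lc W)
    (hb : b ∈ Lc W) (hc : c ∈ Lc W) : opL k a b c ∈ Lc W := by
  obtain ⟨γ, h1, h2, h3⟩ := common hW [k, a, b, c] (by
    intro x hx
    simp only [List.mem_cons, List.not_mem_nil, or_false] at hx
    rcases hx with rfl | rfl | rfl | rfl <;> assumption)
  exact ⟨insert γ γ, ins_mem hW h1 h1, ord_succ h2, opL_mem_Sg
    (ZFSet.mem_insert_iff.2 (Or.inl rfl)) (h3 k (by simp)) (h3 a (by simp)) (h3 b (by simp))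
    (h3 c (by simp))⟩

theorem Sg_empty : Sg ∅ = ∅ := by
  rw [ZFSet.eq_empty]
  intro z hz
  obtain ⟨y, hy, _⟩ := mem_Sg.1 hz
  exact ZFSet.notMem_empty _ hy

theorem empty_Lc (hW : IsTransModelZF W) : (∅ : V) ∈ Lc W := by
  have := Sg_Lc hW (empty_mem hW) ZFSet.isOrdinal_empty
  rwa [Sg_empty] at this

theorem ins_Lc (hW : IsTransModelZF W) {a b : V} (ha : a ∈ Lc W) (hb : b ∈ Lc W) :
    (insert b a : V) ∈ Lc W := by
  rw [← opL_0 a b ∅]
  exact opL_Lc hW (empty_Lc hW) ha hb (empty_Lc hW)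

theorem nat_Lc (hW : IsTransModelZF W) : ∀ n, nat n ∈ Lc W
  | 0 => empty_Lc hW
  | n + 1 => ins_Lc hW (nat_Lc hW n) (nat_Lc hW n)

theorem pair_Lc (hW : IsTransModelZF W) {a b : V} (ha : a ∈ Lc W) (hb : b ∈ Lc W) :
    ZFSet.pair a b ∈ Lc W := by
  rw [← opL_1 a b ∅]
  exact opL_Lc hW (nat_Lc hW 1) ha hb (empty_Lc hW)

theorem lst_Lc (hW : IsTransModelZF W) (l : List V) (hl : ∀ x ∈ l, x ∈ Lc W) : lst l ∈ Lc W := by
  induction l with
  | nil => exact empty_Lc hW
  | cons a l ih =>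
    exact pair_Lc hW (ih fun x hx => hl x (List.mem_cons_of_mem _ hx)) (hl a List.mem_cons_self)

/-- the constructible sets form a transitive class -/
theorem Lc_trans (hW : IsTransModelZF W) : ∀ x ∈ Lc W, ∀ y ∈ x, y ∈ Lc W := by
  have key : ∀ α : V, α ∈ W → α.IsOrdinal → ∀ x ∈ Sg α, ∀ y ∈ x, y ∈ Lc W := by
    intro α
    induction α using ZFSet.inductionOn with
    | _ α ih =>
      intro hα ho x hx y hy
      obtain ⟨β, hβ, hx⟩ := mem_Sg.1 hx
      have hβW := hW.transitive α hα β hβ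
      have hβo := ho.mem hβ
      have hin : ∀ z ∈ Sg β, z ∈ Lc W := fun z hz => ⟨β, hβW, hβo, hz⟩
      rcases mem_Step.1 hx with h | rfl | ⟨k, hk, a, ha, b, hb, c, hc, rfl⟩
      · exact ih β hβ hβW hβo x h y hy
      · exact hin y hy
      · have hLs : ∀ z ∈ Ls a, z ∈ Lc W := by
          intro z hz
          obtain ⟨l, hl, rfl⟩ := mem_Ls.1 hz
          exact lst_Lc hW l fun w hw => ih β hβ hβW hβo a ha w (hl w hw)
        rw [opL] at hy
        split_ifs at hy
        · rcases ZFSet.mem_insert_iff.1 hy with rfl | hy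
          · exact hin _ hb
          · exact ih β hβ hβW hβo a ha y hy
        · have h1 : ({a} : V) ∈ Lc W := by
            have := ins_Lc hW (empty_Lc hW) (hin a ha)
            have e : ({a} : V) = insert a ∅ := ZFSet.ext fun z => by simp
            rw [e]
            exact this
          rw [ZFSet.pair, ZFSet.mem_pair] at hy
          rcases hy with rfl | rfl
          · exact h1
          · have h2 : ({b} : V) ∈ Lc W := by
              have := ins_Lc hW (empty_Lc hW) (hin b hb)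
              have e : ({b} : V) = insert b ∅ := ZFSet.ext fun z => by simp
              rw [e]
              exact this
            exact ins_Lc hW h2 (hin a ha)
        · exact hLs y (sep_sub hy)
        · exact absurd hy (ZFSet.notMem_empty _)
        · exact hLs y (sep_sub hy)
        · exact absurd hy (ZFSet.notMem_empty _)
        · exact hLs y (sep_sub hy)
        · exact hLs y (sep_sub hy)
        · exact ih β hβ hβW hβo a ha y (sep_sub hy)
  rintro x ⟨α, hα, ho, hx⟩ y hy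
  exact key α hα ho x hx y hy

/-- a set of constructible sets is contained in a level -/
theorem Lc_bound (hW : IsTransModelZF W) {a : V} (ha : a ∈ W) (h : ∀ x ∈ a, x ∈ Lc W) :
    ∃ γ ∈ W, γ.IsOrdinal ∧ a ⊆ Sg γ := by
  obtain ⟨b, hb, hbs⟩ := coll hW (R := fun x y _ => y.IsOrdinal ∧ x ∈ Sg y)
    ((DP.ord hW (DF.v hW 1)).and (DP.mem (DF.v hW 0) (DF.Sg hW (DF.v hW 1))))
    (v := fun _ => a) (const_mem ha) ha (fun x hx => by
      obtain ⟨α, h1, h2, h3⟩ := h x hx
      exact ⟨α, h1, h2, h3⟩)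
  have h1 : ZFSet.sep (fun z => z.IsOrdinal) b ∈ W :=
    sep_mem hW (P := fun z _ => z.IsOrdinal) (DP.ord hW (DF.v hW 0)) (const_mem hb) hb
  refine ⟨_, sU_mem hW h1, ord_sU fun y hy => (ZFSet.mem_sep.1 hy).2, fun x hx => ?_⟩
  obtain ⟨y, hy, h2, h3⟩ := hbs x hx
  exact Sg_mono (fun z hz => mem_sU.2 ⟨y, ZFSet.mem_sep.2 ⟨hy, h2⟩, hz⟩) h3

/-! ### satisfaction in sets -/

/-- bound for the free variables -/
def fb : Fml → ℕ
  | .bot => 0
  | .mem i j => max (i + 1) (j + 1)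
  | .eq i j => max (i + 1) (j + 1)
  | .imp φ ψ => max (fb φ) (fb ψ)
  | .all φ => fb φ - 1

theorem Sat_fb {N : Set V} (φ : Fml) : ∀ {v v' : ℕ → V}, (∀ i < fb φ, v i = v' i) →
    (Sat N φ v ↔ Sat N φ v') := by
  induction φ with
  | bot => intro v v' _; exact Iff.rfl
  | mem i j =>
    intro v v' h
    have h1 := h i (by simp [fb])
    have h2 := h j (by simp [fb])
    simp only [Sat, h1, h2]
  | eq i j =>
    intro v v' h
    have h1 := h i (by simp [fb])
    have h2 := h j (by simp [fb])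
    simp only [Sat, h1, h2]
  | imp φ ψ ih1 ih2 =>
    intro v v' h
    have h1 := ih1 (v := v) (v' := v') fun i hi => h i (lt_of_lt_of_le hi (le_max_left _ _))
    have h2 := ih2 (v := v) (v' := v') fun i hi => h i (lt_of_lt_of_le hi (le_max_right _ _))
    simp only [Sat, h1, h2]
  | all φ ih =>
    intro v v' h
    have h1 : ∀ x, Sat N φ (cons x v) ↔ Sat N φ (cons x v') := by
      intro x
      apply ih
      intro i hi
      cases i with
      | zero => rfl
      | succ i =>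
        refine h i ?_
        simp only [fb]
        omega
    simp only [Sat, h1]

/-- the set of the finite sequences satisfying a formula in a constructible set is constructible -/
theorem SatS_Lc (hW : IsTransModelZF W) {A : V} (hA : A ∈ Lc W) (φ : Fml) :
    ZFSet.sep (fun f => Sat {x | x ∈ A} φ (asg f)) (Ls A) ∈ Lc W := by
  induction φ with
  | bot =>
    have : ZFSet.sep (fun f => Sat {x | x ∈ A} .bot (asg f)) (Ls A) = ∅ := by
      rw [ZFSet.eq_empty]
      intro z hz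
      exact (ZFSet.mem_sep.1 hz).2
    rw [this]
    exact empty_Lc hW
  | mem i j =>
    have := opL_Lc hW (nat_Lc hW 2) hA (nat_Lc hW i) (nat_Lc hW j)
    rw [opL_2] at this
    exact this
  | eq i j =>
    have := opL_Lc hW (nat_Lc hW 3) hA (nat_Lc hW i) (nat_Lc hW j)
    rw [opL_3] at this
    exact this
  | imp φ ψ h1 h2 =>
    have := opL_Lc hW (nat_Lc hW 4) hA h1 h2
    rw [opL_4] at this
    have e : ZFSet.sep (fun f => Sat {x | x ∈ A} (.imp φ ψ) (asg f)) (Ls A) =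
        ZFSet.sep (fun f => f ∈ ZFSet.sep (fun f => Sat {x | x ∈ A} φ (asg f)) (Ls A) →
          f ∈ ZFSet.sep (fun f => Sat {x | x ∈ A} ψ (asg f)) (Ls A)) (Ls A) := by
      refine ZFSet.ext fun f => ?_
      rw [ZFSet.mem_sep, ZFSet.mem_sep]
      refine and_congr_right fun hf => ?_
      rw [ZFSet.mem_sep, ZFSet.mem_sep]
      exact ⟨fun h h' => ⟨hf, h h'.2⟩, fun h h' => (h ⟨hf, h'⟩).2⟩
    rw [e]
    exact this
  | all φ h1 =>
    have := opL_Lc hW (nat_Lc hW 5) hA h1 (empty_Lc hW)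
    rw [opL_5] at this
    have e : ZFSet.sep (fun f => Sat {x | x ∈ A} (.all φ) (asg f)) (Ls A) =
        ZFSet.sep (fun f => ∀ x ∈ A, ZFSet.pair f x ∈
          ZFSet.sep (fun f => Sat {x | x ∈ A} φ (asg f)) (Ls A)) (Ls A) := by
      refine ZFSet.ext fun f => ?_
      rw [ZFSet.mem_sep, ZFSet.mem_sep]
      refine and_congr_right fun hf => ?_
      refine forall_congr' fun x => forall_congr' fun hx => ?_
      rw [ZFSet.mem_sep, asg_pair hf]
      exact ⟨fun h => ⟨Ls_pair.2 ⟨hf, hx⟩, h⟩, fun h => h.2⟩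
    rw [e]
    exact this

/-- definable subsets of constructible sets are constructible -/
theorem Def_Lc (hW : IsTransModelZF W) {A : V} (hA : A ∈ Lc W) (φ : Fml) {v : ℕ → V}
    (hv : ∀ n, v n ∈ A) : ZFSet.sep (fun z => Sat {x | x ∈ A} φ (cons z v)) A ∈ Lc W := by
  obtain ⟨l, hl⟩ : ∃ l, l = (List.range (fb φ)).map v := ⟨_, rfl⟩
  have hlA : ∀ x ∈ l, x ∈ A := by
    intro x hx
    rw [hl, List.mem_map] at hx
    obtain ⟨n, _, rfl⟩ := hx
    exact hv n
  have hlL : lst l ∈ Ls A := mem_Ls.2 ⟨l, hlA, rfl⟩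
  have h1 := opL_Lc hW (nat_Lc hW 6) hA (SatS_Lc hW hA φ)
    (lst_Lc hW l fun x hx => Lc_trans hW A hA x (hlA x hx))
  rw [opL_6] at h1
  have e : ZFSet.sep (fun z => Sat {x | x ∈ A} φ (cons z v)) A =
      ZFSet.sep (fun z => ZFSet.pair (lst l) z ∈
        ZFSet.sep (fun f => Sat {x | x ∈ A} φ (asg f)) (Ls A)) A := by
    refine ZFSet.ext fun z => ?_
    rw [ZFSet.mem_sep, ZFSet.mem_sep]
    refine and_congr_right fun hz => ?_
    rw [ZFSet.mem_sep, asg_pair hlL]
    have h2 : Sat {x | x ∈ A} φ (cons z (asg (lst l))) ↔ Sat {x | x ∈ A} φ (cons z v) := by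
      refine Sat_fb φ fun i hi => ?_
      cases i with
      | zero => rfl
      | succ i =>
        rw [cons_succ, cons_succ, asg_lst, hl, List.getD_eq_getElem?_getD, List.getElem?_map,
          List.getElem?_range (by omega)]
        rfl
    rw [h2]
    exact ⟨fun h => ⟨Ls_pair.2 ⟨hlL, hz⟩, h⟩, fun h => h.2⟩
  rw [e]
  exact h1

end Pool.Agent.CM
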