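import Mathlib
import Pool.Agent.Lib.MP_f8e9b8_lc.LLev

/-!
# MP_f8e9b8_lc : existence of a countable transitive model of `ZF`

The collapse of a countable elementary submodel of the universe.
-/

set_option autoImplicit false

namespace Pool.Agent.CM

open Pool.Agent.CR (V Fml cons Sat nat cons_zero cons_succ)

/-- closure of a countable set under countably branching operations -/
theorem hull {X : Type*} (Op : List X → Set X) (hOp : ∀ l, (Op l).Countable) (A : Set X)
    (hA : A.Countable) :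
    ∃ M : Set X, A ⊆ M ∧ M.Countable ∧ ∀ l : List X, (∀ x ∈ l, x ∈ M) → Op l ⊆ M := by
  let f : Set X → Set X := fun B => B ∪ ⋃ l : {l : List X // ∀ x ∈ l, x ∈ B}, Op l.1
  let B : ℕ → Set X := fun n => Nat.rec (motive := fun _ => Set X) A (fun _ B => f B) n
  have Bs : ∀ n, B (n + 1) = f (B n) := fun n => rfl
  have hsub : ∀ n, B n ⊆ B (n + 1) := fun n => by rw [Bs]; exact Set.subset_union_left
  have hmono : Monotone B := monotone_nat_of_le_succ hsub
  have hc : ∀ n, (B n).Countable := by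
    intro n
    induction n with
    | zero => exact hA
    | succ n ih =>
      rw [Bs]
      refine ih.union ?_
      have : Countable {l : List X // ∀ x ∈ l, x ∈ B n} := by
        have h1 : Countable {x : X // x ∈ B n} := ih.to_subtype
        have h2 : Function.Injective (fun l : {l : List X // ∀ x ∈ l, x ∈ B n} =>
            (l.1.attach.map (fun x => (⟨x.1, l.2 x.1 x.2⟩ : {x : X // x ∈ B n})))) := by
          rintro ⟨l, hl⟩ ⟨l', hl'⟩ h
          have := congrArg (List.map Subtype.val) h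
          simp only [List.map_map] at this
          have e : ∀ (l : List X) (hl : ∀ x ∈ l, x ∈ B n), List.map (Subtype.val ∘
              fun x : {x // x ∈ l} => (⟨x.1, hl x.1 x.2⟩ : {x : X // x ∈ B n})) l.attach = l := by
            intro l hl
            have : (Subtype.val ∘ fun x : {x // x ∈ l} => (⟨x.1, hl x.1 x.2⟩ : {x : X // x ∈ B n})) =
              Subtype.val := rfl
            rw [this]; exact List.attach_map_subtype_val l
          rw [e, e] at this
          exact Subtype.ext this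
        exact h2.countable
      exact Set.countable_iUnion fun l => hOp l.1
  refine ⟨⋃ n, B n, Set.subset_iUnion B 0, Set.countable_iUnion hc, ?_⟩
  intro l hl
  have : ∃ n, ∀ x ∈ l, x ∈ B n := by
    induction l with
    | nil => exact ⟨0, by simp⟩
    | cons a l ih =>
      obtain ⟨n, hn⟩ := ih fun x hx => hl x (List.mem_cons_of_mem _ hx)
      obtain ⟨m, hm⟩ := Set.mem_iUnion.1 (hl a List.mem_cons_self)
      refine ⟨max m n, fun x hx => ?_⟩
      rcases List.mem_cons.1 hx with rfl | hx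
      · exact hmono (le_max_left _ _) hm
      · exact hmono (le_max_right _ _) (hn x hx)
  obtain ⟨n, hn⟩ := this
  refine Set.Subset.trans ?_ (Set.subset_iUnion B (n + 1))
  rw [Bs]
  exact Set.Subset.trans (Set.subset_iUnion (fun l : {l : List X // ∀ x ∈ l, x ∈ B n} => Op l.1)
    ⟨l, hn⟩) Set.subset_union_right

/-- a code of a formula -/
def fcode : Fml → ℕ
  | .bot => Nat.pair 0 0
  | .mem i j => Nat.pair 1 (Nat.pair i j)
  | .eq i j => Nat.pair 2 (Nat.pair i j)
  | .imp φ ψ => Nat.pair 3 (Nat.pair (fcode φ) (fcode ψ))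
  | .all φ => Nat.pair 4 (fcode φ)

theorem fcode_inj : Function.Injective fcode := by
  intro φ
  induction φ with
  | bot =>
    intro ψ h
    cases ψ <;> simp_all [fcode, Nat.pair_eq_pair]
  | mem i j =>
    intro ψ h
    cases ψ <;> simp_all [fcode, Nat.pair_eq_pair]
  | eq i j =>
    intro ψ h
    cases ψ <;> simp_all [fcode, Nat.pair_eq_pair]
  | imp φ1 φ2 h1 h2 =>
    intro ψ h
    cases ψ with
    | imp ψ1 ψ2 =>
      simp only [fcode, Nat.pair_eq_pair] at h
      rw [h1 h.2.1, h2 h.2.2]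
    | _ => simp [fcode, Nat.pair_eq_pair] at h
  | all φ1 h1 =>
    intro ψ h
    cases ψ with
    | all ψ1 =>
      simp only [fcode, Nat.pair_eq_pair] at h
      rw [h1 h.2]
    | _ => simp [fcode, Nat.pair_eq_pair] at h

theorem fml_countable : Countable Fml := fcode_inj.countable

/-- assignment given by a list -/
noncomputable def la (l : List V) : ℕ → V := fun n => l.getD n ∅

open Classical in
/-- Skolem functions -/
noncomputable def wit (φ : Fml) (l : List V) : V :=
  if h : ∃ x, Sat Set.univ φ (cons x (la l)) then h.choose else ∅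

/-- separation operations -/
noncomputable def sepo (φ : Fml) (l : List V) : V :=
  ZFSet.sep (fun x => Sat Set.univ φ (cons x (la l.tail))) (la l 0)

open Classical in
/-- the unique value of a function given by a formula -/
noncomputable def uval (φ : Fml) (v : ℕ → V) (x : V) : V :=
  if h : ∃ y, Sat Set.univ φ (cons y (cons x v)) then h.choose else ∅

/-- replacement operations -/
noncomputable def repo (φ : Fml) (l : List V) : V :=
  ZFSet.sep (fun y => ∃ x ∈ la l 0, Sat Set.univ φ (cons y (cons x (la l.tail))))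
    (img (uval φ (la l.tail)) (la l 0))

/-- all operations -/
noncomputable def Opr (l : List V) : Set V :=
  (Set.range fun φ => wit φ l) ∪ (Set.range fun φ => sepo φ l) ∪ (Set.range fun φ => repo φ l) ∪
    {om, ({la l 0, la l 1} : V), sU (la l 0), ZFSet.powerset (la l 0), insert (la l 0) (la l 0), ∅}

theorem Opr_countable (l : List V) : (Opr l).Countable := by
  have := fml_countable
  refine (((Set.countable_range _).union (Set.countable_range _)).union
    (Set.countable_range _)).union ?_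
  exact Set.Finite.countable (by simp)

/-- the closed sets -/
structure Hl (H : Set V) : Prop where
  count : H.Countable
  op : ∀ l : List V, (∀ x ∈ l, x ∈ H) → Opr l ⊆ H

theorem exists_Hl : ∃ H : Set V, Hl H := by
  obtain ⟨H, _, h2, h3⟩ := hull Opr Opr_countable ∅ Set.countable_empty
  exact ⟨H, h2, h3⟩

variable {H : Set V}

theorem Hl.empty (hH : Hl H) : (∅ : V) ∈ H :=
  hH.op [] (by simp) (Or.inr (by simp))

theorem Hl.om (hH : Hl H) : CM.om ∈ H :=
  hH.op [] (by simp) (Or.inr (by simp))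

theorem Hl.pair (hH : Hl H) {a b : V} (ha : a ∈ H) (hb : b ∈ H) : ({a, b} : V) ∈ H :=
  hH.op [a, b] (by simp [ha, hb]) (Or.inr (by simp [la]))

theorem Hl.sU (hH : Hl H) {a : V} (ha : a ∈ H) : CM.sU a ∈ H :=
  hH.op [a] (by simp [ha]) (Or.inr (by simp [la]))

theorem Hl.pow (hH : Hl H) {a : V} (ha : a ∈ H) : ZFSet.powerset a ∈ H :=
  hH.op [a] (by simp [ha]) (Or.inr (by simp [la]))

theorem Hl.succ (hH : Hl H) {a : V} (ha : a ∈ H) : (insert a a : V) ∈ H :=
  hH.op [a] (by simp [ha]) (Or.inr (by simp [la]))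

/-- the list of the first values of an assignment -/
def fl (v : ℕ → V) (n : ℕ) : List V := (List.range n).map v

theorem la_fl {v : ℕ → V} {n i : ℕ} (h : i < n) : la (fl v n) i = v i := by
  simp [la, fl, List.getD_eq_getElem?_getD, List.getElem?_range h]

theorem fl_mem {v : ℕ → V} (hv : ∀ n, v n ∈ H) (n : ℕ) : ∀ x ∈ fl v n, x ∈ H := by
  intro x hx
  obtain ⟨i, _, rfl⟩ := List.mem_map.1 hx
  exact hv i

theorem Sat_cons_fl {N : Set V} {φ : Fml} {v : ℕ → V} {x : V} :
    Sat N φ (cons x (la (fl v (fb φ)))) ↔ Sat N φ (cons x v) := by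
  refine Sat_fb φ fun i hi => ?_
  cases i with
  | zero => rfl
  | succ i => exact la_fl (by omega)

theorem Sat_cons2_fl {N : Set V} {φ : Fml} {v : ℕ → V} {x y : V} :
    Sat N φ (cons y (cons x (la (fl v (fb φ))))) ↔ Sat N φ (cons y (cons x v)) := by
  refine Sat_fb φ fun i hi => ?_
  rcases i with _ | _ | i
  · rfl
  · rfl
  · exact la_fl (by omega)

/-- Skolem functions -/
theorem Hl.wit (hH : Hl H) (φ : Fml) {v : ℕ → V} (hv : ∀ n, v n ∈ H)
    (h : ∃ x, Sat Set.univ φ (cons x v)) : ∃ x ∈ H, Sat Set.univ φ (cons x v) := by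
  have h1 : ∃ x, Sat Set.univ φ (cons x (la (fl v (fb φ)))) := by
    obtain ⟨x, hx⟩ := h
    exact ⟨x, Sat_cons_fl.2 hx⟩
  refine ⟨CM.wit φ (fl v (fb φ)), hH.op _ (fl_mem hv _) (Or.inl (Or.inl (Or.inl ⟨φ, rfl⟩))), ?_⟩
  rw [← Sat_cons_fl, CM.wit, dif_pos h1]
  exact h1.choose_spec

/-- elementarity -/
theorem Hl.elem (hH : Hl H) (φ : Fml) : ∀ v : ℕ → V, (∀ n, v n ∈ H) →
    (Sat H φ v ↔ Sat Set.univ φ v) := by
  induction φ with
  | bot => intro v _; exact Iff.rfl
  | mem i j => intro v _; exact Iff.rfl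
  | eq i j => intro v _; exact Iff.rfl
  | imp φ ψ h1 h2 => intro v hv; exact imp_congr (h1 v hv) (h2 v hv)
  | all φ ih =>
    intro v hv
    constructor
    · intro h x _
      by_contra h1
      obtain ⟨y, hy, h2⟩ := hH.wit (.imp φ .bot) hv ⟨x, fun h => h1 h⟩
      exact h2 ((ih _ (cons_mem hy hv)).1 (h y hy))
    · intro h x hx
      exact (ih _ (cons_mem hx hv)).2 (h x trivial)

/-- the collapse -/
noncomputable def cl (H : Set V) : V → V :=
  rec0 fun x h => img (ap h) (ZFSet.sep (fun z => z ∈ H) x)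

theorem mem_cl {x y : V} : y ∈ cl H x ↔ ∃ z ∈ x, z ∈ H ∧ cl H z = y := by
  rw [cl, rec0_eq, mem_img]
  constructor
  · rintro ⟨z, hz, rfl⟩
    rw [ZFSet.mem_sep] at hz
    exact ⟨z, hz.1, hz.2, (ap_gr hz.1).symm⟩
  · rintro ⟨z, h1, h2, rfl⟩
    exact ⟨z, ZFSet.mem_sep.2 ⟨h1, h2⟩, ap_gr h1⟩

theorem Hl.ext (hH : Hl H) {a b : V} (ha : a ∈ H) (hb : b ∈ H)
    (h : ∀ c ∈ H, c ∈ a ↔ c ∈ b) : a = b := by
  by_contra hne
  have h1 : ∃ x, ¬ (x ∈ a ↔ x ∈ b) := by
    by_contra h2
    push Not at h2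
    exact hne (ZFSet.ext h2)
  let v : ℕ → V := cons a (fun _ => b)
  have hv : ∀ n, v n ∈ H := cons_mem ha fun _ => hb
  obtain ⟨x, hx, h2⟩ := hH.wit (.imp (.imp (.mem 0 1) (.mem 0 2))
    (.imp (.imp (.mem 0 2) (.mem 0 1)) .bot)) hv (by
      obtain ⟨x, hx⟩ := h1
      refine ⟨x, ?_⟩
      show (x ∈ a → x ∈ b) → ((x ∈ b → x ∈ a) → False)
      exact fun h3 h4 => hx ⟨h3, h4⟩)
  have h3 : (x ∈ a → x ∈ b) → ((x ∈ b → x ∈ a) → False) := h2
  exact h3 (h x hx).1 (h x hx).2

theorem Hl.inj (hH : Hl H) : ∀ a : V, a ∈ H → ∀ b ∈ H, cl H a = cl H b → a = b := by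
  intro a
  induction a using ZFSet.inductionOn with
  | _ a ih =>
    intro ha b hb h
    refine hH.ext ha hb fun c hc => ?_
    constructor
    · intro h1
      have h2 : cl H c ∈ cl H b := by
        rw [← h]
        exact mem_cl.2 ⟨c, h1, hc, rfl⟩
      obtain ⟨d, h3, h4, h5⟩ := mem_cl.1 h2
      rw [ih c h1 hc d h4 h5.symm]
      exact h3
    · intro h1
      have h2 : cl H c ∈ cl H a := by
        rw [h]
        exact mem_cl.2 ⟨c, h1, hc, rfl⟩
      obtain ⟨d, h3, h4, h5⟩ := mem_cl.1 h2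
      rw [← ih d h3 h4 c hc h5]
      exact h3

theorem Hl.mem_iff (hH : Hl H) {a b : V} (ha : a ∈ H) : cl H a ∈ cl H b ↔ a ∈ b := by
  constructor
  · intro h
    obtain ⟨z, h1, h2, h3⟩ := mem_cl.1 h
    rwa [← hH.inj z h2 a ha h3]
  · intro h
    exact mem_cl.2 ⟨a, h, ha, rfl⟩

/-- the transitive collapse -/
def Nc (H : Set V) : Set V := {y | ∃ x ∈ H, cl H x = y}

theorem Hl.iso (hH : Hl H) (φ : Fml) : ∀ v : ℕ → V, (∀ n, v n ∈ H) →
    (Sat (Nc H) φ (fun n => cl H (v n)) ↔ Sat H φ v) := by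
  induction φ with
  | bot => intro v _; exact Iff.rfl
  | mem i j => intro v hv; exact hH.mem_iff (hv i)
  | eq i j => intro v hv; exact ⟨fun h => hH.inj _ (hv i) _ (hv j) h, fun h => congrArg (cl H) h⟩
  | imp φ ψ h1 h2 => intro v hv; exact imp_congr (h1 v hv) (h2 v hv)
  | all φ ih =>
    intro v hv
    have e : ∀ x, cons (cl H x) (fun n => cl H (v n)) = fun n => cl H (cons x v n) := by
      intro x
      funext n
      cases n <;> rfl
    constructor
    · intro h x hx
      have := h (cl H x) ⟨x, hx, rfl⟩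
      rw [e] at this
      exact (ih _ (cons_mem hx hv)).1 this
    · rintro h y ⟨x, hx, rfl⟩
      rw [e]
      exact (ih _ (cons_mem hx hv)).2 (h x hx)

theorem Hl.sat (hH : Hl H) (φ : Fml) {v : ℕ → V} (hv : ∀ n, v n ∈ H) :
    Sat (Nc H) φ (fun n => cl H (v n)) ↔ Sat Set.univ φ v :=
  (hH.iso φ v hv).trans (hH.elem φ v hv)

theorem Nc_trans (H : Set V) : ∀ x ∈ Nc H, ∀ y ∈ x, y ∈ Nc H := by
  rintro _ ⟨a, _, rfl⟩ y hy
  obtain ⟨z, _, h2, h3⟩ := mem_cl.1 hy
  exact ⟨z, h2, h3⟩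

theorem Nc_zf (hH : Hl H) : IsTransModelZF (Nc H) := by
  have htr := Nc_trans H
  refine ⟨htr, ?_, ?_, ?_, ?_, ?_, ?_, ?_, ?_⟩
  · -- extensionality
    intro x hx y hy h
    exact ZFSet.ext fun z => ⟨fun hz => (h z (htr x hx z hz)).1 hz,
      fun hz => (h z (htr y hy z hz)).2 hz⟩
  · -- foundation
    rintro x hx ⟨y, _, hyx⟩
    have hne : x ≠ ∅ := by
      rintro rfl
      exact ZFSet.notMem_empty _ hyx
    obtain ⟨z, hz, hzx⟩ := ZFSet.regularity x hne
    refine ⟨z, htr x hx z hz, hz, fun w _ hwz hwx => ?_⟩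
    have : w ∈ x ∩ z := ZFSet.mem_inter.2 ⟨hwx, hwz⟩
    rw [hzx] at this
    exact ZFSet.notMem_empty _ this
  · -- pairing
    rintro _ ⟨a, ha, rfl⟩ _ ⟨b, hb, rfl⟩
    refine ⟨_, ⟨_, hH.pair ha hb, rfl⟩, ?_⟩
    rintro _ ⟨c, hc, rfl⟩
    rw [hH.mem_iff hc, ZFSet.mem_pair]
    constructor
    · rintro (rfl | rfl)
      · exact Or.inl rfl
      · exact Or.inr rfl
    · rintro (h | h)
      · exact Or.inl (hH.inj _ hc _ ha h)
      · exact Or.inr (hH.inj _ hc _ hb h)
  · -- union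
    rintro _ ⟨a, ha, rfl⟩
    refine ⟨_, ⟨_, hH.sU ha, rfl⟩, ?_⟩
    rintro _ ⟨c, hc, rfl⟩
    rw [hH.mem_iff hc, mem_sU]
    constructor
    · intro h
      have hv : ∀ n, (cons a fun _ => c) n ∈ H := cons_mem ha fun _ => hc
      obtain ⟨d, hd, h1⟩ := hH.wit (.imp (.imp (.mem 0 1) (.imp (.mem 2 0) .bot)) .bot) hv (by
        obtain ⟨y, h1, h2⟩ := h
        refine ⟨y, ?_⟩
        show (y ∈ a → (c ∈ y → False)) → False
        exact fun h3 => h3 h1 h2)
      have h2 : (d ∈ a → (c ∈ d → False)) → False := h1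
      have h3 : d ∈ a ∧ c ∈ d := by
        by_contra h4
        exact h2 fun h5 h6 => h4 ⟨h5, h6⟩
      exact ⟨_, ⟨d, hd, rfl⟩, (hH.mem_iff hd).2 h3.1, (hH.mem_iff hc).2 h3.2⟩
    · rintro ⟨_, ⟨d, hd, rfl⟩, h1, h2⟩
      exact ⟨d, (hH.mem_iff hd).1 h1, (hH.mem_iff hc).1 h2⟩
  · -- power set
    rintro _ ⟨a, ha, rfl⟩
    refine ⟨_, ⟨_, hH.pow ha, rfl⟩, ?_⟩
    rintro _ ⟨c, hc, rfl⟩
    rw [hH.mem_iff hc, ZFSet.mem_powerset]
    constructor
    · rintro h _ ⟨d, hd, rfl⟩ h1
      exact (hH.mem_iff hd).2 (h ((hH.mem_iff hd).1 h1))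
    · intro h
      by_contra h1
      have h2 : ∃ x, x ∈ c ∧ x ∉ a := by
        by_contra h3
        push Not at h3
        exact h1 fun x hx => h3 x hx
      have hv : ∀ n, (cons c fun _ => a) n ∈ H := cons_mem hc fun _ => ha
      obtain ⟨d, hd, h3⟩ := hH.wit (.imp (.imp (.mem 0 1) (.mem 0 2)) .bot) hv (by
        obtain ⟨x, h3, h4⟩ := h2
        refine ⟨x, ?_⟩
        show (x ∈ c → x ∈ a) → False
        exact fun h5 => h4 (h5 h3))
      have h4 : (d ∈ c → d ∈ a) → False := h3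
      exact h4 fun h5 => (hH.mem_iff hd).1 (h _ ⟨d, hd, rfl⟩ ((hH.mem_iff hd).2 h5))
  · -- infinity
    refine ⟨_, ⟨_, hH.om, rfl⟩, ⟨_, ⟨_, hH.empty, rfl⟩, ?_, ?_⟩, ?_⟩
    · rintro _ ⟨a, ha, rfl⟩ h
      exact ZFSet.notMem_empty _ ((hH.mem_iff ha).1 h)
    · exact (hH.mem_iff hH.empty).2 (mem_om.2 ⟨0, rfl⟩)
    · rintro _ ⟨a, ha, rfl⟩ h
      obtain ⟨n, hn⟩ := mem_om.1 ((hH.mem_iff ha).1 h)
      refine ⟨_, ⟨_, hH.succ ha, rfl⟩, (hH.mem_iff (hH.succ ha)).2 (mem_om.2 ⟨n + 1, ?_⟩), ?_⟩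
      · rw [← hn]
        rfl
      · rintro _ ⟨b, hb, rfl⟩
        rw [hH.mem_iff hb, hH.mem_iff hb, ZFSet.mem_insert_iff]
        constructor
        · rintro (rfl | h)
          · exact Or.inr rfl
          · exact Or.inl h
        · rintro (h | h)
          · exact Or.inr h
          · exact Or.inl (hH.inj _ hb _ ha h)
  · -- separation
    rintro φ v hv _ ⟨a, ha, rfl⟩
    choose w hw hwv using hv
    have hvw : v = fun n => cl H (w n) := funext fun n => (hwv n).symm
    have h1 : sepo φ (a :: fl w (fb φ)) ∈ H := by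
      refine hH.op _ ?_ (Or.inl (Or.inl (Or.inr ⟨φ, rfl⟩)))
      intro x hx
      rcases List.mem_cons.1 hx with rfl | hx
      · exact ha
      · exact fl_mem hw _ x hx
    refine ⟨_, ⟨_, h1, rfl⟩, ?_⟩
    rintro _ ⟨x, hx, rfl⟩
    rw [hH.mem_iff hx, hH.mem_iff hx]
    have e : cons (cl H x) v = fun n => cl H (cons x w n) := by
      rw [hvw]
      funext n
      cases n <;> rfl
    rw [e, hH.sat φ (cons_mem hx hw)]
    show x ∈ ZFSet.sep (fun x => Sat Set.univ φ (cons x (la (fl w (fb φ))))) a ↔ _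
    rw [ZFSet.mem_sep, Sat_cons_fl]
  · -- replacement
    rintro φ v hv _ ⟨a, ha, rfl⟩ hu
    choose w hw hwv using hv
    have hvw : v = fun n => cl H (w n) := funext fun n => (hwv n).symm
    have e : ∀ x y, cons (cl H y) (cons (cl H x) v) = fun n => cl H (cons y (cons x w) n) := by
      intro x y
      rw [hvw]
      funext n
      rcases n with _ | _ | n <;> rfl
    have hS : ∀ x ∈ H, ∀ y ∈ H, (Sat (Nc H) φ (cons (cl H y) (cons (cl H x) v)) ↔
        Sat Set.univ φ (cons y (cons x w))) := by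
      intro x hx y hy
      rw [e, hH.sat φ (cons_mem hy (cons_mem hx hw))]
    -- uniqueness in the universe
    have huniq : ∀ x ∈ H, x ∈ a → ∃ y ∈ H, Sat Set.univ φ (cons y (cons x w)) ∧
        ∀ y', Sat Set.univ φ (cons y' (cons x w)) → y' = y := by
      intro x hx hxa
      obtain ⟨_, ⟨⟨y, hy, rfl⟩, h1⟩, h2⟩ := hu (cl H x) ⟨x, hx, rfl⟩ ((hH.mem_iff hx).2 hxa)
      refine ⟨y, hy, (hS x hx y hy).1 h1, ?_⟩
      by_contra h3
      push Not at h3
      obtain ⟨y', h4, h5⟩ := h3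
      have hv : ∀ n, (cons y (cons x w)) n ∈ H := cons_mem hy (cons_mem hx hw)
      obtain ⟨y'', h6, h7⟩ := hH.wit (.imp (.imp (.imp (.eq 0 1) .bot)
        (.imp (ren (fun n => if n = 0 then 0 else n + 1) φ) .bot)) .bot) hv (by
          refine ⟨y', ?_⟩
          show ((y' = y → False) → (Sat Set.univ (ren (fun n => if n = 0 then 0 else n + 1) φ)
            (cons y' (cons y (cons x w))) → False)) → False
          intro h8
          refine h8 h5 ?_
          rw [sat_ren]
          refine (Sat_fb φ fun i _ => ?_).1 h4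
          cases i <;> rfl)
      have h8 : ((y'' = y → False) → (Sat Set.univ (ren (fun n => if n = 0 then 0 else n + 1) φ)
            (cons y'' (cons y (cons x w))) → False)) → False := h7
      have h9 : y'' ≠ y ∧ Sat Set.univ φ (cons y'' (cons x w)) := by
        by_contra h10
        refine h8 fun h11 h12 => h10 ⟨h11, ?_⟩
        rw [sat_ren] at h12
        refine (Sat_fb φ fun i _ => ?_).1 h12
        cases i <;> rfl
      have h10 := h2 (cl H y'') ⟨⟨y'', h6, rfl⟩, (hS x hx y'' h6).2 h9.2⟩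
      exact h9.1 (hH.inj _ h6 _ hy h10)
    have h1 : repo φ (a :: fl w (fb φ)) ∈ H := by
      refine hH.op _ ?_ (Or.inl (Or.inr ⟨φ, rfl⟩))
      intro x hx
      rcases List.mem_cons.1 hx with rfl | hx
      · exact ha
      · exact fl_mem hw _ x hx
    refine ⟨_, ⟨_, h1, rfl⟩, ?_⟩
    rintro _ ⟨y, hy, rfl⟩
    rw [hH.mem_iff hy]
    show y ∈ ZFSet.sep (fun y => ∃ x ∈ a, Sat Set.univ φ (cons y (cons x (la (fl w (fb φ))))))
      (img (uval φ (la (fl w (fb φ)))) a) ↔ _
    rw [ZFSet.mem_sep]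
    constructor
    · rintro ⟨_, x0, h2, h3⟩
      rw [Sat_cons2_fl] at h3
      have hv : ∀ n, (cons y (cons a w)) n ∈ H := cons_mem hy (cons_mem ha hw)
      obtain ⟨x, hx, h4⟩ := hH.wit (.imp (.imp (.mem 0 2)
        (.imp (ren (fun n => if n = 0 then 1 else if n = 1 then 0 else n + 1) φ) .bot)) .bot) hv
          (by
          refine ⟨x0, ?_⟩
          show ((x0 ∈ a) → (Sat Set.univ (ren (fun n => if n = 0 then 1 else if n = 1 then 0
            else n + 1) φ) (cons x0 (cons y (cons a w))) → False)) → False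
          intro h8
          refine h8 h2 ?_
          rw [sat_ren]
          refine (Sat_fb φ fun i _ => ?_).1 h3
          rcases i with _ | _ | i <;> rfl)
      have h5 : ((x ∈ a) → (Sat Set.univ (ren (fun n => if n = 0 then 1 else if n = 1 then 0
            else n + 1) φ) (cons x (cons y (cons a w))) → False)) → False := h4
      have h6 : x ∈ a ∧ Sat Set.univ φ (cons y (cons x w)) := by
        by_contra h7
        refine h5 fun h8 h9 => h7 ⟨h8, ?_⟩
        rw [sat_ren] at h9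
        refine (Sat_fb φ fun i _ => ?_).1 h9
        rcases i with _ | _ | i <;> rfl
      exact ⟨_, ⟨x, hx, rfl⟩, (hH.mem_iff hx).2 h6.1, (hS x hx y hy).2 h6.2⟩
    · rintro ⟨_, ⟨x, hx, rfl⟩, h2, h3⟩
      have h2' := (hH.mem_iff hx).1 h2
      have h3' := (hS x hx y hy).1 h3
      refine ⟨mem_img.2 ⟨x, h2', ?_⟩, x, h2', Sat_cons2_fl.2 h3'⟩
      have hex : ∃ y, Sat Set.univ φ (cons y (cons x (la (fl w (fb φ))))) :=
        ⟨y, Sat_cons2_fl.2 h3'⟩
      obtain ⟨y0, _, _, h5⟩ := huniq x hx h2'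
      rw [uval, dif_pos hex, h5 _ (Sat_cons2_fl.1 hex.choose_spec), h5 y h3']

/-- there is a countable transitive model of `ZF` -/
theorem exists_zf : ∃ N : Set V, N.Countable ∧ IsTransModelZF N := by
  obtain ⟨H, hH⟩ := exists_Hl
  refine ⟨Nc H, ?_, Nc_zf hH⟩
  exact (hH.count.image (cl H)).mono (by
    rintro _ ⟨x, hx, rfl⟩
    exact ⟨x, hx, rfl⟩)

end Pool.Agent.CM
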