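import Mathlib
import Pool.Agent.Lib.MP_f8e9b8_lc.Util

/-!
# MP_f8e9b8_lc : forcing, atomic formulas
-/

set_option autoImplicit false

namespace Pool.Agent.CM

open Pool.Agent.CR (V Fml cons Sat nat cons_zero cons_succ)

variable {W M : Set V}

/-- induction along the transitive closure -/
theorem tc_ind {p : V → Prop} (h : ∀ x, (∀ y ∈ tc x, p y) → p x) (x : V) : p x := by
  have : ∀ x : V, ∀ z ∈ tcs x, p z := by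
    intro x
    induction x using ZFSet.inductionOn with
    | _ x ih =>
      have h1 : ∀ z ∈ tc x, p z := by
        intro z hz
        obtain ⟨y, hy, h⟩ := mem_tc_iff.1 hz
        exact ih y hy z (mem_tcs.2 h)
      intro z hz
      rcases mem_tcs.1 hz with rfl | hz
      · exact h _ h1
      · exact h1 z hz
  exact this x x (self_mem_tcs x)

theorem mem_of_pair_mem_trans {X σ ρ s : V} (hX : X.IsTransitive) (hσ : σ ∈ X)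
    (h : ZFSet.pair ρ s ∈ σ) : ρ ∈ X ∧ s ∈ X := by
  have h1 : ZFSet.pair ρ s ∈ X := hX σ hσ h
  have h2 : ({ρ, s} : V) ∈ X := hX _ h1 (by simp [ZFSet.pair])
  exact ⟨hX _ h2 (by simp), hX _ h2 (by simp)⟩

theorem mem_of_pair_mem (hW : IsTransModelZF W) {σ ρ s : V} (hσ : σ ∈ W)
    (h : ZFSet.pair ρ s ∈ σ) : ρ ∈ W ∧ s ∈ W := by
  have h1 := hW.transitive σ hσ _ h
  have h2 := fst_mem hW h1
  have h3 := snd_mem hW h1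
  rw [fst_pair] at h2
  rw [snd_pair] at h3
  exact ⟨h2, h3⟩

theorem mem_FE {P X τ σ p : V} : ZFSet.pair σ p ∈ FE P X τ ↔ σ ∈ X ∧ p ∈ P ∧
    (∀ π ∈ tc τ, ∀ r ∈ P, ZFSet.pair π r ∈ τ → ∀ q ∈ P, q ⊆ p → q ⊆ r →
      ∃ q' ∈ P, q' ⊆ q ∧ ∃ ρ ∈ X, ∃ s ∈ P, ZFSet.pair ρ s ∈ σ ∧ q' ⊆ s ∧
        ZFSet.pair ρ q' ∈ FE P X π) ∧
    (∀ ρ ∈ X, ∀ s ∈ P, ZFSet.pair ρ s ∈ σ → ∀ q ∈ P, q ⊆ p → q ⊆ s →
      ∃ q' ∈ P, q' ⊆ q ∧ ∃ π ∈ tc τ, ∃ r ∈ P, ZFSet.pair π r ∈ τ ∧ q' ⊆ r ∧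
        ZFSet.pair ρ q' ∈ FE P X π) := by
  rw [FE, recT_eq, ZFSet.mem_sep, ZFSet.pair_mem_prod, fst_pair, snd_pair, and_assoc]
  refine and_congr_right fun _ => and_congr_right fun _ => ?_
  refine and_congr ?_ ?_
  · refine forall_congr' fun π => forall_congr' fun hπ => ?_
    rw [ap_gr hπ]
  · refine forall_congr' fun ρ => forall_congr' fun hρ => forall_congr' fun s =>
      forall_congr' fun hs => forall_congr' fun hρs => forall_congr' fun q =>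
      forall_congr' fun hq => forall_congr' fun hqp => forall_congr' fun hqs => ?_
    refine exists_congr fun q' => and_congr_right fun _ => and_congr_right fun _ => ?_
    refine exists_congr fun π => and_congr_right fun hπ => ?_
    rw [ap_gr hπ]

/-- the relation does not depend on the bound -/
theorem FE_indep {P : V} (τ : V) : ∀ {X X' σ p : V}, X.IsTransitive → X'.IsTransitive → σ ∈ X →
    σ ∈ X' → ZFSet.pair σ p ∈ FE P X τ → ZFSet.pair σ p ∈ FE P X' τ := by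
  refine tc_ind (p := fun τ => ∀ {X X' σ p : V}, X.IsTransitive → X'.IsTransitive → σ ∈ X →
    σ ∈ X' → ZFSet.pair σ p ∈ FE P X τ → ZFSet.pair σ p ∈ FE P X' τ) ?_ τ
  intro τ ih X X' σ p hX hX' hσ hσ' h
  obtain ⟨_, hp, hA, hB⟩ := mem_FE.1 h
  refine mem_FE.2 ⟨hσ', hp, ?_, ?_⟩
  · intro π hπ r hr hπr q hq hqp hqr
    obtain ⟨q', hq', hq'q, ρ, hρ, s, hs, hρs, hq's, h1⟩ := hA π hπ r hr hπr q hq hqp hqr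
    have hρ' := (mem_of_pair_mem_trans hX' hσ' hρs).1
    exact ⟨q', hq', hq'q, ρ, hρ', s, hs, hρs, hq's, ih π hπ hX hX' hρ hρ' h1⟩
  · intro ρ hρ' s hs hρs q hq hqp hqs
    have hρ := (mem_of_pair_mem_trans hX hσ hρs).1
    obtain ⟨q', hq', hq'q, π, hπ, r, hr, hπr, hq'r, h1⟩ := hB ρ hρ s hs hρs q hq hqp hqs
    exact ⟨q', hq', hq'q, π, hπ, r, hr, hπr, hq'r, ih π hπ hX hX' hρ hρ' h1⟩

/-- the recursive equation of the relation `p forces τ = σ` -/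
theorem fEq_iff {P p τ σ : V} : fEq P p τ σ ↔ p ∈ P ∧
    (∀ π r, ZFSet.pair π r ∈ τ → r ∈ P → ∀ q ∈ P, q ⊆ p → q ⊆ r →
      ∃ q' ∈ P, q' ⊆ q ∧ ∃ ρ s, ZFSet.pair ρ s ∈ σ ∧ s ∈ P ∧ q' ⊆ s ∧ fEq P q' π ρ) ∧
    (∀ ρ s, ZFSet.pair ρ s ∈ σ → s ∈ P → ∀ q ∈ P, q ⊆ p → q ⊆ s →
      ∃ q' ∈ P, q' ⊆ q ∧ ∃ π r, ZFSet.pair π r ∈ τ ∧ r ∈ P ∧ q' ⊆ r ∧ fEq P q' π ρ) := by
  have key : ∀ ρ s, ZFSet.pair ρ s ∈ σ → ∀ π q', ZFSet.pair ρ q' ∈ FE P (tcs σ) π ↔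
      fEq P q' π ρ := by
    intro ρ s hρs π q'
    have hρ := (mem_of_pair_mem_trans (tcs_trans σ) (self_mem_tcs σ) hρs).1
    exact ⟨FE_indep π (tcs_trans _) (tcs_trans _) hρ (self_mem_tcs ρ),
      FE_indep π (tcs_trans _) (tcs_trans _) (self_mem_tcs ρ) hρ⟩
  rw [fEq, mem_FE]
  constructor
  · rintro ⟨_, hp, hA, hB⟩
    refine ⟨hp, ?_, ?_⟩
    · intro π r hπr hr q hq hqp hqr
      obtain ⟨q', hq', hq'q, ρ, hρ, s, hs, hρs, hq's, h1⟩ :=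
        hA π (mem_tc_of_pair hπr) r hr hπr q hq hqp hqr
      exact ⟨q', hq', hq'q, ρ, s, hρs, hs, hq's, (key ρ s hρs π q').1 h1⟩
    · intro ρ s hρs hs q hq hqp hqs
      have hρ := (mem_of_pair_mem_trans (tcs_trans σ) (self_mem_tcs σ) hρs).1
      obtain ⟨q', hq', hq'q, π, hπ, r, hr, hπr, hq'r, h1⟩ := hB ρ hρ s hs hρs q hq hqp hqs
      exact ⟨q', hq', hq'q, π, r, hπr, hr, hq'r, (key ρ s hρs π q').1 h1⟩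
  · rintro ⟨hp, hA, hB⟩
    refine ⟨self_mem_tcs σ, hp, ?_, ?_⟩
    · intro π hπ r hr hπr q hq hqp hqr
      obtain ⟨q', hq', hq'q, ρ, s, hρs, hs, hq's, h1⟩ := hA π r hπr hr q hq hqp hqr
      have hρ := (mem_of_pair_mem_trans (tcs_trans σ) (self_mem_tcs σ) hρs).1
      exact ⟨q', hq', hq'q, ρ, hρ, s, hs, hρs, hq's, (key ρ s hρs π q').2 h1⟩
    · intro ρ _ s hs hρs q hq hqp hqs
      obtain ⟨q', hq', hq'q, π, r, hπr, hr, hq'r, h1⟩ := hB ρ s hρs hs q hq hqp hqs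
      exact ⟨q', hq', hq'q, π, mem_tc_of_pair hπr, r, hr, hπr, hq'r, (key ρ s hρs π q').2 h1⟩

/-! ### definability -/

theorem DF.FE (hW : IsTransModelZF W) {P X τ : (ℕ → V) → V} (hP : DF W P) (hX : DF W X)
    (hτ : DF W τ) : DF W (fun v => CM.FE (P v) (X v) (τ v)) := by
  refine DF3.app (F := CM.FE) ?_ hP hX hτ
  refine DF.recT hW (G := fun v τ h => ZFSet.sep (fun z =>
    (∀ π ∈ CM.tc τ, ∀ r ∈ v 0, ZFSet.pair π r ∈ τ → ∀ q ∈ v 0, q ⊆ CM.snd z → q ⊆ r →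
      ∃ q' ∈ v 0, q' ⊆ q ∧ ∃ ρ ∈ v 1, ∃ s ∈ v 0, ZFSet.pair ρ s ∈ CM.fst z ∧ q' ⊆ s ∧
        ZFSet.pair ρ q' ∈ CM.ap h π) ∧
    (∀ ρ ∈ v 1, ∀ s ∈ v 0, ZFSet.pair ρ s ∈ CM.fst z → ∀ q ∈ v 0, q ⊆ CM.snd z → q ⊆ s →
      ∃ q' ∈ v 0, q' ⊆ q ∧ ∃ π ∈ CM.tc τ, ∃ r ∈ v 0, ZFSet.pair π r ∈ τ ∧ q' ⊆ r ∧
        ZFSet.pair ρ q' ∈ CM.ap h π)) (ZFSet.prod (v 1) (v 0))) ?_ (DF.v hW 2)
  -- variables: 0 τ, 1 h, 2 P, 3 X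
  refine DF.sep hW (DF.prod hW (DF.v hW 3) (DF.v hW 2)) (P := fun z v =>
    (∀ π ∈ CM.tc (v 0), ∀ r ∈ v 2, ZFSet.pair π r ∈ v 0 → ∀ q ∈ v 2, q ⊆ CM.snd z → q ⊆ r →
      ∃ q' ∈ v 2, q' ⊆ q ∧ ∃ ρ ∈ v 3, ∃ s ∈ v 2, ZFSet.pair ρ s ∈ CM.fst z ∧ q' ⊆ s ∧
        ZFSet.pair ρ q' ∈ CM.ap (v 1) π) ∧
    (∀ ρ ∈ v 3, ∀ s ∈ v 2, ZFSet.pair ρ s ∈ CM.fst z → ∀ q ∈ v 2, q ⊆ CM.snd z → q ⊆ s →
      ∃ q' ∈ v 2, q' ⊆ q ∧ ∃ π ∈ CM.tc (v 0), ∃ r ∈ v 2, ZFSet.pair π r ∈ v 0 ∧ q' ⊆ r ∧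
        ZFSet.pair ρ q' ∈ CM.ap (v 1) π)) ?_
  -- variables: 0 z, 1 τ, 2 h, 3 P, 4 X
  refine DP.and ?_ ?_
  · refine DP.ball hW (DF.tc hW (DF.v hW 1)) (Q := fun π v => ∀ r ∈ v 3, ZFSet.pair π r ∈ v 1 →
      ∀ q ∈ v 3, q ⊆ CM.snd (v 0) → q ⊆ r → ∃ q' ∈ v 3, q' ⊆ q ∧ ∃ ρ ∈ v 4, ∃ s ∈ v 3,
        ZFSet.pair ρ s ∈ CM.fst (v 0) ∧ q' ⊆ s ∧ ZFSet.pair ρ q' ∈ CM.ap (v 2) π) ?_
    -- 0 π, 1 z, 2 τ, 3 h, 4 P, 5 X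
    refine DP.ball hW (DF.v hW 4) (Q := fun r v => ZFSet.pair (v 0) r ∈ v 2 →
      ∀ q ∈ v 4, q ⊆ CM.snd (v 1) → q ⊆ r → ∃ q' ∈ v 4, q' ⊆ q ∧ ∃ ρ ∈ v 5, ∃ s ∈ v 4,
        ZFSet.pair ρ s ∈ CM.fst (v 1) ∧ q' ⊆ s ∧ ZFSet.pair ρ q' ∈ CM.ap (v 3) (v 0)) ?_
    -- 0 r, 1 π, 2 z, 3 τ, 4 h, 5 P, 6 X
    refine (DP.mem (DF.pair hW (DF.v hW 1) (DF.v hW 0)) (DF.v hW 3)).imp ?_
    refine DP.ball hW (DF.v hW 5) (Q := fun q v => q ⊆ CM.snd (v 2) → q ⊆ v 0 →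
      ∃ q' ∈ v 5, q' ⊆ q ∧ ∃ ρ ∈ v 6, ∃ s ∈ v 5,
        ZFSet.pair ρ s ∈ CM.fst (v 2) ∧ q' ⊆ s ∧ ZFSet.pair ρ q' ∈ CM.ap (v 4) (v 1)) ?_
    -- 0 q, 1 r, 2 π, 3 z, 4 τ, 5 h, 6 P, 7 X
    refine (DP.sub hW (DF.v hW 0) (DF.snd hW (DF.v hW 3))).imp
      ((DP.sub hW (DF.v hW 0) (DF.v hW 1)).imp ?_)
    refine DP.bex hW (DF.v hW 6) (Q := fun q' v => q' ⊆ v 0 ∧ ∃ ρ ∈ v 7, ∃ s ∈ v 6,
        ZFSet.pair ρ s ∈ CM.fst (v 3) ∧ q' ⊆ s ∧ ZFSet.pair ρ q' ∈ CM.ap (v 5) (v 2)) ?_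
    -- 0 q', 1 q, 2 r, 3 π, 4 z, 5 τ, 6 h, 7 P, 8 X
    refine (DP.sub hW (DF.v hW 0) (DF.v hW 1)).and ?_
    refine DP.bex hW (DF.v hW 8) (Q := fun ρ v => ∃ s ∈ v 7,
        ZFSet.pair ρ s ∈ CM.fst (v 4) ∧ v 0 ⊆ s ∧ ZFSet.pair ρ (v 0) ∈ CM.ap (v 6) (v 3)) ?_
    refine DP.bex hW (DF.v hW 8) (Q := fun s v =>
        ZFSet.pair (v 0) s ∈ CM.fst (v 5) ∧ v 1 ⊆ s ∧ ZFSet.pair (v 0) (v 1) ∈
          CM.ap (v 7) (v 4)) ?_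
    -- 0 s, 1 ρ, 2 q', 3 q, 4 r, 5 π, 6 z, 7 τ, 8 h
    exact (DP.mem (DF.pair hW (DF.v hW 1) (DF.v hW 0)) (DF.fst hW (DF.v hW 6))).and
      ((DP.sub hW (DF.v hW 2) (DF.v hW 0)).and (DP.mem (DF.pair hW (DF.v hW 1) (DF.v hW 2))
        (DF.ap hW (DF.v hW 8) (DF.v hW 5))))
  · refine DP.ball hW (DF.v hW 4) (Q := fun ρ v => ∀ s ∈ v 3, ZFSet.pair ρ s ∈ CM.fst (v 0) →
      ∀ q ∈ v 3, q ⊆ CM.snd (v 0) → q ⊆ s → ∃ q' ∈ v 3, q' ⊆ q ∧ ∃ π ∈ CM.tc (v 1), ∃ r ∈ v 3,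
        ZFSet.pair π r ∈ v 1 ∧ q' ⊆ r ∧ ZFSet.pair ρ q' ∈ CM.ap (v 2) π) ?_
    -- 0 ρ, 1 z, 2 τ, 3 h, 4 P, 5 X
    refine DP.ball hW (DF.v hW 4) (Q := fun s v => ZFSet.pair (v 0) s ∈ CM.fst (v 1) →
      ∀ q ∈ v 4, q ⊆ CM.snd (v 1) → q ⊆ s → ∃ q' ∈ v 4, q' ⊆ q ∧ ∃ π ∈ CM.tc (v 2), ∃ r ∈ v 4,
        ZFSet.pair π r ∈ v 2 ∧ q' ⊆ r ∧ ZFSet.pair (v 0) q' ∈ CM.ap (v 3) π) ?_
    -- 0 s, 1 ρ, 2 z, 3 τ, 4 h, 5 P, 6 X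
    refine (DP.mem (DF.pair hW (DF.v hW 1) (DF.v hW 0)) (DF.fst hW (DF.v hW 2))).imp ?_
    refine DP.ball hW (DF.v hW 5) (Q := fun q v => q ⊆ CM.snd (v 2) → q ⊆ v 0 →
      ∃ q' ∈ v 5, q' ⊆ q ∧ ∃ π ∈ CM.tc (v 3), ∃ r ∈ v 5,
        ZFSet.pair π r ∈ v 3 ∧ q' ⊆ r ∧ ZFSet.pair (v 1) q' ∈ CM.ap (v 4) π) ?_
    -- 0 q, 1 s, 2 ρ, 3 z, 4 τ, 5 h, 6 P, 7 X
    refine (DP.sub hW (DF.v hW 0) (DF.snd hW (DF.v hW 3))).imp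
      ((DP.sub hW (DF.v hW 0) (DF.v hW 1)).imp ?_)
    refine DP.bex hW (DF.v hW 6) (Q := fun q' v => q' ⊆ v 0 ∧ ∃ π ∈ CM.tc (v 4), ∃ r ∈ v 6,
        ZFSet.pair π r ∈ v 4 ∧ q' ⊆ r ∧ ZFSet.pair (v 2) q' ∈ CM.ap (v 5) π) ?_
    -- 0 q', 1 q, 2 s, 3 ρ, 4 z, 5 τ, 6 h, 7 P, 8 X
    refine (DP.sub hW (DF.v hW 0) (DF.v hW 1)).and ?_
    refine DP.bex hW (DF.tc hW (DF.v hW 5)) (Q := fun π v => ∃ r ∈ v 7,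
        ZFSet.pair π r ∈ v 5 ∧ v 0 ⊆ r ∧ ZFSet.pair (v 3) (v 0) ∈ CM.ap (v 6) π) ?_
    refine DP.bex hW (DF.v hW 8) (Q := fun r v =>
        ZFSet.pair (v 0) r ∈ v 6 ∧ v 1 ⊆ r ∧ ZFSet.pair (v 4) (v 1) ∈ CM.ap (v 7) (v 0)) ?_
    -- 0 r, 1 π, 2 q', 3 q, 4 s, 5 ρ, 6 z, 7 τ, 8 h
    exact (DP.mem (DF.pair hW (DF.v hW 1) (DF.v hW 0)) (DF.v hW 7)).and
      ((DP.sub hW (DF.v hW 2) (DF.v hW 0)).and (DP.mem (DF.pair hW (DF.v hW 5) (DF.v hW 2))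
        (DF.ap hW (DF.v hW 8) (DF.v hW 1))))

theorem DP.fEq (hW : IsTransModelZF W) {P p τ σ : (ℕ → V) → V} (hP : DF W P) (hp : DF W p)
    (hτ : DF W τ) (hσ : DF W σ) : DP W (fun v => CM.fEq (P v) (p v) (τ v) (σ v)) :=
  DP.mem (DF.pair hW hσ hp) (DF.FE hW hP (DF.tcs hW hσ) hτ)

theorem DP.fMem (hW : IsTransModelZF W) {P p τ σ : (ℕ → V) → V} (hP : DF W P) (hp : DF W p)
    (hτ : DF W τ) (hσ : DF W σ) : DP W (fun v => CM.fMem (P v) (p v) (τ v) (σ v)) := by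
  refine DP4.app (P := CM.fMem) ?_ hP hp hτ hσ
  have h : DP W (fun v => ∀ q ∈ v 0, q ⊆ v 1 → ∃ q' ∈ v 0, q' ⊆ q ∧ ∃ ρ ∈ W, ∃ s ∈ W,
      ZFSet.pair ρ s ∈ v 3 ∧ s ∈ v 0 ∧ q' ⊆ s ∧ CM.fEq (v 0) q' (v 2) ρ) := by
    refine DP.ball hW (DF.v hW 0) (Q := fun q v => q ⊆ v 1 → ∃ q' ∈ v 0, q' ⊆ q ∧ ∃ ρ ∈ W,
      ∃ s ∈ W, ZFSet.pair ρ s ∈ v 3 ∧ s ∈ v 0 ∧ q' ⊆ s ∧ CM.fEq (v 0) q' (v 2) ρ) ?_
    refine (DP.sub hW (DF.v hW 0) (DF.v hW 2)).imp ?_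
    refine DP.bex hW (DF.v hW 1) (Q := fun q' v => q' ⊆ v 0 ∧ ∃ ρ ∈ W,
      ∃ s ∈ W, ZFSet.pair ρ s ∈ v 4 ∧ s ∈ v 1 ∧ q' ⊆ s ∧ CM.fEq (v 1) q' (v 3) ρ) ?_
    refine (DP.sub hW (DF.v hW 0) (DF.v hW 1)).and ?_
    refine DP.ex (Q := fun ρ v =>
      ∃ s ∈ W, ZFSet.pair ρ s ∈ v 5 ∧ s ∈ v 2 ∧ v 0 ⊆ s ∧ CM.fEq (v 2) (v 0) (v 4) ρ) ?_
    refine DP.ex (Q := fun s v =>
      ZFSet.pair (v 0) s ∈ v 6 ∧ s ∈ v 3 ∧ v 1 ⊆ s ∧ CM.fEq (v 3) (v 1) (v 5) (v 0)) ?_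
    exact (DP.mem (DF.pair hW (DF.v hW 1) (DF.v hW 0)) (DF.v hW 7)).and
      ((DP.mem (DF.v hW 0) (DF.v hW 4)).and ((DP.sub hW (DF.v hW 2) (DF.v hW 0)).and
        (DP.fEq hW (DF.v hW 4) (DF.v hW 2) (DF.v hW 6) (DF.v hW 1))))
  refine h.congr fun v hv => ?_
  refine forall_congr' fun q => forall_congr' fun _ => forall_congr' fun _ => ?_
  refine exists_congr fun q' => and_congr_right fun _ => and_congr_right fun _ => ?_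
  constructor
  · rintro ⟨ρ, s, h1, h2⟩
    obtain ⟨h3, h4⟩ := mem_of_pair_mem hW (hv 3) h1
    exact ⟨ρ, h3, s, h4, h1, h2⟩
  · rintro ⟨ρ, _, s, _, h1⟩
    exact ⟨ρ, s, h1⟩

/-! ### monotonicity and density -/

theorem fEq_P {P p τ σ : V} (h : fEq P p τ σ) : p ∈ P := (fEq_iff.1 h).1

theorem sub_trans {x y z : V} (h1 : x ⊆ y) (h2 : y ⊆ z) : x ⊆ z := fun _ h => h2 (h1 h)

theorem sub_rfl {x : V} : x ⊆ x := fun _ h => h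

theorem fEq_mono {P p q τ σ : V} (h : fEq P p τ σ) (hq : q ∈ P) (hqp : q ⊆ p) : fEq P q τ σ := by
  obtain ⟨_, hA, hB⟩ := fEq_iff.1 h
  exact fEq_iff.2 ⟨hq, fun π r h1 h2 q1 h3 h4 => hA π r h1 h2 q1 h3 (sub_trans h4 hqp),
    fun ρ s h1 h2 q1 h3 h4 => hB ρ s h1 h2 q1 h3 (sub_trans h4 hqp)⟩

theorem fEq_dense {P p τ σ : V} (hp : p ∈ P)
    (h : ∀ q ∈ P, q ⊆ p → ∃ q' ∈ P, q' ⊆ q ∧ fEq P q' τ σ) : fEq P p τ σ := by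
  refine fEq_iff.2 ⟨hp, ?_, ?_⟩
  · intro π r h1 h2 q h3 h4 h5
    obtain ⟨q', h6, h7, h8⟩ := h q h3 h4
    obtain ⟨q'', h9, h10, h11⟩ := (fEq_iff.1 h8).2.1 π r h1 h2 q' h6 sub_rfl (sub_trans h7 h5)
    exact ⟨q'', h9, sub_trans h10 h7, h11⟩
  · intro π r h1 h2 q h3 h4 h5
    obtain ⟨q', h6, h7, h8⟩ := h q h3 h4
    obtain ⟨q'', h9, h10, h11⟩ := (fEq_iff.1 h8).2.2 π r h1 h2 q' h6 sub_rfl (sub_trans h7 h5)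
    exact ⟨q'', h9, sub_trans h10 h7, h11⟩

theorem fMem_mono {P p q τ σ : V} (h : fMem P p τ σ) (hqp : q ⊆ p) : fMem P q τ σ :=
  fun q1 h1 h2 => h q1 h1 (sub_trans h2 hqp)

theorem fMem_dense {P p τ σ : V}
    (h : ∀ q ∈ P, q ⊆ p → ∃ q' ∈ P, q' ⊆ q ∧ fMem P q' τ σ) : fMem P p τ σ := by
  intro q h3 h4
  obtain ⟨q', h6, h7, h8⟩ := h q h3 h4
  obtain ⟨q'', h9, h10, h11⟩ := h8 q' h6 sub_rfl
  exact ⟨q'', h9, sub_trans h10 h7, h11⟩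

/-! ### generic filters -/

variable {P t : V} {G : Set V}

/-- a generic filter meets the sets which are dense below one of its elements -/
theorem Gen.below (hW : IsTransModelZF M) (hG : Gen M P t G) {D q0 : V} (hD : D ∈ M)
    (hDP : D ⊆ P) (hq : q0 ∈ G) (h : ∀ q ∈ P, q ⊆ q0 → ∃ d ∈ D, d ⊆ q) : ∃ d ∈ G, d ∈ D := by
  have hqM : q0 ∈ M := hW.transitive P hG.memP _ (hG.sub _ hq)
  have h1 : ZFSet.sep (fun q => ∀ r ∈ P, r ⊆ q → r ⊆ q0 → False) P ∈ M := by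
    refine sep_mem hW (v := cons P fun _ => q0) (P := fun q v => ∀ r ∈ v 0, r ⊆ q →
      r ⊆ v 1 → False) ?_ (cons_mem hG.memP fun _ => hqM) hG.memP
    refine DP.ball hW (DF.v hW 1) (Q := fun r v => r ⊆ v 0 → r ⊆ v 2 → False) ?_
    exact (DP.sub hW (DF.v hW 0) (DF.v hW 1)).imp ((DP.sub hW (DF.v hW 0) (DF.v hW 3)).imp
      (DP.bot hW.nonempty))
  obtain ⟨d, hd, hd'⟩ := hG.gen _ (un_mem hW hD h1) (by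
    intro x hx
    rcases ZFSet.mem_union.1 hx with h2 | h2
    · exact hDP h2
    · exact sep_sub h2) (by
    intro p hp
    by_cases h2 : ∃ r ∈ P, r ⊆ p ∧ r ⊆ q0
    · obtain ⟨r, hr, h3, h4⟩ := h2
      obtain ⟨d, hd, h5⟩ := h r hr h4
      exact ⟨d, ZFSet.mem_union.2 (Or.inl hd), sub_trans h5 h3⟩
    · refine ⟨p, ZFSet.mem_union.2 (Or.inr (ZFSet.mem_sep.2 ⟨hp, fun r hr h3 h4 => ?_⟩)), sub_rfl⟩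
      exact h2 ⟨r, hr, h3, h4⟩)
  refine ⟨d, hd, ?_⟩
  rcases ZFSet.mem_union.1 hd' with h2 | h2
  · exact h2
  · exfalso
    obtain ⟨r, hr, h3, h4⟩ := hG.dir d hd q0 hq
    exact (ZFSet.mem_sep.1 h2).2 r (hG.sub r hr) h3 h4

theorem Gen.memM (hW : IsTransModelZF M) (hG : Gen M P t G) {p : V} (hp : p ∈ G) : p ∈ M :=
  hW.transitive P hG.memP _ (hG.sub _ hp)

/-- the truth lemma for equality -/
theorem truth_eq (hW : IsTransModelZF M) (hG : Gen M P t G) (τ : V) :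
    ∀ σ, τ ∈ M → σ ∈ M → (val G τ = val G σ ↔ ∃ p ∈ G, fEq P p τ σ) := by
  refine tc_ind (p := fun τ => ∀ σ, τ ∈ M → σ ∈ M →
    (val G τ = val G σ ↔ ∃ p ∈ G, fEq P p τ σ)) ?_ τ
  intro τ ih σ hτ hσ
  have hPM := hG.memP
  constructor
  · intro heq
    -- the three kinds of conditions
    have hDM : ZFSet.sep (fun p => fEq P p τ σ ∨
        (∃ π r, ZFSet.pair π r ∈ τ ∧ r ∈ P ∧ p ⊆ r ∧ ∀ q' ∈ P, q' ⊆ p → ¬ ∃ ρ s,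
          ZFSet.pair ρ s ∈ σ ∧ s ∈ P ∧ q' ⊆ s ∧ fEq P q' π ρ) ∨
        (∃ ρ s, ZFSet.pair ρ s ∈ σ ∧ s ∈ P ∧ p ⊆ s ∧ ∀ q' ∈ P, q' ⊆ p → ¬ ∃ π r,
          ZFSet.pair π r ∈ τ ∧ r ∈ P ∧ q' ⊆ r ∧ fEq P q' π ρ)) P ∈ M := by
      refine sep_mem' hW (v := cons P (cons τ fun _ => σ)) (P := fun p v =>
        fEq (v 0) p (v 1) (v 2) ∨
        (∃ π ∈ M, ∃ r ∈ M, ZFSet.pair π r ∈ v 1 ∧ r ∈ v 0 ∧ p ⊆ r ∧ ∀ q' ∈ v 0, q' ⊆ p →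
          ¬ ∃ ρ ∈ M, ∃ s ∈ M, ZFSet.pair ρ s ∈ v 2 ∧ s ∈ v 0 ∧ q' ⊆ s ∧ fEq (v 0) q' π ρ) ∨
        (∃ ρ ∈ M, ∃ s ∈ M, ZFSet.pair ρ s ∈ v 2 ∧ s ∈ v 0 ∧ p ⊆ s ∧ ∀ q' ∈ v 0, q' ⊆ p →
          ¬ ∃ π ∈ M, ∃ r ∈ M, ZFSet.pair π r ∈ v 1 ∧ r ∈ v 0 ∧ q' ⊆ r ∧ fEq (v 0) q' π ρ))
        ?_ (cons_mem hPM (cons_mem hτ fun _ => hσ)) hPM ?_
      · -- 0 p, 1 P, 2 τ, 3 σ
        refine (DP.fEq hW (DF.v hW 1) (DF.v hW 0) (DF.v hW 2) (DF.v hW 3)).or (DP.or ?_ ?_)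
        · refine DP.ex (Q := fun π v => ∃ r ∈ M, ZFSet.pair π r ∈ v 2 ∧ r ∈ v 1 ∧ v 0 ⊆ r ∧
            ∀ q' ∈ v 1, q' ⊆ v 0 → ¬ ∃ ρ ∈ M, ∃ s ∈ M, ZFSet.pair ρ s ∈ v 3 ∧ s ∈ v 1 ∧ q' ⊆ s ∧
            fEq (v 1) q' π ρ) ?_
          refine DP.ex (Q := fun r v => ZFSet.pair (v 0) r ∈ v 3 ∧ r ∈ v 2 ∧ v 1 ⊆ r ∧
            ∀ q' ∈ v 2, q' ⊆ v 1 → ¬ ∃ ρ ∈ M, ∃ s ∈ M, ZFSet.pair ρ s ∈ v 4 ∧ s ∈ v 2 ∧ q' ⊆ s ∧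
            fEq (v 2) q' (v 0) ρ) ?_
          -- 0 r, 1 π, 2 p, 3 P, 4 τ, 5 σ
          refine (DP.mem (DF.pair hW (DF.v hW 1) (DF.v hW 0)) (DF.v hW 4)).and
            ((DP.mem (DF.v hW 0) (DF.v hW 3)).and ((DP.sub hW (DF.v hW 2) (DF.v hW 0)).and ?_))
          refine DP.ball hW (DF.v hW 3) (Q := fun q' v => q' ⊆ v 2 → ¬ ∃ ρ ∈ M, ∃ s ∈ M,
            ZFSet.pair ρ s ∈ v 5 ∧ s ∈ v 3 ∧ q' ⊆ s ∧ fEq (v 3) q' (v 1) ρ) ?_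
          -- 0 q', 1 r, 2 π, 3 p, 4 P, 5 τ, 6 σ
          refine (DP.sub hW (DF.v hW 0) (DF.v hW 3)).imp (DP.not ?_)
          refine DP.ex (Q := fun ρ v => ∃ s ∈ M,
            ZFSet.pair ρ s ∈ v 6 ∧ s ∈ v 4 ∧ v 0 ⊆ s ∧ fEq (v 4) (v 0) (v 2) ρ) ?_
          refine DP.ex (Q := fun s v =>
            ZFSet.pair (v 0) s ∈ v 7 ∧ s ∈ v 5 ∧ v 1 ⊆ s ∧ fEq (v 5) (v 1) (v 3) (v 0)) ?_
          -- 0 s, 1 ρ, 2 q', 3 r, 4 π, 5 p, 6 P, 7 τ, 8 σ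
          exact (DP.mem (DF.pair hW (DF.v hW 1) (DF.v hW 0)) (DF.v hW 8)).and
            ((DP.mem (DF.v hW 0) (DF.v hW 6)).and ((DP.sub hW (DF.v hW 2) (DF.v hW 0)).and
              (DP.fEq hW (DF.v hW 6) (DF.v hW 2) (DF.v hW 4) (DF.v hW 1))))
        · refine DP.ex (Q := fun π v => ∃ r ∈ M, ZFSet.pair π r ∈ v 3 ∧ r ∈ v 1 ∧ v 0 ⊆ r ∧
            ∀ q' ∈ v 1, q' ⊆ v 0 → ¬ ∃ ρ ∈ M, ∃ s ∈ M, ZFSet.pair ρ s ∈ v 2 ∧ s ∈ v 1 ∧ q' ⊆ s ∧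
            fEq (v 1) q' ρ π) ?_
          refine DP.ex (Q := fun r v => ZFSet.pair (v 0) r ∈ v 4 ∧ r ∈ v 2 ∧ v 1 ⊆ r ∧
            ∀ q' ∈ v 2, q' ⊆ v 1 → ¬ ∃ ρ ∈ M, ∃ s ∈ M, ZFSet.pair ρ s ∈ v 3 ∧ s ∈ v 2 ∧ q' ⊆ s ∧
            fEq (v 2) q' ρ (v 0)) ?_
          refine (DP.mem (DF.pair hW (DF.v hW 1) (DF.v hW 0)) (DF.v hW 5)).and
            ((DP.mem (DF.v hW 0) (DF.v hW 3)).and ((DP.sub hW (DF.v hW 2) (DF.v hW 0)).and ?_))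
          refine DP.ball hW (DF.v hW 3) (Q := fun q' v => q' ⊆ v 2 → ¬ ∃ ρ ∈ M, ∃ s ∈ M,
            ZFSet.pair ρ s ∈ v 4 ∧ s ∈ v 3 ∧ q' ⊆ s ∧ fEq (v 3) q' ρ (v 1)) ?_
          refine (DP.sub hW (DF.v hW 0) (DF.v hW 3)).imp (DP.not ?_)
          refine DP.ex (Q := fun ρ v => ∃ s ∈ M,
            ZFSet.pair ρ s ∈ v 5 ∧ s ∈ v 4 ∧ v 0 ⊆ s ∧ fEq (v 4) (v 0) ρ (v 2)) ?_
          refine DP.ex (Q := fun s v =>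
            ZFSet.pair (v 0) s ∈ v 6 ∧ s ∈ v 5 ∧ v 1 ⊆ s ∧ fEq (v 5) (v 1) (v 0) (v 3)) ?_
          exact (DP.mem (DF.pair hW (DF.v hW 1) (DF.v hW 0)) (DF.v hW 7)).and
            ((DP.mem (DF.v hW 0) (DF.v hW 6)).and ((DP.sub hW (DF.v hW 2) (DF.v hW 0)).and
              (DP.fEq hW (DF.v hW 6) (DF.v hW 2) (DF.v hW 1) (DF.v hW 4))))
      · intro p _
        refine or_congr Iff.rfl (or_congr ?_ ?_)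
        · constructor
          · rintro ⟨π, r, h1, h2, h3, h4⟩
            obtain ⟨h5, h6⟩ := mem_of_pair_mem hW hτ h1
            refine ⟨π, h5, r, h6, h1, h2, h3, fun q' h7 h8 h9 => h4 q' h7 h8 ?_⟩
            obtain ⟨ρ, _, s, _, h10⟩ := h9
            exact ⟨ρ, s, h10⟩
          · rintro ⟨π, _, r, _, h1, h2, h3, h4⟩
            refine ⟨π, r, h1, h2, h3, fun q' h7 h8 h9 => h4 q' h7 h8 ?_⟩
            obtain ⟨ρ, s, h10, h11⟩ := h9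
            obtain ⟨h5, h6⟩ := mem_of_pair_mem hW hσ h10
            exact ⟨ρ, h5, s, h6, h10, h11⟩
        · constructor
          · rintro ⟨π, r, h1, h2, h3, h4⟩
            obtain ⟨h5, h6⟩ := mem_of_pair_mem hW hσ h1
            refine ⟨π, h5, r, h6, h1, h2, h3, fun q' h7 h8 h9 => h4 q' h7 h8 ?_⟩
            obtain ⟨ρ, _, s, _, h10⟩ := h9
            exact ⟨ρ, s, h10⟩
          · rintro ⟨π, _, r, _, h1, h2, h3, h4⟩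
            refine ⟨π, r, h1, h2, h3, fun q' h7 h8 h9 => h4 q' h7 h8 ?_⟩
            obtain ⟨ρ, s, h10, h11⟩ := h9
            obtain ⟨h5, h6⟩ := mem_of_pair_mem hW hτ h10
            exact ⟨ρ, h5, s, h6, h10, h11⟩
    obtain ⟨p, hp, hpD⟩ := hG.gen _ hDM sep_sub (by
      intro p hp
      by_cases h1 : fEq P p τ σ
      · exact ⟨p, ZFSet.mem_sep.2 ⟨hp, Or.inl h1⟩, sub_rfl⟩
      · rw [fEq_iff] at h1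
        push Not at h1
        by_cases h2 : ∀ π r, ZFSet.pair π r ∈ τ → r ∈ P → ∀ q ∈ P, q ⊆ p → q ⊆ r →
            ∃ q' ∈ P, q' ⊆ q ∧ ∃ ρ s, ZFSet.pair ρ s ∈ σ ∧ s ∈ P ∧ q' ⊆ s ∧ fEq P q' π ρ
        · obtain ⟨ρ, s, h3, h4, q, h5, h6, h7, h8⟩ := h1 hp h2
          refine ⟨q, ZFSet.mem_sep.2 ⟨h5, Or.inr (Or.inr ⟨ρ, s, h3, h4, h7, ?_⟩)⟩, h6⟩
          rintro q' h9 h10 ⟨π, r, h11, h12, h13, h14⟩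
          exact h8 q' h9 h10 π r h11 h12 h13 h14
        · push Not at h2
          obtain ⟨π, r, h3, h4, q, h5, h6, h7, h8⟩ := h2
          refine ⟨q, ZFSet.mem_sep.2 ⟨h5, Or.inr (Or.inl ⟨π, r, h3, h4, h7, ?_⟩)⟩, h6⟩
          rintro q' h9 h10 ⟨ρ, s, h11, h12, h13, h14⟩
          exact h8 q' h9 h10 ρ s h11 h12 h13 h14)
    rcases (ZFSet.mem_sep.1 hpD).2 with h1 | ⟨π, r, h1, h2, h3, h4⟩ | ⟨ρ, s, h1, h2, h3, h4⟩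
    · exact ⟨p, hp, h1⟩
    · exfalso
      obtain ⟨hπ, hr⟩ := mem_of_pair_mem hW hτ h1
      have hrG : r ∈ G := hG.up p hp r h2 h3
      have h5 : val G π ∈ val G σ := by
        rw [← heq]
        exact mem_val.2 ⟨π, r, h1, hrG, rfl⟩
      obtain ⟨ρ, s, h6, h7, h8⟩ := mem_val.1 h5
      obtain ⟨hρ, hs⟩ := mem_of_pair_mem hW hσ h6
      obtain ⟨p', hp', h9⟩ := (ih π (mem_tc_of_pair h1) ρ hπ hρ).1 h8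
      obtain ⟨q1, hq1, h10, h11⟩ := hG.dir p hp p' hp'
      obtain ⟨q2, hq2, h12, h13⟩ := hG.dir q1 hq1 s h7
      refine h4 q2 (hG.sub _ hq2) (sub_trans h12 h10) ⟨ρ, s, h6, hG.sub _ h7, h13, ?_⟩
      exact fEq_mono h9 (hG.sub _ hq2) (sub_trans h12 h11)
    · exfalso
      obtain ⟨hρ, hs⟩ := mem_of_pair_mem hW hσ h1
      have hsG : s ∈ G := hG.up p hp s h2 h3
      have h5 : val G ρ ∈ val G τ := by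
        rw [heq]
        exact mem_val.2 ⟨ρ, s, h1, hsG, rfl⟩
      obtain ⟨π, r, h6, h7, h8⟩ := mem_val.1 h5
      obtain ⟨hπ, hr⟩ := mem_of_pair_mem hW hτ h6
      obtain ⟨p', hp', h9⟩ := (ih π (mem_tc_of_pair h6) ρ hπ hρ).1 h8.symm
      obtain ⟨q1, hq1, h10, h11⟩ := hG.dir p hp p' hp'
      obtain ⟨q2, hq2, h12, h13⟩ := hG.dir q1 hq1 r h7
      refine h4 q2 (hG.sub _ hq2) (sub_trans h12 h10) ⟨π, r, h6, hG.sub _ h7, h13, ?_⟩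
      exact fEq_mono h9 (hG.sub _ hq2) (sub_trans h12 h11)
  · rintro ⟨p, hp, hpe⟩
    obtain ⟨_, hA, hB⟩ := fEq_iff.1 hpe
    refine ZFSet.ext fun y => ⟨fun hy => ?_, fun hy => ?_⟩
    · obtain ⟨π, r, h1, h2, rfl⟩ := mem_val.1 hy
      obtain ⟨hπ, hr⟩ := mem_of_pair_mem hW hτ h1
      obtain ⟨q0, hq0, h3, h4⟩ := hG.dir p hp r h2
      have hDM : ZFSet.sep (fun q' => ∃ ρ s, ZFSet.pair ρ s ∈ σ ∧ s ∈ P ∧ q' ⊆ s ∧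
          fEq P q' π ρ) P ∈ M := by
        refine sep_mem' hW (v := cons P (cons σ fun _ => π)) (P := fun q' v => ∃ ρ ∈ M, ∃ s ∈ M,
          ZFSet.pair ρ s ∈ v 1 ∧ s ∈ v 0 ∧ q' ⊆ s ∧ fEq (v 0) q' (v 2) ρ) ?_
          (cons_mem hPM (cons_mem hσ fun _ => hπ)) hPM ?_
        · refine DP.ex (Q := fun ρ v => ∃ s ∈ M,
            ZFSet.pair ρ s ∈ v 2 ∧ s ∈ v 1 ∧ v 0 ⊆ s ∧ fEq (v 1) (v 0) (v 3) ρ) ?_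
          refine DP.ex (Q := fun s v =>
            ZFSet.pair (v 0) s ∈ v 3 ∧ s ∈ v 2 ∧ v 1 ⊆ s ∧ fEq (v 2) (v 1) (v 4) (v 0)) ?_
          exact (DP.mem (DF.pair hW (DF.v hW 1) (DF.v hW 0)) (DF.v hW 4)).and
            ((DP.mem (DF.v hW 0) (DF.v hW 3)).and ((DP.sub hW (DF.v hW 2) (DF.v hW 0)).and
              (DP.fEq hW (DF.v hW 3) (DF.v hW 2) (DF.v hW 5) (DF.v hW 1))))
        · intro q' _
          constructor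
          · rintro ⟨ρ, s, h5, h6⟩
            obtain ⟨h7, h8⟩ := mem_of_pair_mem hW hσ h5
            exact ⟨ρ, h7, s, h8, h5, h6⟩
          · rintro ⟨ρ, _, s, _, h5⟩
            exact ⟨ρ, s, h5⟩
      obtain ⟨d, hd, hdD⟩ := hG.below hW hDM sep_sub hq0 (by
        intro q hq hqq
        obtain ⟨q', h5, h6, h7⟩ := hA π r h1 (hG.sub _ h2) q hq (sub_trans hqq h3)
          (sub_trans hqq h4)
        exact ⟨q', ZFSet.mem_sep.2 ⟨h5, h7⟩, h6⟩)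
      obtain ⟨_, ρ, s, h5, h6, h7, h8⟩ := ZFSet.mem_sep.1 hdD
      obtain ⟨hρ, hs⟩ := mem_of_pair_mem hW hσ h5
      exact mem_val.2 ⟨ρ, s, h5, hG.up d hd s h6 h7,
        (ih π (mem_tc_of_pair h1) ρ hπ hρ).2 ⟨d, hd, h8⟩⟩
    · obtain ⟨ρ, s, h1, h2, rfl⟩ := mem_val.1 hy
      obtain ⟨hρ, hs⟩ := mem_of_pair_mem hW hσ h1
      obtain ⟨q0, hq0, h3, h4⟩ := hG.dir p hp s h2
      have hDM : ZFSet.sep (fun q' => ∃ π r, ZFSet.pair π r ∈ τ ∧ r ∈ P ∧ q' ⊆ r ∧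
          fEq P q' π ρ) P ∈ M := by
        refine sep_mem' hW (v := cons P (cons τ fun _ => ρ)) (P := fun q' v => ∃ π ∈ M, ∃ r ∈ M,
          ZFSet.pair π r ∈ v 1 ∧ r ∈ v 0 ∧ q' ⊆ r ∧ fEq (v 0) q' π (v 2)) ?_
          (cons_mem hPM (cons_mem hτ fun _ => hρ)) hPM ?_
        · refine DP.ex (Q := fun π v => ∃ r ∈ M,
            ZFSet.pair π r ∈ v 2 ∧ r ∈ v 1 ∧ v 0 ⊆ r ∧ fEq (v 1) (v 0) π (v 3)) ?_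
          refine DP.ex (Q := fun r v =>
            ZFSet.pair (v 0) r ∈ v 3 ∧ r ∈ v 2 ∧ v 1 ⊆ r ∧ fEq (v 2) (v 1) (v 0) (v 4)) ?_
          exact (DP.mem (DF.pair hW (DF.v hW 1) (DF.v hW 0)) (DF.v hW 4)).and
            ((DP.mem (DF.v hW 0) (DF.v hW 3)).and ((DP.sub hW (DF.v hW 2) (DF.v hW 0)).and
              (DP.fEq hW (DF.v hW 3) (DF.v hW 2) (DF.v hW 1) (DF.v hW 5))))
        · intro q' _
          constructor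
          · rintro ⟨π, r, h5, h6⟩
            obtain ⟨h7, h8⟩ := mem_of_pair_mem hW hτ h5
            exact ⟨π, h7, r, h8, h5, h6⟩
          · rintro ⟨π, _, r, _, h5⟩
            exact ⟨π, r, h5⟩
      obtain ⟨d, hd, hdD⟩ := hG.below hW hDM sep_sub hq0 (by
        intro q hq hqq
        obtain ⟨q', h5, h6, h7⟩ := hB ρ s h1 (hG.sub _ h2) q hq (sub_trans hqq h3)
          (sub_trans hqq h4)
        exact ⟨q', ZFSet.mem_sep.2 ⟨h5, h7⟩, h6⟩)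
      obtain ⟨_, π, r, h5, h6, h7, h8⟩ := ZFSet.mem_sep.1 hdD
      obtain ⟨hπ, hr⟩ := mem_of_pair_mem hW hτ h5
      exact mem_val.2 ⟨π, r, h5, hG.up d hd r h6 h7,
        ((ih π (mem_tc_of_pair h5) ρ hπ hρ).2 ⟨d, hd, h8⟩).symm⟩

/-- the truth lemma for membership -/
theorem truth_mem (hW : IsTransModelZF M) (hG : Gen M P t G) {π σ : V} (hπ : π ∈ M)
    (hσ : σ ∈ M) : val G π ∈ val G σ ↔ ∃ p ∈ G, fMem P p π σ := by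
  have hPM := hG.memP
  have hDM : ZFSet.sep (fun q' => ∃ ρ s, ZFSet.pair ρ s ∈ σ ∧ s ∈ P ∧ q' ⊆ s ∧
      fEq P q' π ρ) P ∈ M := by
    refine sep_mem' hW (v := cons P (cons σ fun _ => π)) (P := fun q' v => ∃ ρ ∈ M, ∃ s ∈ M,
      ZFSet.pair ρ s ∈ v 1 ∧ s ∈ v 0 ∧ q' ⊆ s ∧ fEq (v 0) q' (v 2) ρ) ?_
      (cons_mem hPM (cons_mem hσ fun _ => hπ)) hPM ?_
    · refine DP.ex (Q := fun ρ v => ∃ s ∈ M,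
        ZFSet.pair ρ s ∈ v 2 ∧ s ∈ v 1 ∧ v 0 ⊆ s ∧ fEq (v 1) (v 0) (v 3) ρ) ?_
      refine DP.ex (Q := fun s v =>
        ZFSet.pair (v 0) s ∈ v 3 ∧ s ∈ v 2 ∧ v 1 ⊆ s ∧ fEq (v 2) (v 1) (v 4) (v 0)) ?_
      exact (DP.mem (DF.pair hW (DF.v hW 1) (DF.v hW 0)) (DF.v hW 4)).and
        ((DP.mem (DF.v hW 0) (DF.v hW 3)).and ((DP.sub hW (DF.v hW 2) (DF.v hW 0)).and
          (DP.fEq hW (DF.v hW 3) (DF.v hW 2) (DF.v hW 5) (DF.v hW 1))))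
    · intro q' _
      constructor
      · rintro ⟨ρ, s, h5, h6⟩
        obtain ⟨h7, h8⟩ := mem_of_pair_mem hW hσ h5
        exact ⟨ρ, h7, s, h8, h5, h6⟩
      · rintro ⟨ρ, _, s, _, h5⟩
        exact ⟨ρ, s, h5⟩
  constructor
  · intro h
    obtain ⟨ρ, s, h1, h2, h3⟩ := mem_val.1 h
    obtain ⟨hρ, hs⟩ := mem_of_pair_mem hW hσ h1
    obtain ⟨p, hp, h4⟩ := (truth_eq hW hG π ρ hπ hρ).1 h3
    obtain ⟨q, hq, h5, h6⟩ := hG.dir p hp s h2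
    exact ⟨q, hq, fun q1 h7 h8 => ⟨q1, h7, sub_rfl, ρ, s, h1, hG.sub _ h2, sub_trans h8 h6,
      fEq_mono h4 h7 (sub_trans h8 h5)⟩⟩
  · rintro ⟨p, hp, h⟩
    obtain ⟨d, hd, hdD⟩ := hG.below hW hDM sep_sub hp (by
      intro q hq hqq
      obtain ⟨q', h5, h6, h7⟩ := h q hq hqq
      exact ⟨q', ZFSet.mem_sep.2 ⟨h5, h7⟩, h6⟩)
    obtain ⟨_, ρ, s, h5, h6, h7, h8⟩ := ZFSet.mem_sep.1 hdD
    obtain ⟨hρ, hs⟩ := mem_of_pair_mem hW hσ h5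
    exact mem_val.2 ⟨ρ, s, h5, hG.up d hd s h6 h7, (truth_eq hW hG π ρ hπ hρ).2 ⟨d, hd, h8⟩⟩

end Pool.Agent.CM
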