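import Mathlib
import Pool.Agent.Lib.MP_f8e9b8_lc.Forc

/-!
# MP_f8e9b8_lc : the forcing theorem
-/

set_option autoImplicit false

namespace Pool.Agent.CM

open Pool.Agent.CR (V Fml cons Sat nat cons_zero cons_succ)

variable {W M : Set V} {P t : V} {G : Set V}

theorem Fo_mono {φ : Fml} : ∀ {p q : V} {v : ℕ → V}, Fo M P φ p v → q ∈ P → q ⊆ p →
    Fo M P φ q v := by
  induction φ with
  | bot => intro p q v h _ _; exact h
  | mem i j => intro p q v h _ hqp; exact fMem_mono h hqp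
  | eq i j => intro p q v h hq hqp; exact fEq_mono h hq hqp
  | imp φ ψ _ _ =>
    intro p q v h _ hqp q1 h1 h2
    exact h q1 h1 (sub_trans h2 hqp)
  | all φ ih =>
    intro p q v h hq hqp x hx
    exact ih (h x hx) hq hqp

theorem Fo_dense {φ : Fml} : ∀ {p : V} {v : ℕ → V}, p ∈ P →
    (∀ q ∈ P, q ⊆ p → ∃ q' ∈ P, q' ⊆ q ∧ Fo M P φ q' v) → Fo M P φ p v := by
  induction φ with
  | bot =>
    intro p v hp h
    obtain ⟨q', _, _, h1⟩ := h p hp sub_rfl
    exact h1
  | mem i j => intro p v _ h; exact fMem_dense h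
  | eq i j => intro p v hp h; exact fEq_dense hp h
  | imp φ ψ _ ih =>
    intro p v _ h q hq hqp hφ
    refine ih hq fun q1 h1 h2 => ?_
    obtain ⟨q', h3, h4, h5⟩ := h q1 h1 (sub_trans h2 hqp)
    exact ⟨q', h3, h4, h5 q' h3 sub_rfl (Fo_mono hφ h3 (sub_trans h4 h2))⟩
  | all φ ih =>
    intro p v hp h x hx
    refine ih hp fun q1 h1 h2 => ?_
    obtain ⟨q', h3, h4, h5⟩ := h q1 h1 h2
    exact ⟨q', h3, h4, h5 x hx⟩

/-- the forcing relation is definable in the ground model -/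
theorem DP.Fo (hW : IsTransModelZF M) (hP : P ∈ M) (φ : Fml) :
    DP M (fun v => CM.Fo M P φ (v 0) (fun n => v (n + 1))) := by
  induction φ with
  | bot => exact DP.bot hW.nonempty
  | mem i j => exact DP.fMem hW (DF.const hP) (DF.v hW 0) (DF.v hW (i + 1)) (DF.v hW (j + 1))
  | eq i j => exact DP.fEq hW (DF.const hP) (DF.v hW 0) (DF.v hW (i + 1)) (DF.v hW (j + 1))
  | imp φ ψ h1 h2 =>
    refine DP.ball hW (DF.const hP) (Q := fun q v => q ⊆ v 0 →
      CM.Fo M P φ q (fun n => v (n + 1)) → CM.Fo M P ψ q (fun n => v (n + 1))) ?_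
    exact (DP.sub hW (DF.v hW 0) (DF.v hW 1)).imp
      ((h1.ren fun n => if n = 0 then 0 else n + 1).imp
        (h2.ren fun n => if n = 0 then 0 else n + 1))
  | all φ h =>
    refine DP.all (Q := fun x v => CM.Fo M P φ (v 0) (cons x (fun n => v (n + 1)))) ?_
    refine (h.ren fun n => match n with | 0 => 1 | 1 => 0 | n + 2 => n + 2).congr fun v _ => ?_
    have : (fun n => v (match n + 1 with | 0 => 1 | 1 => 0 | n + 2 => n + 2)) =
        cons (v 0) (fun n => v (n + 2)) := by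
      funext n
      cases n <;> rfl
    rw [this]

/-- in the form used for subsets of `P` -/
theorem DP.Fo' (hW : IsTransModelZF M) (hP : P ∈ M) (φ : Fml) {p : (ℕ → V) → V} (hp : DF M p)
    {f : ℕ → (ℕ → V) → V} (hf : ∀ n, DF M (f n)) :
    DP M (fun v => CM.Fo M P φ (p v) (fun n => f n v)) :=
  (DP.Fo hW hP φ).comp (f := fun n => match n with | 0 => p | n + 1 => f n) fun n => by
    cases n
    · exact hp
    · exact hf _

theorem cons_val (x : V) (v : ℕ → V) :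
    (fun n => val G (cons x v n)) = cons (val G x) (fun n => val G (v n)) := by
  funext n
  cases n <;> rfl

/-- the forcing theorem -/
theorem truth (hW : IsTransModelZF M) (hG : Gen M P t G) (φ : Fml) : ∀ v : ℕ → V,
    (∀ n, v n ∈ M) → (Sat (Ext M G) φ (fun n => val G (v n)) ↔ ∃ p ∈ G, Fo M P φ p v) := by
  have hPM := hG.memP
  induction φ with
  | bot =>
    intro v _
    constructor
    · intro h
      exact h.elim
    · rintro ⟨p, _, h⟩
      exact h
  | mem i j => intro v hv; exact truth_mem hW hG (hv i) (hv j)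
  | eq i j => intro v hv; exact truth_eq hW hG (v i) (v j) (hv i) (hv j)
  | imp φ ψ ih1 ih2 =>
    intro v hv
    constructor
    · intro h
      have hD : ZFSet.sep (fun p => Fo M P (.imp φ ψ) p v ∨ (Fo M P φ p v ∧
          ∀ q ∈ P, q ⊆ p → ¬ Fo M P ψ q v)) P ∈ M := by
        refine sep_mem hW (v := v) (P := fun p v => Fo M P (.imp φ ψ) p v ∨ (Fo M P φ p v ∧
          ∀ q ∈ P, q ⊆ p → ¬ Fo M P ψ q v)) ?_ hv hPM
        refine (DP.Fo hW hPM _).or ((DP.Fo hW hPM _).and ?_)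
        refine DP.ball hW (DF.const hPM) (Q := fun q v => q ⊆ v 0 →
          ¬ Fo M P ψ q (fun n => v (n + 1))) ?_
        exact (DP.sub hW (DF.v hW 0) (DF.v hW 1)).imp
          (DP.not ((DP.Fo hW hPM ψ).ren fun n => if n = 0 then 0 else n + 1))
      obtain ⟨p, hp, hpD⟩ := hG.gen _ hD sep_sub (by
        intro p hp
        by_cases h1 : Fo M P (.imp φ ψ) p v
        · exact ⟨p, ZFSet.mem_sep.2 ⟨hp, Or.inl h1⟩, sub_rfl⟩
        · simp only [Fo] at h1
          push Not at h1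
          obtain ⟨q, hq, h2, h3, h4⟩ := h1
          have h5 : ¬ ∀ q1 ∈ P, q1 ⊆ q → ∃ q' ∈ P, q' ⊆ q1 ∧ Fo M P ψ q' v :=
            fun h5 => h4 (Fo_dense hq h5)
          push Not at h5
          obtain ⟨q1, h6, h7, h8⟩ := h5
          exact ⟨q1, ZFSet.mem_sep.2 ⟨h6, Or.inr ⟨Fo_mono h3 h6 h7, h8⟩⟩, sub_trans h7 h2⟩)
      rcases (ZFSet.mem_sep.1 hpD).2 with h1 | ⟨h1, h2⟩
      · exact ⟨p, hp, h1⟩
      · exfalso
        have h3 : Sat (Ext M G) ψ (fun n => val G (v n)) := h ((ih1 v hv).2 ⟨p, hp, h1⟩)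
        obtain ⟨p', hp', h4⟩ := (ih2 v hv).1 h3
        obtain ⟨q, hq, h5, h6⟩ := hG.dir p hp p' hp'
        exact h2 q (hG.sub _ hq) h5 (Fo_mono h4 (hG.sub _ hq) h6)
    · rintro ⟨p, hp, h⟩ h1
      obtain ⟨p', hp', h2⟩ := (ih1 v hv).1 h1
      obtain ⟨q, hq, h5, h6⟩ := hG.dir p hp p' hp'
      exact (ih2 v hv).2 ⟨q, hq, h q (hG.sub _ hq) h5 (Fo_mono h2 (hG.sub _ hq) h6)⟩
  | all φ ih =>
    intro v hv
    constructor
    · intro h
      have hD : ZFSet.sep (fun p => Fo M P (.all φ) p v ∨ ∃ x ∈ M,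
          ∀ q ∈ P, q ⊆ p → ¬ Fo M P φ q (cons x v)) P ∈ M := by
        refine sep_mem hW (v := v) (P := fun p v => Fo M P (.all φ) p v ∨ ∃ x ∈ M,
          ∀ q ∈ P, q ⊆ p → ¬ Fo M P φ q (cons x v)) ?_ hv hPM
        refine (DP.Fo hW hPM _).or ?_
        refine DP.ex (Q := fun x v => ∀ q ∈ P, q ⊆ v 0 →
          ¬ Fo M P φ q (cons x (fun n => v (n + 1)))) ?_
        refine DP.ball hW (DF.const hPM) (Q := fun q v => q ⊆ v 1 →
          ¬ Fo M P φ q (cons (v 0) (fun n => v (n + 2)))) ?_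
        refine (DP.sub hW (DF.v hW 0) (DF.v hW 2)).imp (DP.not ?_)
        refine ((DP.Fo hW hPM φ).ren fun n => match n with | 0 => 0 | 1 => 1 | n + 2 => n + 3).congr
          fun v _ => ?_
        have : (fun n => v (match n + 1 with | 0 => 0 | 1 => 1 | n + 2 => n + 3)) =
            cons (v 1) (fun n => v (n + 2 + 1)) := by
          funext n
          cases n <;> rfl
        rw [this]
      obtain ⟨p, hp, hpD⟩ := hG.gen _ hD sep_sub (by
        intro p hp
        by_cases h1 : Fo M P (.all φ) p v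
        · exact ⟨p, ZFSet.mem_sep.2 ⟨hp, Or.inl h1⟩, sub_rfl⟩
        · simp only [Fo] at h1
          push Not at h1
          obtain ⟨x, hx, h4⟩ := h1
          have h5 : ¬ ∀ q1 ∈ P, q1 ⊆ p → ∃ q' ∈ P, q' ⊆ q1 ∧ Fo M P φ q' (cons x v) :=
            fun h5 => h4 (Fo_dense hp h5)
          push Not at h5
          obtain ⟨q1, h6, h7, h8⟩ := h5
          exact ⟨q1, ZFSet.mem_sep.2 ⟨h6, Or.inr ⟨x, hx, h8⟩⟩, h7⟩)
      rcases (ZFSet.mem_sep.1 hpD).2 with h1 | ⟨x, hx, h2⟩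
      · exact ⟨p, hp, h1⟩
      · exfalso
        have h3 := h (val G x) ⟨x, hx, rfl⟩
        rw [← cons_val] at h3
        obtain ⟨p', hp', h4⟩ := (ih (cons x v) (cons_mem hx hv)).1 h3
        obtain ⟨q, hq, h5, h6⟩ := hG.dir p hp p' hp'
        exact h2 q (hG.sub _ hq) h5 (Fo_mono h4 (hG.sub _ hq) h6)
    · rintro ⟨p, hp, h⟩ y ⟨x, hx, rfl⟩
      rw [← cons_val]
      exact (ih (cons x v) (cons_mem hx hv)).2 ⟨p, hp, h x hx⟩

end Pool.Agent.CM
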