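import Mathlib
import Pool.Agent.Lib.MP_f8e9b8_lc.Forc2

/-!
# MP_f8e9b8_lc : the generic extension is a model of `ZF`
-/

set_option autoImplicit false

namespace Pool.Agent.CM

open Pool.Agent.CR (V Fml cons Sat nat cons_zero cons_succ)

variable {W M : Set V} {P t : V} {G : Set V}

/-! ### canonical names -/

/-- the canonical name -/
noncomputable def ck (t : V) : V → V := rec0 fun x h => img (fun y => ZFSet.pair (ap h y) t) x

theorem ck_eq (t x : V) : ck t x = img (fun y => ZFSet.pair (ck t y) t) x := by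
  rw [ck, rec0_eq]
  exact img_congr fun y hy => by rw [ap_gr hy]

theorem DF.ck (hW : IsTransModelZF W) {t x : (ℕ → V) → V} (ht : DF W t) (hx : DF W x) :
    DF W (fun v => CM.ck (t v) (x v)) := by
  refine DF2.app (F := CM.ck) ?_ ht hx
  refine DF.rec0 hW (G := fun v x h => CM.img (fun y => ZFSet.pair (CM.ap h y) (v 0)) x) ?_
    (DF.v hW 1)
  exact DF.img hW (DF.v hW 0) (g := fun y v => ZFSet.pair (CM.ap (v 1) y) (v 2))
    (DF.pair hW (DF.ap hW (DF.v hW 2) (DF.v hW 0)) (DF.v hW 3))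

theorem ck_mem (hW : IsTransModelZF W) {t x : V} (ht : t ∈ W) (hx : x ∈ W) : ck t x ∈ W :=
  (DF.ck hW (DF.v hW 0) (DF.v hW 1)).mem2 (F := ck) ht hx

theorem val_ck (ht : t ∈ G) (x : V) : val G (ck t x) = x := by
  induction x using ZFSet.inductionOn with
  | _ x ih =>
    refine ZFSet.ext fun y => ?_
    rw [mem_val]
    constructor
    · rintro ⟨σ, p, h1, _, rfl⟩
      rw [ck_eq, mem_img] at h1
      obtain ⟨z, hz, h2⟩ := h1
      obtain ⟨rfl, -⟩ := ZFSet.pair_inj.1 h2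
      rw [ih z hz]
      exact hz
    · intro hy
      refine ⟨ck t y, t, ?_, ht, (ih y hy).symm⟩
      rw [ck_eq, mem_img]
      exact ⟨y, hy, rfl⟩

theorem Gen.tM (hW : IsTransModelZF M) (hG : Gen M P t G) : t ∈ M :=
  hW.transitive P hG.memP _ hG.top.1

theorem sub_Ext (hW : IsTransModelZF M) (hG : Gen M P t G) : M ⊆ Ext M G := fun x hx =>
  ⟨ck t x, ck_mem hW (hG.tM hW) hx, (val_ck hG.topG x).symm⟩

theorem Ext_trans (hW : IsTransModelZF M) : ∀ x ∈ Ext M G, ∀ y ∈ x, y ∈ Ext M G := by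
  rintro _ ⟨τ, hτ, rfl⟩ y hy
  obtain ⟨σ, p, h1, _, rfl⟩ := mem_val.1 hy
  exact ⟨σ, (mem_of_pair_mem hW hτ h1).1, rfl⟩

/-- the set of the values of a set of names -/
theorem img_val_mem (hW : IsTransModelZF M) (hG : Gen M P t G) {X : V} (hX : X ∈ M) :
    img (val G) X ∈ Ext M G := by
  refine ⟨ZFSet.prod X {t}, prod_mem hW hX (sgl_mem hW (hG.tM hW)), ZFSet.ext fun y => ?_⟩
  rw [mem_val, mem_img]
  constructor
  · rintro ⟨σ, hσ, rfl⟩
    exact ⟨σ, t, ZFSet.pair_mem_prod.2 ⟨hσ, ZFSet.mem_singleton.2 rfl⟩, hG.topG, rfl⟩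
  · rintro ⟨σ, p, h1, _, rfl⟩
    exact ⟨σ, (ZFSet.pair_mem_prod.1 h1).1, rfl⟩

/-- the generic filter as a set -/
noncomputable def Gs (P : V) (G : Set V) : V := ZFSet.sep (fun p => p ∈ G) P

theorem mem_Gs (hG : Gen M P t G) {p : V} : p ∈ Gs P G ↔ p ∈ G := by
  rw [Gs, ZFSet.mem_sep]
  exact ⟨fun h => h.2, fun h => ⟨hG.sub _ h, h⟩⟩

theorem Gs_mem (hW : IsTransModelZF M) (hG : Gen M P t G) : Gs P G ∈ Ext M G := by
  have htM := hG.tM hW
  refine ⟨img (fun p => ZFSet.pair (ck t p) p) P, ?_, ZFSet.ext fun y => ?_⟩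
  · exact img_mem hW (g := fun p v => ZFSet.pair (ck (v 0) p) p)
      (DF.pair hW (DF.ck hW (DF.v hW 1) (DF.v hW 0)) (DF.v hW 0)) (const_mem htM) hG.memP
  · rw [mem_Gs hG, mem_val]
    constructor
    · intro hy
      exact ⟨ck t y, y, mem_img.2 ⟨y, hG.sub _ hy, rfl⟩, hy, (val_ck hG.topG y).symm⟩
    · rintro ⟨σ, p, h1, h2, rfl⟩
      obtain ⟨z, hz, h3⟩ := mem_img.1 h1
      obtain ⟨rfl, rfl⟩ := ZFSet.pair_inj.1 h3
      rw [val_ck hG.topG]
      exact h2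

/-! ### separation, power sets, collection -/

theorem exists_names {v : ℕ → V} (hv : ∀ n, v n ∈ Ext M G) :
    ∃ v' : ℕ → V, (∀ n, v' n ∈ M) ∧ v = fun n => val G (v' n) := by
  choose v' h1 h2 using hv
  exact ⟨v', h1, funext h2⟩

theorem Ext_sep (hW : IsTransModelZF M) (hG : Gen M P t G) (φ : Fml) {v : ℕ → V}
    (hv : ∀ n, v n ∈ Ext M G) {a : V} (ha : a ∈ Ext M G) :
    ZFSet.sep (fun x => Sat (Ext M G) φ (cons x v)) a ∈ Ext M G := by
  obtain ⟨v', hv', rfl⟩ := exists_names hv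
  clear hv
  rename' v' => v, hv' => hv
  obtain ⟨τ, hτ, rfl⟩ := ha
  have hPM := hG.memP
  have hb : ZFSet.sep (fun z => fMem P (snd z) (fst z) τ ∧ Fo M P φ (snd z) (cons (fst z) v))
      (ZFSet.prod (tc τ) P) ∈ M := by
    refine sep_mem' hW (v := cons τ v) (P := fun z v => fMem P (snd z) (fst z) (v 0) ∧
      Fo M P φ (snd z) (cons (fst z) (fun n => v (n + 1)))) ?_ (cons_mem hτ hv)
      (prod_mem hW (tc_mem hW hτ) hPM) (fun z _ => Iff.rfl)
    refine (DP.fMem hW (DF.const hPM) (DF.snd hW (DF.v hW 0)) (DF.fst hW (DF.v hW 0))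
      (DF.v hW 1)).and ?_
    refine (DP.Fo' hW hPM φ (DF.snd hW (DF.v hW 0)) (f := fun n => match n with
      | 0 => fun v => fst (v 0)
      | n + 1 => fun v => v (n + 2)) fun n => ?_).congr fun v _ => ?_
    · cases n
      · exact DF.fst hW (DF.v hW 0)
      · exact DF.v hW _
    · have : (fun n => (match n with
        | 0 => fun v => fst (v 0)
        | n + 1 => fun v => v (n + 2) : (ℕ → V) → V) v) = cons (fst (v 0)) (fun n => v (n + 2)) := by
        funext n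
        cases n <;> rfl
      rw [this]
  refine ⟨_, hb, ZFSet.ext fun x => ?_⟩
  rw [ZFSet.mem_sep]
  constructor
  · rintro ⟨hx, hs⟩
    obtain ⟨σ, r, h1, h2, rfl⟩ := mem_val.1 hx
    have hσ := (mem_of_pair_mem hW hτ h1).1
    obtain ⟨p1, hp1, h3⟩ := (truth_mem hW hG hσ hτ).1 hx
    rw [← cons_val] at hs
    obtain ⟨p2, hp2, h4⟩ := (truth hW hG φ _ (cons_mem hσ hv)).1 hs
    obtain ⟨q, hq, h5, h6⟩ := hG.dir p1 hp1 p2 hp2
    refine mem_val.2 ⟨σ, q, ZFSet.mem_sep.2 ⟨ZFSet.pair_mem_prod.2 ⟨mem_tc_of_pair h1,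
      hG.sub _ hq⟩, ?_⟩, hq, rfl⟩
    rw [fst_pair, snd_pair]
    exact ⟨fMem_mono h3 h5, Fo_mono h4 (hG.sub _ hq) h6⟩
  · intro hx
    obtain ⟨σ, q, h1, hq, rfl⟩ := mem_val.1 hx
    obtain ⟨h2, h3, h4⟩ := ZFSet.mem_sep.1 h1
    rw [fst_pair, snd_pair] at h3 h4
    have hσ : σ ∈ M := hW.transitive _ (tc_mem hW hτ) _ (ZFSet.pair_mem_prod.1 h2).1
    refine ⟨(truth_mem hW hG hσ hτ).2 ⟨q, hq, h3⟩, ?_⟩
    rw [← cons_val]
    exact (truth hW hG φ _ (cons_mem hσ hv)).2 ⟨q, hq, h4⟩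

/-- a bound for the subsets of a set of the extension -/
theorem Ext_pow (hW : IsTransModelZF M) (hG : Gen M P t G) {a : V} (ha : a ∈ Ext M G) :
    ∃ b ∈ Ext M G, ∀ y ∈ Ext M G, y ⊆ a → y ∈ b := by
  obtain ⟨τ, hτ, rfl⟩ := ha
  have hPM := hG.memP
  have hQ : ZFSet.prod (tc τ) P ∈ M := prod_mem hW (tc_mem hW hτ) hPM
  refine ⟨_, img_val_mem hW hG (pwr_mem hW hQ), ?_⟩
  rintro _ ⟨σ, hσ, rfl⟩ hs
  have hb : ZFSet.sep (fun z => fMem P (snd z) (fst z) σ) (ZFSet.prod (tc τ) P) ∈ M := by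
    refine sep_mem' hW (v := fun _ => σ) (P := fun z v => fMem P (snd z) (fst z) (v 0)) ?_
      (const_mem hσ) hQ (fun z _ => Iff.rfl)
    exact DP.fMem hW (DF.const hPM) (DF.snd hW (DF.v hW 0)) (DF.fst hW (DF.v hW 0))
      (DF.v hW 1)
  refine mem_img.2 ⟨_, mem_pwr.2 ⟨hb, sep_sub⟩, ZFSet.ext fun x => ?_⟩
  rw [mem_val]
  constructor
  · rintro ⟨π, q, h1, hq, rfl⟩
    obtain ⟨h2, h3⟩ := ZFSet.mem_sep.1 h1
    rw [fst_pair, snd_pair] at h3
    have hπ : π ∈ M := hW.transitive _ (tc_mem hW hτ) _ (ZFSet.pair_mem_prod.1 h2).1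
    exact (truth_mem hW hG hπ hσ).2 ⟨q, hq, h3⟩
  · intro hx
    obtain ⟨π, r, h1, h2, rfl⟩ := mem_val.1 (hs hx)
    have hπ := (mem_of_pair_mem hW hτ h1).1
    obtain ⟨p, hp, h3⟩ := (truth_mem hW hG hπ hσ).1 hx
    refine ⟨π, p, ZFSet.mem_sep.2 ⟨ZFSet.pair_mem_prod.2 ⟨mem_tc_of_pair h1, hG.sub _ hp⟩, ?_⟩,
      hp, rfl⟩
    rw [fst_pair, snd_pair]
    exact h3

/-- collection in the extension -/
theorem Ext_coll (hW : IsTransModelZF M) (hG : Gen M P t G) (φ : Fml) {v : ℕ → V}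
    (hv : ∀ n, v n ∈ Ext M G) {a : V} (ha : a ∈ Ext M G)
    (h : ∀ x ∈ a, ∃ y ∈ Ext M G, Sat (Ext M G) φ (cons y (cons x v))) :
    ∃ b ∈ Ext M G, ∀ x ∈ a, ∃ y ∈ b, Sat (Ext M G) φ (cons y (cons x v)) := by
  obtain ⟨v', hv', rfl⟩ := exists_names hv
  clear hv
  rename' v' => v, hv' => hv
  obtain ⟨τ, hτ, rfl⟩ := ha
  have hPM := hG.memP
  have hQ : ZFSet.prod (tc τ) P ∈ M := prod_mem hW (tc_mem hW hτ) hPM
  have hfam : ∀ (i k : ℕ), DP M (fun w => Fo M P φ (snd (w i)) (cons (w 0)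
      (cons (fst (w i)) (fun n => w (n + k))))) := by
    intro i k
    refine (DP.Fo' hW hPM φ (DF.snd hW (DF.v hW i)) (f := fun n => match n with
      | 0 => fun v => v 0
      | 1 => fun v => fst (v i)
      | n + 2 => fun v => v (n + k)) fun n => ?_).congr fun v _ => ?_
    · rcases n with _ | _ | n
      · exact DF.v hW 0
      · exact DF.fst hW (DF.v hW i)
      · exact DF.v hW _
    · have : (fun n => (match n with
        | 0 => fun v => v 0
        | 1 => fun v => fst (v i)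
        | n + 2 => fun v => v (n + k) : (ℕ → V) → V) v) = cons (v 0)
          (cons (fst (v i)) (fun n => v (n + k))) := by
        funext n
        rcases n with _ | _ | n <;> rfl
      rw [this]
  obtain ⟨b, hb, hbs⟩ := coll hW (R := fun z y v =>
      (∃ y' ∈ M, Fo M P φ (snd z) (cons y' (cons (fst z) v))) →
        Fo M P φ (snd z) (cons y (cons (fst z) v)))
      (by
        refine DP.imp ?_ ?_
        · refine DP.ex (Q := fun y' w => Fo M P φ (snd (w 0)) (cons y' (cons (fst (w 0))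
            (fun n => w (n + 2))))) ?_
          exact hfam 1 3
        · refine ((hfam 1 2).ren fun n => match n with | 0 => 1 | 1 => 0 | n + 2 => n + 2).congr
            fun v _ => Iff.rfl)
      hv hQ (by
        intro z _
        by_cases h1 : ∃ y' ∈ M, Fo M P φ (snd z) (cons y' (cons (fst z) v))
        · obtain ⟨y', hy', h2⟩ := h1
          exact ⟨y', hy', fun _ => h2⟩
        · exact ⟨∅, empty_mem hW, fun h2 => absurd h2 h1⟩)
  refine ⟨_, img_val_mem hW hG hb, ?_⟩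
  intro x hx
  obtain ⟨_, ⟨y, hy, rfl⟩, hs⟩ := h x hx
  obtain ⟨σ, r, h1, h2, rfl⟩ := mem_val.1 hx
  have hσ := (mem_of_pair_mem hW hτ h1).1
  rw [← cons_val, ← cons_val] at hs
  obtain ⟨p, hp, h3⟩ := (truth hW hG φ _ (cons_mem hy (cons_mem hσ hv))).1 hs
  obtain ⟨y', hy', h4⟩ := hbs (ZFSet.pair σ p) (ZFSet.pair_mem_prod.2
    ⟨mem_tc_of_pair h1, hG.sub _ hp⟩)
  rw [fst_pair, snd_pair] at h4
  refine ⟨_, mem_img.2 ⟨y', hy', rfl⟩, ?_⟩
  rw [← cons_val, ← cons_val]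
  exact (truth hW hG φ _ (cons_mem (hW.transitive b hb _ hy') (cons_mem hσ hv))).2
    ⟨p, hp, h4 ⟨y, hy, h3⟩⟩

/-! ### the axioms -/

theorem Ext_zf (hW : IsTransModelZF M) (hG : Gen M P t G) : IsTransModelZF (Ext M G) := by
  have htr : ∀ x ∈ Ext M G, ∀ y ∈ x, y ∈ Ext M G := Ext_trans hW
  have hsub := sub_Ext hW hG
  refine ⟨htr, ?_, ?_, ?_, ?_, ?_, ?_, ?_, ?_⟩
  · -- extensionality
    intro x hx y hy h
    exact ZFSet.ext fun z => ⟨fun hz => (h z (htr x hx z hz)).1 hz,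
      fun hz => (h z (htr y hy z hz)).2 hz⟩
  · -- foundation
    rintro x hx ⟨y, _, hyx⟩
    have hne : x ≠ ∅ := by
      rintro rfl
      exact ZFSet.notMem_empty _ hyx
    obtain ⟨z, hz, hzx⟩ := ZFSet.regularity x hne
    refine ⟨z, htr x hx z hz, hz, fun w _ hwz hwx => ?_⟩
    have : w ∈ x ∩ z := ZFSet.mem_inter.2 ⟨hwx, hwz⟩
    rw [hzx] at this
    exact ZFSet.notMem_empty _ this
  · -- pairing
    rintro _ ⟨σ, hσ, rfl⟩ _ ⟨τ, hτ, rfl⟩
    refine ⟨_, img_val_mem hW hG (dbl_mem hW hσ hτ), fun w _ => ?_⟩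
    rw [mem_img]
    constructor
    · rintro ⟨z, hz, rfl⟩
      rcases ZFSet.mem_pair.1 hz with rfl | rfl
      · exact Or.inl rfl
      · exact Or.inr rfl
    · rintro (rfl | rfl)
      · exact ⟨σ, ZFSet.mem_pair.2 (Or.inl rfl), rfl⟩
      · exact ⟨τ, ZFSet.mem_pair.2 (Or.inr rfl), rfl⟩
  · -- union
    rintro _ ⟨τ, hτ, rfl⟩
    have haE : val G τ ∈ Ext M G := ⟨τ, hτ, rfl⟩
    have hB := img_val_mem hW hG (tc_mem hW hτ)
    have hs := Ext_sep hW hG (.imp (.all (.imp (.mem 0 2) (.imp (.mem 1 0) .bot))) .bot)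
      (v := fun _ => val G τ) (fun _ => haE) hB
    refine ⟨_, hs, fun w hw => ?_⟩
    rw [ZFSet.mem_sep]
    constructor
    · rintro ⟨_, h1⟩
      by_contra hcon
      refine h1 fun y hy h2 h3 => hcon ⟨y, hy, h2, h3⟩
    · rintro ⟨y, hy, h1, h2⟩
      refine ⟨?_, fun h3 => h3 y hy h1 h2⟩
      obtain ⟨σ, p, h3, _, rfl⟩ := mem_val.1 h1
      obtain ⟨ρ, s, h4, _, rfl⟩ := mem_val.1 h2
      refine mem_img.2 ⟨ρ, ?_, rfl⟩
      exact tc_sub_of_mem_tc (mem_tc_of_pair h3) (mem_tc_of_pair h4)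
  · -- power set
    intro x hx
    obtain ⟨b, hb, h⟩ := Ext_pow hW hG hx
    have hs := Ext_sep hW hG (.all (.imp (.mem 0 1) (.mem 0 2))) (v := fun _ => x) (fun _ => hx) hb
    refine ⟨_, hs, fun w hw => ?_⟩
    rw [ZFSet.mem_sep]
    constructor
    · rintro ⟨_, h1⟩ u hu h2
      exact h1 u hu h2
    · intro h1
      exact ⟨h w hw fun u hu => h1 u (htr w hw u hu) hu, fun u hu h2 => h1 u hu h2⟩
  · -- infinity
    refine ⟨om, hsub (om_mem hW), ⟨∅, hsub (empty_mem hW), fun u _ => ZFSet.notMem_empty u,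
      mem_om.2 ⟨0, rfl⟩⟩, fun y _ hy => ?_⟩
    obtain ⟨n, rfl⟩ := mem_om.1 hy
    refine ⟨nat (n + 1), hsub (nat_mem hW _), mem_om.2 ⟨n + 1, rfl⟩, fun w _ => ?_⟩
    rw [mem_nat_succ, or_comm]
  · -- separation
    intro φ v hv a ha
    refine ⟨_, Ext_sep hW hG φ hv ha, fun x _ => ?_⟩
    rw [ZFSet.mem_sep]
  · -- replacement
    intro φ v hv a ha h
    obtain ⟨B, hB, hB'⟩ := Ext_coll hW hG φ hv ha (by
      intro x hx
      obtain ⟨y, ⟨hy, h1⟩, _⟩ := h x (htr a ha x hx) hx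
      exact ⟨y, hy, h1⟩)
    have hs := Ext_sep hW hG (.imp (.all (.imp (.mem 0 2) (.imp (ren (fun n => match n with
      | 0 => 1 | 1 => 0 | n + 2 => n + 3) φ) .bot))) .bot) (v := cons a v) (cons_mem ha hv) hB
    refine ⟨_, hs, fun y hy => ?_⟩
    have key : ∀ x, Sat (Ext M G) (ren (fun n => match n with
        | 0 => 1 | 1 => 0 | n + 2 => n + 3) φ) (cons x (cons y (cons a v))) ↔
        Sat (Ext M G) φ (cons y (cons x v)) := by
      intro x
      rw [sat_ren]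
      have : (fun n => cons x (cons y (cons a v)) (match n with
        | 0 => 1 | 1 => 0 | n + 2 => n + 3)) = cons y (cons x v) := by
        funext n
        rcases n with _ | _ | n <;> rfl
      rw [this]
    rw [ZFSet.mem_sep]
    constructor
    · rintro ⟨_, h1⟩
      by_contra hcon
      refine h1 fun x hx h2 h3 => hcon ⟨x, hx, h2, (key x).1 h3⟩
    · rintro ⟨x, hx, h1, h2⟩
      refine ⟨?_, fun h3 => h3 x hx h1 ((key x).2 h2)⟩
      obtain ⟨y', hy', h3⟩ := hB' x h1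
      obtain ⟨y'', _, h4⟩ := h x hx h1
      rw [h4 y ⟨hy, h2⟩, ← h4 y' ⟨htr B hB y' hy', h3⟩]
      exact hy'

end Pool.Agent.CM
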