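import Mathlib
import Pool.Agent.Lib.MP_f8e9b8_lc.Forc3

/-!
# MP_f8e9b8_lc : the generic extension, continued: minimality, well orders, ordinals; existence of
generic filters
-/

set_option autoImplicit false

namespace Pool.Agent.CM

open Pool.Agent.CR (V Fml cons Sat nat cons_zero cons_succ)

variable {W M : Set V} {P t : V} {G : Set V}

/-! ### definability of the values of names -/

theorem val_eq_recT {g : V} (hg : ∀ p, p ∈ g ↔ p ∈ G) (τ : V) : val G τ =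
    recT (fun τ h => img (fun q => ap h (fst q))
      (ZFSet.sep (fun q => q = ZFSet.pair (fst q) (snd q) ∧ snd q ∈ g) τ)) τ := by
  rw [val]
  congr 1
  funext τ h
  congr 1
  refine ZFSet.ext fun q => ?_
  rw [ZFSet.mem_sep, ZFSet.mem_sep]
  refine and_congr_right fun _ => ?_
  constructor
  · rintro ⟨σ, p, rfl, hp⟩
    rw [fst_pair, snd_pair]
    exact ⟨rfl, (hg p).2 hp⟩
  · rintro ⟨h1, h2⟩
    exact ⟨_, _, h1, (hg _).1 h2⟩

theorem DF.val (hW : IsTransModelZF W) {g : V} (hgW : g ∈ W) (hg : ∀ p, p ∈ g ↔ p ∈ G)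
    {f : (ℕ → V) → V} (hf : DF W f) : DF W (fun v => CM.val G (f v)) := by
  have h : DF W (fun v => CM.recT (fun τ h => CM.img (fun q => CM.ap h (CM.fst q))
      (ZFSet.sep (fun q => q = ZFSet.pair (CM.fst q) (CM.snd q) ∧ CM.snd q ∈ g) τ)) (f v)) := by
    refine DF.recT hW (G := fun _ τ h => CM.img (fun q => CM.ap h (CM.fst q))
      (ZFSet.sep (fun q => q = ZFSet.pair (CM.fst q) (CM.snd q) ∧ CM.snd q ∈ g) τ)) ?_ hf
    refine DF.img hW (f := fun v => ZFSet.sep (fun q => q = ZFSet.pair (CM.fst q) (CM.snd q) ∧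
      CM.snd q ∈ g) (v 0)) (g := fun q v => CM.ap (v 1) (CM.fst q)) ?_
      (DF.ap hW (DF.v hW 2) (DF.fst hW (DF.v hW 0)))
    refine DF.sep hW (DF.v hW 0) (P := fun q v => q = ZFSet.pair (CM.fst q) (CM.snd q) ∧
      CM.snd q ∈ g) ?_
    exact (DP.eq (DF.v hW 0) (DF.pair hW (DF.fst hW (DF.v hW 0)) (DF.snd hW (DF.v hW 0)))).and
      (DP.mem (DF.snd hW (DF.v hW 0)) (DF.const hgW))
  exact h.congr fun v _ => val_eq_recT hg _

/-- the extension is contained in every model containing the ground model and the generic filter -/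
theorem Ext_least (hW : IsTransModelZF W) (hM : M ⊆ W) {g : V} (hgW : g ∈ W)
    (hg : ∀ p, p ∈ g ↔ p ∈ G) : Ext M G ⊆ W := by
  rintro _ ⟨τ, hτ, rfl⟩
  exact (DF.val hW hgW hg (DF.v hW 0)).mem1 (F := CM.val G) (hM hτ)

/-! ### well orders -/

theorem Ext_gm (hM : GM M) (hG : Gen M P t G) : GM (Ext M G) := by
  have hW := hM.zf
  have hN := Ext_zf hW hG
  refine ⟨hN, ?_⟩
  rintro _ ⟨τ, hτ, rfl⟩
  have hX : val G τ ∈ Ext M G := ⟨τ, hτ, rfl⟩
  obtain ⟨r0, hr0, hwo⟩ := hM.wo _ (tc_mem hW hτ)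
  have hsub := sub_Ext hW hG
  have hln : DF (Ext M G) (fun v => lea (v 1) (ZFSet.sep (fun σ => val G σ = v 0) (v 2))) := by
    refine DF.lea hN (DF.v hN 1) (DF.sep hN (DF.v hN 2) (P := fun σ v => val G σ = v 0) ?_)
    exact DP.eq (DF.val hN (Gs_mem hW hG) (fun p => mem_Gs hG) (DF.v hN 0)) (DF.v hN 1)
  have hr : ZFSet.sep (fun p => ZFSet.pair
      (lea r0 (ZFSet.sep (fun σ => val G σ = fst p) (tc τ)))
      (lea r0 (ZFSet.sep (fun σ => val G σ = snd p) (tc τ))) ∈ r0)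
      (ZFSet.prod (val G τ) (val G τ)) ∈ Ext M G := by
    refine sep_mem' hN (v := cons r0 fun _ => tc τ) (P := fun p v => ZFSet.pair
      (lea (v 0) (ZFSet.sep (fun σ => val G σ = fst p) (v 1)))
      (lea (v 0) (ZFSet.sep (fun σ => val G σ = snd p) (v 1))) ∈ v 0) ?_
      (cons_mem (hsub hr0) fun _ => hsub (tc_mem hW hτ)) (prod_mem hN hX hX) (fun _ _ => Iff.rfl)
    exact DP.mem (DF.pair hN
      (DF3.app (F := fun x r T => lea r (ZFSet.sep (fun σ => val G σ = x) T)) hln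
        (DF.fst hN (DF.v hN 0)) (DF.v hN 1) (DF.v hN 2))
      (DF3.app (F := fun x r T => lea r (ZFSet.sep (fun σ => val G σ = x) T)) hln
        (DF.snd hN (DF.v hN 0)) (DF.v hN 1) (DF.v hN 2))) (DF.v hN 1)
  refine ⟨_, hr, ?_⟩
  -- the least names
  have key : ∀ x ∈ val G τ, lea r0 (ZFSet.sep (fun σ => val G σ = x) (tc τ)) ∈ tc τ ∧
      val G (lea r0 (ZFSet.sep (fun σ => val G σ = x) (tc τ))) = x := by
    intro x hx
    obtain ⟨σ, p, h1, _, rfl⟩ := mem_val.1 hx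
    have := (lea_spec (Z := ZFSet.sep (fun σ' => val G σ' = val G σ) (tc τ)) hwo sep_sub
      ⟨σ, ZFSet.mem_sep.2 ⟨mem_tc_of_pair h1, rfl⟩⟩).1
    exact ZFSet.mem_sep.1 this
  have hmem : ∀ x y, ZFSet.pair x y ∈ ZFSet.sep (fun p => ZFSet.pair
      (lea r0 (ZFSet.sep (fun σ => val G σ = fst p) (tc τ)))
      (lea r0 (ZFSet.sep (fun σ => val G σ = snd p) (tc τ))) ∈ r0)
      (ZFSet.prod (val G τ) (val G τ)) ↔ (x ∈ val G τ ∧ y ∈ val G τ) ∧
      ZFSet.pair (lea r0 (ZFSet.sep (fun σ => val G σ = x) (tc τ)))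
        (lea r0 (ZFSet.sep (fun σ => val G σ = y) (tc τ))) ∈ r0 := by
    intro x y
    rw [ZFSet.mem_sep, ZFSet.pair_mem_prod, fst_pair, snd_pair]
  constructor
  · intro x hx y hy hne
    have h1 : lea r0 (ZFSet.sep (fun σ => val G σ = x) (tc τ)) ≠
        lea r0 (ZFSet.sep (fun σ => val G σ = y) (tc τ)) := by
      intro h
      apply hne
      rw [← (key x hx).2, h, (key y hy).2]
    rw [hmem, hmem]
    rcases hwo.1 _ (key x hx).1 _ (key y hy).1 h1 with h2 | h2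
    · exact Or.inl ⟨⟨hx, hy⟩, h2⟩
    · exact Or.inr ⟨⟨hy, hx⟩, h2⟩
  · intro Y hY hYX
    obtain ⟨m, ⟨y0, hy0, rfl⟩, h2⟩ := hwo.2
      {z | ∃ y ∈ Y, z = lea r0 (ZFSet.sep (fun σ => val G σ = y) (tc τ))}
      (by obtain ⟨y, hy⟩ := hY; exact ⟨_, y, hy, rfl⟩)
      (by rintro _ ⟨y, hy, rfl⟩; exact (key y (hYX y hy)).1)
    refine ⟨y0, hy0, fun y hy h3 => ?_⟩
    exact h2 _ ⟨y, hy, rfl⟩ ((hmem y y0).1 h3).2

/-- well orders give the axiom of choice -/
theorem GM.zfc {N : Set V} (hN : GM N) : Pool.Agent.CR.IsTransModelZFC N := by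
  have hW := hN.zf
  refine ⟨hW.transitive, hW.extensionality, hW.foundation, hW.pairing, hW.union, hW.powerset,
    hW.infinity, hW.separation, hW.replacement, ?_⟩
  intro x hx hne hdis
  obtain ⟨r, hr, hwo⟩ := hN.wo _ (sU_mem hW hx)
  have hc : img (fun y => lea r y) x ∈ N :=
    img_mem hW (g := fun y v => lea (v 0) y) (DF.lea hW (DF.v hW 1) (DF.v hW 0)) (const_mem hr) hx
  have hs : ∀ y ∈ x, lea r y ∈ y := by
    intro y hy
    refine (lea_spec hwo (fun z hz => mem_sU.2 ⟨y, hy, hz⟩) ?_).1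
    obtain ⟨z, _, hz⟩ := hne y (hW.transitive x hx y hy) hy
    exact ⟨z, hz⟩
  refine ⟨_, hc, fun y hyN hy => ⟨lea r y, ⟨hW.transitive y hyN _ (hs y hy), hs y hy,
    mem_img.2 ⟨y, hy, rfl⟩⟩, ?_⟩⟩
  rintro z ⟨hzN, hzy, hzc⟩
  obtain ⟨y', hy', rfl⟩ := mem_img.1 hzc
  rw [hdis y hyN hy y' (hW.transitive x hx y' hy') hy' ⟨_, hzN, hzy, hs y' hy'⟩]

/-! ### ordinals -/

theorem rank_val_le (τ : V) : ZFSet.rank (val G τ) ≤ ZFSet.rank τ := by
  refine tc_ind (p := fun τ => ZFSet.rank (val G τ) ≤ ZFSet.rank τ) ?_ τ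
  intro τ ih
  refine ZFSet.rank_le_iff.2 fun y hy => ?_
  obtain ⟨σ, p, h1, _, rfl⟩ := mem_val.1 hy
  exact (ih σ (mem_tc_of_pair h1)).trans_lt (rank_lt_of_transGen (mem_tc.1 (mem_tc_of_pair h1)))

/-- the extension has the ordinals of the ground model -/
theorem Ext_ord (hW : IsTransModelZF M) {α : V} (hα : α ∈ Ext M G) (ho : α.IsOrdinal) :
    α ∈ M := by
  obtain ⟨τ, hτ, rfl⟩ := hα
  have h1 := rk_mem hW hτ
  have h2 : val G τ ⊆ rk τ := by
    rw [← rk_of_ord ho]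
    exact rk_sub.2 (rank_val_le τ)
  rcases (ho.subset_iff_eq_or_mem (rk_ord τ)).1 h2 with h | h
  · rw [h]
    exact h1
  · exact hW.transitive _ h1 _ h

theorem Ext_countable (hM : M.Countable) : (Ext M G).Countable := by
  have : Ext M G = val G '' M := by
    ext x
    constructor
    · rintro ⟨τ, hτ, rfl⟩
      exact ⟨τ, hτ, rfl⟩
    · rintro ⟨τ, hτ, rfl⟩
      exact ⟨τ, hτ, rfl⟩
  rw [this]
  exact hM.image _

/-! ### existence of generic filters -/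

open Classical in
/-- a descending sequence of conditions meeting the dense sets of a sequence -/
noncomputable def gseq (P p0 : V) (e : ℕ → V) : ℕ → V
  | 0 => p0
  | n + 1 => if h : ∃ d ∈ e n, d ∈ P ∧ d ⊆ gseq P p0 e n then h.choose else gseq P p0 e n

open Classical in
theorem gseq_succ (P p0 : V) (e : ℕ → V) (n : ℕ) : gseq P p0 e (n + 1) =
    if h : ∃ d ∈ e n, d ∈ P ∧ d ⊆ gseq P p0 e n then h.choose else gseq P p0 e n := rfl

theorem exists_gen (hc : M.Countable) (hPM : P ∈ M) (ht : t ∈ P) (hmax : ∀ p ∈ P, p ⊆ t)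
    {p0 : V} (hp0 : p0 ∈ P) : ∃ G : Set V, Gen M P t G ∧ p0 ∈ G := by
  obtain ⟨e, he⟩ := hc.exists_eq_range ⟨P, hPM⟩
  have hs : ∀ n, gseq P p0 e n ∈ P ∧ gseq P p0 e (n + 1) ⊆ gseq P p0 e n := by
    intro n
    induction n with
    | zero =>
      refine ⟨hp0, ?_⟩
      rw [gseq_succ]
      split_ifs with h
      · exact h.choose_spec.2.2
      · exact sub_rfl
    | succ n ih =>
      constructor
      · rw [gseq_succ]
        split_ifs with h
        · exact h.choose_spec.2.1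
        · exact ih.1
      · rw [gseq_succ P p0 e (n + 1)]
        split_ifs with h
        · exact h.choose_spec.2.2
        · exact sub_rfl
  have hm : ∀ m n, m ≤ n → gseq P p0 e n ⊆ gseq P p0 e m := by
    intro m n h
    induction n, h using Nat.le_induction with
    | base => exact sub_rfl
    | succ n _ ih => exact sub_trans (hs n).2 ih
  refine ⟨{q | q ∈ P ∧ ∃ n, gseq P p0 e n ⊆ q}, ⟨hPM, ⟨ht, hmax⟩, ⟨ht, 0, hmax _ hp0⟩,
    fun p hp => hp.1, ?_, ?_, ?_⟩, hp0, 0, sub_rfl⟩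
  · rintro p ⟨_, n, hn⟩ q hq hpq
    exact ⟨hq, n, sub_trans hn hpq⟩
  · rintro p ⟨_, n, hn⟩ q ⟨_, m, hm'⟩
    exact ⟨gseq P p0 e (max n m), ⟨(hs _).1, _, sub_rfl⟩,
      sub_trans (hm _ _ (le_max_left _ _)) hn, sub_trans (hm _ _ (le_max_right _ _)) hm'⟩
  · intro D hD hDP hd
    rw [he] at hD
    obtain ⟨n, rfl⟩ := hD
    have hex : ∃ d ∈ e n, d ∈ P ∧ d ⊆ gseq P p0 e n := by
      obtain ⟨d, hd1, hd2⟩ := hd _ (hs n).1
      exact ⟨d, hd1, hDP hd1, hd2⟩
    have h1 : gseq P p0 e (n + 1) = hex.choose := by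
      rw [gseq_succ, dif_pos hex]
    refine ⟨gseq P p0 e (n + 1), ⟨(hs _).1, _, sub_rfl⟩, ?_⟩
    rw [h1]
    exact hex.choose_spec.1

end Pool.Agent.CM
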