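import Mathlib
import Pool.Agent.Lib.MP_f8e9b8_lc.Util

/-!
# MP_f8e9b8_lc : definability of the notions about trees
-/

set_option autoImplicit false

namespace Pool.Agent.CM

open Pool.Agent.CR (V Fml cons Sat nat cons_zero cons_succ)

variable {W : Set V}

theorem DP.Tree (hW : IsTransModelZF W) {k T : (ℕ → V) → V} (hk : DF W k) (hT : DF W T) :
    DP W (fun v => CM.Tree (k v) (T v)) := by
  refine DP2.app (P := CM.Tree) ?_ hk hT
  refine (DP.sub hW (DF.v hW 1) (DF.Ls hW (DF.v hW 0))).and ?_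
  exact DP.ball hW (DF.v hW 1) (Q := fun u v => CM.Init u ⊆ v 1)
    (DP.sub hW (DF.Init hW (DF.v hW 0)) (DF.v hW 2))

theorem DP.Lav (hW : IsTransModelZF W) {k T t : (ℕ → V) → V} (hk : DF W k) (hT : DF W T)
    (ht : DF W t) : DP W (fun v => CM.Lav (k v) (T v) (t v)) := by
  refine DP3.app (P := CM.Lav) ?_ hk hT ht
  refine (DP.Tree hW (DF.v hW 0) (DF.v hW 1)).and ((DP.mem (DF.v hW 2) (DF.v hW 1)).and
    ((DP.ball hW (DF.v hW 1) (Q := fun u v => u ∈ CM.Init (v 2) ∨ v 2 ∈ CM.Init u) ?_).and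
      (DP.ball hW (DF.v hW 1) (Q := fun u v => v 2 ∈ CM.Init u → ∀ β ∈ v 0, ∃ α ∈ v 0, β ⊆ α ∧
        ZFSet.pair u α ∈ v 1) ?_)))
  · exact (DP.mem (DF.v hW 0) (DF.Init hW (DF.v hW 3))).or
      (DP.mem (DF.v hW 3) (DF.Init hW (DF.v hW 0)))
  · refine (DP.mem (DF.v hW 3) (DF.Init hW (DF.v hW 0))).imp ?_
    refine DP.ball hW (DF.v hW 1) (Q := fun β v => ∃ α ∈ v 1, β ⊆ α ∧
        ZFSet.pair (v 0) α ∈ v 2) ?_
    refine DP.bex hW (DF.v hW 2) (Q := fun α v => v 0 ⊆ α ∧ ZFSet.pair (v 1) α ∈ v 3) ?_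
    exact (DP.sub hW (DF.v hW 1) (DF.v hW 0)).and (DP.mem (DF.pair hW (DF.v hW 2) (DF.v hW 0))
      (DF.v hW 4))

theorem DF.PL (hW : IsTransModelZF W) {k : (ℕ → V) → V} (hk : DF W k) :
    DF W (fun v => CM.PL W (k v)) := by
  refine DF1.app (F := CM.PL W) ?_ hk
  refine DF.sep hW (DF.pwr hW (DF.Ls hW (DF.v hW 0)))
    (P := fun T v => ∃ t ∈ CM.Ls (v 0), CM.Lav (v 0) T t) ?_
  exact DP.bex hW (DF.Ls hW (DF.v hW 1)) (Q := fun t v => CM.Lav (v 1) (v 0) t)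
    (DP.Lav hW (DF.v hW 2) (DF.v hW 1) (DF.v hW 0))

theorem DP.Br (hW : IsTransModelZF W) {k b : (ℕ → V) → V} (hk : DF W k) (hb : DF W b) :
    DP W (fun v => CM.Br (k v) (b v)) := by
  refine DP2.app (P := CM.Br) ?_ hk hb
  have h : DP W (fun v => v 1 ⊆ CM.Ls (v 0) ∧ ∅ ∈ v 1 ∧ (∀ u ∈ v 1, CM.Init u ⊆ v 1) ∧
      (∀ u ∈ v 1, ∃ α ∈ v 0, ZFSet.pair u α ∈ v 1) ∧
      (∀ u ∈ W, ∀ α ∈ W, ∀ β ∈ W, ZFSet.pair u α ∈ v 1 → ZFSet.pair u β ∈ v 1 → α = β)) := by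
    refine (DP.sub hW (DF.v hW 1) (DF.Ls hW (DF.v hW 0))).and
      ((DP.mem (DF.empty hW) (DF.v hW 1)).and ((DP.ball hW (DF.v hW 1)
        (Q := fun u v => CM.Init u ⊆ v 1) ?_).and ((DP.ball hW (DF.v hW 1)
          (Q := fun u v => ∃ α ∈ v 0, ZFSet.pair u α ∈ v 1) ?_).and ?_)))
    · exact DP.sub hW (DF.Init hW (DF.v hW 0)) (DF.v hW 2)
    · exact DP.bex hW (DF.v hW 1) (Q := fun α v => ZFSet.pair (v 0) α ∈ v 2)
        (DP.mem (DF.pair hW (DF.v hW 1) (DF.v hW 0)) (DF.v hW 3))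
    · refine DP.all (Q := fun u v => ∀ α ∈ W, ∀ β ∈ W, ZFSet.pair u α ∈ v 1 →
        ZFSet.pair u β ∈ v 1 → α = β) ?_
      refine DP.all (Q := fun α v => ∀ β ∈ W, ZFSet.pair (v 0) α ∈ v 2 →
        ZFSet.pair (v 0) β ∈ v 2 → α = β) ?_
      refine DP.all (Q := fun β v => ZFSet.pair (v 1) (v 0) ∈ v 3 →
        ZFSet.pair (v 1) β ∈ v 3 → v 0 = β) ?_
      exact (DP.mem (DF.pair hW (DF.v hW 2) (DF.v hW 1)) (DF.v hW 4)).imp
        ((DP.mem (DF.pair hW (DF.v hW 2) (DF.v hW 0)) (DF.v hW 4)).imp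
          (DP.eq (DF.v hW 1) (DF.v hW 0)))
  refine h.congr fun v hv => ?_
  constructor
  · intro h
    exact ⟨h.sub, h.zero, h.init, h.next, fun u _ α _ β _ => h.uniq u α β⟩
  · rintro ⟨h1, h2, h3, h4, h5⟩
    refine ⟨h1, h2, h3, h4, fun u α β h6 h7 => ?_⟩
    have key : ∀ u α, ZFSet.pair u α ∈ v 1 → u ∈ W ∧ α ∈ W := by
      intro u α h
      have h := hW.transitive _ (hv 1) _ h
      constructor
      · have := fst_mem hW h
        rwa [fst_pair] at this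
      · have := snd_mem hW h
        rwa [snd_pair] at this
    exact h5 u (key u α h6).1 α (key u α h6).2 β (key u β h7).2 h6 h7

theorem DP.Fn (hW : IsTransModelZF W) {k g : (ℕ → V) → V} (hk : DF W k) (hg : DF W g) :
    DP W (fun v => CM.Fn (k v) (g v)) := by
  refine DP2.app (P := CM.Fn) ?_ hk hg
  exact DP.ball hW (DF.Ls hW (DF.v hW 0)) (Q := fun u v => CM.ap (v 1) u ∈ v 0)
    (DP.mem (DF.ap hW (DF.v hW 2) (DF.v hW 0)) (DF.v hW 1))

theorem DP.Fre (hW : IsTransModelZF W) {g b t : (ℕ → V) → V} (hg : DF W g) (hb : DF W b)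
    (ht : DF W t) : DP W (fun v => CM.Fre (g v) (b v) (t v)) := by
  refine DP3.app (P := CM.Fre) ?_ hg hb ht
  have h : DP W (fun v => ∀ u ∈ v 1, v 2 ∈ CM.Init u → ∀ α ∈ W, ZFSet.pair u α ∈ v 1 →
      CM.ap (v 0) u ⊆ α) := by
    refine DP.ball hW (DF.v hW 1) (Q := fun u v => v 2 ∈ CM.Init u → ∀ α ∈ W,
      ZFSet.pair u α ∈ v 1 → CM.ap (v 0) u ⊆ α) ?_
    refine (DP.mem (DF.v hW 3) (DF.Init hW (DF.v hW 0))).imp ?_
    refine DP.all (Q := fun α v => ZFSet.pair (v 0) α ∈ v 2 → CM.ap (v 1) (v 0) ⊆ α) ?_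
    exact (DP.mem (DF.pair hW (DF.v hW 1) (DF.v hW 0)) (DF.v hW 3)).imp
      (DP.sub hW (DF.ap hW (DF.v hW 2) (DF.v hW 1)) (DF.v hW 0))
  refine h.congr fun v hv => ?_
  constructor
  · intro h u hu h1 α _ h2
    exact h u hu h1 α h2
  · intro h u hu h1 α h2
    refine h u hu h1 α ?_ h2
    have h := hW.transitive _ (hv 1) _ h2
    have := snd_mem hW h
    rwa [snd_pair] at this

theorem DP.Pos (hW : IsTransModelZF W) {k T t : (ℕ → V) → V} (hk : DF W k) (hT : DF W T)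
    (ht : DF W t) : DP W (fun v => CM.Pos W (k v) (T v) (t v)) := by
  refine DP3.app (P := CM.Pos W) ?_ hk hT ht
  refine DP.all (Q := fun g v => CM.Fn (v 0) g → ∃ b ∈ W, CM.Br (v 0) b ∧ b ⊆ v 1 ∧ v 2 ∈ b ∧
    CM.Fre g b (v 2)) ?_
  refine (DP.Fn hW (DF.v hW 1) (DF.v hW 0)).imp ?_
  refine DP.ex (Q := fun b v => CM.Br (v 1) b ∧ b ⊆ v 2 ∧ v 3 ∈ b ∧ CM.Fre (v 0) b (v 3)) ?_
  exact (DP.Br hW (DF.v hW 2) (DF.v hW 0)).and ((DP.sub hW (DF.v hW 0) (DF.v hW 3)).and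
    ((DP.mem (DF.v hW 4) (DF.v hW 0)).and (DP.Fre hW (DF.v hW 1) (DF.v hW 0) (DF.v hW 4))))

theorem DP.OpenD (hW : IsTransModelZF W) {P D : (ℕ → V) → V} (hP : DF W P) (hD : DF W D) :
    DP W (fun v => CM.OpenD (P v) (D v)) := by
  refine DP2.app (P := CM.OpenD) ?_ hP hD
  refine (DP.sub hW (DF.v hW 1) (DF.v hW 0)).and (DP.ball hW (DF.v hW 1)
    (Q := fun p v => ∀ q ∈ v 0, q ⊆ p → q ∈ v 1) ?_)
  refine DP.ball hW (DF.v hW 1) (Q := fun q v => q ⊆ v 0 → q ∈ v 2) ?_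
  exact (DP.sub hW (DF.v hW 0) (DF.v hW 1)).imp (DP.mem (DF.v hW 0) (DF.v hW 3))

theorem DP.DenseD (hW : IsTransModelZF W) {P D : (ℕ → V) → V} (hP : DF W P) (hD : DF W D) :
    DP W (fun v => CM.DenseD (P v) (D v)) := by
  refine DP2.app (P := CM.DenseD) ?_ hP hD
  refine DP.ball hW (DF.v hW 0) (Q := fun p v => ∃ q ∈ v 1, q ⊆ p) ?_
  refine DP.bex hW (DF.v hW 2) (Q := fun q v => q ⊆ v 0) ?_
  exact DP.sub hW (DF.v hW 0) (DF.v hW 1)

theorem DP.Good (hW : IsTransModelZF W) {k D S w : (ℕ → V) → V} (hk : DF W k) (hD : DF W D)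
    (hS : DF W S) (hw : DF W w) : DP W (fun v => CM.Good (k v) (D v) (S v) (w v)) := by
  refine DP4.app (P := CM.Good) ?_ hk hD hS hw
  refine DP.bex hW (DF.v hW 1) (Q := fun S' v => S' ⊆ v 2 ∧ CM.Lav (v 0) S' (v 3)) ?_
  exact (DP.sub hW (DF.v hW 0) (DF.v hW 3)).and (DP.Lav hW (DF.v hW 1) (DF.v hW 0) (DF.v hW 4))

theorem DF.BadT (hW : IsTransModelZF W) {k D S w : (ℕ → V) → V} (hk : DF W k) (hD : DF W D)
    (hS : DF W S) (hw : DF W w) : DF W (fun v => CM.BadT (k v) (D v) (S v) (w v)) := by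
  refine DF4.app (F := CM.BadT) ?_ hk hD hS hw
  refine DF.sep hW (DF.v hW 2) (P := fun x v => x ∈ CM.Init (v 3) ∨ (v 3 ∈ CM.Init x ∧
    ∀ w ∈ CM.Init x, v 3 ∈ CM.Init w → w ≠ v 3 → ¬ CM.Good (v 0) (v 1) (v 2) w)) ?_
  refine (DP.mem (DF.v hW 0) (DF.Init hW (DF.v hW 4))).or
    ((DP.mem (DF.v hW 4) (DF.Init hW (DF.v hW 0))).and ?_)
  refine DP.ball hW (DF.Init hW (DF.v hW 0)) (Q := fun w v => v 4 ∈ CM.Init w → w ≠ v 4 →
    ¬ CM.Good (v 1) (v 2) (v 3) w) ?_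
  exact (DP.mem (DF.v hW 5) (DF.Init hW (DF.v hW 0))).imp
    ((DP.not (DP.eq (DF.v hW 0) (DF.v hW 5))).imp
      (DP.not (DP.Good hW (DF.v hW 2) (DF.v hW 3) (DF.v hW 4) (DF.v hW 0))))

/-- the family of functions given by a list, the last one repeated -/
def famL (l : List ((ℕ → V) → V)) (d : (ℕ → V) → V) (n : ℕ) : (ℕ → V) → V := l.getD n d

theorem famL_DF {l : List ((ℕ → V) → V)} {d : (ℕ → V) → V} (hl : ∀ f ∈ l, DF W f) (hd : DF W d)
    (n : ℕ) : DF W (famL l d n) := by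
  by_cases h : n < l.length
  · rw [famL, List.getD_eq_getElem _ _ h]
    exact hl _ (List.getElem_mem h)
  · rw [famL, List.getD_eq_default _ _ (by omega)]
    exact hd

theorem DF.nxt (hW : IsTransModelZF W) {k D r t s w : (ℕ → V) → V} (hk : DF W k) (hD : DF W D)
    (hr : DF W r) (ht : DF W t) (hs : DF W s) (hw : DF W w) :
    DF W (fun v => CM.nxt (k v) (D v) (r v) (t v) (s v) (w v)) := by
  classical
  have h : DF W (fun v => CM.nxt (v 0) (v 1) (v 2) (v 3) (v 4) (v 5)) := by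
    have hA : DF W (fun v => CM.ap (v 1) (CM.snd (v 4))) :=
      DF.ap hW (DF.v hW 1) (DF.snd hW (DF.v hW 4))
    refine DF.ite ((DP.mem (DF.v hW 3) (DF.Init hW (DF.v hW 5))).and
      (DP.Good hW (DF.v hW 0) hA (DF.fst hW (DF.v hW 4)) (DF.v hW 5)))
      (DF.pair hW (DF.lea hW (DF.v hW 2) (DF.sep hW hA
        (P := fun S' v => S' ⊆ CM.fst (v 4) ∧ CM.Lav (v 0) S' (v 5)) ?_))
        (DF.ins hW (DF.snd hW (DF.v hW 4)) (DF.snd hW (DF.v hW 4)))) (DF.v hW 4)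
    exact (DP.sub hW (DF.v hW 0) (DF.fst hW (DF.v hW 5))).and
      (DP.Lav hW (DF.v hW 1) (DF.v hW 0) (DF.v hW 6))
  have := h.comp (f := famL [k, D, r, t, s] w) (famL_DF (by
    intro f hf
    simp only [List.mem_cons, List.not_mem_nil, or_false] at hf
    rcases hf with rfl | rfl | rfl | rfl | rfl <;> assumption) hw)
  exact this

theorem DF.stt (hW : IsTransModelZF W) {k D r t T w : (ℕ → V) → V} (hk : DF W k) (hD : DF W D)
    (hr : DF W r) (ht : DF W t) (hT : DF W T) (hw : DF W w) :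
    DF W (fun v => CM.stt (k v) (D v) (r v) (t v) (T v) (w v)) := by
  classical
  have h : DF W (fun v => CM.stt (v 0) (v 1) (v 2) (v 3) (v 4) (v 5)) := by
    refine DF.recT hW (G := fun v w h => CM.nxt (v 0) (v 1) (v 2) (v 3)
      (if w = ∅ then ZFSet.pair (v 4) ∅ else CM.ap h (CM.fst w)) w) ?_ (DF.v hW 5)
    exact DF.nxt hW (DF.v hW 2) (DF.v hW 3) (DF.v hW 4) (DF.v hW 5)
      (DF.ite (DP.eq (DF.v hW 0) (DF.empty hW)) (DF.pair hW (DF.v hW 6) (DF.empty hW))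
        (DF.ap hW (DF.v hW 1) (DF.fst hW (DF.v hW 0)))) (DF.v hW 0)
  have := h.comp (f := famL [k, D, r, t, T] w) (famL_DF (by
    intro f hf
    simp only [List.mem_cons, List.not_mem_nil, or_false] at hf
    rcases hf with rfl | rfl | rfl | rfl | rfl <;> assumption) hw)
  exact this

theorem DF.TT (hW : IsTransModelZF W) {k D r t T : (ℕ → V) → V} (hk : DF W k) (hD : DF W D)
    (hr : DF W r) (ht : DF W t) (hT : DF W T) :
    DF W (fun v => CM.TT (k v) (D v) (r v) (t v) (T v)) := by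
  have h : DF W (fun v => CM.TT (v 0) (v 1) (v 2) (v 3) (v 4)) := by
    refine DF.sep hW (DF.Ls hW (DF.v hW 0)) (P := fun x v => ∀ w ∈ CM.Init x, w = ∅ ∨
      w ∈ CM.fst (CM.stt (v 0) (v 1) (v 2) (v 3) (v 4) (CM.fst w))) ?_
    refine DP.ball hW (DF.Init hW (DF.v hW 0)) (Q := fun w v => w = ∅ ∨
      w ∈ CM.fst (CM.stt (v 1) (v 2) (v 3) (v 4) (v 5) (CM.fst w))) ?_
    exact (DP.eq (DF.v hW 0) (DF.empty hW)).or (DP.mem (DF.v hW 0) (DF.fst hW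
      (DF.stt hW (DF.v hW 2) (DF.v hW 3) (DF.v hW 4) (DF.v hW 5) (DF.v hW 6)
        (DF.fst hW (DF.v hW 0)))))
  have := h.comp (f := famL [k, D, r, t] T) (famL_DF (by
    intro f hf
    simp only [List.mem_cons, List.not_mem_nil, or_false] at hf
    rcases hf with rfl | rfl | rfl | rfl <;> assumption) hT)
  exact this

end Pool.Agent.CM
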