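import Mathlib
import Pool.Agent.Lib.MP_f8e9b8_lc.TDF

/-!
# MP_f8e9b8_lc : Laver trees, branches, positive trees
-/

set_option autoImplicit false

namespace Pool.Agent.CM

open Pool.Agent.CR (V Fml cons Sat nat cons_zero cons_succ)

variable {W M : Set V}

/-! ### initial segments -/

theorem Init_step {b v u : V} (hv : v ∈ Ls b) (hu : u ∈ Init v) (hne : u ≠ v) :
    ∃ x ∈ b, ZFSet.pair u x ∈ Init v := by
  revert u
  refine Ls_ind (b := b) (p := fun v => ∀ {u : V}, u ∈ Init v → u ≠ v →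
    ∃ x ∈ b, ZFSet.pair u x ∈ Init v) ?_ ?_ v hv
  · intro u hu hne
    exact absurd (mem_Init_empty.1 hu) hne
  · intro w _ ih x hx u hu hne
    rcases mem_Init_pair.1 hu with h | h
    · exact absurd h hne
    · by_cases h1 : u = w
      · subst h1
        exact ⟨x, hx, Init_self _⟩
      · obtain ⟨y, hy, h2⟩ := ih h h1
        exact ⟨y, hy, mem_Init_pair.2 (Or.inr h2)⟩

theorem fst_mem_Init (v : V) : fst v ∈ Init v := mem_Init.2 ⟨1, rfl⟩

theorem Init_pair_self {v x : V} : v ∈ Init (ZFSet.pair v x) := mem_Init_pair.2 (Or.inr (Init_self v))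

theorem pair_notMem_Init {b u x : V} (hu : u ∈ Ls b) : ZFSet.pair u x ∉ Init u := by
  intro h
  have h1 : ZFSet.rank u < ZFSet.rank (ZFSet.pair u x) := by
    have h2 : u ∈ ({u} : V) := ZFSet.mem_singleton.2 rfl
    have h3 : ({u} : V) ∈ ZFSet.pair u x := by simp [ZFSet.pair]
    exact (ZFSet.rank_lt_of_mem h2).trans (ZFSet.rank_lt_of_mem h3)
  rcases Init_rank h ⟨b, hu⟩ with h2 | h2
  · rw [h2] at h1
    exact lt_irrefl _ h1
  · exact lt_irrefl _ (h1.trans h2)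

theorem Init_pair_inj {b v u x y : V} (hv : v ∈ Ls b) (h1 : ZFSet.pair u x ∈ Init v)
    (h2 : ZFSet.pair u y ∈ Init v) : x = y := by
  have hu : u ∈ Ls b := (Ls_pair.1 (Init_sub hv h1)).1
  rcases Init_linear h1 h2 with h | h
  · rcases mem_Init_pair.1 h with h | h
    · exact (ZFSet.pair_inj.1 h).2
    · exact absurd h (pair_notMem_Init hu)
  · rcases mem_Init_pair.1 h with h | h
    · exact (ZFSet.pair_inj.1 h).2.symm
    · exact absurd h (pair_notMem_Init hu)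

/-! ### Laver trees -/

theorem Lav.sub {κ T t : V} (h : Lav κ T t) : T ⊆ Ls κ := h.1.1
theorem Lav.init {κ T t : V} (h : Lav κ T t) {v : V} (hv : v ∈ T) : Init v ⊆ T := h.1.2 v hv
theorem Lav.stem {κ T t : V} (h : Lav κ T t) : t ∈ T := h.2.1
theorem Lav.cmp {κ T t : V} (h : Lav κ T t) {v : V} (hv : v ∈ T) : v ∈ Init t ∨ t ∈ Init v :=
  h.2.2.1 v hv
theorem Lav.split {κ T t : V} (h : Lav κ T t) {u : V} (hu : u ∈ T) (htu : t ∈ Init u) {β : V}
    (hβ : β ∈ κ) : ∃ α ∈ κ, β ⊆ α ∧ ZFSet.pair u α ∈ T := h.2.2.2 u hu htu β hβ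

theorem Lav.stem_Ls {κ T t : V} (h : Lav κ T t) : t ∈ Ls κ := h.sub h.stem

/-- the stem of a smaller tree extends `t` -/
theorem Lav.stem_ext {κ S s t : V} (hS : Lav κ S s) (hs : ∀ β ∈ κ, insert β β ∈ κ)
    (h : ∀ v ∈ S, v ∈ Init t ∨ t ∈ Init v) (ht : t ∈ Ls κ) : t ∈ Init s := by
  rcases h s hS.stem with h1 | h1
  · by_cases h2 : s = t
    · rw [h2]
      exact Init_self _
    · exfalso
      obtain ⟨x, hx, h3⟩ := Init_step ht h1 h2
      obtain ⟨α, _, h4, h5⟩ := hS.split hS.stem (Init_self _) (hs x hx)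
      have hxα : x ≠ α := by
        rintro rfl
        exact ZFSet.mem_irrefl _ (h4 (ZFSet.mem_insert_iff.2 (Or.inl rfl)))
      rcases h _ h5 with h6 | h6
      · exact hxα (Init_pair_inj ht h3 h6)
      · rcases mem_Init_pair.1 h6 with h7 | h7
        · rw [h7] at h3
          rcases mem_Init_pair.1 h3 with h8 | h8
          · exact hxα (ZFSet.pair_inj.1 h8).2
          · exact pair_notMem_Init hS.stem_Ls h8
        · exact h2 (Init_antisymm hS.stem_Ls ht h1 h7)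
  · exact h1

/-- the part of a tree above a node -/
noncomputable def sbt (T v : V) : V := ZFSet.sep (fun x => x ∈ Init v ∨ v ∈ Init x) T

theorem mem_sbt {T v x : V} : x ∈ sbt T v ↔ x ∈ T ∧ (x ∈ Init v ∨ v ∈ Init x) := ZFSet.mem_sep

theorem sbt_sub {T v : V} : sbt T v ⊆ T := sep_sub

theorem DF.sbt (hW : IsTransModelZF W) {f g : (ℕ → V) → V} (hf : DF W f) (hg : DF W g) :
    DF W (fun v => CM.sbt (f v) (g v)) := by
  refine DF2.app (F := CM.sbt) ?_ hf hg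
  refine DF.sep hW (DF.v hW 0) (P := fun x v => x ∈ CM.Init (v 1) ∨ v 1 ∈ CM.Init x) ?_
  exact (DP.mem (DF.v hW 0) (DF.Init hW (DF.v hW 2))).or
    (DP.mem (DF.v hW 2) (DF.Init hW (DF.v hW 0)))

theorem Lav.sbt {κ T t v : V} (h : Lav κ T t) (hv : v ∈ T) (htv : t ∈ Init v) :
    Lav κ (CM.sbt T v) v := by
  refine ⟨⟨fun x hx => h.sub (mem_sbt.1 hx).1, fun x hx w hw => ?_⟩,
    mem_sbt.2 ⟨hv, Or.inl (Init_self _)⟩, fun x hx => (mem_sbt.1 hx).2, fun u hu hvu β hβ => ?_⟩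
  · obtain ⟨h1, h2⟩ := mem_sbt.1 hx
    refine mem_sbt.2 ⟨h.init h1 hw, ?_⟩
    rcases h2 with h2 | h2
    · exact Or.inl (Init_trans hw h2)
    · exact Init_linear hw h2
  · obtain ⟨α, hα, h1, h2⟩ := h.split (mem_sbt.1 hu).1 (Init_trans htv hvu) hβ
    exact ⟨α, hα, h1, mem_sbt.2 ⟨h2, Or.inr (Init_trans hvu Init_pair_self)⟩⟩

theorem mem_PL {κ T : V} : T ∈ PL M κ ↔ T ∈ M ∧ ∃ t, Lav κ T t := by
  rw [PL, ZFSet.mem_sep, mem_pwr]
  constructor
  · rintro ⟨⟨h1, _⟩, t, _, h3⟩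
    exact ⟨h1, t, h3⟩
  · rintro ⟨h1, t, h3⟩
    exact ⟨⟨h1, h3.sub⟩, t, h3.stem_Ls, h3⟩

/-! ### branches -/

theorem Br.linear {κ b : V} (h : Br κ b) {u w : V} (hu : u ∈ b) (hw : w ∈ b) :
    u ∈ Init w ∨ w ∈ Init u := by
  have key : ∀ u ∈ Ls κ, u ∈ b → ∀ w ∈ b, u ∈ Init w ∨ w ∈ Init u := by
    refine Ls_ind (b := κ) (p := fun u => u ∈ b → ∀ w ∈ b, u ∈ Init w ∨ w ∈ Init u) ?_ ?_
    · intro _ w hw
      exact Or.inl (empty_mem_Init (h.sub hw))
    · intro u _ ih x _ hux w hw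
      have hub : u ∈ b := h.init _ hux Init_pair_self
      rcases ih hub w hw with h1 | h1
      · by_cases h2 : u = w
        · right
          rw [← h2]
          exact Init_pair_self
        · obtain ⟨y, _, h3⟩ := Init_step (h.sub hw) h1 h2
          have h4 := h.uniq u x y hux (h.init w hw h3)
          left
          rw [h4]
          exact h3
      · right
        exact mem_Init_pair.2 (Or.inr h1)
  exact key u (h.sub hu) hu w hw

/-- the images of the iterates -/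
theorem DF.itI (hW : IsTransModelZF W) {g : V → (ℕ → V) → V}
    (hg : DF W (fun v => g (v 0) (fun n => v (n + 1)))) {a : (ℕ → V) → V} (ha : DF W a) :
    DF W (fun v => CM.img (fun x => CM.itn (fun z => g z v) (a v) x) CM.om) := by
  classical
  have h1 : DF W (fun v => CM.img (fun x => CM.itn (fun z => g z v) (a v)
      (if x ∈ CM.om then x else ∅)) CM.om) := by
    refine DF.img hW (DF.om hW) (g := fun x v => CM.itn (fun z => g z v) (a v)
      (if x ∈ CM.om then x else ∅)) ?_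
    refine DF.itn hW (g := fun z v => g z (fun n => v (n + 1)))
      (hg.ren fun n => if n = 0 then 0 else n + 1) (ha.ren fun n => n + 1)
      (DF.ite (DP.mem (DF.v hW 0) (DF.om hW)) (DF.v hW 0) (DF.empty hW)) ?_
    intro v _
    split_ifs with h
    · exact h
    · exact mem_om.2 ⟨0, rfl⟩
  refine h1.congr fun v _ => ?_
  exact img_congr fun x hx => by rw [if_pos hx]

/-- the least admissible successor -/
noncomputable def sc (κ T g u : V) : V :=
  ZFSet.pair u (mn (ZFSet.sep (fun α => ap g u ⊆ α ∧ ZFSet.pair u α ∈ T) κ))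

theorem DF.sc (hW : IsTransModelZF W) : DF4 W CM.sc := by
  refine DF.pair hW (DF.v hW 3) (DF.mn hW (DF.sep hW (DF.v hW 0)
    (P := fun α v => CM.ap (v 2) (v 3) ⊆ α ∧ ZFSet.pair (v 3) α ∈ v 1) ?_))
  exact (DP.sub hW (DF.ap hW (DF.v hW 3) (DF.v hW 4)) (DF.v hW 0)).and
    (DP.mem (DF.pair hW (DF.v hW 4) (DF.v hW 0)) (DF.v hW 2))

/-- the initial segments of the iterates -/
noncomputable def lbr (κ T g t : V) : V :=
  sU (img (fun w => Init w) (img (fun x => itn (fun z => sc κ T g z) t x) om))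

theorem mem_lbr {κ T g t u : V} : u ∈ lbr κ T g t ↔ ∃ n, u ∈ Init ((sc κ T g)^[n] t) := by
  rw [lbr, mem_sU]
  constructor
  · rintro ⟨y, hy, hu⟩
    obtain ⟨w, hw, rfl⟩ := mem_img.1 hy
    obtain ⟨x, hx, rfl⟩ := mem_img.1 hw
    obtain ⟨n, rfl⟩ := mem_om.1 hx
    rw [itn_eq] at hu
    exact ⟨n, hu⟩
  · rintro ⟨n, hu⟩
    refine ⟨_, mem_img.2 ⟨_, mem_img.2 ⟨nat n, mem_om.2 ⟨n, rfl⟩, rfl⟩, rfl⟩, ?_⟩
    rw [itn_eq]
    exact hu

theorem DF.lbr (hW : IsTransModelZF W) : DF4 W CM.lbr := by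
  refine DF.bU hW (f := fun v => CM.img (fun x => CM.itn (fun z => CM.sc (v 0) (v 1) (v 2) z)
    (v 3) x) CM.om) (g := fun w _ => CM.Init w) ?_ (DF.Init hW (DF.v hW 0))
  refine DF.itI hW (g := fun z v => CM.sc (v 0) (v 1) (v 2) z) ?_ (DF.v hW 3)
  exact DF4.app (DF.sc hW) (DF.v hW 1) (DF.v hW 2) (DF.v hW 3) (DF.v hW 0)

theorem sc_spec {κ T g t u : V} (hκ : κ.IsOrdinal) (h : Lav κ T t) (hg : Fn κ g) (hu : u ∈ T)
    (htu : t ∈ Init u) : ∃ α ∈ κ, ap g u ⊆ α ∧ ZFSet.pair u α ∈ T ∧ sc κ T g u = ZFSet.pair u α := by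
  have hne : ∃ z, z ∈ ZFSet.sep (fun α => ap g u ⊆ α ∧ ZFSet.pair u α ∈ T) κ := by
    obtain ⟨α, hα, h1, h2⟩ := h.split hu htu (hg u (h.sub hu))
    exact ⟨α, ZFSet.mem_sep.2 ⟨hα, h1, h2⟩⟩
  have := (mn_spec (Z := ZFSet.sep (fun α => ap g u ⊆ α ∧ ZFSet.pair u α ∈ T) κ)
    (fun α hα => hκ.mem (ZFSet.mem_sep.1 hα).1) hne).1
  obtain ⟨h1, h2, h3⟩ := ZFSet.mem_sep.1 this
  exact ⟨_, h1, h2, h3, rfl⟩

theorem sc_iter {κ T g t : V} (hκ : κ.IsOrdinal) (h : Lav κ T t) (hg : Fn κ g) (n : ℕ) :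
    (sc κ T g)^[n] t ∈ T ∧ t ∈ Init ((sc κ T g)^[n] t) := by
  induction n with
  | zero => exact ⟨h.stem, Init_self _⟩
  | succ n ih =>
    rw [Function.iterate_succ_apply']
    obtain ⟨α, _, _, h2, h3⟩ := sc_spec hκ h hg ih.1 ih.2
    rw [h3]
    exact ⟨h2, Init_trans ih.2 Init_pair_self⟩

theorem sc_iter_mono {κ T g t : V} {m n : ℕ} (h : m ≤ n) :
    (sc κ T g)^[m] t ∈ Init ((sc κ T g)^[n] t) := by
  induction n, h using Nat.le_induction with
  | base => exact Init_self _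
  | succ n _ ih =>
    rw [Function.iterate_succ_apply']
    exact Init_trans ih Init_pair_self

/-- a Laver tree has a branch through its stem exceeding given bounds -/
theorem Lav.branch {κ T g t : V} (hκ : κ.IsOrdinal) (h : Lav κ T t) (hg : Fn κ g) :
    Br κ (lbr κ T g t) ∧ lbr κ T g t ⊆ T ∧ t ∈ lbr κ T g t ∧ Fre g (lbr κ T g t) t := by
  have hT : lbr κ T g t ⊆ T := by
    intro u hu
    obtain ⟨n, hn⟩ := mem_lbr.1 hu
    exact h.init (sc_iter hκ h hg n).1 hn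
  refine ⟨⟨fun u hu => h.sub (hT hu), ?_, ?_, ?_, ?_⟩, hT, ?_, ?_⟩
  · exact mem_lbr.2 ⟨0, empty_mem_Init h.stem_Ls⟩
  · intro v hv u hu
    obtain ⟨n, hn⟩ := mem_lbr.1 hv
    exact mem_lbr.2 ⟨n, Init_trans hu hn⟩
  · intro u hu
    obtain ⟨n, hn⟩ := mem_lbr.1 hu
    by_cases h1 : u = (sc κ T g)^[n] t
    · obtain ⟨h2, h3⟩ := sc_iter hκ h hg n
      obtain ⟨α, hα, _, _, h5⟩ := sc_spec hκ h hg h2 h3
      refine ⟨α, hα, mem_lbr.2 ⟨n + 1, ?_⟩⟩
      rw [Function.iterate_succ_apply', h5, ← h1]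
      exact Init_self _
    · obtain ⟨x, hx, h2⟩ := Init_step (h.sub (sc_iter hκ h hg n).1) hn h1
      exact ⟨x, hx, mem_lbr.2 ⟨n, h2⟩⟩
  · intro u α β hα hβ
    obtain ⟨n, hn⟩ := mem_lbr.1 hα
    obtain ⟨m, hm⟩ := mem_lbr.1 hβ
    refine Init_pair_inj (h.sub (sc_iter hκ h hg (max n m)).1) (Init_trans hn
      (sc_iter_mono (le_max_left n m))) (Init_trans hm (sc_iter_mono (le_max_right n m)))
  · exact mem_lbr.2 ⟨0, Init_self _⟩
  · intro u hu htu α hα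
    obtain ⟨n, hn⟩ := mem_lbr.1 hα
    have huL : u ∈ Ls κ := h.sub (hT hu)
    clear hα hu
    induction n with
    | zero => exact absurd (Init_trans hn htu) (pair_notMem_Init huL)
    | succ n ih =>
      rw [Function.iterate_succ_apply'] at hn
      obtain ⟨h2, h3⟩ := sc_iter hκ h hg n
      obtain ⟨γ, _, h4, _, h5⟩ := sc_spec hκ h hg h2 h3
      rw [h5] at hn
      rcases mem_Init_pair.1 hn with h6 | h6
      · obtain ⟨rfl, rfl⟩ := ZFSet.pair_inj.1 h6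
        exact h4
      · exact ih h6

/-- Laver trees are positive -/
theorem Lav.pos (hM : IsTransModelZF M) {κ T t : V} (hκ : κ.IsOrdinal) (hκM : κ ∈ M) (hT : T ∈ M)
    (h : Lav κ T t) : Pos M κ T t := by
  intro g hg hFn
  have h1 := h.branch hκ hFn
  have htM : t ∈ M := hM.transitive T hT t h.stem
  exact ⟨_, DF.mem4 (DF.lbr hM) hκM hT hg htM, h1.1, h1.2.1, h1.2.2.1, h1.2.2.2⟩

end Pool.Agent.CM
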