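import Mathlib
import Pool.Agent.Lib.MP_f8e9b8_lc.LTree

/-!
# MP_f8e9b8_lc : positive trees
-/

set_option autoImplicit false

namespace Pool.Agent.CM

open Pool.Agent.CR (V Fml cons Sat nat cons_zero cons_succ)

variable {M : Set V}

/-- the empty function -/
theorem exists_Fn (hM : IsTransModelZF M) {κ : V} (hκM : κ ∈ M) (h0 : ∅ ∈ κ) :
    ∃ g ∈ M, Fn κ g := by
  have h := gr_mem hM (F := fun _ _ => (∅ : V)) (DF.empty hM) (const_mem hκM) (Ls_mem hM hκM)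
  exact ⟨_, h, fun u hu => by rw [ap_gr hu]; exact h0⟩

theorem Pos.mem {κ T t : V} (hM : IsTransModelZF M) (hκM : κ ∈ M) (h0 : ∅ ∈ κ)
    (h : Pos M κ T t) : t ∈ T := by
  obtain ⟨g, hg, hFn⟩ := exists_Fn hM hκM h0
  obtain ⟨b, _, _, h2, h3, _⟩ := h g hg hFn
  exact h2 h3

theorem Pos.mono {κ T T' t : V} (h : Pos M κ T t)
    (hT : ∀ b ∈ M, Br κ b → b ⊆ T → t ∈ b → b ⊆ T') : Pos M κ T' t := by
  intro g hg hFn
  obtain ⟨b, hb, h1, h2, h3, h4⟩ := h g hg hFn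
  exact ⟨b, hb, h1, hT b hb h1 h2 h3, h3, h4⟩

/-- the positive part of a tree -/
noncomputable def Pt (M : Set V) (κ T t : V) : V :=
  ZFSet.sep (fun u => u ∈ Init t ∨ (t ∈ Init u ∧ ∀ w ∈ Init u, t ∈ Init w → Pos M κ T w)) T

theorem Pt_mem (hM : IsTransModelZF M) {κ T t : V} (hκ : κ ∈ M) (hT : T ∈ M) (ht : t ∈ M) :
    Pt M κ T t ∈ M := by
  refine sep_mem hM (v := cons κ (cons T fun _ => t)) (P := fun u v => u ∈ Init (v 2) ∨
    (v 2 ∈ Init u ∧ ∀ w ∈ Init u, v 2 ∈ Init w → Pos M (v 0) (v 1) w)) ?_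
    (cons_mem hκ (cons_mem hT fun _ => ht)) hT
  refine (DP.mem (DF.v hM 0) (DF.Init hM (DF.v hM 3))).or ((DP.mem (DF.v hM 3)
    (DF.Init hM (DF.v hM 0))).and ?_)
  refine DP.ball hM (DF.Init hM (DF.v hM 0)) (Q := fun w v => v 3 ∈ Init w →
    Pos M (v 1) (v 2) w) ?_
  exact (DP.mem (DF.v hM 4) (DF.Init hM (DF.v hM 0))).imp
    (DP.Pos hM (DF.v hM 2) (DF.v hM 3) (DF.v hM 0))

/-- positive trees contain Laver trees -/
theorem Pos.lav (hM : GM M) {κ T t : V} (hκM : κ ∈ M) (h0 : ∅ ∈ κ)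
    (hT : T ∈ M) (hTr : Tree κ T) (h : Pos M κ T t) : Lav κ (Pt M κ T t) t := by
  have hW := hM.zf
  have htT : t ∈ T := h.mem hW hκM h0
  have htM : t ∈ M := hW.transitive T hT t htT
  have hPt : ∀ u, u ∈ Pt M κ T t → t ∈ Init u → ∀ w ∈ Init u, t ∈ Init w → Pos M κ T w := by
    intro u hu htu w hw htw
    obtain ⟨h1, h2⟩ := ZFSet.mem_sep.1 hu
    rcases h2 with h2 | h2
    · have : w = t := Init_antisymm (hTr.1 ((hTr.2 u h1) hw)) (hTr.1 htT) (Init_trans hw h2) htw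
      rw [this]
      exact h
    · exact h2.2 w hw htw
  refine ⟨⟨fun u hu => hTr.1 (ZFSet.mem_sep.1 hu).1, fun u hu w hw => ?_⟩,
    ZFSet.mem_sep.2 ⟨htT, Or.inl (Init_self _)⟩, fun u hu => ?_, fun u hu htu β hβ => ?_⟩
  · obtain ⟨h1, h2⟩ := ZFSet.mem_sep.1 hu
    refine ZFSet.mem_sep.2 ⟨hTr.2 u h1 hw, ?_⟩
    rcases h2 with h2 | h2
    · exact Or.inl (Init_trans hw h2)
    · rcases Init_linear hw h2.1 with h3 | h3
      · exact Or.inl h3
      · exact Or.inr ⟨h3, fun x hx => h2.2 x (Init_trans hx hw)⟩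
  · rcases (ZFSet.mem_sep.1 hu).2 with h2 | h2
    · exact Or.inl h2
    · exact Or.inr h2.1
  · by_contra hcon
    push Not at hcon
    have huT : u ∈ T := (ZFSet.mem_sep.1 hu).1
    have huM : u ∈ M := hW.transitive T hT u huT
    have hβM : β ∈ M := hW.transitive κ hκM β hβ
    have hLsM : Ls κ ∈ M := Ls_mem hW hκM
    have hpos : Pos M κ T u := hPt u hu htu u (Init_self _) htu
    -- the successors
    have hnp : ∀ α ∈ κ, β ⊆ α → ZFSet.pair u α ∈ T → ¬ Pos M κ T (ZFSet.pair u α) := by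
      intro α hα hβα hαT hp
      refine hcon α hα hβα (ZFSet.mem_sep.2 ⟨hαT, Or.inr ⟨Init_trans htu Init_pair_self, ?_⟩⟩)
      intro w hw htw
      rcases mem_Init_pair.1 hw with rfl | hw
      · exact hp
      · exact hPt u hu htu w hw htw
    have ha : ZFSet.sep (fun α => β ⊆ α ∧ ZFSet.pair u α ∈ T) κ ∈ M := by
      refine sep_mem hW (v := cons β (cons u fun _ => T)) (P := fun α v => v 0 ⊆ α ∧
        ZFSet.pair (v 1) α ∈ v 2) ?_ (cons_mem hβM (cons_mem huM fun _ => hT)) hκM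
      exact (DP.sub hW (DF.v hW 1) (DF.v hW 0)).and (DP.mem (DF.pair hW (DF.v hW 2) (DF.v hW 0))
        (DF.v hW 3))
    obtain ⟨f, hf, hfs⟩ := hM.choose (R := fun α g v => Fn (v 0) g ∧ ¬ ∃ b ∈ M, Br (v 0) b ∧
      b ⊆ v 1 ∧ ZFSet.pair (v 2) α ∈ b ∧ Fre g b (ZFSet.pair (v 2) α))
      (by
        refine (DP.Fn hW (DF.v hW 2) (DF.v hW 1)).and (DP.not ?_)
        refine DP.ex (Q := fun b v => Br (v 2) b ∧ b ⊆ v 3 ∧ ZFSet.pair (v 4) (v 0) ∈ b ∧
          Fre (v 1) b (ZFSet.pair (v 4) (v 0))) ?_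
        have hp : DF M (fun v => ZFSet.pair (v 5) (v 1)) := DF.pair hW (DF.v hW 5) (DF.v hW 1)
        exact (DP.Br hW (DF.v hW 3) (DF.v hW 0)).and ((DP.sub hW (DF.v hW 0) (DF.v hW 4)).and
          ((DP.mem hp (DF.v hW 0)).and (DP.Fre hW (DF.v hW 2) (DF.v hW 0) hp))))
      (v := cons κ (cons T fun _ => u)) (cons_mem hκM (cons_mem hT fun _ => huM)) ha
      (by
        intro α hα
        obtain ⟨hα, h1, h2⟩ := ZFSet.mem_sep.1 hα
        have h3 := hnp α hα h1 h2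
        unfold Pos at h3
        push Not at h3
        obtain ⟨g, hg, h4, h5⟩ := h3
        refine ⟨g, hg, h4, ?_⟩
        rintro ⟨b, hb, h6, h7, h8, h9⟩
        exact h5 b hb h6 h7 h8 h9)
    -- glue
    classical
    have hgl : DF M (fun v => (if v 0 = v 1 then v 2 else ∅) ∪ sU (img (fun α =>
        ap (ap (v 3) α) (v 0)) (ZFSet.sep (fun α => ZFSet.pair (v 1) α ∈ Init (v 0)) (v 4)))) := by
      refine DF.un hW (DF.ite (DP.eq (DF.v hW 0) (DF.v hW 1)) (DF.v hW 2) (DF.empty hW)) ?_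
      refine DF.bU hW (f := fun v => ZFSet.sep (fun α => ZFSet.pair (v 1) α ∈ Init (v 0)) (v 4))
        (g := fun α v => ap (ap (v 3) α) (v 0)) ?_ ?_
      · exact DF.sep hW (DF.v hW 4) (P := fun α v => ZFSet.pair (v 1) α ∈ Init (v 0))
          (DP.mem (DF.pair hW (DF.v hW 2) (DF.v hW 0)) (DF.Init hW (DF.v hW 1)))
      · exact DF.ap hW (DF.ap hW (DF.v hW 4) (DF.v hW 0)) (DF.v hW 1)
    have hgM := gr_mem hW (F := fun w v => (if w = v 0 then v 1 else ∅) ∪ sU (img (fun α =>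
        ap (ap (v 2) α) w) (ZFSet.sep (fun α => ZFSet.pair (v 0) α ∈ Init w) (v 3)))) hgl
        (v := cons u (cons β (cons f fun _ => ZFSet.sep (fun α => β ⊆ α ∧ ZFSet.pair u α ∈ T) κ)))
        (cons_mem huM (cons_mem hβM (cons_mem hf fun _ => ha))) hLsM
    obtain ⟨g, hg0⟩ : ∃ g, g = gr (fun w => (if w = u then β else ∅) ∪ sU (img (fun α =>
        ap (ap f α) w) (ZFSet.sep (fun α => ZFSet.pair u α ∈ Init w)
          (ZFSet.sep (fun α => β ⊆ α ∧ ZFSet.pair u α ∈ T) κ)))) (Ls κ) := ⟨_, rfl⟩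
    have hgM' : g ∈ M := by
      rw [hg0]
      exact hgM
    have hval : ∀ w ∈ Ls κ, ap g w = (if w = u then β else ∅) ∪ sU (img (fun α =>
        ap (ap f α) w) (ZFSet.sep (fun α => ZFSet.pair u α ∈ Init w)
          (ZFSet.sep (fun α => β ⊆ α ∧ ZFSet.pair u α ∈ T) κ))) := by
      intro w hw
      rw [hg0, ap_gr hw]
    have hval1 : ∀ w ∈ Ls κ, ∀ α ∈ κ, β ⊆ α → ZFSet.pair u α ∈ T → ZFSet.pair u α ∈ Init w →
        ap g w = ap (ap f α) w := by
      intro w hw α hα h1 h2 h3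
      have hwu : w ≠ u := by
        rintro rfl
        exact pair_notMem_Init hw h3
      rw [hval w hw, if_neg hwu]
      refine ZFSet.ext fun z => ?_
      rw [ZFSet.mem_union, mem_sU]
      constructor
      · rintro (h | ⟨y, hy, hz⟩)
        · exact absurd h (ZFSet.notMem_empty _)
        · obtain ⟨α', hα', rfl⟩ := mem_img.1 hy
          obtain ⟨h4, h5⟩ := ZFSet.mem_sep.1 hα'
          rw [Init_pair_inj hw h3 h5]
          exact hz
      · intro hz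
        exact Or.inr ⟨_, mem_img.2 ⟨α, ZFSet.mem_sep.2 ⟨ZFSet.mem_sep.2 ⟨hα, h1, h2⟩, h3⟩, rfl⟩, hz⟩
    have hFn : Fn κ g := by
      intro w hw
      by_cases h1 : ∃ α ∈ κ, β ⊆ α ∧ ZFSet.pair u α ∈ T ∧ ZFSet.pair u α ∈ Init w
      · obtain ⟨α, hα, h2, h3, h4⟩ := h1
        rw [hval1 w hw α hα h2 h3 h4]
        exact (hfs α (ZFSet.mem_sep.2 ⟨hα, h2, h3⟩)).2.1 w hw
      · have e : ap g w = if w = u then β else ∅ := by
          rw [hval w hw]
          refine ZFSet.ext fun z => ?_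
          rw [ZFSet.mem_union, mem_sU]
          constructor
          · rintro (h | ⟨y, hy, hz⟩)
            · exact h
            · obtain ⟨α', hα', rfl⟩ := mem_img.1 hy
              obtain ⟨h4, h5⟩ := ZFSet.mem_sep.1 hα'
              obtain ⟨h6, h7, h8⟩ := ZFSet.mem_sep.1 h4
              exact absurd ⟨α', h6, h7, h8, h5⟩ h1
          · exact Or.inl
        rw [e]
        split_ifs
        · exact hβ
        · exact h0
    obtain ⟨b, hb, h1, h2, h3, h4⟩ := hpos g hgM' hFn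
    obtain ⟨α, hα, h5⟩ := h1.next u h3
    have huL : u ∈ Ls κ := hTr.1 huT
    have h6 : β ⊆ α := by
      have h7 := h4 u h3 (Init_self _) α h5
      rw [hval u huL, if_pos rfl] at h7
      intro z hz
      exact h7 (ZFSet.mem_union.2 (Or.inl hz))
    have h7 := (hfs α (ZFSet.mem_sep.2 ⟨hα, h6, h2 h5⟩)).2.2
    refine h7 ⟨b, hb, h1, h2, h5, ?_⟩
    intro w hw huw γ hγ
    show ap (ap f α) w ⊆ γ
    rw [← hval1 w (h1.sub hw) α hα h6 (h2 h5) huw]
    exact h4 w hw (Init_trans Init_pair_self huw) γ hγ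

/-- completeness: if every branch of a positive tree is a branch of one of the trees `E h`,
`h ∈ H`, then one of these trees is positive -/
theorem Pos.complete (hM : GM M) {κ H E T t : V} (hK : Kap M κ H) (hE : E ∈ M) (hT : T ∈ M)
    (h : Pos M κ T t)
    (hc : ∀ b ∈ M, Br κ b → b ⊆ T → t ∈ b → ∃ x ∈ H, b ⊆ ap E x) :
    ∃ x ∈ H, Pos M κ (ap E x) t := by
  have hW := hM.zf
  by_contra hcon
  push Not at hcon
  have htM : t ∈ M := hW.transitive T hT t (h.mem hW hK.mem hK.zero)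
  have hLsM : Ls κ ∈ M := Ls_mem hW hK.mem
  obtain ⟨f, hf, hfs⟩ := hM.choose (R := fun x g v => Fn (v 0) g ∧ ¬ ∃ b ∈ M, Br (v 0) b ∧
      b ⊆ ap (v 1) x ∧ v 2 ∈ b ∧ Fre g b (v 2))
      (by
        refine (DP.Fn hW (DF.v hW 2) (DF.v hW 1)).and (DP.not ?_)
        refine DP.ex (Q := fun b v => Br (v 2) b ∧ b ⊆ ap (v 3) (v 0) ∧ v 4 ∈ b ∧
          Fre (v 1) b (v 4)) ?_
        exact (DP.Br hW (DF.v hW 3) (DF.v hW 0)).and ((DP.sub hW (DF.v hW 0)
          (DF.ap hW (DF.v hW 4) (DF.v hW 1))).and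
          ((DP.mem (DF.v hW 5) (DF.v hW 0)).and (DP.Fre hW (DF.v hW 2) (DF.v hW 0) (DF.v hW 5)))))
      (v := cons κ (cons E fun _ => t)) (cons_mem hK.mem (cons_mem hE fun _ => htM)) hK.memH
      (by
        intro x hx
        have h3 := hcon x hx
        unfold Pos at h3
        push Not at h3
        obtain ⟨g, hg, h4, h5⟩ := h3
        refine ⟨g, hg, h4, ?_⟩
        rintro ⟨b, hb, h6, h7, h8, h9⟩
        exact h5 b hb h6 h7 h8 h9)
  -- the supremum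
  have hgl : DF M (fun v => sU (img (fun x => ap (ap (v 1) x) (v 0)) (v 2))) :=
    DF.bU hW (f := fun v => v 2) (g := fun x v => ap (ap (v 1) x) (v 0)) (DF.v hW 2)
      (DF.ap hW (DF.ap hW (DF.v hW 2) (DF.v hW 0)) (DF.v hW 1))
  have hgM : gr (fun u => sU (img (fun x => ap (ap f x) u) H)) (Ls κ) ∈ M :=
    gr_mem hW (F := fun u v => sU (img (fun x => ap (ap (v 0) x) u) (v 1))) hgl
    (v := cons f fun _ => H) (cons_mem hf fun _ => hK.memH) hLsM
  have hval : ∀ u ∈ Ls κ, ap (gr (fun u => sU (img (fun x => ap (ap f x) u) H)) (Ls κ)) u =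
      sU (img (fun x => ap (ap f x) u) H) := fun u hu => ap_gr hu
  have hFn : Fn κ (gr (fun u => sU (img (fun x => ap (ap f x) u) H)) (Ls κ)) := by
    intro u hu
    rw [hval u hu]
    have huM : u ∈ M := hW.transitive _ hLsM u hu
    have h1 := gr_mem hW (F := fun x v => ap (ap (v 0) x) (v 1))
      (DF.ap hW (DF.ap hW (DF.v hW 1) (DF.v hW 0)) (DF.v hW 2)) (v := cons f fun _ => u)
      (cons_mem hf fun _ => huM) hK.memH
    obtain ⟨β, hβ, h2⟩ := hK.bd _ h1 (by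
      intro x hx
      rw [ap_gr hx]
      exact (hfs x hx).2.1 u hu)
    have hord : (sU (img (fun x => ap (ap f x) u) H)).IsOrdinal := by
      refine ord_sU fun y hy => ?_
      obtain ⟨x, hx, rfl⟩ := mem_img.1 hy
      exact hK.ord.mem ((hfs x hx).2.1 u hu)
    have hsub : sU (img (fun x => ap (ap f x) u) H) ⊆ β := by
      intro z hz
      obtain ⟨y, hy, hz⟩ := mem_sU.1 hz
      obtain ⟨x, hx, rfl⟩ := mem_img.1 hy
      have h3 := h2 x hx
      rw [ap_gr hx] at h3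
      exact h3 hz
    exact hord.mem_of_subset_of_mem hK.ord hsub hβ
  obtain ⟨b, hb, h1, h2, h3, h4⟩ := h _ hgM hFn
  obtain ⟨x, hx, h5⟩ := hc b hb h1 h2 h3
  refine (hfs x hx).2.2 ⟨b, hb, h1, h5, h3, ?_⟩
  intro u hu htu α hα z hz
  have h6 := h4 u hu htu α hα
  rw [hval u (h1.sub hu)] at h6
  exact h6 (mem_sU.2 ⟨_, mem_img.2 ⟨x, hx, rfl⟩, hz⟩)

/-- the bad nodes do not form a positive tree -/
theorem not_pos_BadT (hM : GM M) {κ H D S s u : V} (hK : Kap M κ H) (hD : D ∈ M)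
    (hDo : OpenD (PL M κ) D) (hDd : DenseD (PL M κ) D) (hS : S ∈ M) (hSl : Lav κ S s)
    (hu : u ∈ S) : ¬ Pos M κ (BadT κ D S u) u := by
  intro hp
  have hW := hM.zf
  have huM : u ∈ M := hW.transitive S hS u hu
  have huL : u ∈ Ls κ := hSl.sub hu
  have hB : BadT κ D S u ∈ M := DF.mem4 (DF.BadT hW (DF.v hW 0) (DF.v hW 1) (DF.v hW 2)
    (DF.v hW 3)) hK.mem hD hS huM
  have hTr : Tree κ (BadT κ D S u) := by
    refine ⟨fun v hv => hSl.sub (ZFSet.mem_sep.1 hv).1, fun v hv w hw => ?_⟩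
    obtain ⟨h1, h2⟩ := ZFSet.mem_sep.1 hv
    refine ZFSet.mem_sep.2 ⟨hSl.init h1 hw, ?_⟩
    rcases h2 with h2 | ⟨h2, h3⟩
    · exact Or.inl (Init_trans hw h2)
    · rcases Init_linear hw h2 with h4 | h4
      · exact Or.inl h4
      · exact Or.inr ⟨h4, fun x hx => h3 x (Init_trans hx hw)⟩
  have hL := hp.lav hM hK.mem hK.zero hB hTr
  have hPM := Pt_mem hW hK.mem hB huM
  obtain ⟨S', h1, h2⟩ := hDd _ (mem_PL.2 ⟨hPM, u, hL⟩)
  obtain ⟨hS'M, v, h3⟩ := mem_PL.1 (hDo.1 h1)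
  have hS'B : S' ⊆ BadT κ D S u := fun x hx => (ZFSet.mem_sep.1 (h2 hx)).1
  have hS'S : S' ⊆ S := fun x hx => (ZFSet.mem_sep.1 (hS'B hx)).1
  have huv : u ∈ Init v := h3.stem_ext hK.succ (fun x hx => hL.cmp (h2 hx)) huL
  obtain ⟨α, hα, _, h4⟩ := h3.split h3.stem (Init_self _) hK.zero
  -- the node above the stem
  have hw : ZFSet.pair v α ∈ BadT κ D S u := hS'B h4
  have huw : u ∈ Init (ZFSet.pair v α) := Init_trans huv Init_pair_self
  have hne : ZFSet.pair v α ≠ u := by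
    intro h
    rw [← h] at huv
    exact pair_notMem_Init h3.stem_Ls huv
  have hgood : Good κ D S (ZFSet.pair v α) := by
    refine ⟨sbt S' (ZFSet.pair v α), ?_, fun x hx => hS'S (sbt_sub hx), h3.sbt h4 Init_pair_self⟩
    refine hDo.2 _ h1 _ (mem_PL.2 ⟨?_, _, h3.sbt h4 Init_pair_self⟩) sbt_sub
    exact (DF.sbt hW (DF.v hW 0) (DF.v hW 1)).mem2 (F := CM.sbt) hS'M
      (hW.transitive _ hS'M _ h4)
  rcases (ZFSet.mem_sep.1 hw).2 with h5 | h5
  · exact hne (Init_antisymm (h3.sub h4) huL h5 huw)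
  · exact h5.2 _ (Init_self _) huw hne hgood

end Pool.Agent.CM
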