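import Mathlib
import Pool.Agent.Lib.MP_f8e9b8_lc.Forc4
import Pool.Agent.Lib.MP_f8e9b8_lc.LPos

/-!
# MP_f8e9b8_lc : the generic branch
-/

set_option autoImplicit false

namespace Pool.Agent.CM

open Pool.Agent.CR (V Fml cons Sat nat cons_zero cons_succ)

variable {W M : Set V} {t κ H : V} {G : Set V}

theorem Ls_tree_lav {κ : V} (h : ∀ β ∈ κ, ∃ α ∈ κ, β ⊆ α) : Lav κ (Ls κ) ∅ :=
  ⟨⟨sub_rfl, fun _ hv => Init_sub hv⟩, Ls_nil κ, fun _ hu => Or.inr (empty_mem_Init hu),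
    fun _ hu _ β hβ => by
      obtain ⟨α, hα, h1⟩ := h β hβ
      exact ⟨α, hα, h1, Ls_pair.2 ⟨hu, hα⟩⟩⟩

/-- the weakest condition -/
theorem top_PL (hW : IsTransModelZF M) (hκ : κ ∈ M) :
    Ls κ ∈ PL M κ ∧ ∀ p ∈ PL M κ, p ⊆ Ls κ := by
  refine ⟨mem_PL.2 ⟨Ls_mem hW hκ, ∅, Ls_tree_lav fun β hβ => ⟨β, hβ, sub_rfl⟩⟩, fun p hp => ?_⟩
  obtain ⟨_, s, hs⟩ := mem_PL.1 hp
  exact hs.sub

theorem mem_bG {u : V} : u ∈ bG κ G ↔ u ∈ Ls κ ∧ ∀ T ∈ G, u ∈ T := ZFSet.mem_sep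

variable (hM : GM M) (hK : Kap M κ H) (hG : Gen M (PL M κ) t G)

include hM hK hG

omit hM hK in
theorem bG_init {u w : V} (hu : u ∈ bG κ G) (hw : w ∈ Init u) : w ∈ bG κ G := by
  obtain ⟨h1, h2⟩ := mem_bG.1 hu
  refine mem_bG.2 ⟨Init_sub h1 hw, fun T hT => ?_⟩
  obtain ⟨_, s, hs⟩ := mem_PL.1 (hG.sub T hT)
  exact hs.init (h2 T hT) hw

omit hM in
/-- the stems of the elements of `G` belong to the generic branch -/
theorem stem_bG {S s : V} (hS : S ∈ G) (hs : Lav κ S s) : s ∈ bG κ G := by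
  refine mem_bG.2 ⟨hs.stem_Ls, fun T hT => ?_⟩
  obtain ⟨R, hR, h1, h2⟩ := hG.dir S hS T hT
  obtain ⟨_, v, hv⟩ := mem_PL.1 (hG.sub R hR)
  have h3 : s ∈ Init v := hv.stem_ext hK.succ (fun x hx => hs.cmp (h1 hx)) hs.stem_Ls
  exact h2 (hv.init hv.stem h3)

/-- a condition containing the generic branch belongs to the generic filter -/
theorem mem_G_of_bG {T : V} (hT : T ∈ PL M κ) (h : bG κ G ⊆ T) : T ∈ G := by
  have hW := hM.zf
  have hTM := (mem_PL.1 hT).1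
  have hDM : ZFSet.sep (fun S => S ⊆ T ∨ ∃ s ∈ Ls κ, Lav κ S s ∧ s ∉ T) (PL M κ) ∈ M := by
    refine sep_mem' hW (v := cons T fun _ => κ) (P := fun S v => S ⊆ v 0 ∨
      ∃ s ∈ Ls (v 1), Lav (v 1) S s ∧ s ∉ v 0) ?_ (cons_mem hTM fun _ => hK.mem) hG.memP
      (fun _ _ => Iff.rfl)
    refine (DP.sub hW (DF.v hW 0) (DF.v hW 1)).or ?_
    refine DP.bex hW (DF.Ls hW (DF.v hW 2)) (Q := fun s v => Lav (v 2) (v 0) s ∧ s ∉ v 1) ?_
    exact (DP.Lav hW (DF.v hW 3) (DF.v hW 1) (DF.v hW 0)).and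
      (DP.not (DP.mem (DF.v hW 0) (DF.v hW 2)))
  obtain ⟨S, hS, hSD⟩ := hG.gen _ hDM sep_sub (by
    intro S hS
    obtain ⟨hSM, s, hs⟩ := mem_PL.1 hS
    obtain ⟨_, s', hTs⟩ := mem_PL.1 hT
    by_cases h1 : ∃ u ∈ S, s ∈ Init u ∧ u ∉ T
    · obtain ⟨u, hu, hsu, huT⟩ := h1
      have h2 := hs.sbt hu hsu
      have h3 : sbt S u ∈ M := (DF.sbt hW (DF.v hW 0) (DF.v hW 1)).mem2 (F := CM.sbt) hSM
        (hW.transitive _ hSM _ hu)
      exact ⟨sbt S u, ZFSet.mem_sep.2 ⟨mem_PL.2 ⟨h3, u, h2⟩, Or.inr ⟨u, hs.sub hu, h2, huT⟩⟩,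
        sbt_sub⟩
    · push Not at h1
      refine ⟨S, ZFSet.mem_sep.2 ⟨hS, Or.inl fun u hu => ?_⟩, sub_rfl⟩
      rcases hs.cmp hu with h2 | h2
      · exact hTs.init (h1 s hs.stem (Init_self _)) h2
      · exact h1 u hu h2)
  rcases (ZFSet.mem_sep.1 hSD).2 with h1 | ⟨s, _, h1, h2⟩
  · exact hG.up S hS T hT h1
  · exact absurd (h (stem_bG hK hG hS h1)) h2

/-- there are elements of `G` with stems of arbitrary length -/
theorem long_stem (n : ℕ) : ∃ S ∈ G, ∃ s, Lav κ S s ∧ nat n ∈ len s := by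
  have hW := hM.zf
  have hDM : ZFSet.sep (fun S => ∃ s ∈ Ls κ, Lav κ S s ∧ nat n ∈ len s) (PL M κ) ∈ M := by
    refine sep_mem' hW (v := fun _ => κ) (P := fun S v => ∃ s ∈ Ls (v 0), Lav (v 0) S s ∧
      nat n ∈ len s) ?_ (const_mem hK.mem) hG.memP (fun _ _ => Iff.rfl)
    refine DP.bex hW (DF.Ls hW (DF.v hW 1)) (Q := fun s v => Lav (v 1) (v 0) s ∧ nat n ∈ len s) ?_
    exact (DP.Lav hW (DF.v hW 2) (DF.v hW 1) (DF.v hW 0)).and
      (DP.mem (DF.nat hW n) (DF.len hW (DF.v hW 0)))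
  obtain ⟨S, hS, hSD⟩ := hG.gen _ hDM sep_sub (by
    intro S hS
    obtain ⟨hSM, s, hs⟩ := mem_PL.1 hS
    have h1 : ∀ n : ℕ, ∃ u ∈ S, s ∈ Init u ∧ nat n ∈ len u := by
      have hstep : ∀ u ∈ S, s ∈ Init u → ∃ x, ZFSet.pair u x ∈ S := by
        intro u hu hsu
        obtain ⟨α, _, _, h2⟩ := hs.split hu hsu hK.zero
        exact ⟨α, h2⟩
      intro n
      induction n with
      | zero =>
        obtain ⟨x, hx⟩ := hstep s hs.stem (Init_self _)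
        refine ⟨_, hx, Init_pair_self, ?_⟩
        obtain ⟨l, _, hl⟩ := mem_Ls.1 hs.stem_Ls
        rw [hl, ← lst_cons, len_lst]
        exact mem_nat.2 ⟨0, by simp, rfl⟩
      | succ n ih =>
        obtain ⟨u, hu, hsu, h2⟩ := ih
        obtain ⟨x, hx⟩ := hstep u hu hsu
        refine ⟨_, hx, Init_trans hsu Init_pair_self, ?_⟩
        obtain ⟨l, _, hl⟩ := mem_Ls.1 (hs.sub hu)
        rw [hl, len_lst] at h2
        rw [hl, ← lst_cons, len_lst]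
        obtain ⟨m, hm, h3⟩ := mem_nat.1 h2
        have := nat_injective h3
        exact mem_nat.2 ⟨n + 1, by rw [List.length_cons]; omega, rfl⟩
    obtain ⟨u, hu, hsu, h2⟩ := h1 n
    have h3 : sbt S u ∈ M := (DF.sbt hW (DF.v hW 0) (DF.v hW 1)).mem2 (F := CM.sbt) hSM
        (hW.transitive _ hSM _ hu)
    exact ⟨sbt S u, ZFSet.mem_sep.2 ⟨mem_PL.2 ⟨h3, u, hs.sbt hu hsu⟩, u, hs.sub hu,
      hs.sbt hu hsu, h2⟩, sbt_sub⟩)
  obtain ⟨_, s, _, h1, h2⟩ := ZFSet.mem_sep.1 hSD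
  exact ⟨S, hS, s, h1, h2⟩

/-- the generic branch is unbounded -/
theorem big_stem {β : V} (hβ : β ∈ κ) : ∃ u α, ZFSet.pair u α ∈ bG κ G ∧ α ∈ κ ∧ β ⊆ α := by
  have hW := hM.zf
  have hβM : β ∈ M := hW.transitive κ hK.mem β hβ
  have hDM : ZFSet.sep (fun S => ∃ u ∈ S, ∃ α ∈ κ, Lav κ S (ZFSet.pair u α) ∧ β ⊆ α)
      (PL M κ) ∈ M := by
    refine sep_mem' hW (v := cons κ fun _ => β) (P := fun S v => ∃ u ∈ S, ∃ α ∈ v 0,
      Lav (v 0) S (ZFSet.pair u α) ∧ v 1 ⊆ α) ?_ (cons_mem hK.mem fun _ => hβM) hG.memP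
      (fun _ _ => Iff.rfl)
    refine DP.bex hW (DF.v hW 0) (Q := fun u v => ∃ α ∈ v 1,
      Lav (v 1) (v 0) (ZFSet.pair u α) ∧ v 2 ⊆ α) ?_
    refine DP.bex hW (DF.v hW 2) (Q := fun α v =>
      Lav (v 2) (v 1) (ZFSet.pair (v 0) α) ∧ v 3 ⊆ α) ?_
    exact (DP.Lav hW (DF.v hW 3) (DF.v hW 2) (DF.pair hW (DF.v hW 1) (DF.v hW 0))).and
      (DP.sub hW (DF.v hW 4) (DF.v hW 0))
  obtain ⟨S, hS, hSD⟩ := hG.gen _ hDM sep_sub (by
    intro S hS
    obtain ⟨hSM, s, hs⟩ := mem_PL.1 hS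
    obtain ⟨α, hα, h1, h2⟩ := hs.split hs.stem (Init_self _) hβ
    have h3 : sbt S (ZFSet.pair s α) ∈ M := (DF.sbt hW (DF.v hW 0) (DF.v hW 1)).mem2
      (F := CM.sbt) hSM (hW.transitive _ hSM _ h2)
    have h4 := hs.sbt h2 Init_pair_self
    exact ⟨_, ZFSet.mem_sep.2 ⟨mem_PL.2 ⟨h3, _, h4⟩, s, h4.init h4.stem Init_pair_self, α, hα,
      h4, h1⟩, sbt_sub⟩)
  obtain ⟨_, u, _, α, hα, h1, h2⟩ := ZFSet.mem_sep.1 hSD
  exact ⟨u, α, stem_bG hK hG hS h1, hα, h2⟩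

/-- two nodes of the generic branch are comparable -/
theorem bG_linear {u w : V} (hu : u ∈ bG κ G) (hw : w ∈ bG κ G) : u ∈ Init w ∨ w ∈ Init u := by
  obtain ⟨hu1, hu2⟩ := mem_bG.1 hu
  obtain ⟨hw1, hw2⟩ := mem_bG.1 hw
  have key : ∀ u ∈ Ls κ, (∀ T ∈ G, u ∈ T) → ∀ n : ℕ, (∀ l : List V, u = lst l → l.length ≤ n) →
      ∀ S ∈ G, ∀ s, Lav κ S s → nat n ∈ len s → u ∈ Init s := by
    intro u hu hu2 n hn S hS s hs hns
    rcases hs.cmp (hu2 S hS) with h1 | h1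
    · exact h1
    · obtain ⟨l, _, rfl⟩ := mem_Ls.1 hu
      obtain ⟨m, rfl⟩ := mem_Init_lst.1 h1
      rw [len_lst] at hns
      obtain ⟨k, hk, h3⟩ := mem_nat.1 hns
      have := nat_injective h3
      have h4 := hn l rfl
      rw [List.length_drop] at hk
      omega
  obtain ⟨l, _, hl⟩ := mem_Ls.1 hu1
  obtain ⟨l', _, hl'⟩ := mem_Ls.1 hw1
  obtain ⟨S, hS, s, hs, h1⟩ := long_stem hM hK hG (max l.length l'.length)
  have h2 : u ∈ Init s := key u hu1 hu2 _ (fun l1 h => by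
    rw [hl] at h
    rw [← lst_injective h]
    exact le_max_left _ _) S hS s hs h1
  have h3 : w ∈ Init s := key w hw1 hw2 _ (fun l1 h => by
    rw [hl'] at h
    rw [← lst_injective h]
    exact le_max_right _ _) S hS s hs h1
  exact Init_linear h2 h3

omit hM hK hG in
/-- comparable sequences of the same length are equal -/
theorem eq_of_len {u w : V} (hu : u ∈ Ls κ) (hw : w ∈ Ls κ) (h : u ∈ Init w)
    (hl : len u = len w) : u = w := by
  obtain ⟨l, _, rfl⟩ := mem_Ls.1 hu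
  obtain ⟨l', _, rfl⟩ := mem_Ls.1 hw
  obtain ⟨m, h1⟩ := mem_Init_lst.1 h
  have h2 := lst_injective h1
  rw [len_lst, len_lst] at hl
  have h3 := nat_injective hl
  rw [h2, List.length_drop] at h3
  rw [h2]
  have h4 : m = 0 ∨ l' = [] := by
    rcases l' with _ | ⟨a, l'⟩
    · exact Or.inr rfl
    · left
      rw [List.length_cons] at h3
      omega
  rcases h4 with rfl | rfl
  · rfl
  · simp

theorem bG_eq_of_len {u w : V} (hu : u ∈ bG κ G) (hw : w ∈ bG κ G) (hl : len u = len w) :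
    u = w := by
  rcases bG_linear hM hK hG hu hw with h | h
  · exact eq_of_len (mem_bG.1 hu).1 (mem_bG.1 hw).1 h hl
  · exact (eq_of_len (mem_bG.1 hw).1 (mem_bG.1 hu).1 h hl.symm).symm

omit hM hK hG in
theorem mem_fG {p : V} : p ∈ fG κ G ↔ ∃ u x, ZFSet.pair u x ∈ bG κ G ∧
    p = ZFSet.pair (len u) x := by
  rw [fG, mem_img]
  constructor
  · rintro ⟨z, hz, rfl⟩
    obtain ⟨h1, h2⟩ := ZFSet.mem_sep.1 hz
    rcases Ls_cases (mem_bG.1 h1).1 with rfl | ⟨u, hu, x, hx, rfl⟩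
    · exact absurd rfl h2
    · exact ⟨u, x, h1, by rw [fst_pair, snd_pair]⟩
  · rintro ⟨u, x, h1, rfl⟩
    exact ⟨_, ZFSet.mem_sep.2 ⟨h1, pair_ne_empty _ _⟩, by rw [fst_pair, snd_pair]⟩

/-- every natural number is the length of a proper initial segment of the generic branch -/
theorem exists_len (n : ℕ) : ∃ u x, ZFSet.pair u x ∈ bG κ G ∧ x ∈ κ ∧ len u = nat n := by
  obtain ⟨S, hS, s, hs, h1⟩ := long_stem hM hK hG n
  have h2 := stem_bG hK hG hS hs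
  obtain ⟨l, hl, hsl⟩ := mem_Ls.1 hs.stem_Ls
  rw [hsl, len_lst] at h1
  obtain ⟨m, hm, h3⟩ := mem_nat.1 h1
  have h4 := nat_injective h3
  -- the initial segment of length `n + 1`
  have h5 : l.length - (n + 1) < l.length := by omega
  have h6 : l.drop (l.length - (n + 1)) = l[l.length - (n + 1)] ::
      l.drop (l.length - (n + 1) + 1) := List.drop_eq_getElem_cons h5
  refine ⟨lst (l.drop (l.length - (n + 1) + 1)), l[l.length - (n + 1)], ?_,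
    hl _ (List.getElem_mem h5), ?_⟩
  · refine bG_init hG h2 ?_
    rw [hsl, ← lst_cons, ← h6]
    exact mem_Init_lst.2 ⟨_, rfl⟩
  · rw [len_lst, List.length_drop]
    congr 1
    omega

/-- the generic sequence is a sequence of elements of `κ` -/
theorem fG_seq : ∃ s : ℕ → V, (∀ n, s n ∈ κ) ∧ fG κ G = seqV s ∧
    ∀ β ∈ κ, ∃ n, β ⊆ s n := by
  choose u s h1 h2 h3 using exists_len hM hK hG
  have huniq : ∀ w x n, ZFSet.pair w x ∈ bG κ G → len w = nat n → x = s n := by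
    intro w x n h4 h5
    have h6 : w = u n := bG_eq_of_len hM hK hG (bG_init hG h4 Init_pair_self)
      (bG_init hG (h1 n) Init_pair_self) (by rw [h5, h3])
    subst h6
    have h7 : ZFSet.pair (u n) x = ZFSet.pair (u n) (s n) := by
      refine bG_eq_of_len hM hK hG h4 (h1 n) ?_
      obtain ⟨l, _, hl⟩ := mem_Ls.1 (Ls_pair.1 (mem_bG.1 h4).1).1
      rw [hl, ← lst_cons, ← lst_cons, len_lst, len_lst]
      rfl
    exact (ZFSet.pair_inj.1 h7).2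
  refine ⟨s, h2, ?_, ?_⟩
  · refine ZFSet.ext fun p => ?_
    rw [mem_fG, seqV, ZFSet.mem_range]
    constructor
    · rintro ⟨w, x, h4, rfl⟩
      obtain ⟨l, _, hl⟩ := mem_Ls.1 (Ls_pair.1 (mem_bG.1 h4).1).1
      have h5 : len w = nat l.length := by rw [hl, len_lst]
      exact ⟨l.length, by rw [h5, huniq w x _ h4 h5]⟩
    · rintro ⟨n, rfl⟩
      exact ⟨u n, s n, h1 n, by rw [h3]⟩
  · intro β hβ
    obtain ⟨w, α, h4, _, h5⟩ := big_stem hM hK hG hβ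
    obtain ⟨l, _, hl⟩ := mem_Ls.1 (Ls_pair.1 (mem_bG.1 h4).1).1
    have h6 : len w = nat l.length := by rw [hl, len_lst]
    refine ⟨l.length, ?_⟩
    rw [← huniq w α _ h4 h6]
    exact h5

omit hK in
/-- the generic sequence belongs to the extension -/
theorem fG_mem (hκ : κ ∈ M) : fG κ G ∈ Ext M G := by
  have hN := Ext_zf hM.zf hG
  have hsub := sub_Ext hM.zf hG
  have hb : bG κ G ∈ Ext M G := by
    refine sep_mem' hN (v := fun _ => Gs (PL M κ) G) (P := fun u v => ∀ T ∈ v 0, u ∈ T) ?_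
      (const_mem (Gs_mem hM.zf hG)) (Ls_mem hN (hsub hκ)) (fun u _ => ?_)
    · exact DP.ball hN (DF.v hN 1) (Q := fun T v => v 0 ∈ T) (DP.mem (DF.v hN 1) (DF.v hN 0))
    · exact ⟨fun h T hT => h T ((mem_Gs hG).1 hT), fun h T hT => h T ((mem_Gs hG).2 hT)⟩
  refine (DF.img hN (f := fun v => ZFSet.sep (fun z => z ≠ ∅) (v 0))
    (g := fun z _ => ZFSet.pair (len (fst z)) (snd z)) ?_ ?_).mem1
    (F := fun b => img (fun z => ZFSet.pair (len (fst z)) (snd z))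
      (ZFSet.sep (fun z => z ≠ ∅) b)) hb
  · exact DF.sep hN (DF.v hN 0) (P := fun z _ => z ≠ ∅)
      (DP.not (DP.eq (DF.v hN 0) (DF.empty hN)))
  · exact DF.pair hN (DF.len hN (DF.fst hN (DF.v hN 0))) (DF.snd hN (DF.v hN 0))

/-- the generic filter can be computed from the generic sequence -/
theorem Gs_of_fG (hW : IsTransModelZF W) (hMW : M ⊆ W) (hf : fG κ G ∈ W) :
    Gs (PL M κ) G ∈ W := by
  have hκW : κ ∈ W := hMW hK.mem
  have e1 : bG κ G = ZFSet.sep (fun u => ∀ w ∈ Init u, w ≠ ∅ →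
      ZFSet.pair (len (fst w)) (snd w) ∈ fG κ G) (Ls κ) := by
    refine ZFSet.ext fun u => ⟨fun hu => ?_, fun hu => ?_⟩
    · refine ZFSet.mem_sep.2 ⟨(mem_bG.1 hu).1, fun w hw hne => ?_⟩
      have hwb := bG_init hG hu hw
      rcases Ls_cases (mem_bG.1 hwb).1 with rfl | ⟨v, hv, x, hx, rfl⟩
      · exact absurd rfl hne
      · rw [fst_pair, snd_pair]
        exact mem_fG.2 ⟨v, x, hwb, rfl⟩
    · obtain ⟨h1, h2⟩ := ZFSet.mem_sep.1 hu
      refine Ls_ind (b := κ) (p := fun u => (∀ w ∈ Init u, w ≠ ∅ →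
        ZFSet.pair (len (fst w)) (snd w) ∈ fG κ G) → u ∈ bG κ G) ?_ ?_ u h1 h2
      · intro _
        refine mem_bG.2 ⟨Ls_nil κ, fun T hT => ?_⟩
        obtain ⟨_, s, hs⟩ := mem_PL.1 (hG.sub T hT)
        exact hs.init hs.stem (empty_mem_Init hs.stem_Ls)
      · intro v hv ih x hx h3
        have hvb := ih fun w hw => h3 w (mem_Init_pair.2 (Or.inr hw))
        have h4 := h3 _ (Init_self _) (pair_ne_empty _ _)
        rw [fst_pair, snd_pair] at h4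
        obtain ⟨v', x', h5, h6⟩ := mem_fG.1 h4
        obtain ⟨h7, rfl⟩ := ZFSet.pair_inj.1 h6
        have h8 : v = v' := bG_eq_of_len hM hK hG hvb (bG_init hG h5 Init_pair_self) h7
        rw [h8]
        exact h5
  have hb : bG κ G ∈ W := by
    rw [e1]
    refine sep_mem' hW (v := fun _ => fG κ G) (P := fun u v => ∀ w ∈ Init u, w ≠ ∅ →
      ZFSet.pair (len (fst w)) (snd w) ∈ v 0) ?_ (const_mem hf) (Ls_mem hW hκW)
      (fun _ _ => Iff.rfl)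
    refine DP.ball hW (DF.Init hW (DF.v hW 0)) (Q := fun w v => w ≠ ∅ →
      ZFSet.pair (len (fst w)) (snd w) ∈ v 1) ?_
    exact (DP.not (DP.eq (DF.v hW 0) (DF.empty hW))).imp (DP.mem (DF.pair hW
      (DF.len hW (DF.fst hW (DF.v hW 0))) (DF.snd hW (DF.v hW 0))) (DF.v hW 2))
  have e2 : Gs (PL M κ) G = ZFSet.sep (fun T => bG κ G ⊆ T) (PL M κ) := by
    refine ZFSet.ext fun T => ?_
    rw [mem_Gs hG, ZFSet.mem_sep]
    constructor
    · intro hT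
      exact ⟨hG.sub _ hT, fun u hu => (mem_bG.1 hu).2 T hT⟩
    · rintro ⟨h1, h2⟩
      exact mem_G_of_bG hM hK hG h1 h2
  rw [e2]
  refine sep_mem' hW (v := fun _ => bG κ G) (P := fun T v => v 0 ⊆ T) ?_ (const_mem hb)
    (hMW hG.memP) (fun _ _ => Iff.rfl)
  exact DP.sub hW (DF.v hW 1) (DF.v hW 0)

end Pool.Agent.CM
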