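import Mathlib
import Pool.Agent.Lib.MP_f8e9b8_lc.LLev

/-!
# MP_f8e9b8_lc : the constructible sets of a transitive model of `ZF` form a model of `ZF`
-/

set_option autoImplicit false

namespace Pool.Agent.CM

open Pool.Agent.CR (V Fml cons Sat nat cons_zero cons_succ)

variable {W : Set V}

/-! ### definability of the satisfaction in the constructible sets -/

theorem DP.Lc (hW : IsTransModelZF W) {f : (ℕ → V) → V} (hf : DF W f) :
    DP W (fun v => f v ∈ CM.Lc W) := by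
  refine DP1.app (P := fun x => x ∈ CM.Lc W) ?_ hf
  refine DP.ex (Q := fun α v => α.IsOrdinal ∧ v 0 ∈ CM.Sg α) ?_
  exact (DP.ord hW (DF.v hW 0)).and (DP.mem (DF.v hW 1) (DF.Sg hW (DF.v hW 0)))

theorem DP.SatLc (hW : IsTransModelZF W) (φ : Fml) : DP W (fun v => Sat (CM.Lc W) φ v) := by
  induction φ with
  | bot => exact DP.bot hW.nonempty
  | mem i j => exact DP.mem (DF.v hW i) (DF.v hW j)
  | eq i j => exact DP.eq (DF.v hW i) (DF.v hW j)
  | imp φ ψ h1 h2 => exact h1.imp h2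
  | all φ h =>
    refine DP.congr (P := fun v => ∀ x ∈ W, x ∈ CM.Lc W → Sat (CM.Lc W) φ (cons x v))
      (DP.all (Q := fun x v => x ∈ CM.Lc W → Sat (CM.Lc W) φ (cons x v))
      ((DP.Lc hW (DF.v hW 0)).imp ?_)) fun v _ => ?_
    · refine h.congr fun v _ => ?_
      have : cons (v 0) (fun n => v (n + 1)) = v := by
        funext n
        cases n <;> rfl
      rw [this]
    · exact ⟨fun h' x _ hx => h' x hx, fun h' x hx => h' x (Lc_sub_W hW hx) hx⟩

/-- with substitution -/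
theorem DP.SatLc' (hW : IsTransModelZF W) (φ : Fml) {f : ℕ → (ℕ → V) → V}
    (hf : ∀ n, DF W (f n)) : DP W (fun v => Sat (CM.Lc W) φ (fun n => f n v)) :=
  (DP.SatLc hW φ).comp hf

/-! ### reflection -/

theorem reflect (hW : IsTransModelZF W) {γ : V} (hγ : γ ∈ W) (ho : γ.IsOrdinal) (φ : Fml)
    (h : CLo W γ φ) : ∀ v : ℕ → V, (∀ n, v n ∈ Sg γ) →
    (Sat (Lc W) φ v ↔ Sat {x | x ∈ Sg γ} φ v) := by
  induction φ with
  | bot => intro v _; exact Iff.rfl
  | mem i j => intro v _; exact Iff.rfl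
  | eq i j => intro v _; exact Iff.rfl
  | imp φ ψ h1 h2 => intro v hv; exact imp_congr (h1 h.1 v hv) (h2 h.2 v hv)
  | all φ ih =>
    intro v hv
    constructor
    · intro h1 x hx
      exact (ih h.1 (cons x v) (cons_mem (W := {x | x ∈ Sg γ}) hx hv)).1 (h1 x ⟨γ, hγ, ho, hx⟩)
    · intro h1
      by_contra h2
      have h3 : ∃ x ∈ Lc W, ¬ Sat (Lc W) φ (cons x v) := by
        by_contra h4
        push Not at h4
        exact h2 h4
      obtain ⟨x, hx, h4⟩ := h.2 v hv h3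
      exact h4 ((ih h.1 (cons x v) (cons_mem (W := {x | x ∈ Sg γ}) hx hv)).2 (h1 x hx))

/-- the level `β'` contains witnesses for the parameters in the level `β` -/
def PLo (W : Set V) (β β' : V) : Fml → Prop
  | .bot => True
  | .mem _ _ => True
  | .eq _ _ => True
  | .imp φ ψ => PLo W β β' φ ∧ PLo W β β' ψ
  | .all φ => PLo W β β' φ ∧ ∀ f ∈ Ls (Sg β), (∃ x ∈ Lc W, ¬ Sat (Lc W) φ (cons x (asg f))) →
      ∃ x ∈ Sg β', ¬ Sat (Lc W) φ (cons x (asg f))

theorem PLo.mono {β β' β'' : V} {φ : Fml} (h : PLo W β β' φ) (hs : β' ⊆ β'') :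
    PLo W β β'' φ := by
  induction φ with
  | bot => trivial
  | mem i j => trivial
  | eq i j => trivial
  | imp φ ψ h1 h2 => exact ⟨h1 h.1, h2 h.2⟩
  | all φ ih =>
    refine ⟨ih h.1, fun f hf h1 => ?_⟩
    obtain ⟨x, hx, h2⟩ := h.2 f hf h1
    exact ⟨x, Sg_mono hs hx, h2⟩

theorem DP.SatAsg (hW : IsTransModelZF W) (φ : Fml) {x f : (ℕ → V) → V} (hx : DF W x)
    (hf : DF W f) : DP W (fun v => Sat (CM.Lc W) φ (cons (x v) (CM.asg (f v)))) := by
  refine (DP.SatLc' hW φ (f := fun n => match n with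
    | 0 => x
    | n + 1 => fun v => CM.asg (f v) n) fun n => ?_).congr fun v _ => ?_
  · cases n
    · exact hx
    · exact DF.asg hW hf _
  · have : (fun n => (match n with
      | 0 => x
      | n + 1 => fun v => CM.asg (f v) n : (ℕ → V) → V) v) = cons (x v) (CM.asg (f v)) := by
      funext n
      cases n <;> rfl
    rw [this]

theorem DP.PLo (hW : IsTransModelZF W) (φ : Fml) : DP2 W (fun β β' => CM.PLo W β β' φ) := by
  have htr : DP W (fun _ => True) := (DP.bot hW.nonempty).not.congr fun _ _ => by simp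
  induction φ with
  | bot => exact htr
  | mem i j => exact htr
  | eq i j => exact htr
  | imp φ ψ h1 h2 => exact DP.and h1 h2
  | all φ ih =>
    refine DP.and ih ?_
    refine DP.ball hW (DF.Ls hW (DF.Sg hW (DF.v hW 0))) (Q := fun f v =>
      (∃ x ∈ CM.Lc W, ¬ Sat (CM.Lc W) φ (cons x (CM.asg f))) →
      ∃ x ∈ CM.Sg (v 1), ¬ Sat (CM.Lc W) φ (cons x (CM.asg f))) ?_
    refine DP.imp ?_ ?_
    · refine DP.congr (P := fun v => ∃ x ∈ W, x ∈ CM.Lc W ∧
        ¬ Sat (CM.Lc W) φ (cons x (CM.asg (v 0)))) (DP.ex (Q := fun x v => x ∈ CM.Lc W ∧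
        ¬ Sat (CM.Lc W) φ (cons x (CM.asg (v 0)))) ?_) fun v _ => ?_
      · exact (DP.Lc hW (DF.v hW 0)).and (DP.not (DP.SatAsg hW φ (DF.v hW 0) (DF.v hW 1)))
      · exact ⟨fun ⟨x, hx, h⟩ => ⟨x, Lc_sub_W hW hx, hx, h⟩, fun ⟨x, _, hx, h⟩ => ⟨x, hx, h⟩⟩
    · refine DP.bex hW (DF.Sg hW (DF.v hW 2)) (Q := fun x v =>
        ¬ Sat (CM.Lc W) φ (cons x (CM.asg (v 0)))) ?_
      exact DP.not (DP.SatAsg hW φ (DF.v hW 0) (DF.v hW 1))

theorem exists_PLo (hW : IsTransModelZF W) (φ : Fml) {β : V} (hβ : β ∈ W) :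
    ∃ β' ∈ W, β'.IsOrdinal ∧ PLo W β β' φ := by
  induction φ with
  | bot => exact ⟨∅, empty_mem hW, ZFSet.isOrdinal_empty, trivial⟩
  | mem i j => exact ⟨∅, empty_mem hW, ZFSet.isOrdinal_empty, trivial⟩
  | eq i j => exact ⟨∅, empty_mem hW, ZFSet.isOrdinal_empty, trivial⟩
  | imp φ ψ h1 h2 =>
    obtain ⟨β1, a1, a2, a3⟩ := h1
    obtain ⟨β2, b1, b2, b3⟩ := h2
    exact ⟨β1 ∪ β2, un_mem hW a1 b1, ord_un a2 b2,
      a3.mono fun z hz => ZFSet.mem_union.2 (Or.inl hz),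
      b3.mono fun z hz => ZFSet.mem_union.2 (Or.inr hz)⟩
  | all φ ih =>
    obtain ⟨β1, a1, a2, a3⟩ := ih
    have hLs : Ls (Sg β) ∈ W := Ls_mem hW (Sg_mem hW hβ)
    obtain ⟨b, hb, hbs⟩ := coll hW (R := fun f y _ =>
      (∃ x ∈ Lc W, ¬ Sat (Lc W) φ (cons x (asg f))) →
        y.IsOrdinal ∧ ∃ x ∈ Sg y, ¬ Sat (Lc W) φ (cons x (asg f)))
      (by
        refine DP.imp ?_ ((DP.ord hW (DF.v hW 1)).and ?_)
        · refine DP.congr (P := fun v => ∃ x ∈ W, x ∈ Lc W ∧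
            ¬ Sat (Lc W) φ (cons x (asg (v 0)))) (DP.ex (Q := fun x v => x ∈ Lc W ∧
            ¬ Sat (Lc W) φ (cons x (asg (v 0)))) ?_) fun v _ => ?_
          · exact (DP.Lc hW (DF.v hW 0)).and (DP.not (DP.SatAsg hW φ (DF.v hW 0) (DF.v hW 1)))
          · exact ⟨fun ⟨x, hx, h⟩ => ⟨x, Lc_sub_W hW hx, hx, h⟩, fun ⟨x, _, hx, h⟩ => ⟨x, hx, h⟩⟩
        · refine DP.bex hW (DF.Sg hW (DF.v hW 1)) (Q := fun x v =>
            ¬ Sat (Lc W) φ (cons x (asg (v 0)))) ?_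
          exact DP.not (DP.SatAsg hW φ (DF.v hW 0) (DF.v hW 1)))
      (v := fun _ => β) (const_mem hβ) hLs (fun f _ => by
        by_cases h : ∃ x ∈ Lc W, ¬ Sat (Lc W) φ (cons x (asg f))
        · obtain ⟨x, ⟨α, h1, h2, h3⟩, h4⟩ := h
          exact ⟨α, h1, fun _ => ⟨h2, x, h3, h4⟩⟩
        · exact ⟨∅, empty_mem hW, fun h' => absurd h' h⟩)
    have h1 : ZFSet.sep (fun z => z.IsOrdinal) b ∈ W :=
      sep_mem hW (P := fun z _ => z.IsOrdinal) (DP.ord hW (DF.v hW 0)) (const_mem hb) hb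
    have h2 : (sU (ZFSet.sep (fun z => z.IsOrdinal) b)).IsOrdinal :=
      ord_sU fun y hy => (ZFSet.mem_sep.1 hy).2
    refine ⟨β1 ∪ sU (ZFSet.sep (fun z => z.IsOrdinal) b), un_mem hW a1 (sU_mem hW h1),
      ord_un a2 h2, a3.mono fun z hz => ZFSet.mem_union.2 (Or.inl hz), fun f hf h3 => ?_⟩
    obtain ⟨y, hy, h4⟩ := hbs f hf
    obtain ⟨h5, x, hx, h6⟩ := h4 h3
    refine ⟨x, Sg_mono (fun z hz => ZFSet.mem_union.2 (Or.inr (mem_sU.2 ⟨y, ?_, hz⟩))) hx, h6⟩
    exact ZFSet.mem_sep.2 ⟨hy, h5⟩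

/-- the union of an increasing sequence of levels with witnesses is closed -/
theorem CLo_of_seq {β : ℕ → V} (hmono : ∀ n, β n ⊆ β (n + 1)) {γ : V}
    (hγ : ∀ z, z ∈ γ ↔ ∃ n, z ∈ β n) (φ : Fml) (h : ∀ n, PLo W (β n) (β (n + 1)) φ) :
    CLo W γ φ := by
  have hm : ∀ m n, m ≤ n → β m ⊆ β n := by
    intro m n hmn
    induction n, hmn using Nat.le_induction with
    | base => exact fun _ h => h
    | succ n _ ih => exact fun z hz => hmono n (ih hz)
  have hsub : ∀ n, β n ⊆ γ := fun n z hz => (hγ z).2 ⟨n, hz⟩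
  induction φ with
  | bot => trivial
  | mem i j => trivial
  | eq i j => trivial
  | imp φ ψ h1 h2 => exact ⟨h1 fun n => (h n).1, h2 fun n => (h n).2⟩
  | all φ ih =>
    refine ⟨ih fun n => (h n).1, fun v hv hex => ?_⟩
    have hlev : ∀ k, ∃ N, ∀ i < k, v i ∈ Sg (β N) := by
      intro k
      induction k with
      | zero => exact ⟨0, fun i hi => absurd hi (by omega)⟩
      | succ k ihk =>
        obtain ⟨N, hN⟩ := ihk
        obtain ⟨y, hy, h1⟩ := mem_Sg.1 (hv k)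
        obtain ⟨m, hm'⟩ := (hγ y).1 hy
        refine ⟨max N m, fun i hi => ?_⟩
        rcases Nat.lt_succ_iff_lt_or_eq.1 hi with h2 | rfl
        · exact Sg_mono (hm _ _ (le_max_left _ _)) (hN i h2)
        · exact Sg_mono (hm _ _ (le_max_right _ _)) (Step_sub_Sg hm' h1)
    obtain ⟨N, hN⟩ := hlev (fb φ)
    obtain ⟨l, hl⟩ : ∃ l, l = (List.range (fb φ)).map v := ⟨_, rfl⟩
    have hlL : lst l ∈ Ls (Sg (β N)) := by
      refine mem_Ls.2 ⟨l, fun x hx => ?_, rfl⟩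
      rw [hl, List.mem_map] at hx
      obtain ⟨n, hn, rfl⟩ := hx
      exact hN n (List.mem_range.1 hn)
    have hiff : ∀ x, Sat (Lc W) φ (cons x (asg (lst l))) ↔ Sat (Lc W) φ (cons x v) := by
      intro x
      refine Sat_fb φ fun i hi => ?_
      cases i with
      | zero => rfl
      | succ i =>
        rw [cons_succ, cons_succ, asg_lst, hl, List.getD_eq_getElem?_getD, List.getElem?_map,
          List.getElem?_range (by omega)]
        rfl
    obtain ⟨x, hx, h1⟩ := hex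
    obtain ⟨x', hx', h2⟩ := (h N).2 _ hlL ⟨x, hx, by rwa [hiff]⟩
    exact ⟨x', Sg_mono (hsub _) hx', by rwa [hiff] at h2⟩

open Classical in
/-- the least ordinal with a property -/
noncomputable def loF (Q : V → V → Prop) (β : V) : V :=
  if h : ∃ α : V, α.IsOrdinal ∧ Q β α then (ord_min h).choose else ∅

theorem loF_spec {Q : V → V → Prop} {β : V} (h : ∃ α : V, α.IsOrdinal ∧ Q β α) :
    (loF Q β).IsOrdinal ∧ Q β (loF Q β) ∧ ∀ z ∈ loF Q β, ¬ Q β z := by
  rw [loF, dif_pos h]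
  exact (ord_min h).choose_spec

theorem loF_mem (hW : IsTransModelZF W) {Q : V → V → Prop} {β : V}
    (h : ∃ α ∈ W, α.IsOrdinal ∧ Q β α) : loF Q β ∈ W := by
  obtain ⟨α, h1, h2, h3⟩ := h
  obtain ⟨h4, _, h6⟩ := loF_spec (Q := Q) (β := β) ⟨α, h2, h3⟩
  rcases h2.mem_trichotomous h4 with h | h | h
  · exact absurd h3 (h6 α h)
  · rw [← h]
    exact h1
  · exact hW.transitive α h1 _ h

theorem DF.loF (hW : IsTransModelZF W) {Q : V → V → Prop} (hQ : DP2 W Q)
    (h : ∀ β ∈ W, ∃ α ∈ W, α.IsOrdinal ∧ Q β α) : DF1 W (CM.loF Q) := by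
  refine DF.mk' (fun v hv => loF_mem hW (h _ (hv 0)))
    (P := fun y v => y.IsOrdinal ∧ Q (v 0) y ∧ ∀ z ∈ y, ¬ Q (v 0) z) ?_ ?_
  · refine (DP.ord hW (DF.v hW 0)).and (DP.and (DP2.app hQ (DF.v hW 1) (DF.v hW 0)) ?_)
    exact DP.ball hW (DF.v hW 0) (Q := fun z v => ¬ Q (v 1) z)
      (DP.not (DP2.app hQ (DF.v hW 2) (DF.v hW 0)))
  · intro v hv y _
    obtain ⟨α, h1, h2, h3⟩ := h _ (hv 0)
    obtain ⟨h4, h5, h6⟩ := loF_spec (Q := Q) (β := v 0) ⟨α, h2, h3⟩
    constructor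
    · rintro ⟨a1, a2, a3⟩
      rcases a1.mem_trichotomous h4 with h | h | h
      · exact absurd a2 (h6 y h)
      · exact h
      · exact absurd h5 (a3 _ h)
    · rintro rfl
      exact ⟨h4, h5, h6⟩

/-- the reflection principle -/
theorem exists_CLo (hW : IsTransModelZF W) (φ : Fml) {α : V} (hα : α ∈ W) (ho : α.IsOrdinal) :
    ∃ γ ∈ W, γ.IsOrdinal ∧ α ⊆ γ ∧ CLo W γ φ := by
  have hdf : DF1 W (loF fun β β' => PLo W β β' φ) := DF.loF hW (DP.PLo hW φ)
    fun β hβ => exists_PLo hW φ hβ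
  have hg : DF W (fun v => loF (fun β β' => PLo W β β' φ) (v 0) ∪ insert (v 0) (v 0)) :=
    DF.un hW hdf (DF.ins hW (DF.v hW 0) (DF.v hW 0))
  have hγ : itU (fun β => loF (fun β β' => PLo W β β' φ) β ∪ insert β β) α ∈ W :=
    (DF.itU hW (g := fun β _ => loF (fun β β' => PLo W β β' φ) β ∪ insert β β) hg
      (DF.v hW 0)).mem1 (F := fun α => itU (fun β => loF (fun β β' => PLo W β β' φ) β ∪
        insert β β) α) hα
  obtain ⟨g, hgd⟩ : ∃ g : V → V, g = fun β => loF (fun β β' => PLo W β β' φ) β ∪ insert β β :=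
    ⟨_, rfl⟩
  rw [← hgd] at hγ
  have hseq : ∀ n, g^[n] α ∈ W ∧ (g^[n] α).IsOrdinal := by
    intro n
    induction n with
    | zero => exact ⟨hα, ho⟩
    | succ n ih =>
      rw [Function.iterate_succ_apply', hgd]
      rw [hgd] at ih
      refine ⟨hg.mem1 (F := fun β => loF (fun β β' => PLo W β β' φ) β ∪ insert β β) ih.1, ?_⟩
      obtain ⟨β', _, h2, h3⟩ := exists_PLo hW φ ih.1
      exact ord_un (loF_spec (Q := fun β β' => PLo W β β' φ) ⟨β', h2, h3⟩).1 (ord_succ ih.2)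
  have hstep : ∀ n, g^[n + 1] α = loF (fun β β' => PLo W β β' φ) (g^[n] α) ∪
      insert (g^[n] α) (g^[n] α) := by
    intro n
    rw [Function.iterate_succ_apply', hgd]
  have hmono : ∀ n, g^[n] α ⊆ g^[n + 1] α := by
    intro n z hz
    rw [hstep]
    exact ZFSet.mem_union.2 (Or.inr (ZFSet.mem_insert_iff.2 (Or.inr hz)))
  refine ⟨_, hγ, ?_, fun z hz => mem_itU.2 ⟨0, hz⟩, CLo_of_seq hmono (fun z => mem_itU) φ ?_⟩
  · rw [ZFSet.isOrdinal_iff_forall_mem_isTransitive]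
    constructor
    · intro y hy z hz
      obtain ⟨n, hn⟩ := mem_itU.1 hy
      exact mem_itU.2 ⟨n, (hseq n).2.mem_trans hz hn⟩
    · intro y hy
      obtain ⟨n, hn⟩ := mem_itU.1 hy
      exact ((hseq n).2.mem hn).isTransitive
  · intro n
    obtain ⟨β', _, h2, h3⟩ := exists_PLo hW φ (hseq n).1
    rw [hstep]
    exact (loF_spec (Q := fun β β' => PLo W β β' φ) ⟨β', h2, h3⟩).2.1.mono
      fun z hz => ZFSet.mem_union.2 (Or.inl hz)

/-- separation in the constructible sets -/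
theorem sep_Lc (hW : IsTransModelZF W) (φ : Fml) {v : ℕ → V} (hv : ∀ n, v n ∈ Lc W) {a : V}
    (ha : a ∈ Lc W) : ZFSet.sep (fun x => Sat (Lc W) φ (cons x v)) a ∈ Lc W := by
  obtain ⟨γ1, a1, a2, a3⟩ := Lc_bound hW (Lc_sub_W hW ha) (Lc_trans hW a ha)
  obtain ⟨γ2, b1, b2, b3⟩ := common hW (a :: (List.range (fb φ)).map v) (by
    intro x hx
    rcases List.mem_cons.1 hx with rfl | hx
    · exact ha
    · obtain ⟨n, _, rfl⟩ := List.mem_map.1 hx
      exact hv n)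
  obtain ⟨χ, hχ⟩ : ∃ χ, χ = Fml.imp (.imp (.mem 0 1) (.imp (ren (fun n => if n = 0 then 0
    else n + 1) φ) .bot)) .bot := ⟨_, rfl⟩
  obtain ⟨γ, c1, c2, c3, c4⟩ := exists_CLo hW χ (un_mem hW a1 b1) (ord_un a2 b2)
  have haγ : a ⊆ Sg γ := fun z hz => Sg_mono (fun w hw => c3 (ZFSet.mem_union.2 (Or.inl hw)))
    (a3 hz)
  have hup : Sg γ2 ⊆ Sg γ := Sg_mono fun w hw => c3 (ZFSet.mem_union.2 (Or.inr hw))
  have haS : a ∈ Sg γ := hup (b3 a List.mem_cons_self)
  let u : ℕ → V := fun n => if n < fb φ then v n else a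
  have hu : ∀ n, u n ∈ Sg γ := by
    intro n
    show (if n < fb φ then v n else a) ∈ Sg γ
    split_ifs with h
    · exact hup (b3 _ (List.mem_cons_of_mem _ (List.mem_map.2 ⟨n, List.mem_range.2 h, rfl⟩)))
    · exact haS
  have hau : ∀ n, cons a u n ∈ Sg γ := cons_mem (W := {x | x ∈ Sg γ}) haS hu
  have h1 := Def_Lc hW (Sg_Lc hW c1 c2) χ hau
  have e : ZFSet.sep (fun x => Sat (Lc W) φ (cons x v)) a =
      ZFSet.sep (fun z => Sat {x | x ∈ Sg γ} χ (cons z (cons a u))) (Sg γ) := by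
    refine ZFSet.ext fun z => ?_
    rw [ZFSet.mem_sep, ZFSet.mem_sep]
    have h2 : ∀ z ∈ Sg γ, (Sat {x | x ∈ Sg γ} χ (cons z (cons a u)) ↔
        z ∈ a ∧ Sat (Lc W) φ (cons z v)) := by
      intro z hz
      rw [← reflect hW c1 c2 χ c4 _ (cons_mem (W := {x | x ∈ Sg γ}) hz hau), hχ]
      have h3 : Sat (Lc W) (ren (fun n => if n = 0 then 0 else n + 1) φ) (cons z (cons a u)) ↔
          Sat (Lc W) φ (cons z v) := by
        rw [sat_ren]
        refine Sat_fb φ fun i hi => ?_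
        cases i with
        | zero => rfl
        | succ i =>
          show u i = v i
          show (if i < fb φ then v i else a) = v i
          rw [if_pos (by omega)]
      show ((z ∈ a → (Sat (Lc W) (ren (fun n => if n = 0 then 0 else n + 1) φ)
        (cons z (cons a u)) → False)) → False) ↔ _
      rw [h3]
      tauto
    constructor
    · rintro ⟨h3, h4⟩
      exact ⟨haγ h3, (h2 z (haγ h3)).2 ⟨h3, h4⟩⟩
    · rintro ⟨h3, h4⟩
      exact (h2 z h3).1 h4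
  rw [e]
  exact h1

/-- the constructible sets form a model of `ZF` -/
theorem Lc_zf (hW : IsTransModelZF W) : IsTransModelZF (Lc W) := by
  have htr := Lc_trans hW
  have hsub := Lc_sub_W hW
  refine ⟨htr, ?_, ?_, ?_, ?_, ?_, ?_, ?_, ?_⟩
  · -- extensionality
    intro x hx y hy h
    exact ZFSet.ext fun z => ⟨fun hz => (h z (htr x hx z hz)).1 hz,
      fun hz => (h z (htr y hy z hz)).2 hz⟩
  · -- foundation
    rintro x hx ⟨y, _, hyx⟩
    have hne : x ≠ ∅ := by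
      rintro rfl
      exact ZFSet.notMem_empty _ hyx
    obtain ⟨z, hz, hzx⟩ := ZFSet.regularity x hne
    refine ⟨z, htr x hx z hz, hz, fun w _ hwz hwx => ?_⟩
    have : w ∈ x ∩ z := ZFSet.mem_inter.2 ⟨hwx, hwz⟩
    rw [hzx] at this
    exact ZFSet.notMem_empty _ this
  · -- pairing
    intro x hx y hy
    refine ⟨insert x (insert y ∅), ins_Lc hW (ins_Lc hW (empty_Lc hW) hy) hx, fun w _ => ?_⟩
    rw [ZFSet.mem_insert_iff, ZFSet.mem_insert_iff]
    have : ¬ w ∈ (∅ : V) := ZFSet.notMem_empty _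
    tauto
  · -- union
    intro x hx
    obtain ⟨γ, c1, c2, c3⟩ := Lc_bound hW (sU_mem hW (hsub hx)) (by
      intro w hw
      obtain ⟨y, hy, h⟩ := mem_sU.1 hw
      exact htr y (htr x hx y hy) w h)
    refine ⟨_, sep_Lc hW (.imp (.all (.imp (.mem 0 2) (.imp (.mem 1 0) .bot))) .bot)
      (v := fun _ => x) (fun _ => hx) (Sg_Lc hW c1 c2), fun w hw => ?_⟩
    rw [ZFSet.mem_sep]
    constructor
    · rintro ⟨_, h1⟩
      by_contra hcon
      refine h1 fun y hy h2 h3 => hcon ⟨y, hy, h2, h3⟩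
    · rintro ⟨y, hy, h1, h2⟩
      exact ⟨c3 (mem_sU.2 ⟨y, h1, h2⟩), fun h3 => h3 y hy h1 h2⟩
  · -- power set
    intro x hx
    have h1 : ZFSet.sep (fun w => w ∈ Lc W) (pwr W x) ∈ W :=
      sep_mem hW (P := fun w _ => w ∈ Lc W) (DP.Lc hW (DF.v hW 0)) (const_mem (hsub hx))
        (pwr_mem hW (hsub hx))
    obtain ⟨γ, c1, c2, c3⟩ := Lc_bound hW h1 fun w hw => (ZFSet.mem_sep.1 hw).2
    refine ⟨_, sep_Lc hW (.all (.imp (.mem 0 1) (.mem 0 2))) (v := fun _ => x) (fun _ => hx)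
      (Sg_Lc hW c1 c2), fun w hw => ?_⟩
    rw [ZFSet.mem_sep]
    constructor
    · rintro ⟨_, h2⟩ u hu h3
      exact h2 u hu h3
    · intro h2
      exact ⟨c3 (ZFSet.mem_sep.2 ⟨mem_pwr.2 ⟨hsub hw, fun u hu => h2 u (htr w hw u hu) hu⟩, hw⟩),
        fun u hu h3 => h2 u hu h3⟩
  · -- infinity
    have hom : Sg om ∈ Lc W := Sg_Lc hW (om_mem hW) om_ord
    have h0 : ∀ x : V, ∅ ∈ x → (∅ : V) ∈ Sg x := by
      intro x hx
      have := Sg_mem_Sg hx
      rwa [Sg_empty] at this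
    refine ⟨Sg om, hom, ⟨∅, empty_Lc hW, fun u _ => ZFSet.notMem_empty u,
      h0 _ (mem_om.2 ⟨0, rfl⟩)⟩, fun y hy hyo => ?_⟩
    obtain ⟨n, hn, h1⟩ := mem_Sg.1 hyo
    obtain ⟨n, rfl⟩ := mem_om.1 hn
    have h2 : y ∈ Sg (nat (n + 1)) := Step_sub_Sg (mem_nat.2 ⟨n, by omega, rfl⟩) h1
    have h3 : insert y y ∈ Sg om := by
      rw [← opL_0 y y y]
      refine opL_mem_Sg (y := nat (n + 1)) (mem_om.2 ⟨n + 1, rfl⟩) ?_ h2 h2 h2
      exact h0 _ (mem_nat.2 ⟨0, by omega, rfl⟩)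
    refine ⟨insert y y, htr _ hom _ h3, h3, fun w _ => ?_⟩
    rw [ZFSet.mem_insert_iff, or_comm]
  · -- separation
    intro φ v hv a ha
    refine ⟨_, sep_Lc hW φ hv ha, fun x _ => ?_⟩
    rw [ZFSet.mem_sep]
  · -- replacement
    intro φ v hv a ha h
    have hvW : ∀ n, v n ∈ W := fun n => hsub (hv n)
    obtain ⟨B, hB, hBs⟩ := coll hW (R := fun x y v => y ∈ Lc W ∧ Sat (Lc W) φ (cons y (cons x v)))
      (by
        refine (DP.Lc hW (DF.v hW 1)).and ?_
        refine (DP.SatLc' hW φ (f := fun n => match n with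
          | 0 => fun v => v 1
          | 1 => fun v => v 0
          | n + 2 => fun v => v (n + 2)) fun n => ?_).congr fun v _ => ?_
        · rcases n with _ | _ | n
          · exact DF.v hW 1
          · exact DF.v hW 0
          · exact DF.v hW _
        · have : (fun n => (match n with
            | 0 => fun v => v 1
            | 1 => fun v => v 0
            | n + 2 => fun v => v (n + 2) : (ℕ → V) → V) v) =
              cons (v 1) (cons (v 0) (fun n => v (n + 2))) := by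
            funext n
            rcases n with _ | _ | n <;> rfl
          rw [this])
      hvW (hsub ha) (fun x hx => by
        obtain ⟨y, ⟨hy, h1⟩, _⟩ := h x (htr a ha x hx) hx
        exact ⟨y, hsub hy, hy, h1⟩)
    have h1 : ZFSet.sep (fun w => w ∈ Lc W) B ∈ W :=
      sep_mem hW (P := fun w _ => w ∈ Lc W) (DP.Lc hW (DF.v hW 0)) (const_mem hB) hB
    obtain ⟨γ, c1, c2, c3⟩ := Lc_bound hW h1 fun w hw => (ZFSet.mem_sep.1 hw).2
    have hs := sep_Lc hW (.imp (.all (.imp (.mem 0 2) (.imp (ren (fun n => match n with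
      | 0 => 1 | 1 => 0 | n + 2 => n + 3) φ) .bot))) .bot) (v := cons a v) (cons_mem ha hv)
      (Sg_Lc hW c1 c2)
    refine ⟨_, hs, fun y hy => ?_⟩
    have key : ∀ x, Sat (Lc W) (ren (fun n => match n with
        | 0 => 1 | 1 => 0 | n + 2 => n + 3) φ) (cons x (cons y (cons a v))) ↔
        Sat (Lc W) φ (cons y (cons x v)) := by
      intro x
      rw [sat_ren]
      have : (fun n => cons x (cons y (cons a v)) (match n with
        | 0 => 1 | 1 => 0 | n + 2 => n + 3)) = cons y (cons x v) := by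
        funext n
        rcases n with _ | _ | n <;> rfl
      rw [this]
    rw [ZFSet.mem_sep]
    constructor
    · rintro ⟨_, h1⟩
      by_contra hcon
      refine h1 fun x hx h2 h3 => hcon ⟨x, hx, h2, (key x).1 h3⟩
    · rintro ⟨x, hx, h1, h2⟩
      refine ⟨?_, fun h3 => h3 x hx h1 ((key x).2 h2)⟩
      obtain ⟨y', hy', h3, h4⟩ := hBs x h1
      obtain ⟨y'', _, h5⟩ := h x hx h1
      have h6 : y' ∈ Sg γ := c3 (ZFSet.mem_sep.2 ⟨hy', h3⟩)
      rw [h5 y ⟨hy, h2⟩, ← h5 y' ⟨h3, h4⟩]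
      exact h6

/-- the ordinals are constructible -/
theorem ord_Lc (hW : IsTransModelZF W) : ∀ α : V, α ∈ W → α.IsOrdinal → α ∈ Lc W := by
  have hL := Lc_zf hW
  intro α
  induction α using ZFSet.inductionOn with
  | _ α ih =>
    intro hα ho
    obtain ⟨γ, c1, c2, c3⟩ := Lc_bound hW hα fun β hβ =>
      ih β hβ (hW.transitive α hα β hβ) (ho.mem hβ)
    have hS := Sg_Lc hW c1 c2
    have h1 : ZFSet.sep (fun z => z.IsOrdinal) (Sg γ) ∈ Lc W :=
      sep_mem hL (P := fun z _ => z.IsOrdinal) (DP.ord hL (DF.v hL 0)) (const_mem hS) hS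
    have h2 : sU (img (fun z => insert z z) (ZFSet.sep (fun z => z.IsOrdinal) (Sg γ))) ∈ Lc W :=
      sU_mem hL (img_mem hL (g := fun z _ => insert z z)
        (DF.ins hL (DF.v hL 0) (DF.v hL 0)) (const_mem hS) h1)
    have h3 : (sU (img (fun z => insert z z)
        (ZFSet.sep (fun z => z.IsOrdinal) (Sg γ)))).IsOrdinal := by
      refine ord_sU fun y hy => ?_
      obtain ⟨z, hz, rfl⟩ := mem_img.1 hy
      exact ord_succ (ZFSet.mem_sep.1 hz).2
    have h4 : α ⊆ sU (img (fun z => insert z z) (ZFSet.sep (fun z => z.IsOrdinal) (Sg γ))) := by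
      intro β hβ
      exact mem_sU.2 ⟨_, mem_img.2 ⟨β, ZFSet.mem_sep.2 ⟨c3 hβ, ho.mem hβ⟩, rfl⟩,
        ZFSet.mem_insert_iff.2 (Or.inl rfl)⟩
    rcases (ho.subset_iff_eq_or_mem h3).1 h4 with h5 | h5
    · rw [h5]
      exact h2
    · exact hL.transitive _ h2 _ h5

end Pool.Agent.CM
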