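import Mathlib
import Pool.Agent.Lib.MP_f8e9b8_lc.LZF

/-!
# MP_f8e9b8_lc : well orders of the levels of the constructible hierarchy
-/

set_option autoImplicit false

namespace Pool.Agent.CM

open Pool.Agent.CR (V Fml cons Sat nat cons_zero cons_succ)

variable {W : Set V}

theorem DP.Lx (hW : IsTransModelZF W) {r k a b c k' a' b' c' : (ℕ → V) → V} (hr : DF W r)
    (hk : DF W k) (ha : DF W a) (hb : DF W b) (hc : DF W c) (hk' : DF W k') (ha' : DF W a')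
    (hb' : DF W b') (hc' : DF W c') :
    DP W (fun v => CM.Lx (r v) (k v) (a v) (b v) (c v) (k' v) (a' v) (b' v) (c' v)) :=
  (DP.mem (DF.pair hW hk hk') hr).or ((DP.eq hk hk').and ((DP.mem (DF.pair hW ha ha') hr).or
    ((DP.eq ha ha').and ((DP.mem (DF.pair hW hb hb') hr).or
      ((DP.eq hb hb').and (DP.mem (DF.pair hW hc hc') hr))))))

theorem DP.OL (hW : IsTransModelZF W) : DP4 W CM.OL := by
  refine ((DP.eq (DF.v hW 2) (DF.v hW 0)).and (DP.not (DP.eq (DF.v hW 3) (DF.v hW 0)))).or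
    ((DP.not (DP.eq (DF.v hW 2) (DF.v hW 0))).and ((DP.not (DP.eq (DF.v hW 3) (DF.v hW 0))).and ?_))
  refine DP.bex hW (DF.v hW 0) (Q := fun k v => ∃ a ∈ v 0, ∃ b ∈ v 0, ∃ c ∈ v 0,
    CM.opL k a b c = v 2 ∧ ∀ k' ∈ v 0, ∀ a' ∈ v 0, ∀ b' ∈ v 0, ∀ c' ∈ v 0,
      CM.opL k' a' b' c' = v 3 → CM.Lx (v 1) k a b c k' a' b' c') ?_
  refine DP.bex hW (DF.v hW 1) (Q := fun a v => ∃ b ∈ v 1, ∃ c ∈ v 1,
    CM.opL (v 0) a b c = v 3 ∧ ∀ k' ∈ v 1, ∀ a' ∈ v 1, ∀ b' ∈ v 1, ∀ c' ∈ v 1,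
      CM.opL k' a' b' c' = v 4 → CM.Lx (v 2) (v 0) a b c k' a' b' c') ?_
  refine DP.bex hW (DF.v hW 2) (Q := fun b v => ∃ c ∈ v 2,
    CM.opL (v 1) (v 0) b c = v 4 ∧ ∀ k' ∈ v 2, ∀ a' ∈ v 2, ∀ b' ∈ v 2, ∀ c' ∈ v 2,
      CM.opL k' a' b' c' = v 5 → CM.Lx (v 3) (v 1) (v 0) b c k' a' b' c') ?_
  refine DP.bex hW (DF.v hW 3) (Q := fun c v =>
    CM.opL (v 2) (v 1) (v 0) c = v 5 ∧ ∀ k' ∈ v 3, ∀ a' ∈ v 3, ∀ b' ∈ v 3, ∀ c' ∈ v 3,
      CM.opL k' a' b' c' = v 6 → CM.Lx (v 4) (v 2) (v 1) (v 0) c k' a' b' c') ?_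
  -- 0 c, 1 b, 2 a, 3 k, 4 A, 5 r, 6 x, 7 y
  refine (DP.eq (DF.opL hW (DF.v hW 3) (DF.v hW 2) (DF.v hW 1) (DF.v hW 0)) (DF.v hW 6)).and ?_
  refine DP.ball hW (DF.v hW 4) (Q := fun k' v => ∀ a' ∈ v 4, ∀ b' ∈ v 4, ∀ c' ∈ v 4,
      CM.opL k' a' b' c' = v 7 → CM.Lx (v 5) (v 3) (v 2) (v 1) (v 0) k' a' b' c') ?_
  refine DP.ball hW (DF.v hW 5) (Q := fun a' v => ∀ b' ∈ v 5, ∀ c' ∈ v 5,
      CM.opL (v 0) a' b' c' = v 8 → CM.Lx (v 6) (v 4) (v 3) (v 2) (v 1) (v 0) a' b' c') ?_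
  refine DP.ball hW (DF.v hW 6) (Q := fun b' v => ∀ c' ∈ v 6,
      CM.opL (v 1) (v 0) b' c' = v 9 → CM.Lx (v 7) (v 5) (v 4) (v 3) (v 2) (v 1) (v 0) b' c') ?_
  refine DP.ball hW (DF.v hW 7) (Q := fun c' v =>
      CM.opL (v 2) (v 1) (v 0) c' = v 10 →
        CM.Lx (v 8) (v 6) (v 5) (v 4) (v 3) (v 2) (v 1) (v 0) c') ?_
  -- 0 c', 1 b', 2 a', 3 k', 4 c, 5 b, 6 a, 7 k, 8 A, 9 r, 10 x, 11 y
  exact (DP.eq (DF.opL hW (DF.v hW 3) (DF.v hW 2) (DF.v hW 1) (DF.v hW 0)) (DF.v hW 11)).imp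
    (DP.Lx hW (DF.v hW 9) (DF.v hW 7) (DF.v hW 6) (DF.v hW 5) (DF.v hW 4) (DF.v hW 3)
      (DF.v hW 2) (DF.v hW 1) (DF.v hW 0))

theorem DF.Rst (hW : IsTransModelZF W) : DF2 W CM.Rst := by
  have h1 : DF W (fun v => CM.Step (v 0) \ v 0) := DF.diff hW (DF.Step hW (DF.v hW 0)) (DF.v hW 0)
  refine DF.un hW (DF.prod hW (DF.v hW 0) h1) ?_
  refine DF.sep hW (DF.prod hW h1 h1) (P := fun p v => CM.OL (v 0) (v 1) (CM.fst p) (CM.snd p)) ?_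
  exact DP4.app (DP.OL hW) (DF.v hW 1) (DF.v hW 2) (DF.fst hW (DF.v hW 0)) (DF.snd hW (DF.v hW 0))

theorem DF.Rg (hW : IsTransModelZF W) {f : (ℕ → V) → V} (hf : DF W f) :
    DF W (fun v => CM.Rg (f v)) := by
  refine DF.rec0 hW (G := fun _ x h => CM.sU (CM.img (fun y => CM.Rst (CM.Sg y) (CM.ap h y)) x))
    ?_ hf
  refine DF.bU hW (DF.v hW 0) (g := fun y v => CM.Rst (CM.Sg y) (CM.ap (v 1) y)) ?_
  exact DF2.app (DF.Rst hW) (DF.Sg hW (DF.v hW 0)) (DF.ap hW (DF.v hW 2) (DF.v hW 0))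

theorem mem_Rg {x p : V} : p ∈ Rg x ↔ ∃ y ∈ x, p ∈ Rst (Sg y) (Rg y) := by
  have : Rg x = sU (img (fun y => Rst (Sg y) (Rg y)) x) := by
    rw [Rg, rec0_eq]
    congr 1
    exact img_congr fun y hy => by rw [ap_gr hy]
  rw [this, mem_sU]
  constructor
  · rintro ⟨u, hu, h⟩
    obtain ⟨y, hy, rfl⟩ := mem_img.1 hu
    exact ⟨y, hy, h⟩
  · rintro ⟨y, hy, h⟩
    exact ⟨_, mem_img.2 ⟨y, hy, rfl⟩, h⟩

theorem pair_mem_Rst {A r x y : V} : ZFSet.pair x y ∈ Rst A r ↔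
    (x ∈ A ∧ y ∈ Step A ∧ y ∉ A) ∨ ((x ∈ Step A ∧ x ∉ A) ∧ (y ∈ Step A ∧ y ∉ A) ∧ OL A r x y) := by
  rw [Rst, ZFSet.mem_union, ZFSet.pair_mem_prod, ZFSet.mem_sep, ZFSet.pair_mem_prod, fst_pair,
    snd_pair, ZFSet.mem_sdiff, ZFSet.mem_sdiff]
  tauto

/-- the order of the new elements -/
theorem OL_wo {A r : V} (h : WOn r A) :
    (∀ x ∈ Step A, x ∉ A → ∀ y ∈ Step A, y ∉ A → x ≠ y → OL A r x y ∨ OL A r y x) ∧
    ∀ Y : Set V, Y.Nonempty → (∀ y ∈ Y, y ∈ Step A ∧ y ∉ A) → ∃ m ∈ Y, ∀ y ∈ Y, ¬ OL A r y m := by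
  classical
  let T := {x : V // x ∈ A}
  let R : T → T → Prop := fun a b => ZFSet.pair a.1 b.1 ∈ r
  have hwf : WellFounded R := by
    rw [WellFounded.wellFounded_iff_has_min]
    intro s hs
    obtain ⟨m, ⟨z, hz, rfl⟩, hm⟩ := h.2 (Subtype.val '' s) (hs.image _) (by
      rintro _ ⟨y, _, rfl⟩
      exact y.2)
    exact ⟨z, hz, fun x hx => hm _ ⟨x, hx, rfl⟩⟩
  have hR : IsWellOrder T R :=
    { wf := hwf
      trichotomous := by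
        intro a b hab hba
        by_contra hne
        rcases h.1 a.1 a.2 b.1 b.2 (fun h' => hne (Subtype.ext h')) with h1 | h1
        · exact hab h1
        · exact hba h1 }
  let R4 : T × T × T × T → T × T × T × T → Prop := Prod.Lex R (Prod.Lex R (Prod.Lex R R))
  have hR4 : IsWellOrder (T × T × T × T) R4 := inferInstance
  have hLx : ∀ p q : T × T × T × T, R4 p q ↔ Lx r p.1.1 p.2.1.1 p.2.2.1.1 p.2.2.2.1
      q.1.1 q.2.1.1 q.2.2.1.1 q.2.2.2.1 := by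
    intro p q
    have hs : ∀ a b : T, a = b ↔ a.1 = b.1 := fun a b => Subtype.ext_iff
    simp only [R4, Prod.lex_def, R, Lx]
    rw [hs, hs, hs]
  let op : T × T × T × T → V := fun p => opL p.1.1 p.2.1.1 p.2.2.1.1 p.2.2.2.1
  have hex : ∀ x ∈ Step A, x ∉ A → x ≠ A → ∃ p, op p = x ∧ ∀ q, op q = x → ¬ R4 q p := by
    intro x hx hxA hne
    rcases mem_Step.1 hx with h1 | h1 | ⟨k, hk, a, ha, b, hb, c, hc, h1⟩
    · exact absurd h1 hxA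
    · exact absurd h1 hne
    · have hne2 : {p | op p = x}.Nonempty := ⟨(⟨k, hk⟩, ⟨a, ha⟩, ⟨b, hb⟩, ⟨c, hc⟩), h1.symm⟩
      obtain ⟨m, hm, hm2⟩ := (WellFounded.wellFounded_iff_has_min.1 hR4.wf) _ hne2
      exact ⟨m, hm, fun q hq => hm2 q hq⟩
  have htri : ∀ p q, ¬ R4 p q → ¬ R4 q p → p = q := fun p q h1 h2 =>
    hR4.trichotomous p q h1 h2
  have htrans : ∀ p q s, R4 p q → R4 q s → R4 p s := fun p q s => IsTrans.trans p q s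
  -- characterization
  have hOL : ∀ x y, x ≠ A → y ≠ A → ∀ p q, op p = x → (∀ p', op p' = x → ¬ R4 p' p) → op q = y →
      (∀ q', op q' = y → ¬ R4 q' q) → (OL A r x y ↔ R4 p q) := by
    intro x y hx hy p q hp hpm hq hqm
    constructor
    · rintro (⟨h1, _⟩ | ⟨_, _, k, hk, a, ha, b, hb, c, hc, h1, h2⟩)
      · exact absurd h1 hx
      · have h3 : R4 (⟨k, hk⟩, ⟨a, ha⟩, ⟨b, hb⟩, ⟨c, hc⟩) q := by
          rw [hLx]
          exact h2 _ q.1.2 _ q.2.1.2 _ q.2.2.1.2 _ q.2.2.2.2 hq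
        by_cases h4 : R4 p (⟨k, hk⟩, ⟨a, ha⟩, ⟨b, hb⟩, ⟨c, hc⟩)
        · exact htrans _ _ _ h4 h3
        · rw [htri p _ h4 (hpm _ h1)]
          exact h3
    · intro h1
      refine Or.inr ⟨hx, hy, p.1.1, p.1.2, p.2.1.1, p.2.1.2, p.2.2.1.1, p.2.2.1.2, p.2.2.2.1,
        p.2.2.2.2, hp, fun k' hk' a' ha' b' hb' c' hc' h2 => ?_⟩
      have h3 : R4 p (⟨k', hk'⟩, ⟨a', ha'⟩, ⟨b', hb'⟩, ⟨c', hc'⟩) := by
        by_cases h4 : R4 q (⟨k', hk'⟩, ⟨a', ha'⟩, ⟨b', hb'⟩, ⟨c', hc'⟩)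
        · exact htrans _ _ _ h1 h4
        · rw [← htri q _ h4 (hqm _ h2)]
          exact h1
      exact (hLx _ _).1 h3
  constructor
  · intro x hx hxA y hy hyA hne
    by_cases h1 : x = A
    · exact Or.inl (Or.inl ⟨h1, fun h2 => hne (h1.trans h2.symm)⟩)
    · by_cases h2 : y = A
      · exact Or.inr (Or.inl ⟨h2, h1⟩)
      · obtain ⟨p, hp, hpm⟩ := hex x hx hxA h1
        obtain ⟨q, hq, hqm⟩ := hex y hy hyA h2
        rw [hOL x y h1 h2 p q hp hpm hq hqm, hOL y x h2 h1 q p hq hqm hp hpm]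
        by_contra h3
        push Not at h3
        have h4 := htri p q h3.1 h3.2
        apply hne
        rw [← hp, ← hq, h4]
  · intro Y hY hYs
    by_cases hA : A ∈ Y
    · refine ⟨A, hA, fun y _ => ?_⟩
      rintro (⟨_, h1⟩ | ⟨_, h1, _⟩)
      · exact h1 rfl
      · exact h1 rfl
    · have hne2 : {p | op p ∈ Y ∧ ∀ q, op q = op p → ¬ R4 q p}.Nonempty := by
        obtain ⟨y, hy⟩ := hY
        obtain ⟨p, hp, hpm⟩ := hex y (hYs y hy).1 (hYs y hy).2 (fun h1 => hA (by rwa [← h1]))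
        exact ⟨p, by show op p ∈ Y; rw [hp]; exact hy, by rw [hp]; exact hpm⟩
      obtain ⟨m, ⟨hm1, hm2⟩, hm3⟩ := (WellFounded.wellFounded_iff_has_min.1 hR4.wf) _ hne2
      refine ⟨op m, hm1, fun y hy h1 => ?_⟩
      have hyA : y ≠ A := fun h2 => hA (by rwa [← h2])
      have hmA : op m ≠ A := fun h2 => hA (by rwa [← h2])
      obtain ⟨p, hp, hpm⟩ := hex y (hYs y hy).1 (hYs y hy).2 hyA
      rw [hOL y (op m) hyA hmA p m hp hpm rfl hm2] at h1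
      exact hm3 p ⟨by rw [hp]; exact hy, by rw [hp]; exact hpm⟩ h1

/-- the levels are well ordered -/
theorem Rg_wo : ∀ α : V, α.IsOrdinal → WOn (Rg α) (Sg α) := by
  intro α
  induction α using ZFSet.inductionOn with
  | _ α ih =>
    intro ho
    -- the first level at which an element appears
    have hfirst : ∀ x ∈ Sg α, ∃ β ∈ α, x ∈ Step (Sg β) ∧ x ∉ Sg β := by
      intro x hx
      obtain ⟨β, hβ, h1⟩ := mem_Sg.1 hx
      obtain ⟨δ, h2, ⟨h3, h4⟩, h5⟩ := ord_min (P := fun β => β ∈ α ∧ x ∈ Step (Sg β))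
        ⟨β, ho.mem hβ, hβ, h1⟩
      refine ⟨δ, h3, h4, fun h6 => ?_⟩
      obtain ⟨η, h7, h8⟩ := mem_Sg.1 h6
      exact h5 η h7 ⟨ho.mem_trans h7 h3, h8⟩
    have hchar : ∀ x y β γ, β ∈ α → γ ∈ α → x ∈ Step (Sg β) → x ∉ Sg β → y ∈ Step (Sg γ) →
        y ∉ Sg γ → (ZFSet.pair x y ∈ Rg α ↔ β ∈ γ ∨ (β = γ ∧ OL (Sg β) (Rg β) x y)) := by
      intro x y β γ hβ hγ hx hxn hy hyn
      have huniq : ∀ z β γ, β ∈ α → γ ∈ α → z ∈ Step (Sg β) → z ∉ Sg β → z ∈ Step (Sg γ) →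
          z ∉ Sg γ → β = γ := by
        intro z β γ hβ hγ h1 h2 h3 h4
        rcases (ho.mem hβ).mem_trichotomous (ho.mem hγ) with h5 | h5 | h5
        · exact absurd (Step_sub_Sg h5 h1) h4
        · exact h5
        · exact absurd (Step_sub_Sg h5 h3) h2
      rw [mem_Rg]
      constructor
      · rintro ⟨δ, hδ, h1⟩
        rcases pair_mem_Rst.1 h1 with ⟨h2, h3, h4⟩ | ⟨⟨h2, h3⟩, ⟨h4, h5⟩, h6⟩
        · have e := huniq y γ δ hγ hδ hy hyn h3 h4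
          rw [← e] at h2
          left
          obtain ⟨η, h7, h8⟩ := mem_Sg.1 h2
          rcases (ho.mem hβ).mem_trichotomous (ho.mem hγ) with h5 | h5 | h5
          · exact h5
          · rw [h5] at hxn
            exact absurd h2 hxn
          · exact absurd (Sg_mono ((ho.mem hβ).subset_of_mem h5) h2) hxn
        · have e1 := huniq x β δ hβ hδ hx hxn h2 h3
          have e2 := huniq y γ δ hγ hδ hy hyn h4 h5
          right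
          refine ⟨e1.trans e2.symm, ?_⟩
          rw [e1]
          exact h6
      · rintro (h1 | ⟨rfl, h1⟩)
        · exact ⟨γ, hγ, pair_mem_Rst.2 (Or.inl ⟨Step_sub_Sg h1 hx, hy, hyn⟩)⟩
        · exact ⟨β, hβ, pair_mem_Rst.2 (Or.inr ⟨⟨hx, hxn⟩, ⟨hy, hyn⟩, h1⟩)⟩
    constructor
    · intro x hx y hy hne
      obtain ⟨β, hβ, hx1, hx2⟩ := hfirst x hx
      obtain ⟨γ, hγ, hy1, hy2⟩ := hfirst y hy
      rw [hchar x y β γ hβ hγ hx1 hx2 hy1 hy2, hchar y x γ β hγ hβ hy1 hy2 hx1 hx2]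
      rcases (ho.mem hβ).mem_trichotomous (ho.mem hγ) with h5 | h5 | h5
      · exact Or.inl (Or.inl h5)
      · subst h5
        rcases (OL_wo (ih β hβ (ho.mem hβ))).1 x hx1 hx2 y hy1 hy2 hne with h6 | h6
        · exact Or.inl (Or.inr ⟨rfl, h6⟩)
        · exact Or.inr (Or.inr ⟨rfl, h6⟩)
      · exact Or.inr (Or.inl h5)
    · intro Y hY hYs
      obtain ⟨β, h1, ⟨hβ, y0, hy0, h2, h3⟩, h4⟩ := ord_min (P := fun β => β ∈ α ∧ ∃ y ∈ Y,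
        y ∈ Step (Sg β) ∧ y ∉ Sg β) (by
          obtain ⟨y, hy⟩ := hY
          obtain ⟨β, hβ, hx1, hx2⟩ := hfirst y (hYs y hy)
          exact ⟨β, ho.mem hβ, hβ, y, hy, hx1, hx2⟩)
      obtain ⟨m, ⟨hm1, hm2, hm3⟩, hm4⟩ := (OL_wo (ih β hβ (ho.mem hβ))).2
        {y | y ∈ Y ∧ y ∈ Step (Sg β) ∧ y ∉ Sg β} ⟨y0, hy0, h2, h3⟩ (fun y hy => hy.2)
      refine ⟨m, hm1, fun y hy h5 => ?_⟩
      obtain ⟨γ, hγ, hy1, hy2⟩ := hfirst y (hYs y hy)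
      rw [hchar y m γ β hγ hβ hy1 hy2 hm2 hm3] at h5
      rcases h5 with h5 | ⟨rfl, h5⟩
      · exact h4 γ h5 ⟨hγ, y, hy, hy1, hy2⟩
      · exact hm4 y ⟨hy, hy1, hy2⟩ h5

/-- the constructible sets form a ground model -/
theorem Lc_gm (hW : IsTransModelZF W) : GM (Lc W) := by
  have hL := Lc_zf hW
  refine ⟨hL, fun X hX => ?_⟩
  obtain ⟨γ, c1, c2, c3⟩ := Lc_bound hW (Lc_sub_W hW hX) (Lc_trans hW X hX)
  have hγL := ord_Lc hW γ c1 c2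
  exact ⟨Rg γ, (DF.Rg hL (DF.v hL 0)).mem1 (F := Rg) hγL, (Rg_wo γ c2).mono c3⟩

end Pool.Agent.CM
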