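import Mathlib
import Pool.Agent.Lib.MP_f8e9b8_lc.LPos

/-!
# MP_f8e9b8_lc : the fusion tree
-/

set_option autoImplicit false

namespace Pool.Agent.CM

open Pool.Agent.CR (V Fml cons Sat nat cons_zero cons_succ)

variable {M : Set V}

theorem fst_mem_tc_pair (u x : V) : u ∈ tc (ZFSet.pair u x) := by
  have h1 : ({u} : V) ∈ tc (ZFSet.pair u x) := mem_tc_of_mem (by simp [ZFSet.pair])
  exact tc_trans _ _ h1 (ZFSet.mem_singleton.2 rfl)

theorem stt_empty (κ D r t T : V) : stt κ D r t T ∅ = nxt κ D r t (ZFSet.pair T ∅) ∅ := by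
  rw [stt, recT_eq, if_pos rfl]

theorem stt_pair (κ D r t T u x : V) : stt κ D r t T (ZFSet.pair u x) =
    nxt κ D r t (stt κ D r t T u) (ZFSet.pair u x) := by
  rw [stt, recT_eq, if_neg (pair_ne_empty _ _), fst_pair, ap_gr (fst_mem_tc_pair u x)]

variable {κ H D r t T : V}

theorem nxt_stay {σ v : V} (h : ¬ (t ∈ Init v ∧ Good κ (ap D (snd σ)) (fst σ) v)) :
    nxt κ D r t σ v = σ := by rw [nxt, if_neg h]

theorem nxt_pass {S n v P : V} (hr : WOn r P) (hD : ap D n ⊆ P) (h : t ∈ Init v)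
    (hg : Good κ (ap D n) S v) : ∃ S1, nxt κ D r t (ZFSet.pair S n) v =
      ZFSet.pair S1 (insert n n) ∧ S1 ∈ ap D n ∧ S1 ⊆ S ∧ Lav κ S1 v := by
  refine ⟨lea r (ZFSet.sep (fun S' => S' ⊆ S ∧ Lav κ S' v) (ap D n)), ?_, ?_⟩
  · rw [nxt, fst_pair, snd_pair, if_pos ⟨h, hg⟩]
  · have h1 := (lea_spec (Z := ZFSet.sep (fun S' => S' ⊆ S ∧ Lav κ S' v) (ap D n)) hr
      (fun x hx => hD (sep_sub hx)) (by
        obtain ⟨S', h1, h2, h3⟩ := hg
        exact ⟨S', ZFSet.mem_sep.2 ⟨h1, h2, h3⟩⟩)).1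
    obtain ⟨h2, h3, h4⟩ := ZFSet.mem_sep.1 h1
    exact ⟨h2, h3, h4⟩

theorem om_succ {n : V} (h : n ∈ om) : insert n n ∈ om := by
  obtain ⟨m, rfl⟩ := mem_om.1 h
  exact mem_om.2 ⟨m + 1, rfl⟩

theorem om_zero : (∅ : V) ∈ om := mem_om.2 ⟨0, rfl⟩

namespace Sit

variable (hS : Sit M κ H D r t T)
include hS

theorem memPL : T ∈ PL M κ := mem_PL.2 ⟨hS.memT, t, hS.lav⟩

/-- the possible successors of a state -/
theorem nxt_cases {S n v : V} (hn : n ∈ om) :
    (nxt κ D r t (ZFSet.pair S n) v = ZFSet.pair S n ∧ ¬ (t ∈ Init v ∧ Good κ (ap D n) S v)) ∨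
    (t ∈ Init v ∧ Good κ (ap D n) S v ∧ ∃ S1, nxt κ D r t (ZFSet.pair S n) v =
      ZFSet.pair S1 (insert n n) ∧ S1 ∈ ap D n ∧ S1 ⊆ S ∧ Lav κ S1 v) := by
  by_cases h : t ∈ Init v ∧ Good κ (ap D n) S v
  · exact Or.inr ⟨h.1, h.2, nxt_pass hS.wo (hS.opn n hn).1 h.1 h.2⟩
  · left
    refine ⟨nxt_stay ?_, h⟩
    rw [fst_pair, snd_pair]
    exact h

/-- states -/
theorem state {v : V} (hv : v ∈ Ls κ) : ∃ S n, stt κ D r t T v = ZFSet.pair S n ∧ n ∈ om ∧
    S ∈ PL M κ ∧ S ⊆ T ∧ (t ∉ Init v → S = T ∧ n = ∅) ∧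
    (t ∈ Init v → ∃ s ∈ Init v, t ∈ Init s ∧ Lav κ S s) := by
  refine Ls_ind (b := κ) (p := fun v => ∃ S n, stt κ D r t T v = ZFSet.pair S n ∧ n ∈ om ∧
    S ∈ PL M κ ∧ S ⊆ T ∧ (t ∉ Init v → S = T ∧ n = ∅) ∧
    (t ∈ Init v → ∃ s ∈ Init v, t ∈ Init s ∧ Lav κ S s)) ?_ ?_ v hv
  · rw [stt_empty]
    rcases hS.nxt_cases (S := T) (v := ∅) om_zero with ⟨h1, _⟩ | ⟨h1, _, S1, h2, h3, h4, h5⟩
    · rw [h1]
      refine ⟨T, ∅, rfl, om_zero, hS.memPL, fun _ h => h, fun _ => ⟨rfl, rfl⟩, fun h => ?_⟩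
      have := mem_Init_empty.1 h
      exact ⟨t, h, Init_self _, hS.lav⟩
    · rw [h2]
      exact ⟨S1, _, rfl, om_succ om_zero, (hS.opn _ om_zero).1 h3, h4, fun h => absurd h1 h,
        fun _ => ⟨∅, Init_self _, h1, h5⟩⟩
  · rintro u _ ⟨S, n, h1, h2, h3, h4, h5, h6⟩ x _
    rw [stt_pair, h1]
    rcases hS.nxt_cases (S := S) (v := ZFSet.pair u x) h2 with ⟨h7, _⟩ | ⟨h7, _, S1, h8, h9, h10, h11⟩
    · rw [h7]
      refine ⟨S, n, rfl, h2, h3, h4, fun h => h5 fun h' => h (mem_Init_pair.2 (Or.inr h')),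
        fun h => ?_⟩
      by_cases h8 : t ∈ Init u
      · obtain ⟨s, hs, h9, h10⟩ := h6 h8
        exact ⟨s, mem_Init_pair.2 (Or.inr hs), h9, h10⟩
      · obtain ⟨rfl, -⟩ := h5 h8
        exact ⟨t, h, Init_self _, hS.lav⟩
    · rw [h8]
      exact ⟨S1, _, rfl, om_succ h2, (hS.opn _ h2).1 h9, fun z hz => h4 (h10 hz),
        fun h => absurd h7 h, fun _ => ⟨_, Init_self _, h7, h11⟩⟩

theorem state_om {v : V} (hv : v ∈ Ls κ) : snd (stt κ D r t T v) ∈ om := by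
  obtain ⟨S, n, h1, h2, _⟩ := hS.state hv
  rw [h1, snd_pair]
  exact h2

theorem state_PL {v : V} (hv : v ∈ Ls κ) : fst (stt κ D r t T v) ∈ PL M κ := by
  obtain ⟨S, n, h1, _, h2, _⟩ := hS.state hv
  rw [h1, fst_pair]
  exact h2

theorem state_sub {v : V} (hv : v ∈ Ls κ) : fst (stt κ D r t T v) ⊆ T := by
  obtain ⟨S, n, h1, _, _, h2, _⟩ := hS.state hv
  rw [h1, fst_pair]
  exact h2

theorem state_stem {v : V} (hv : v ∈ Ls κ) (h : t ∈ Init v) :
    ∃ s ∈ Init v, t ∈ Init s ∧ Lav κ (fst (stt κ D r t T v)) s := by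
  obtain ⟨S, n, h1, _, _, _, _, h2⟩ := hS.state hv
  rw [h1, fst_pair]
  exact h2 h

theorem state_low {v : V} (hv : v ∈ Ls κ) (h : t ∉ Init v) :
    stt κ D r t T v = ZFSet.pair T ∅ := by
  obtain ⟨S, n, h1, _, _, _, h2, _⟩ := hS.state hv
  obtain ⟨rfl, rfl⟩ := h2 h
  exact h1

/-- one step of the states -/
theorem step {u x : V} (hu : u ∈ Ls κ) :
    (stt κ D r t T (ZFSet.pair u x) = stt κ D r t T u ∧
      ¬ (t ∈ Init (ZFSet.pair u x) ∧ Good κ (ap D (snd (stt κ D r t T u)))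
        (fst (stt κ D r t T u)) (ZFSet.pair u x))) ∨
    (t ∈ Init (ZFSet.pair u x) ∧ ∃ S1, stt κ D r t T (ZFSet.pair u x) =
      ZFSet.pair S1 (insert (snd (stt κ D r t T u)) (snd (stt κ D r t T u))) ∧
      S1 ∈ ap D (snd (stt κ D r t T u)) ∧ S1 ⊆ fst (stt κ D r t T u) ∧
      Lav κ S1 (ZFSet.pair u x)) := by
  obtain ⟨S, n, h1, h2, _⟩ := hS.state hu
  rw [stt_pair, h1, fst_pair, snd_pair]
  rcases hS.nxt_cases (S := S) (v := ZFSet.pair u x) h2 with h | ⟨h, _, h'⟩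
  · exact Or.inl h
  · exact Or.inr ⟨h, h'⟩

theorem state_mono {u v : V} (hv : v ∈ Ls κ) (hu : u ∈ Init v) :
    fst (stt κ D r t T v) ⊆ fst (stt κ D r t T u) ∧
      snd (stt κ D r t T u) ⊆ snd (stt κ D r t T v) := by
  revert u
  refine Ls_ind (b := κ) (p := fun v => ∀ {u : V}, u ∈ Init v →
    fst (stt κ D r t T v) ⊆ fst (stt κ D r t T u) ∧
      snd (stt κ D r t T u) ⊆ snd (stt κ D r t T v)) ?_ ?_ v hv
  · intro u hu
    rw [mem_Init_empty.1 hu]
    exact ⟨fun _ h => h, fun _ h => h⟩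
  · intro w hw ih x _ u hu
    rcases mem_Init_pair.1 hu with rfl | hu
    · exact ⟨fun _ h => h, fun _ h => h⟩
    · obtain ⟨h1, h2⟩ := ih hu
      rcases hS.step (x := x) hw with ⟨h3, _⟩ | ⟨_, S1, h3, _, h4, _⟩
      · rw [h3]
        exact ⟨h1, h2⟩
      · rw [h3, fst_pair, snd_pair]
        exact ⟨fun z hz => h1 (h4 hz), fun z hz => ZFSet.mem_insert_iff.2 (Or.inr (h2 hz))⟩

theorem mem_TT {v : V} : v ∈ TT κ D r t T ↔ v ∈ Ls κ ∧ ∀ w ∈ Init v, w = ∅ ∨
    w ∈ fst (stt κ D r t T (fst w)) := ZFSet.mem_sep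

theorem TT_init {v w : V} (hv : v ∈ TT κ D r t T) (hw : w ∈ Init v) : w ∈ TT κ D r t T := by
  obtain ⟨h1, h2⟩ := hS.mem_TT.1 hv
  exact hS.mem_TT.2 ⟨Init_sub h1 hw, fun x hx => h2 x (Init_trans hx hw)⟩

/-- nodes of the fusion tree belong to their current trees -/
theorem TT_cur {v : V} (hv : v ∈ TT κ D r t T) : v ∈ fst (stt κ D r t T v) := by
  obtain ⟨h1, h2⟩ := hS.mem_TT.1 hv
  rcases Ls_cases h1 with rfl | ⟨u, hu, x, hx, rfl⟩
  · obtain ⟨hM, s, hs⟩ := mem_PL.1 (hS.state_PL (Ls_nil κ))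
    exact hs.init hs.stem (empty_mem_Init hs.stem_Ls)
  · rcases hS.step (x := x) hu with ⟨h3, _⟩ | ⟨_, S1, h3, _, _, h4⟩
    · rw [h3]
      rcases h2 _ (Init_self _) with h5 | h5
      · exact absurd h5 (pair_ne_empty _ _)
      · rw [fst_pair] at h5
        exact h5
    · rw [h3, fst_pair]
      exact h4.stem

theorem TT_sub : TT κ D r t T ⊆ T := fun _ hv => hS.state_sub (hS.mem_TT.1 hv).1 (hS.TT_cur hv)

theorem TT_mem : TT κ D r t T ∈ M := by
  have hW := hS.gm.zf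
  have h := (DF.TT hW (DF.v hW 0) (DF.v hW 1) (DF.v hW 2) (DF.v hW 3) (DF.v hW 4)).1
    (cons κ (cons D (cons r (cons t fun _ => T))))
    (cons_mem hS.kap.mem (cons_mem hS.memD (cons_mem hS.memr (cons_mem
      (hW.transitive T hS.memT t hS.lav.stem) fun _ => hS.memT))))
  exact h

theorem TT_lav : Lav κ (TT κ D r t T) t := by
  refine ⟨⟨fun v hv => (hS.mem_TT.1 hv).1, fun v hv w hw => hS.TT_init hv hw⟩, ?_,
    fun v hv => hS.lav.cmp (hS.TT_sub hv), fun v hv htv β hβ => ?_⟩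
  · refine hS.mem_TT.2 ⟨hS.lav.stem_Ls, fun w hw => ?_⟩
    have hwL := Init_sub hS.lav.stem_Ls hw
    rcases Ls_cases hwL with rfl | ⟨u, hu, x, hx, rfl⟩
    · exact Or.inl rfl
    · right
      rw [fst_pair, hS.state_low hu (fun h => pair_notMem_Init hu (Init_trans hw h)), fst_pair]
      exact hS.lav.init hS.lav.stem hw
  · have hvL := (hS.mem_TT.1 hv).1
    obtain ⟨s, hs, _, h1⟩ := hS.state_stem hvL htv
    obtain ⟨α, hα, h2, h3⟩ := h1.split (hS.TT_cur hv) hs hβ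
    refine ⟨α, hα, h2, hS.mem_TT.2 ⟨Ls_pair.2 ⟨hvL, hα⟩, fun w hw => ?_⟩⟩
    rcases mem_Init_pair.1 hw with rfl | hw
    · right
      rw [fst_pair]
      exact h3
    · exact (hS.mem_TT.1 hv).2 w hw

omit hS in
theorem fin_sup (hK : Kap M κ H) {h : V → V} {a : V} (ha : ∀ u ∈ a, h u ∈ κ) :
    ∀ v ∈ Ls κ, sU (img h (ZFSet.sep (fun u => u ∈ a) (Init v))) ∈ κ := by
  have key : ∀ x ∈ κ, ∀ y ∈ κ, x ∪ y ∈ κ := by
    intro x hx y hy
    rcases (hK.ord.mem hx).subset_total (hK.ord.mem hy) with h | h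
    · have : x ∪ y = y := ZFSet.ext fun z => by
        rw [ZFSet.mem_union]
        exact ⟨fun h' => h'.elim (fun h' => h h') id, Or.inr⟩
      rw [this]
      exact hy
    · have : x ∪ y = x := ZFSet.ext fun z => by
        rw [ZFSet.mem_union]
        exact ⟨fun h' => h'.elim id (fun h' => h h'), Or.inl⟩
      rw [this]
      exact hx
  classical
  refine Ls_ind (b := κ) (p := fun v => sU (img h (ZFSet.sep (fun u => u ∈ a) (Init v))) ∈ κ) ?_ ?_
  · have e : sU (img h (ZFSet.sep (fun u => u ∈ a) (Init ∅))) = if ∅ ∈ a then h ∅ else ∅ := by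
      refine ZFSet.ext fun z => ?_
      rw [mem_sU]
      constructor
      · rintro ⟨y, hy, hz⟩
        obtain ⟨u, hu, rfl⟩ := mem_img.1 hy
        obtain ⟨h1, h2⟩ := ZFSet.mem_sep.1 hu
        rw [mem_Init_empty.1 h1] at h2 hz
        rw [if_pos h2]
        exact hz
      · intro hz
        split_ifs at hz with h1
        · exact ⟨_, mem_img.2 ⟨∅, ZFSet.mem_sep.2 ⟨Init_self _, h1⟩, rfl⟩, hz⟩
        · exact absurd hz (ZFSet.notMem_empty _)
    rw [e]
    split_ifs with h1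
    · exact ha _ h1
    · exact hK.zero
  · intro u _ ih x _
    have e : sU (img h (ZFSet.sep (fun u => u ∈ a) (Init (ZFSet.pair u x)))) =
        sU (img h (ZFSet.sep (fun u => u ∈ a) (Init u))) ∪
          (if ZFSet.pair u x ∈ a then h (ZFSet.pair u x) else ∅) := by
      refine ZFSet.ext fun z => ?_
      rw [ZFSet.mem_union, mem_sU, mem_sU]
      constructor
      · rintro ⟨y, hy, hz⟩
        obtain ⟨w, hw, rfl⟩ := mem_img.1 hy
        obtain ⟨h1, h2⟩ := ZFSet.mem_sep.1 hw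
        rcases mem_Init_pair.1 h1 with rfl | h1
        · right
          rw [if_pos h2]
          exact hz
        · exact Or.inl ⟨_, mem_img.2 ⟨w, ZFSet.mem_sep.2 ⟨h1, h2⟩, rfl⟩, hz⟩
      · rintro (⟨y, hy, hz⟩ | hz)
        · obtain ⟨w, hw, rfl⟩ := mem_img.1 hy
          obtain ⟨h1, h2⟩ := ZFSet.mem_sep.1 hw
          exact ⟨_, mem_img.2 ⟨w, ZFSet.mem_sep.2 ⟨mem_Init_pair.2 (Or.inr h1), h2⟩, rfl⟩, hz⟩
        · split_ifs at hz with h1
          · exact ⟨_, mem_img.2 ⟨_, ZFSet.mem_sep.2 ⟨Init_self _, h1⟩, rfl⟩, hz⟩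
          · exact absurd hz (ZFSet.notMem_empty _)
    rw [e]
    refine key _ ih _ ?_
    split_ifs with h1
    · exact ha _ h1
    · exact hK.zero

/-- bounds such that the branches of the fusion tree exceeding them pass all stages -/
theorem bound : ∃ g ∈ M, Fn κ g ∧ ∀ b ∈ M, Br κ b → b ⊆ TT κ D r t T → t ∈ b → Fre g b t →
    ∀ n ∈ om, ∃ v ∈ b, n ∈ snd (stt κ D r t T v) := by
  have hW := hS.gm.zf
  have htM : t ∈ M := hW.transitive T hS.memT t hS.lav.stem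
  have hLsM : Ls κ ∈ M := Ls_mem hW hS.kap.mem
  have hst : DF M (fun v => stt (v 1) (v 2) (v 3) (v 4) (v 5) (v 0)) :=
    DF.stt hW (DF.v hW 1) (DF.v hW 2) (DF.v hW 3) (DF.v hW 4) (DF.v hW 5) (DF.v hW 0)
  have haM : ZFSet.sep (fun u => t ∈ Init u) (TT κ D r t T) ∈ M :=
    sep_mem hW (v := fun _ => t) (P := fun u v => v 0 ∈ Init u)
      (DP.mem (DF.v hW 1) (DF.Init hW (DF.v hW 0))) (const_mem htM) hS.TT_mem
  obtain ⟨f, hf, hfs⟩ := hS.gm.choose (R := fun u g v => Fn (v 0) g ∧ ¬ ∃ b ∈ M, Br (v 0) b ∧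
      b ⊆ BadT (v 0) (ap (v 1) (snd (stt (v 0) (v 1) (v 2) (v 3) (v 4) u)))
        (fst (stt (v 0) (v 1) (v 2) (v 3) (v 4) u)) u ∧ u ∈ b ∧ Fre g b u)
      (by
        refine (DP.Fn hW (DF.v hW 2) (DF.v hW 1)).and (DP.not ?_)
        refine DP.ex (Q := fun b v => Br (v 2) b ∧
          b ⊆ BadT (v 2) (ap (v 3) (snd (stt (v 2) (v 3) (v 4) (v 5) (v 6) (v 0))))
            (fst (stt (v 2) (v 3) (v 4) (v 5) (v 6) (v 0))) (v 0) ∧ v 0 ∈ b ∧
          Fre (v 1) b (v 0)) ?_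
        have hst' : DF M (fun v => stt (v 3) (v 4) (v 5) (v 6) (v 7) (v 1)) :=
          DF.stt hW (DF.v hW 3) (DF.v hW 4) (DF.v hW 5) (DF.v hW 6) (DF.v hW 7) (DF.v hW 1)
        refine (DP.Br hW (DF.v hW 3) (DF.v hW 0)).and ((DP.sub hW (DF.v hW 0) ?_).and
          ((DP.mem (DF.v hW 1) (DF.v hW 0)).and (DP.Fre hW (DF.v hW 2) (DF.v hW 0) (DF.v hW 1))))
        exact DF.BadT hW (DF.v hW 3) (DF.ap hW (DF.v hW 4) (DF.snd hW hst')) (DF.fst hW hst')
          (DF.v hW 1))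
      (v := cons κ (cons D (cons r (cons t fun _ => T))))
      (cons_mem hS.kap.mem (cons_mem hS.memD (cons_mem hS.memr (cons_mem htM fun _ => hS.memT)))) haM
      (by
        intro u hu
        obtain ⟨hu, htu⟩ := ZFSet.mem_sep.1 hu
        have huL := (hS.mem_TT.1 hu).1
        have hn := hS.state_om huL
        obtain ⟨hSM, s, hs⟩ := mem_PL.1 (hS.state_PL huL)
        have h1 := not_pos_BadT hS.gm hS.kap
          (ap_mem hW hS.memD (hW.transitive _ (om_mem hW) _ hn)) (hS.opn _ hn) (hS.dns _ hn) hSM hs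
          (hS.TT_cur hu)
        unfold Pos at h1
        push Not at h1
        obtain ⟨g, hg, h4, h5⟩ := h1
        refine ⟨g, hg, h4, ?_⟩
        rintro ⟨b, hb, h6, h7, h8, h9⟩
        exact h5 b hb h6 h7 h8 h9)
  -- the supremum
  have hgl : DF M (fun v => sU (img (fun u => ap (ap (v 1) u) (v 0))
      (ZFSet.sep (fun u => u ∈ v 2) (Init (v 0))))) :=
    DF.bU hW (f := fun v => ZFSet.sep (fun u => u ∈ v 2) (Init (v 0)))
      (g := fun u v => ap (ap (v 1) u) (v 0))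
      (DF.sep hW (DF.Init hW (DF.v hW 0)) (P := fun u v => u ∈ v 2)
        (DP.mem (DF.v hW 0) (DF.v hW 3)))
      (DF.ap hW (DF.ap hW (DF.v hW 2) (DF.v hW 0)) (DF.v hW 1))
  obtain ⟨a, ha⟩ : ∃ a, a = ZFSet.sep (fun u => t ∈ Init u) (TT κ D r t T) := ⟨_, rfl⟩
  rw [← ha] at haM hfs
  have hgM : gr (fun w => sU (img (fun u => ap (ap f u) w)
      (ZFSet.sep (fun u => u ∈ a) (Init w)))) (Ls κ) ∈ M :=
    gr_mem hW (F := fun w v => sU (img (fun u => ap (ap (v 0) u) w)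
      (ZFSet.sep (fun u => u ∈ v 1) (Init w)))) hgl
      (v := cons f fun _ => a) (cons_mem hf fun _ => haM) hLsM
  have hval : ∀ w ∈ Ls κ, ap (gr (fun w => sU (img (fun u => ap (ap f u) w)
      (ZFSet.sep (fun u => u ∈ a) (Init w)))) (Ls κ)) w = sU (img (fun u => ap (ap f u) w)
      (ZFSet.sep (fun u => u ∈ a) (Init w))) := fun w hw => ap_gr hw
  refine ⟨_, hgM, ?_, ?_⟩
  · intro w hw
    rw [hval w hw]
    exact fin_sup hS.kap (h := fun u => ap (ap f u) w) (fun u hu => (hfs u hu).2.1 w hw) w hw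
  · intro b hb hbr hbT htb hfre
    -- each stage is passed
    have key : ∀ u ∈ b, t ∈ Init u → ∃ v ∈ b, snd (stt κ D r t T u) ∈ snd (stt κ D r t T v) := by
      intro u hu htu
      by_contra hcon
      push Not at hcon
      have huL : u ∈ Ls κ := hbr.sub hu
      have hua : u ∈ a := by
        rw [ha]
        exact ZFSet.mem_sep.2 ⟨hbT hu, htu⟩
      have hsame : ∀ v ∈ Ls κ, v ∈ b → u ∈ Init v → stt κ D r t T v = stt κ D r t T u ∧
          (v ≠ u → ¬ Good κ (ap D (snd (stt κ D r t T u))) (fst (stt κ D r t T u)) v) := by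
        refine Ls_ind (b := κ) (p := fun v => v ∈ b → u ∈ Init v →
          stt κ D r t T v = stt κ D r t T u ∧
          (v ≠ u → ¬ Good κ (ap D (snd (stt κ D r t T u))) (fst (stt κ D r t T u)) v)) ?_ ?_
        · intro _ hu0
          rw [mem_Init_empty.1 hu0]
          exact ⟨rfl, fun h => absurd rfl h⟩
        · intro w hw ih x _ hwb huw
          by_cases h1 : ZFSet.pair w x = u
          · rw [h1]
            exact ⟨rfl, fun h => absurd rfl h⟩
          · have huw' : u ∈ Init w := by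
              rcases mem_Init_pair.1 huw with h2 | h2
              · exact absurd h2.symm h1
              · exact h2
            have h2 := (ih (hbr.init _ hwb Init_pair_self) huw').1
            rcases hS.step (x := x) hw with ⟨h3, h4⟩ | ⟨_, S1, h3, _⟩
            · rw [h2] at h3 h4
              exact ⟨h3, fun _ hg => h4 ⟨Init_trans htu huw, hg⟩⟩
            · exfalso
              refine hcon _ hwb ?_
              rw [h3, snd_pair, h2]
              exact ZFSet.mem_insert_iff.2 (Or.inl rfl)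
      have hbB : b ⊆ BadT κ (ap D (snd (stt κ D r t T u))) (fst (stt κ D r t T u)) u := by
        obtain ⟨hSM, s, hs⟩ := mem_PL.1 (hS.state_PL huL)
        intro v hv
        have hvL : v ∈ Ls κ := hbr.sub hv
        rcases hbr.linear hv hu with h1 | h1
        · exact ZFSet.mem_sep.2 ⟨hs.init (hS.TT_cur (hbT hu)) h1, Or.inl h1⟩
        · refine ZFSet.mem_sep.2 ⟨?_, Or.inr ⟨h1, fun w hw huw hne => ?_⟩⟩
          · have := hS.TT_cur (hbT hv)
            rwa [(hsame v hvL hv h1).1] at this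
          · have hwb := hbr.init v hv hw
            exact (hsame w (hbr.sub hwb) hwb huw).2 hne
      refine (hfs u hua).2.2 ⟨b, hb, hbr, hbB, hu, ?_⟩
      intro w hw huw α hα z hz
      have h6 := hfre w hw (Init_trans htu huw) α hα
      rw [hval w (hbr.sub hw)] at h6
      exact h6 (mem_sU.2 ⟨_, mem_img.2 ⟨u, ZFSet.mem_sep.2 ⟨huw, hua⟩, rfl⟩, hz⟩)
    have key2 : ∀ n : ℕ, ∃ v ∈ b, t ∈ Init v ∧ nat n ∈ snd (stt κ D r t T v) := by
      have up : ∀ v ∈ b, ∃ v' ∈ b, t ∈ Init v' ∧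
          snd (stt κ D r t T v) ⊆ snd (stt κ D r t T v') := by
        intro v hv
        rcases hbr.linear htb hv with h1 | h1
        · exact ⟨v, hv, h1, fun _ h => h⟩
        · exact ⟨t, htb, Init_self _, (hS.state_mono hS.lav.stem_Ls h1).2⟩
      intro n
      induction n with
      | zero =>
        obtain ⟨v, hv, h1⟩ := key t htb (Init_self _)
        obtain ⟨v', hv', h2, h3⟩ := up v hv
        refine ⟨v', hv', h2, ?_⟩
        obtain ⟨m, hm⟩ := mem_om.1 (hS.state_om (hbr.sub hv'))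
        have h4 := h3 h1
        rw [← hm] at h4 ⊢
        obtain ⟨k, hk, _⟩ := mem_nat.1 h4
        exact mem_nat.2 ⟨0, by omega, rfl⟩
      | succ n ih =>
        obtain ⟨u, hu, htu, h0⟩ := ih
        obtain ⟨v, hv, h1⟩ := key u hu htu
        obtain ⟨v', hv', h2, h3⟩ := up v hv
        refine ⟨v', hv', h2, ?_⟩
        obtain ⟨m, hm⟩ := mem_om.1 (hS.state_om (hbr.sub hv'))
        have h4 := h3 h1
        rw [← hm] at h4 ⊢
        obtain ⟨k, hk, hk2⟩ := mem_nat.1 h4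
        rw [hk2] at h0
        obtain ⟨j, hj, hj2⟩ := mem_nat.1 h0
        have := nat_injective hj2
        exact mem_nat.2 ⟨n + 1, by omega, rfl⟩
    intro n hn
    obtain ⟨m, rfl⟩ := mem_om.1 hn
    obtain ⟨v, hv, _, h⟩ := key2 m
    exact ⟨v, hv, h⟩

end Sit

end Pool.Agent.CM
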