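import Mathlib
import Pool.Agent.Lib.MP_f8e9b8_lc.LFus

/-!
# MP_f8e9b8_lc : deciding countably many statements
-/

set_option autoImplicit false

namespace Pool.Agent.CM

open Pool.Agent.CR (V Fml cons Sat nat cons_zero cons_succ)

variable {M : Set V}

open Classical in
/-- the state before the node `w` -/
noncomputable def prv (κ D r t T w : V) : V :=
  if w = ∅ then ZFSet.pair T ∅ else stt κ D r t T (fst w)

/-- the node `w` respects the bounds `g` above `t` and its label is the one given by `h` -/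
def Lab (κ D r t T g D0 D1 h w : V) : Prop :=
  (w ≠ ∅ → t ∈ Init (fst w) → ap g (fst w) ⊆ snd w) ∧
  (snd (stt κ D r t T w) ≠ snd (prv κ D r t T w) →
    (snd (prv κ D r t T w) ∈ h ∧ fst (stt κ D r t T w) ∈ ap D1 (snd (prv κ D r t T w))) ∨
    (snd (prv κ D r t T w) ∉ h ∧ fst (stt κ D r t T w) ∈ ap D0 (snd (prv κ D r t T w))))

theorem DF.prv {W : Set V} (hW : IsTransModelZF W) {k D r t T w : (ℕ → V) → V} (hk : DF W k)
    (hD : DF W D) (hr : DF W r) (ht : DF W t) (hT : DF W T) (hw : DF W w) :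
    DF W (fun v => CM.prv (k v) (D v) (r v) (t v) (T v) (w v)) := by
  classical
  have := DF.ite (DP.eq hw (DF.empty hW)) (DF.pair hW hT (DF.empty hW))
    (DF.stt hW hk hD hr ht hT (DF.fst hW hw))
  refine this.congr fun v _ => ?_
  unfold CM.prv
  congr 1

theorem DP.Lab {W : Set V} (hW : IsTransModelZF W) {k D r t T g D0 D1 h w : (ℕ → V) → V}
    (hk : DF W k) (hD : DF W D) (hr : DF W r) (ht : DF W t) (hT : DF W T) (hg : DF W g)
    (h0 : DF W D0) (h1 : DF W D1) (hh : DF W h) (hw : DF W w) :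
    DP W (fun v => CM.Lab (k v) (D v) (r v) (t v) (T v) (g v) (D0 v) (D1 v) (h v) (w v)) := by
  have hs := DF.stt hW hk hD hr ht hT hw
  have hp := DF.prv hW hk hD hr ht hT hw
  refine DP.and ((DP.not (DP.eq hw (DF.empty hW))).imp
    ((DP.mem ht (DF.Init hW (DF.fst hW hw))).imp
      (DP.sub hW (DF.ap hW hg (DF.fst hW hw)) (DF.snd hW hw)))) ?_
  refine (DP.not (DP.eq (DF.snd hW hs) (DF.snd hW hp))).imp ?_
  exact ((DP.mem (DF.snd hW hp) hh).and (DP.mem (DF.fst hW hs) (DF.ap hW h1 (DF.snd hW hp)))).or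
    ((DP.not (DP.mem (DF.snd hW hp) hh)).and
      (DP.mem (DF.fst hW hs) (DF.ap hW h0 (DF.snd hW hp))))

/-- the fusion argument: below `T` there is a condition which decides countably many statements -/
theorem fusion (hM : GM M) {κ D0 D1 T : V} (hK : Kap M κ (pwr M om)) (h0 : D0 ∈ M) (h1 : D1 ∈ M)
    (hT : T ∈ PL M κ) (hO0 : ∀ n ∈ om, OpenD (PL M κ) (ap D0 n))
    (hO1 : ∀ n ∈ om, OpenD (PL M κ) (ap D1 n))
    (hd : ∀ n ∈ om, DenseD (PL M κ) (ap D0 n ∪ ap D1 n)) :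
    ∃ T' ∈ PL M κ, T' ⊆ T ∧ ∃ h ∈ M, h ⊆ om ∧ ∀ n ∈ om, ∀ S ∈ PL M κ, S ⊆ T' →
      ∃ S' ∈ PL M κ, S' ⊆ S ∧ ((n ∈ h ∧ S' ∈ ap D1 n) ∨ (n ∉ h ∧ S' ∈ ap D0 n)) := by
  have hW := hM.zf
  obtain ⟨hTM, t, hTl⟩ := mem_PL.1 hT
  have htM : t ∈ M := hW.transitive T hTM t hTl.stem
  have hLsM : Ls κ ∈ M := Ls_mem hW hK.mem
  have homM := om_mem hW
  -- the sequence of dense sets
  have hDM : gr (fun n => ap D0 n ∪ ap D1 n) om ∈ M :=
    gr_mem hW (F := fun n v => ap (v 0) n ∪ ap (v 1) n)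
      (DF.un hW (DF.ap hW (DF.v hW 1) (DF.v hW 0)) (DF.ap hW (DF.v hW 2) (DF.v hW 0)))
      (v := cons D0 fun _ => D1) (cons_mem h0 fun _ => h1) homM
  obtain ⟨D, hD0⟩ : ∃ D, D = gr (fun n => ap D0 n ∪ ap D1 n) om := ⟨_, rfl⟩
  rw [← hD0] at hDM
  have hDn : ∀ n ∈ om, ap D n = ap D0 n ∪ ap D1 n := by
    intro n hn
    rw [hD0, ap_gr hn]
  have hPM : PL M κ ∈ M := (DF.PL hW (DF.v hW 0)).mem1 (F := PL M) hK.mem
  obtain ⟨r, hrM, hr⟩ := hM.wo _ hPM
  have hS : Sit M κ (pwr M om) D r t T := by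
    refine ⟨hM, hK, hDM, fun n hn => ?_, fun n hn => ?_, hrM, hr, hTM, hTl⟩
    · rw [hDn n hn]
      refine ⟨fun x hx => ?_, fun p hp q hq hqp => ?_⟩
      · rcases ZFSet.mem_union.1 hx with h | h
        · exact (hO0 n hn).1 h
        · exact (hO1 n hn).1 h
      · rcases ZFSet.mem_union.1 hp with h | h
        · exact ZFSet.mem_union.2 (Or.inl ((hO0 n hn).2 p h q hq hqp))
        · exact ZFSet.mem_union.2 (Or.inr ((hO1 n hn).2 p h q hq hqp))
    · rw [hDn n hn]
      exact hd n hn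
  obtain ⟨g, hgM, hgF, hgb⟩ := hS.bound
  have hTT := hS.TT_mem
  have hTTl := hS.TT_lav
  -- the tree of the nodes with labels given by `h`
  let E : V → V := fun h => ZFSet.sep (fun v => ∀ w ∈ Init v, Lab κ D r t T g D0 D1 h w)
    (TT κ D r t T)
  have hvm : ∀ n, cons κ (cons D (cons r (cons t (cons T (cons g (cons D0 (cons D1
      fun _ => TT κ D r t T))))))) n ∈ M :=
    cons_mem hK.mem (cons_mem hDM (cons_mem hrM (cons_mem htM (cons_mem hTM (cons_mem hgM
      (cons_mem h0 (cons_mem h1 fun _ => hTT)))))))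
  have hEM : gr E (pwr M om) ∈ M := by
    refine gr_mem hW (F := fun h v => ZFSet.sep (fun x => ∀ w ∈ Init x,
      Lab (v 0) (v 1) (v 2) (v 3) (v 4) (v 5) (v 6) (v 7) h w) (v 8)) ?_ hvm (pwr_mem hW homM)
    refine DF.sep hW (DF.v hW 9) (P := fun x v => ∀ w ∈ Init x,
      Lab (v 1) (v 2) (v 3) (v 4) (v 5) (v 6) (v 7) (v 8) (v 0) w) ?_
    refine DP.ball hW (DF.Init hW (DF.v hW 0)) (Q := fun w v =>
      Lab (v 2) (v 3) (v 4) (v 5) (v 6) (v 7) (v 8) (v 9) (v 1) w) ?_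
    exact DP.Lab hW (DF.v hW 3) (DF.v hW 4) (DF.v hW 5) (DF.v hW 6) (DF.v hW 7) (DF.v hW 8)
      (DF.v hW 9) (DF.v hW 10) (DF.v hW 2) (DF.v hW 0)
  have hEv : ∀ h ∈ pwr M om, ap (gr E (pwr M om)) h = E h := fun h hh => ap_gr hh
  -- the part respecting the bounds
  obtain ⟨Tg, hTg⟩ : ∃ Tg, Tg = ZFSet.sep (fun v => ∀ w ∈ Init v, w ≠ ∅ → t ∈ Init (fst w) →
      ap g (fst w) ⊆ snd w) (TT κ D r t T) := ⟨_, rfl⟩
  have hTgM : Tg ∈ M := by
    rw [hTg]
    refine sep_mem hW (v := cons t fun _ => g) (P := fun x v => ∀ w ∈ Init x, w ≠ ∅ →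
      v 0 ∈ Init (fst w) → ap (v 1) (fst w) ⊆ snd w) ?_ (cons_mem htM fun _ => hgM) hTT
    refine DP.ball hW (DF.Init hW (DF.v hW 0)) (Q := fun w v => w ≠ ∅ →
      v 1 ∈ Init (fst w) → ap (v 2) (fst w) ⊆ snd w) ?_
    exact (DP.not (DP.eq (DF.v hW 0) (DF.empty hW))).imp
      ((DP.mem (DF.v hW 2) (DF.Init hW (DF.fst hW (DF.v hW 0)))).imp
        (DP.sub hW (DF.ap hW (DF.v hW 3) (DF.fst hW (DF.v hW 0))) (DF.snd hW (DF.v hW 0))))
  have hTgp : Pos M κ Tg t := by
    intro g' hg' hF'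
    have hgg : gr (fun w => ap g w ∪ ap g' w) (Ls κ) ∈ M :=
      gr_mem hW (F := fun w v => ap (v 0) w ∪ ap (v 1) w)
        (DF.un hW (DF.ap hW (DF.v hW 1) (DF.v hW 0)) (DF.ap hW (DF.v hW 2) (DF.v hW 0)))
        (v := cons g fun _ => g') (cons_mem hgM fun _ => hg') hLsM
    have hgF2 : Fn κ (gr (fun w => ap g w ∪ ap g' w) (Ls κ)) := by
      intro w hw
      rw [ap_gr hw]
      have a1 := hgF w hw
      have a2 := hF' w hw
      rcases (hK.ord.mem a1).subset_total (hK.ord.mem a2) with h | h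
      · have : ap g w ∪ ap g' w = ap g' w := ZFSet.ext fun z => by
          rw [ZFSet.mem_union]
          exact ⟨fun h' => h'.elim (fun h' => h h') id, Or.inr⟩
        rw [this]
        exact a2
      · have : ap g w ∪ ap g' w = ap g w := ZFSet.ext fun z => by
          rw [ZFSet.mem_union]
          exact ⟨fun h' => h'.elim id (fun h' => h h'), Or.inl⟩
        rw [this]
        exact a1
    obtain ⟨b, hb, b1, b2, b3, b4⟩ := hTTl.pos hW hK.ord hK.mem hTT _ hgg hgF2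
    have hval : ∀ w ∈ b, t ∈ Init w → ∀ α, ZFSet.pair w α ∈ b → ap g w ⊆ α ∧ ap g' w ⊆ α := by
      intro w hw htw α hα
      have h := b4 w hw htw α hα
      rw [ap_gr (b1.sub hw)] at h
      exact ⟨fun z hz => h (ZFSet.mem_union.2 (Or.inl hz)),
        fun z hz => h (ZFSet.mem_union.2 (Or.inr hz))⟩
    refine ⟨b, hb, b1, fun v hv => ?_, b3, fun w hw htw α hα => (hval w hw htw α hα).2⟩
    rw [hTg]
    refine ZFSet.mem_sep.2 ⟨b2 hv, fun w hw hne htw => ?_⟩
    have hwb := b1.init v hv hw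
    rcases Ls_cases (b1.sub hwb) with rfl | ⟨u, hu, x, hx, rfl⟩
    · exact absurd rfl hne
    · rw [fst_pair] at htw ⊢
      rw [snd_pair]
      exact (hval u (b1.init _ hwb Init_pair_self) htw x hwb).1
  -- passing a stage
  have hpass : ∀ w ∈ Ls κ, snd (stt κ D r t T w) ≠ snd (prv κ D r t T w) →
      snd (stt κ D r t T w) = insert (snd (prv κ D r t T w)) (snd (prv κ D r t T w)) ∧
      fst (stt κ D r t T w) ∈ ap D (snd (prv κ D r t T w)) ∧
      snd (prv κ D r t T w) ∈ om ∧ Lav κ (fst (stt κ D r t T w)) w := by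
    intro w hw hne
    rcases Ls_cases hw with rfl | ⟨u, hu, x, hx, rfl⟩
    · have e1 : prv κ D r t T ∅ = ZFSet.pair T ∅ := by rw [prv, if_pos rfl]
      rw [e1, stt_empty, snd_pair] at hne ⊢
      rcases hS.nxt_cases (S := T) (v := ∅) om_zero with ⟨h3, _⟩ | ⟨_, _, S1, h3, h4, _, h5⟩
      · rw [h3, snd_pair] at hne
        exact absurd rfl hne
      · rw [h3, fst_pair, snd_pair]
        exact ⟨rfl, h4, om_zero, h5⟩
    · have e1 : prv κ D r t T (ZFSet.pair u x) = stt κ D r t T u := by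
        rw [prv, if_neg (pair_ne_empty _ _), fst_pair]
      rw [e1] at hne ⊢
      rcases hS.step (x := x) hu with ⟨h3, _⟩ | ⟨_, S1, h3, h4, _, h5⟩
      · rw [h3] at hne
        exact absurd rfl hne
      · rw [h3, fst_pair, snd_pair]
        exact ⟨rfl, h4, hS.state_om hu, h5⟩
  -- every branch respects some label
  obtain ⟨h, hh, hpos⟩ := hTgp.complete hM hK hEM hTgM (by
    intro b hb hbr hbT htb
    have hbTT : b ⊆ TT κ D r t T := fun v hv => by
      have := hbT hv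
      rw [hTg] at this
      exact (ZFSet.mem_sep.1 this).1
    have hhM : ZFSet.sep (fun n => ∃ w ∈ b, snd (stt κ D r t T w) ≠ snd (prv κ D r t T w) ∧
        snd (prv κ D r t T w) = n ∧ fst (stt κ D r t T w) ∈ ap D1 n) om ∈ M := by
      refine sep_mem hW (v := cons κ (cons D (cons r (cons t (cons T (cons b fun _ => D1))))))
        (P := fun n v => ∃ w ∈ v 5, snd (stt (v 0) (v 1) (v 2) (v 3) (v 4) w) ≠
          snd (prv (v 0) (v 1) (v 2) (v 3) (v 4) w) ∧
          snd (prv (v 0) (v 1) (v 2) (v 3) (v 4) w) = n ∧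
          fst (stt (v 0) (v 1) (v 2) (v 3) (v 4) w) ∈ ap (v 6) n) ?_
        (cons_mem hK.mem (cons_mem hDM (cons_mem hrM (cons_mem htM (cons_mem hTM (cons_mem hb
          fun _ => h1)))))) homM
      refine DP.bex hW (DF.v hW 6) (Q := fun w v => snd (stt (v 1) (v 2) (v 3) (v 4) (v 5) w) ≠
          snd (prv (v 1) (v 2) (v 3) (v 4) (v 5) w) ∧
          snd (prv (v 1) (v 2) (v 3) (v 4) (v 5) w) = v 0 ∧
          fst (stt (v 1) (v 2) (v 3) (v 4) (v 5) w) ∈ ap (v 7) (v 0)) ?_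
      have e1 := DF.stt hW (DF.v hW 2) (DF.v hW 3) (DF.v hW 4) (DF.v hW 5) (DF.v hW 6) (DF.v hW 0)
      have e2 := DF.prv hW (DF.v hW 2) (DF.v hW 3) (DF.v hW 4) (DF.v hW 5) (DF.v hW 6) (DF.v hW 0)
      exact (DP.not (DP.eq (DF.snd hW e1) (DF.snd hW e2))).and
        ((DP.eq (DF.snd hW e2) (DF.v hW 1)).and (DP.mem (DF.fst hW e1)
          (DF.ap hW (DF.v hW 8) (DF.v hW 1))))
    refine ⟨_, mem_pwr.2 ⟨hhM, sep_sub⟩, ?_⟩
    rw [hEv _ (mem_pwr.2 ⟨hhM, sep_sub⟩)]
    intro v hv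
    refine ZFSet.mem_sep.2 ⟨hbTT hv, fun w hw => ?_⟩
    have hwb := hbr.init v hv hw
    have hwL := hbr.sub hwb
    refine ⟨?_, fun hne => ?_⟩
    · have h3 := hbT hwb
      rw [hTg] at h3
      exact (ZFSet.mem_sep.1 h3).2 w (Init_self _)
    · obtain ⟨p1, p2, p3, _⟩ := hpass w hwL hne
      by_cases h4 : fst (stt κ D r t T w) ∈ ap D1 (snd (prv κ D r t T w))
      · exact Or.inl ⟨ZFSet.mem_sep.2 ⟨p3, w, hwb, hne, rfl, h4⟩, h4⟩
      · right
        refine ⟨fun h5 => ?_, ?_⟩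
        · obtain ⟨_, w', hw'b, hne', h6, h7⟩ := ZFSet.mem_sep.1 h5
          -- the node where a stage is passed is unique
          have huniq : ∀ w ∈ b, ∀ w' ∈ b, snd (stt κ D r t T w) ≠ snd (prv κ D r t T w) →
              snd (prv κ D r t T w') = snd (prv κ D r t T w) → w ∈ Init w' → w = w' := by
            intro w hwb w' hw'b hne h6 hww'
            by_contra hcon
            rcases Ls_cases (hbr.sub hw'b) with rfl | ⟨u, hu, x, hx, rfl⟩
            · exact hcon (mem_Init_empty.1 hww')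
            · rcases mem_Init_pair.1 hww' with h8 | h8
              · exact hcon h8
              · have e1 : prv κ D r t T (ZFSet.pair u x) = stt κ D r t T u := by
                  rw [prv, if_neg (pair_ne_empty _ _), fst_pair]
                have h9 := (hS.state_mono hu h8).2
                rw [← e1, h6, (hpass w (hbr.sub hwb) hne).1] at h9
                exact ZFSet.mem_irrefl _ (h9 (ZFSet.mem_insert_iff.2 (Or.inl rfl)))
          have hww : w = w' := by
            rcases hbr.linear hwb hw'b with h8 | h8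
            · exact huniq w hwb w' hw'b hne h6 h8
            · exact (huniq w' hw'b w hwb hne' h6.symm h8).symm
          rw [← hww] at h7
          exact h4 h7
        · rw [hDn _ p3] at p2
          rcases ZFSet.mem_union.1 p2 with h5 | h5
          · exact h5
          · exact absurd h5 h4)
  obtain ⟨hhM, hho⟩ := mem_pwr.1 hh
  rw [hEv h hh] at hpos
  have hEhM : E h ∈ M := by
    have h2 := ap_mem hW hEM hhM
    rwa [hEv h hh] at h2
  have hETT : E h ⊆ TT κ D r t T := sep_sub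
  have hETr : Tree κ (E h) := by
    refine ⟨fun v hv => (hS.mem_TT.1 (hETT hv)).1, fun v hv w hw => ?_⟩
    obtain ⟨h2, h3⟩ := ZFSet.mem_sep.1 hv
    exact ZFSet.mem_sep.2 ⟨hS.TT_init h2 hw, fun x hx => h3 x (Init_trans hx hw)⟩
  have hL := hpos.lav hM hK.mem hK.zero hEhM hETr
  have hPtM := Pt_mem hW hK.mem hEhM htM
  have hPtE : Pt M κ (E h) t ⊆ E h := sep_sub
  refine ⟨_, mem_PL.2 ⟨hPtM, t, hL⟩, fun x hx => hS.TT_sub (hETT (hPtE hx)), h, hhM, hho, ?_⟩
  intro n hn S hSP hST'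
  obtain ⟨hSM, s, hSl⟩ := mem_PL.1 hSP
  have hts : t ∈ Init s := hSl.stem_ext hK.succ (fun x hx => hL.cmp (hST' hx)) hTl.stem_Ls
  obtain ⟨b, hb, b1, b2, b3, _⟩ := hSl.pos hW hK.ord hK.mem hSM g hgM hgF
  have htb : t ∈ b := b1.init s b3 hts
  have hbE : b ⊆ E h := fun x hx => hPtE (hST' (b2 hx))
  have hbTT : b ⊆ TT κ D r t T := fun x hx => hETT (hbE hx)
  have hfre : Fre g b t := by
    intro u hu htu α hα
    have h3 := ((ZFSet.mem_sep.1 (hbE hα)).2 _ (Init_self _)).1 (pair_ne_empty _ _)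
    rw [fst_pair, snd_pair] at h3
    exact h3 htu
  obtain ⟨v, hv, hnv⟩ := hgb b hb b1 hbTT htb hfre n hn
  -- the node at which the stage `n` is passed
  have hex : ∀ v ∈ Ls κ, v ∈ b → n ∈ snd (stt κ D r t T v) →
      ∃ w ∈ b, snd (prv κ D r t T w) = n ∧ snd (stt κ D r t T w) ≠ n := by
    refine Ls_ind (b := κ) (p := fun v => v ∈ b → n ∈ snd (stt κ D r t T v) →
      ∃ w ∈ b, snd (prv κ D r t T w) = n ∧ snd (stt κ D r t T w) ≠ n) ?_ ?_
    · intro h3 h4
      have e1 : prv κ D r t T ∅ = ZFSet.pair T ∅ := by rw [prv, if_pos rfl]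
      have h6 : snd (stt κ D r t T ∅) ≠ n := by
        intro h5
        rw [h5] at h4
        exact ZFSet.mem_irrefl _ h4
      refine ⟨∅, h3, ?_, h6⟩
      rw [e1, snd_pair]
      have hne : snd (stt κ D r t T ∅) ≠ snd (prv κ D r t T ∅) := by
        rw [e1, snd_pair]
        intro h5
        rw [h5] at h4
        exact ZFSet.notMem_empty _ h4
      have h5 := (hpass ∅ (Ls_nil κ) hne).1
      rw [h5, e1, snd_pair] at h4
      rcases ZFSet.mem_insert_iff.1 h4 with h7 | h7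
      · exact h7.symm
      · exact absurd h7 (ZFSet.notMem_empty _)
    · intro u hu ih x hx h3 h4
      have hub := b1.init _ h3 Init_pair_self
      by_cases h5 : n ∈ snd (stt κ D r t T u)
      · exact ih hub h5
      · have e1 : prv κ D r t T (ZFSet.pair u x) = stt κ D r t T u := by
          rw [prv, if_neg (pair_ne_empty _ _), fst_pair]
        have hne : snd (stt κ D r t T (ZFSet.pair u x)) ≠
            snd (prv κ D r t T (ZFSet.pair u x)) := by
          rw [e1]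
          intro h6
          rw [h6] at h4
          exact h5 h4
        have h6 := (hpass _ (Ls_pair.2 ⟨hu, hx⟩) hne).1
        rw [e1] at h6
        refine ⟨_, h3, ?_, ?_⟩
        · rw [e1]
          rw [h6] at h4
          rcases ZFSet.mem_insert_iff.1 h4 with h7 | h7
          · exact h7.symm
          · exact absurd h7 h5
        · intro h7
          rw [h7] at h4
          exact ZFSet.mem_irrefl _ h4
  obtain ⟨w, hwb, hw1, hw2⟩ := hex v (b1.sub hv) hv hnv
  have hwL := b1.sub hwb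
  have hne : snd (stt κ D r t T w) ≠ snd (prv κ D r t T w) := by
    rw [hw1]
    exact hw2
  obtain ⟨_, _, _, hw3⟩ := hpass w hwL hne
  have hlab := ((ZFSet.mem_sep.1 (hbE hwb)).2 w (Init_self _)).2 hne
  rw [hw1] at hlab
  -- elements above `w` belong to the new tree
  have habove : ∀ x ∈ S, w ∈ Init x → x ∈ fst (stt κ D r t T w) := by
    intro x hx hwx
    have hxTT : x ∈ TT κ D r t T := hETT (hPtE (hST' hx))
    exact (hS.state_mono (hSl.sub hx) hwx).1 (hS.TT_cur hxTT)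
  -- the longer one of the two nodes
  obtain ⟨v', hv'b, hsv', hwv'⟩ : ∃ v' ∈ b, s ∈ Init v' ∧ w ∈ Init v' := by
    rcases b1.linear b3 hwb with h3 | h3
    · exact ⟨w, hwb, h3, Init_self _⟩
    · exact ⟨s, b3, Init_self _, h3⟩
  have hSv' := hSl.sbt (b2 hv'b) hsv'
  have hSv'M : sbt S v' ∈ M := (DF.sbt hW (DF.v hW 0) (DF.v hW 1)).mem2 (F := CM.sbt) hSM
    (hW.transitive _ hSM _ (b2 hv'b))
  have hSv'P : sbt S v' ∈ PL M κ := mem_PL.2 ⟨hSv'M, _, hSv'⟩
  have hsubn : sbt S v' ⊆ fst (stt κ D r t T w) := by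
    intro x hx
    obtain ⟨h3, h4⟩ := mem_sbt.1 hx
    rcases h4 with h4 | h4
    · rcases Init_linear h4 hwv' with h5 | h5
      · exact hw3.init hw3.stem h5
      · exact habove x h3 h5
    · exact habove x h3 (Init_trans hwv' h4)
  refine ⟨_, hSv'P, sbt_sub, ?_⟩
  rcases hlab with ⟨h3, h4⟩ | ⟨h3, h4⟩
  · exact Or.inl ⟨h3, (hO1 n hn).2 _ h4 _ hSv'P hsubn⟩
  · exact Or.inr ⟨h3, (hO0 n hn).2 _ h4 _ hSv'P hsubn⟩

end Pool.Agent.CM
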