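import Mathlib
import Pool.Agent.Lib.MP_f8e9b8_lc.Forc4
import Pool.Agent.Lib.MP_f8e9b8_lc.LFus2

/-!
# MP_f8e9b8_lc : no new reals
-/

set_option autoImplicit false

namespace Pool.Agent.CM

open Pool.Agent.CR (V Fml cons Sat nat cons_zero cons_succ)

variable {W M : Set V} {P t : V} {G : Set V}

/-- the membership of the elements of `A` in a set of the extension is decided by open sets -/
theorem names_real (hW : IsTransModelZF M) (hG : Gen M P t G) {A x : V} (hA : A ∈ M)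
    (hx : x ∈ Ext M G) : ∃ D0 ∈ M, ∃ D1 ∈ M, ∀ n ∈ A, OpenD P (ap D0 n) ∧ OpenD P (ap D1 n) ∧
      DenseD P (ap D0 n ∪ ap D1 n) ∧ (∀ p ∈ G, p ∈ ap D0 n → n ∉ x) ∧
      (∀ p ∈ G, p ∈ ap D1 n → n ∈ x) := by
  obtain ⟨τ, hτ, rfl⟩ := hx
  have hPM := hG.memP
  have htM := hG.tM hW
  have h1 : gr (fun n => ZFSet.sep (fun p => fMem P p (ck t n) τ) P) A ∈ M := by
    refine gr_mem hW (F := fun n v => ZFSet.sep (fun p => fMem (v 0) p (ck (v 1) n) (v 2)) (v 0)) ?_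
      (v := cons P (cons t fun _ => τ)) (cons_mem hPM (cons_mem htM fun _ => hτ)) hA
    refine DF.sep hW (DF.v hW 1) (P := fun p v => fMem (v 1) p (ck (v 2) (v 0)) (v 3)) ?_
    exact DP.fMem hW (DF.v hW 2) (DF.v hW 0) (DF.ck hW (DF.v hW 3) (DF.v hW 1)) (DF.v hW 4)
  have h0 : gr (fun n => ZFSet.sep (fun p => ∀ q ∈ P, q ⊆ p → ¬ fMem P q (ck t n) τ) P) A ∈ M := by
    refine gr_mem hW (F := fun n v => ZFSet.sep (fun p => ∀ q ∈ v 0, q ⊆ p →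
      ¬ fMem (v 0) q (ck (v 1) n) (v 2)) (v 0)) ?_
      (v := cons P (cons t fun _ => τ)) (cons_mem hPM (cons_mem htM fun _ => hτ)) hA
    refine DF.sep hW (DF.v hW 1) (P := fun p v => ∀ q ∈ v 1, q ⊆ p →
      ¬ fMem (v 1) q (ck (v 2) (v 0)) (v 3)) ?_
    refine DP.ball hW (DF.v hW 2) (Q := fun q v => q ⊆ v 0 →
      ¬ fMem (v 2) q (ck (v 3) (v 1)) (v 4)) ?_
    exact (DP.sub hW (DF.v hW 0) (DF.v hW 1)).imp (DP.not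
      (DP.fMem hW (DF.v hW 3) (DF.v hW 0) (DF.ck hW (DF.v hW 4) (DF.v hW 2)) (DF.v hW 5)))
  refine ⟨_, h0, _, h1, fun n hn => ?_⟩
  rw [ap_gr hn, ap_gr hn]
  have hnM : n ∈ M := hW.transitive A hA n hn
  have hck : ck t n ∈ M := ck_mem hW htM hnM
  refine ⟨⟨sep_sub, fun p hp q hq hqp => ?_⟩, ⟨sep_sub, fun p hp q hq hqp => ?_⟩, fun p hp => ?_,
    fun p hp hpD hnx => ?_, fun p hp hpD => ?_⟩
  · exact ZFSet.mem_sep.2 ⟨hq, fun q1 h2 h3 => (ZFSet.mem_sep.1 hp).2 q1 h2 (sub_trans h3 hqp)⟩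
  · exact ZFSet.mem_sep.2 ⟨hq, fMem_mono (ZFSet.mem_sep.1 hp).2 hqp⟩
  · by_cases h2 : ∃ q ∈ P, q ⊆ p ∧ fMem P q (ck t n) τ
    · obtain ⟨q, hq, h3, h4⟩ := h2
      exact ⟨q, ZFSet.mem_union.2 (Or.inr (ZFSet.mem_sep.2 ⟨hq, h4⟩)), h3⟩
    · push Not at h2
      exact ⟨p, ZFSet.mem_union.2 (Or.inl (ZFSet.mem_sep.2 ⟨hp, h2⟩)), sub_rfl⟩
  · rw [← val_ck hG.topG n] at hnx
    obtain ⟨p', hp', h2⟩ := (truth_mem hW hG hck hτ).1 hnx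
    obtain ⟨q, hq, h3, h4⟩ := hG.dir p hp p' hp'
    exact (ZFSet.mem_sep.1 hpD).2 q (hG.sub _ hq) h3 (fMem_mono h2 h4)
  · have := (truth_mem hW hG hck hτ).2 ⟨p, hp, (ZFSet.mem_sep.1 hpD).2⟩
    rwa [val_ck hG.topG n] at this

/-- the extension has no new reals -/
theorem no_new_reals (hM : GM M) {κ : V} (hK : Kap M κ (pwr M om)) (hG : Gen M (PL M κ) t G)
    {x : V} (hx : x ∈ Ext M G) (hxo : x ⊆ om) : x ∈ M := by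
  have hW := hM.zf
  have homM := om_mem hW
  obtain ⟨D0, hD0, D1, hD1, hD⟩ := names_real hW hG homM hx
  have hZ : ZFSet.sep (fun T' => ∃ h ∈ pwr M om, ∀ n ∈ om, ∀ S ∈ PL M κ, S ⊆ T' →
      ∃ S' ∈ PL M κ, S' ⊆ S ∧ ((n ∈ h ∧ S' ∈ ap D1 n) ∨ (n ∉ h ∧ S' ∈ ap D0 n))) (PL M κ) ∈ M := by
    refine sep_mem' hW (v := cons (pwr M om) (cons om (cons (PL M κ) (cons D1 fun _ => D0))))
      (P := fun T' v => ∃ h ∈ v 0, ∀ n ∈ v 1, ∀ S ∈ v 2, S ⊆ T' →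
      ∃ S' ∈ v 2, S' ⊆ S ∧ ((n ∈ h ∧ S' ∈ ap (v 3) n) ∨ (n ∉ h ∧ S' ∈ ap (v 4) n))) ?_
      (cons_mem (pwr_mem hW homM) (cons_mem homM (cons_mem hG.memP (cons_mem hD1 fun _ => hD0))))
      hG.memP (fun _ _ => Iff.rfl)
    -- 0 T', 1 reals, 2 om, 3 PL, 4 D1, 5 D0
    refine DP.bex hW (DF.v hW 1) (Q := fun h v => ∀ n ∈ v 2, ∀ S ∈ v 3, S ⊆ v 0 →
      ∃ S' ∈ v 3, S' ⊆ S ∧ ((n ∈ h ∧ S' ∈ ap (v 4) n) ∨ (n ∉ h ∧ S' ∈ ap (v 5) n))) ?_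
    refine DP.ball hW (DF.v hW 3) (Q := fun n v => ∀ S ∈ v 4, S ⊆ v 1 →
      ∃ S' ∈ v 4, S' ⊆ S ∧ ((n ∈ v 0 ∧ S' ∈ ap (v 5) n) ∨ (n ∉ v 0 ∧ S' ∈ ap (v 6) n))) ?_
    refine DP.ball hW (DF.v hW 5) (Q := fun S v => S ⊆ v 2 →
      ∃ S' ∈ v 5, S' ⊆ S ∧ ((v 0 ∈ v 1 ∧ S' ∈ ap (v 6) (v 0)) ∨
        (v 0 ∉ v 1 ∧ S' ∈ ap (v 7) (v 0)))) ?_
    refine (DP.sub hW (DF.v hW 0) (DF.v hW 3)).imp ?_
    refine DP.bex hW (DF.v hW 6) (Q := fun S' v => S' ⊆ v 0 ∧ ((v 1 ∈ v 2 ∧ S' ∈ ap (v 7) (v 1)) ∨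
        (v 1 ∉ v 2 ∧ S' ∈ ap (v 8) (v 1)))) ?_
    exact (DP.sub hW (DF.v hW 0) (DF.v hW 1)).and (DP.or
      ((DP.mem (DF.v hW 2) (DF.v hW 3)).and (DP.mem (DF.v hW 0) (DF.ap hW (DF.v hW 8) (DF.v hW 2))))
      ((DP.not (DP.mem (DF.v hW 2) (DF.v hW 3))).and
        (DP.mem (DF.v hW 0) (DF.ap hW (DF.v hW 9) (DF.v hW 2)))))
  obtain ⟨T', hT', hT'Z⟩ := hG.gen _ hZ sep_sub (by
    intro T hT
    obtain ⟨T', h1, h2, h, h3, h4, h5⟩ := fusion hM hK hD0 hD1 hT (fun n hn => (hD n hn).1)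
      (fun n hn => (hD n hn).2.1) (fun n hn => (hD n hn).2.2.1)
    exact ⟨T', ZFSet.mem_sep.2 ⟨h1, h, mem_pwr.2 ⟨h3, h4⟩, h5⟩, h2⟩)
  obtain ⟨_, h, hh, hdec⟩ := ZFSet.mem_sep.1 hT'Z
  obtain ⟨hhM, hho⟩ := mem_pwr.1 hh
  have key : ∀ n ∈ om, ∀ D ∈ M, (∀ S ∈ PL M κ, S ⊆ T' → ∃ S' ∈ PL M κ, S' ⊆ S ∧ S' ∈ ap D n) →
      ∃ d ∈ G, d ∈ ap D n := by
    intro n hn D hD hd
    have hnM : n ∈ M := hW.transitive _ homM n hn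
    have h1 : ZFSet.sep (fun S' => S' ∈ ap D n) (PL M κ) ∈ M := by
      refine sep_mem' hW (v := fun _ => ap D n) (P := fun S' v => S' ∈ v 0) ?_
        (const_mem (ap_mem hW hD hnM)) hG.memP (fun _ _ => Iff.rfl)
      exact DP.mem (DF.v hW 0) (DF.v hW 1)
    obtain ⟨d, hd1, hd2⟩ := hG.below hW h1 sep_sub hT' (by
      intro q hq hqT
      obtain ⟨S', h2, h3, h4⟩ := hd q hq hqT
      exact ⟨S', ZFSet.mem_sep.2 ⟨h2, h4⟩, h3⟩)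
    exact ⟨d, hd1, (ZFSet.mem_sep.1 hd2).2⟩
  have : x = h := by
    refine ZFSet.ext fun n => ⟨fun hn => ?_, fun hn => ?_⟩
    · by_contra hnh
      obtain ⟨d, hd1, hd2⟩ := key n (hxo hn) D0 hD0 (by
        intro S hS hST
        obtain ⟨S', h1, h2, h3⟩ := hdec n (hxo hn) S hS hST
        rcases h3 with h3 | h3
        · exact absurd h3.1 hnh
        · exact ⟨S', h1, h2, h3.2⟩)
      exact (hD n (hxo hn)).2.2.2.1 d hd1 hd2 hn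
    · obtain ⟨d, hd1, hd2⟩ := key n (hho hn) D1 hD1 (by
        intro S hS hST
        obtain ⟨S', h1, h2, h3⟩ := hdec n (hho hn) S hS hST
        rcases h3 with h3 | h3
        · exact ⟨S', h1, h2, h3.2⟩
        · exact absurd hn h3.1)
      exact (hD n (hho hn)).2.2.2.2 d hd1 hd2
  rw [this]
  exact hhM

end Pool.Agent.CM
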