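import Mathlib
import Pool.Agent.Lib.MP_f8e9b8_lc.Util

/-!
# MP_f8e9b8_lc : surjections onto ordinals; regular cardinals which are not measurable
-/

set_option autoImplicit false

namespace Pool.Agent.CM

open Pool.Agent.CR (V Fml cons Sat nat cons_zero cons_succ)

variable {M : Set V}

/-! ### enumerations -/

open Classical in
/-- enumeration of `X` along the ordinals -/
noncomputable def en (r X : V) : V → V := rec0 fun ξ h =>
  if X \ img (fun y => ap h y) ξ = ∅ then X else lea r (X \ img (fun y => ap h y) ξ)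

open Classical in
theorem en_eq (r X ξ : V) : en r X ξ =
    if X \ img (en r X) ξ = ∅ then X else lea r (X \ img (en r X) ξ) := by
  have h : img (fun y => ap (gr (en r X) ξ) y) ξ = img (en r X) ξ :=
    img_congr fun y hy => ap_gr hy
  conv_lhs => rw [en, rec0_eq]
  rw [← en, h]

theorem DF.en (hW : IsTransModelZF M) : DF3 M CM.en := by
  classical
  refine DF.rec0 hW (G := fun v ξ h => if v 1 \ CM.img (fun y => CM.ap h y) ξ = ∅ then v 1 else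
    CM.lea (v 0) (v 1 \ CM.img (fun y => CM.ap h y) ξ)) ?_ (DF.v hW 2)
  have h1 : DF M (fun v => v 3 \ CM.img (fun y => CM.ap (v 1) y) (v 0)) :=
    DF.diff hW (DF.v hW 3) (DF.img hW (DF.v hW 0) (g := fun y v => CM.ap (v 1) y)
      (DF.ap hW (DF.v hW 2) (DF.v hW 0)))
  exact DF.ite (DP.eq h1 (DF.empty hW)) (DF.v hW 3) (DF.lea hW (DF.v hW 2) h1)

theorem ne_empty_iff {x : V} : x ≠ ∅ ↔ ∃ z, z ∈ x := by
  rw [Ne, ZFSet.eq_empty]
  push Not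
  rfl

/-- every set of a ground model is the one-to-one image of an ordinal -/
theorem enum (hM : GM M) {X : V} (hX : X ∈ M) : ∃ γ ∈ M, γ.IsOrdinal ∧ ∃ f ∈ M,
    (∀ ξ ∈ γ, ap f ξ ∈ X) ∧ (∀ x ∈ X, ∃ ξ ∈ γ, ap f ξ = x) ∧
    (∀ ξ ∈ γ, ∀ η ∈ γ, ap f ξ = ap f η → ξ = η) := by
  have hW := hM.zf
  obtain ⟨r, hr, hwo⟩ := hM.wo X hX
  have hval : ∀ ξ, X \ img (en r X) ξ ≠ ∅ → en r X ξ ∈ X ∧ en r X ξ ∉ img (en r X) ξ := by
    intro ξ hne
    rw [en_eq, if_neg hne]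
    have := (lea_spec (Z := X \ img (en r X) ξ) hwo (fun x hx => (ZFSet.mem_sdiff.1 hx).1)
      (ne_empty_iff.1 hne)).1
    exact ZFSet.mem_sdiff.1 this
  have hinj : ∀ ξ η : V, ξ.IsOrdinal → η.IsOrdinal → X \ img (en r X) ξ ≠ ∅ →
      X \ img (en r X) η ≠ ∅ → en r X ξ = en r X η → ξ = η := by
    intro ξ η hξ hη h1 h2 h3
    rcases hξ.mem_trichotomous hη with h | h | h
    · exfalso
      refine (hval η h2).2 ?_
      rw [← h3]
      exact mem_img.2 ⟨ξ, h, rfl⟩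
    · exact h
    · exfalso
      refine (hval ξ h1).2 ?_
      rw [h3]
      exact mem_img.2 ⟨η, h, rfl⟩
  have hex : ∃ ξ ∈ M, ξ.IsOrdinal ∧ X \ img (en r X) ξ = ∅ := by
    by_contra hcon
    push Not at hcon
    obtain ⟨b, hb, hbs⟩ := coll hW (R := fun x y v => (∃ ξ ∈ M, ξ.IsOrdinal ∧ en (v 0) (v 1) ξ = x) →
        y.IsOrdinal ∧ en (v 0) (v 1) y = x)
      (by
        refine DP.imp ?_ ((DP.ord hW (DF.v hW 1)).and (DP.eq (DF3.app (DF.en hW) (DF.v hW 2)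
          (DF.v hW 3) (DF.v hW 1)) (DF.v hW 0)))
        refine DP.ex (Q := fun ξ v => ξ.IsOrdinal ∧ en (v 2) (v 3) ξ = v 0) ?_
        exact (DP.ord hW (DF.v hW 0)).and (DP.eq (DF3.app (DF.en hW) (DF.v hW 3)
          (DF.v hW 4) (DF.v hW 0)) (DF.v hW 1)))
      (v := cons r fun _ => X) (cons_mem hr fun _ => hX) hX (by
        intro x _
        by_cases h : ∃ ξ ∈ M, ξ.IsOrdinal ∧ en r X ξ = x
        · obtain ⟨ξ, h1, h2, h3⟩ := h
          exact ⟨ξ, h1, fun _ => ⟨h2, h3⟩⟩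
        · exact ⟨∅, empty_mem hW, fun h' => absurd h' h⟩)
    obtain ⟨α, hα, ho, hαb⟩ := not_all_ord hW hb
    obtain ⟨y, hy, h1⟩ := hbs _ (hval α (hcon α hα ho)).1
    obtain ⟨h2, h3⟩ := h1 ⟨α, hα, ho, rfl⟩
    have h4 : y = α := hinj y α h2 ho (hcon y (hW.transitive b hb y hy) h2) (hcon α hα ho) h3
    rw [h4] at hy
    exact hαb hy
  obtain ⟨ξ, hξM, hξo, hξ⟩ := hex
  obtain ⟨γ, hγo, hγ, hmin⟩ := ord_min (P := fun ξ => X \ img (en r X) ξ = ∅) ⟨ξ, hξo, hξ⟩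
  have hγM : γ ∈ M := by
    rcases hξo.mem_trichotomous hγo with h | h | h
    · exact absurd hξ (hmin ξ h)
    · rw [← h]
      exact hξM
    · exact hW.transitive ξ hξM γ h
  have hf : gr (en r X) γ ∈ M := gr_mem hW (F := fun ξ v => en (v 0) (v 1) ξ)
    (DF3.app (DF.en hW) (DF.v hW 1) (DF.v hW 2) (DF.v hW 0)) (v := cons r fun _ => X)
    (cons_mem hr fun _ => hX) hγM
  refine ⟨γ, hγM, hγo, _, hf, fun ξ hξ => ?_, fun x hx => ?_, fun ξ hξ η hη h => ?_⟩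
  · rw [ap_gr hξ]
    exact (hval ξ (hmin ξ hξ)).1
  · by_contra hcon
    have : x ∈ X \ img (en r X) γ := by
      refine ZFSet.mem_sdiff.2 ⟨hx, fun h => ?_⟩
      obtain ⟨ξ, hξ, h1⟩ := mem_img.1 h
      exact hcon ⟨ξ, hξ, by rw [ap_gr hξ]; exact h1⟩
    rw [hγ] at this
    exact ZFSet.notMem_empty _ this
  · rw [ap_gr hξ, ap_gr hη] at h
    exact hinj ξ η (hγo.mem hξ) (hγo.mem hη) (hmin ξ hξ) (hmin η hη) h

/-! ### codes for ordinals -/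

/-- `s` is the relation on `Y` induced by a map onto `β` -/
def Cod (M : Set V) (Y s β : V) : Prop := ∃ f ∈ M, (∀ y ∈ Y, ap f y ∈ β) ∧
  (∀ ξ ∈ β, ∃ y ∈ Y, ap f y = ξ) ∧ s = ZFSet.sep (fun p => ap f (fst p) ∈ ap f (snd p))
    (ZFSet.prod Y Y)

theorem cod_uniq {Y s β β' : V} (hβ : β.IsOrdinal) (hβ' : β'.IsOrdinal) (h : Cod M Y s β)
    (h' : Cod M Y s β') : β = β' := by
  obtain ⟨f, _, f1, f2, f3⟩ := h
  obtain ⟨f', _, f1', f2', f3'⟩ := h'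
  have hs : ∀ z ∈ Y, ∀ y ∈ Y, ap f z ∈ ap f y ↔ ap f' z ∈ ap f' y := by
    intro z hz y hy
    have e1 : ZFSet.pair z y ∈ s ↔ ap f z ∈ ap f y := by
      rw [f3, ZFSet.mem_sep, ZFSet.pair_mem_prod, fst_pair, snd_pair]
      exact ⟨fun h => h.2, fun h => ⟨⟨hz, hy⟩, h⟩⟩
    have e2 : ZFSet.pair z y ∈ s ↔ ap f' z ∈ ap f' y := by
      rw [f3', ZFSet.mem_sep, ZFSet.pair_mem_prod, fst_pair, snd_pair]
      exact ⟨fun h => h.2, fun h => ⟨⟨hz, hy⟩, h⟩⟩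
    exact e1.symm.trans e2
  have key : ∀ ξ : V, ∀ y ∈ Y, ap f y = ξ → ap f' y = ξ := by
    intro ξ
    induction ξ using ZFSet.inductionOn with
    | _ ξ ih =>
      intro y hy hξ
      refine ZFSet.ext fun η => ⟨fun hη => ?_, fun hη => ?_⟩
      · obtain ⟨z, hz, hzη⟩ := f2' η (hβ'.mem_trans hη (f1' y hy))
        rw [← hzη] at hη
        have h1 := (hs z hz y hy).2 hη
        rw [hξ] at h1
        have h2 := ih _ h1 z hz rfl
        rw [← hzη, h2]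
        exact h1
      · have hη' := hη
        rw [← hξ] at hη
        obtain ⟨z, hz, hzη⟩ := f2 η (hβ.mem_trans hη (f1 y hy))
        have h2 := ih η hη' z hz hzη
        rw [← hzη] at hη
        have h1 := (hs z hz y hy).1 hη
        rw [h2] at h1
        exact h1
  refine ZFSet.ext fun η => ⟨fun hη => ?_, fun hη => ?_⟩
  · obtain ⟨z, hz, hzη⟩ := f2 η hη
    rw [← key η z hz hzη]
    exact f1' z hz
  · obtain ⟨z, hz, hzη⟩ := f2' η hη
    rw [← hzη, key (ap f z) z hz rfl]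
    exact f1 z hz

theorem DP.Cod (hW : IsTransModelZF M) : DP3 M (CM.Cod M) := by
  refine DP.ex (Q := fun f v => (∀ y ∈ v 0, CM.ap f y ∈ v 2) ∧
    (∀ ξ ∈ v 2, ∃ y ∈ v 0, CM.ap f y = ξ) ∧ v 1 = ZFSet.sep (fun p => CM.ap f (CM.fst p) ∈
      CM.ap f (CM.snd p)) (ZFSet.prod (v 0) (v 0))) ?_
  -- 0 f, 1 Y, 2 s, 3 β
  refine DP.and ?_ (DP.and ?_ (DP.eq (DF.v hW 2) ?_))
  · exact DP.ball hW (DF.v hW 1) (Q := fun y v => CM.ap (v 0) y ∈ v 3)
      (DP.mem (DF.ap hW (DF.v hW 1) (DF.v hW 0)) (DF.v hW 4))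
  · refine DP.ball hW (DF.v hW 3) (Q := fun ξ v => ∃ y ∈ v 1, CM.ap (v 0) y = ξ) ?_
    exact DP.bex hW (DF.v hW 2) (Q := fun y v => CM.ap (v 1) y = v 0)
      (DP.eq (DF.ap hW (DF.v hW 2) (DF.v hW 0)) (DF.v hW 1))
  · refine DF.sep hW (DF.prod hW (DF.v hW 1) (DF.v hW 1)) (P := fun p v => CM.ap (v 0) (CM.fst p) ∈
      CM.ap (v 0) (CM.snd p)) ?_
    exact DP.mem (DF.ap hW (DF.v hW 1) (DF.fst hW (DF.v hW 0)))
      (DF.ap hW (DF.v hW 1) (DF.snd hW (DF.v hW 0)))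

/-- a surjection with values exactly in a nonempty ordinal -/
theorem onto_exact (hW : IsTransModelZF M) {Y β δ : V} (hY : Y ∈ M) (hβ : β ∈ M) (hδ : δ ∈ β)
    (h : Onto M Y β) : ∃ f ∈ M, (∀ y ∈ Y, ap f y ∈ β) ∧ ∀ ξ ∈ β, ∃ y ∈ Y, ap f y = ξ := by
  classical
  obtain ⟨g, hg, hgs⟩ := h
  have hf : gr (fun y => if ap g y ∈ β then ap g y else δ) Y ∈ M := by
    refine gr_mem hW (F := fun y v => if ap (v 0) y ∈ v 1 then ap (v 0) y else v 2) ?_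
      (v := cons g (cons β fun _ => δ)) (cons_mem hg (cons_mem hβ fun _ =>
        hW.transitive β hβ δ hδ)) hY
    have h1 : DF M (fun v => ap (v 1) (v 0)) := DF.ap hW (DF.v hW 1) (DF.v hW 0)
    exact DF.ite (DP.mem h1 (DF.v hW 2)) h1 (DF.v hW 3)
  refine ⟨_, hf, fun y hy => ?_, fun ξ hξ => ?_⟩
  · rw [ap_gr hy]
    split_ifs with h1
    · exact h1
    · exact hδ
  · obtain ⟨y, hy, h1⟩ := hgs ξ hξ
    refine ⟨y, hy, ?_⟩
    rw [ap_gr hy, h1, if_pos hξ]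

/-- `κ` is the least ordinal which is not an image of `Y` -/
structure Th (M : Set V) (Y κ : V) : Prop where
  mem : κ ∈ M
  ord : κ.IsOrdinal
  not : ¬ Onto M Y κ
  onto : ∀ β ∈ κ, Onto M Y β

theorem Onto.mono {Y β β' : V} (h : Onto M Y β') (hs : β ⊆ β') : Onto M Y β := by
  obtain ⟨f, hf, h1⟩ := h
  exact ⟨f, hf, fun ξ hξ => h1 ξ (hs hξ)⟩

theorem Th.mem_of_onto {Y κ β : V} (hT : Th M Y κ) (hβ : β.IsOrdinal) (h : Onto M Y β) :
    β ∈ κ := by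
  rcases ord_lin hβ hT.ord with h1 | h1
  · exact h1
  · exact absurd (h.mono h1) hT.not

theorem exists_Th (hW : IsTransModelZF M) {Y : V} (hY : Y ∈ M) : ∃ κ, Th M Y κ := by
  have hex : ∃ β ∈ M, β.IsOrdinal ∧ ¬ Onto M Y β := by
    by_contra hcon
    push Not at hcon
    have hYY := prod_mem hW hY hY
    obtain ⟨b, hb, hbs⟩ := coll hW (R := fun s y v => (∃ β ∈ M, β.IsOrdinal ∧ Cod M (v 0) s β) →
        y.IsOrdinal ∧ Cod M (v 0) s y)
      (by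
        refine DP.imp ?_ ((DP.ord hW (DF.v hW 1)).and (DP3.app (DP.Cod hW) (DF.v hW 2)
          (DF.v hW 0) (DF.v hW 1)))
        refine DP.ex (Q := fun β v => β.IsOrdinal ∧ Cod M (v 2) (v 0) β) ?_
        exact (DP.ord hW (DF.v hW 0)).and (DP3.app (DP.Cod hW) (DF.v hW 3)
          (DF.v hW 1) (DF.v hW 0)))
      (v := fun _ => Y) (const_mem hY) (pwr_mem hW hYY) (by
        intro x _
        by_cases h : ∃ ξ ∈ M, ξ.IsOrdinal ∧ Cod M Y x ξ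
        · obtain ⟨ξ, h1, h2, h3⟩ := h
          exact ⟨ξ, h1, fun _ => ⟨h2, h3⟩⟩
        · exact ⟨∅, empty_mem hW, fun h' => absurd h' h⟩)
    obtain ⟨α, hα, ho, hαb⟩ := not_all_ord hW (ins_mem hW (empty_mem hW) hb)
    have hne : α ≠ ∅ := fun h => hαb (ZFSet.mem_insert_iff.2 (Or.inl h))
    obtain ⟨δ, hδ⟩ := ne_empty_iff.1 hne
    obtain ⟨f, hf, f1, f2⟩ := onto_exact hW hY hα hδ (hcon α hα ho)
    have hs : ZFSet.sep (fun p => ap f (fst p) ∈ ap f (snd p)) (ZFSet.prod Y Y) ∈ M := by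
      refine sep_mem' hW (v := fun _ => f) (P := fun p v => ap (v 0) (fst p) ∈ ap (v 0) (snd p))
        ?_ (const_mem hf) hYY (fun _ _ => Iff.rfl)
      exact DP.mem (DF.ap hW (DF.v hW 1) (DF.fst hW (DF.v hW 0)))
        (DF.ap hW (DF.v hW 1) (DF.snd hW (DF.v hW 0)))
    have hcod : Cod M Y (ZFSet.sep (fun p => ap f (fst p) ∈ ap f (snd p)) (ZFSet.prod Y Y)) α :=
      ⟨f, hf, f1, f2, rfl⟩
    obtain ⟨y, hy, h1⟩ := hbs _ (mem_pwr.2 ⟨hs, sep_sub⟩)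
    obtain ⟨h2, h3⟩ := h1 ⟨α, hα, ho, hcod⟩
    have h4 : y = α := cod_uniq h2 ho h3 hcod
    rw [h4] at hy
    exact hαb (ZFSet.mem_insert_iff.2 (Or.inr hy))
  obtain ⟨ξ, hξM, hξo, hξ⟩ := hex
  obtain ⟨γ, hγo, hγ, hmin⟩ := ord_min (P := fun ξ => ¬ Onto M Y ξ) ⟨ξ, hξo, hξ⟩
  refine ⟨γ, ?_, hγo, hγ, fun β hβ => not_not.1 (hmin β hβ)⟩
  rcases hξo.mem_trichotomous hγo with h | h | h
  · exact absurd hξ (hmin ξ h)
  · rw [← h]
    exact hξM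
  · exact hW.transitive ξ hξM γ h

/-! ### power sets of sets closed under the two injections -/

/-- the closure of `a` -/
noncomputable def Xa (a : V) : V := Cl a {nat 0, nat 1}

theorem Xa_pair {a z i : V} (hz : z ∈ Xa a) (hi : i = nat 0 ∨ i = nat 1) :
    ZFSet.pair z i ∈ Xa a := Cl_pair hz (ZFSet.mem_pair.2 hi)

theorem Xa_mem (hW : IsTransModelZF M) {a : V} (ha : a ∈ M) : Xa a ∈ M :=
  (DF.Cl hW (DF.v hW 0) (DF.dbl hW (DF.nat hW 0) (DF.nat hW 1))).mem1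
    (F := fun a => Cl a {nat 0, nat 1}) ha

/-- decoding -/
noncomputable def dd (X i c : V) : V := ZFSet.sep (fun z => ZFSet.pair z i ∈ c) X

theorem DF.dd (hW : IsTransModelZF M) {X i c : (ℕ → V) → V} (hX : DF M X) (hi : DF M i)
    (hc : DF M c) : DF M (fun v => CM.dd (X v) (i v) (c v)) := by
  refine DF3.app (F := CM.dd) ?_ hX hi hc
  refine DF.sep hW (DF.v hW 0) (P := fun z v => ZFSet.pair z (v 1) ∈ v 2) ?_
  exact DP.mem (DF.pair hW (DF.v hW 0) (DF.v hW 2)) (DF.v hW 3)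

theorem code (hW : IsTransModelZF M) {a x y : V} (hx : x ∈ pwr M (Xa a))
    (hy : y ∈ pwr M (Xa a)) : ∃ c ∈ pwr M (Xa a), dd (Xa a) (nat 0) c = x ∧
      dd (Xa a) (nat 1) c = y := by
  obtain ⟨hxM, hxX⟩ := mem_pwr.1 hx
  obtain ⟨hyM, hyX⟩ := mem_pwr.1 hy
  have h01 : nat 0 ≠ nat 1 := fun h => by
    have := nat_injective h
    omega
  have h1 : ∀ i : ℕ, ∀ u ∈ M, img (fun z => ZFSet.pair z (nat i)) u ∈ M := by
    intro i u hu
    exact img_mem hW (g := fun z v => ZFSet.pair z (v 0))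
      (DF.pair hW (DF.v hW 0) (DF.v hW 1)) (const_mem (nat_mem hW i)) hu
  have key : ∀ (i j : ℕ) (u w : V), nat i ≠ nat j → u ⊆ Xa a →
      dd (Xa a) (nat i) (img (fun z => ZFSet.pair z (nat i)) u ∪
        img (fun z => ZFSet.pair z (nat j)) w) = u := by
    intro i j u w hij hu
    refine ZFSet.ext fun z => ?_
    rw [dd, ZFSet.mem_sep, ZFSet.mem_union, mem_img, mem_img]
    constructor
    · rintro ⟨_, ⟨z', hz', h⟩ | ⟨z', hz', h⟩⟩
      · obtain ⟨rfl, _⟩ := ZFSet.pair_inj.1 h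
        exact hz'
      · exact absurd (ZFSet.pair_inj.1 h).2.symm hij
    · intro hz
      exact ⟨hu hz, Or.inl ⟨z, hz, rfl⟩⟩
  refine ⟨img (fun z => ZFSet.pair z (nat 0)) x ∪ img (fun z => ZFSet.pair z (nat 1)) y,
    mem_pwr.2 ⟨un_mem hW (h1 0 x hxM) (h1 1 y hyM), fun z hz => ?_⟩, key 0 1 x y h01 hxX, ?_⟩
  · rcases ZFSet.mem_union.1 hz with h | h
    · obtain ⟨w, hw, rfl⟩ := mem_img.1 h
      exact Xa_pair (hxX hw) (Or.inl rfl)
    · obtain ⟨w, hw, rfl⟩ := mem_img.1 h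
      exact Xa_pair (hyX hw) (Or.inr rfl)
  · have e : img (fun z => ZFSet.pair z (nat 0)) x ∪ img (fun z => ZFSet.pair z (nat 1)) y =
        img (fun z => ZFSet.pair z (nat 1)) y ∪ img (fun z => ZFSet.pair z (nat 0)) x :=
      ZFSet.ext fun z => by rw [ZFSet.mem_union, ZFSet.mem_union, or_comm]
    rw [e]
    exact key 1 0 y x h01.symm hyX

/-- functions from `Y` to `κ` are bounded -/
theorem Th.bd (hM : GM M) {a κ f : V} (ha : a ∈ M) (hT : Th M (pwr M (Xa a)) κ) (hf : f ∈ M)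
    (hfκ : ∀ y ∈ pwr M (Xa a), ap f y ∈ κ) : ∃ β ∈ κ, ∀ y ∈ pwr M (Xa a), ap f y ⊆ β := by
  have hW := hM.zf
  have hX := Xa_mem hW ha
  have hY := pwr_mem hW hX
  by_contra hcon
  push Not at hcon
  obtain ⟨g, hg, hgs⟩ := hM.choose (R := fun β g v => ∀ ξ ∈ β, ∃ y ∈ v 0, ap g y = ξ)
    (by
      refine DP.ball hW (DF.v hW 0) (Q := fun ξ v => ∃ y ∈ v 2, ap (v 1) y = ξ) ?_
      exact DP.bex hW (DF.v hW 3) (Q := fun y v => ap (v 2) y = v 0)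
        (DP.eq (DF.ap hW (DF.v hW 3) (DF.v hW 0)) (DF.v hW 1)))
    (v := fun _ => pwr M (Xa a)) (const_mem hY) hT.mem (fun β hβ => by
      obtain ⟨g, hg, h⟩ := hT.onto β hβ
      exact ⟨g, hg, h⟩)
  refine hT.not ⟨gr (fun c => ap (ap g (ap f (dd (Xa a) (nat 0) c))) (dd (Xa a) (nat 1) c))
    (pwr M (Xa a)), ?_, fun ξ hξ => ?_⟩
  · refine gr_mem hW (F := fun c v => ap (ap (v 0) (ap (v 1) (dd (v 2) (nat 0) c)))
      (dd (v 2) (nat 1) c)) ?_ (v := cons g (cons f fun _ => Xa a))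
      (cons_mem hg (cons_mem hf fun _ => hX)) hY
    exact DF.ap hW (DF.ap hW (DF.v hW 1) (DF.ap hW (DF.v hW 2) (DF.dd hW (DF.v hW 3)
      (DF.nat hW 0) (DF.v hW 0)))) (DF.dd hW (DF.v hW 3) (DF.nat hW 1) (DF.v hW 0))
  · obtain ⟨y, hy, h1⟩ := hcon ξ hξ
    have h2 : ξ ∈ ap f y := by
      rcases ord_lin (hT.ord.mem hξ) (hT.ord.mem (hfκ y hy)) with h | h
      · exact h
      · exact absurd h h1
    obtain ⟨y', hy', h3⟩ := (hgs _ (hfκ y hy)).2 ξ h2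
    obtain ⟨c, hc, c0, c1⟩ := code hW hy hy'
    exact ⟨c, hc, by rw [ap_gr hc, c0, c1]; exact h3⟩

theorem Th.of_sub (hW : IsTransModelZF M) {a κ β : V} (ha : a ∈ M) (hT : Th M (pwr M (Xa a)) κ)
    (hβ : β ∈ M) (ho : β.IsOrdinal) (hs : β ⊆ Xa a) : β ∈ κ := by
  refine hT.mem_of_onto ho ⟨gr (fun y => sU y) (pwr M (Xa a)), ?_, fun ξ hξ => ?_⟩
  · exact gr_mem hW (F := fun y _ => sU y) (DF.sU hW (DF.v hW 0)) (const_mem ha)
      (pwr_mem hW (Xa_mem hW ha))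
  · have h1 : ({ξ} : V) ∈ pwr M (Xa a) := mem_pwr.2 ⟨sgl_mem hW (hW.transitive β hβ ξ hξ),
      fun z hz => by rw [ZFSet.mem_singleton.1 hz]; exact hs hξ⟩
    exact ⟨{ξ}, h1, by rw [ap_gr h1]; exact ZFSet.sUnion_singleton⟩

theorem Th.succ (hW : IsTransModelZF M) {a κ β : V} (ha : a ∈ M) (h0 : nat 0 ∈ a)
    (hT : Th M (pwr M (Xa a)) κ) (hβ : β ∈ κ) : insert β β ∈ κ := by
  classical
  have hX := Xa_mem hW ha
  obtain ⟨g, hg, hgs⟩ := hT.onto β hβ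
  have hβM := hW.transitive _ hT.mem β hβ
  have e1 : (∅ : V) ∈ pwr M (Xa a) :=
    mem_pwr.2 ⟨empty_mem hW, fun z hz => absurd hz (ZFSet.notMem_empty _)⟩
  have e2 : ({nat 0} : V) ∈ pwr M (Xa a) := mem_pwr.2 ⟨sgl_mem hW (nat_mem hW 0),
    fun z hz => by rw [ZFSet.mem_singleton.1 hz]; exact Cl_base h0⟩
  refine hT.mem_of_onto (ord_succ (hT.ord.mem hβ)) ⟨gr (fun c =>
    if dd (Xa a) (nat 0) c = ∅ then β else ap g (dd (Xa a) (nat 1) c)) (pwr M (Xa a)), ?_,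
    fun ξ hξ => ?_⟩
  · refine gr_mem hW (F := fun c v => if dd (v 0) (nat 0) c = ∅ then v 1 else
      ap (v 2) (dd (v 0) (nat 1) c)) ?_ (v := cons (Xa a) (cons β fun _ => g))
      (cons_mem hX (cons_mem hβM fun _ => hg)) (pwr_mem hW hX)
    exact DF.ite (DP.eq (DF.dd hW (DF.v hW 1) (DF.nat hW 0) (DF.v hW 0)) (DF.empty hW))
      (DF.v hW 2) (DF.ap hW (DF.v hW 3) (DF.dd hW (DF.v hW 1) (DF.nat hW 1) (DF.v hW 0)))
  · rcases ZFSet.mem_insert_iff.1 hξ with rfl | hξ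
    · obtain ⟨c, hc, c0, c1⟩ := code hW e1 e1
      exact ⟨c, hc, by rw [ap_gr hc, if_pos c0]⟩
    · obtain ⟨y, hy, h1⟩ := hgs ξ hξ
      obtain ⟨c, hc, c0, c1⟩ := code hW e2 hy
      refine ⟨c, hc, ?_⟩
      rw [ap_gr hc, if_neg, c1]
      · exact h1
      · rw [c0]
        intro h
        have : nat 0 ∈ (∅ : V) := by
          rw [← h]
          exact ZFSet.mem_singleton.2 rfl
        exact ZFSet.notMem_empty _ this

/-- functions on the reals are bounded -/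
theorem Th.kap (hM : GM M) {a κ : V} (ha : a ∈ M) (hom : om ⊆ a)
    (hT : Th M (pwr M (Xa a)) κ) : Kap M κ (pwr M om) := by
  have hW := hM.zf
  have hX := Xa_mem hW ha
  have hY := pwr_mem hW hX
  have homX : om ⊆ Xa a := fun _ hz => Cl_base (hom hz)
  have hom' : om ∈ κ := hT.of_sub hW ha (om_mem hW) om_ord homX
  refine ⟨hT.mem, pwr_mem hW (om_mem hW), hT.ord, ?_, fun β hβ => ?_, fun f hf hfκ => ?_⟩
  · exact hT.ord.mem_trans (mem_om.2 ⟨0, rfl⟩) hom'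
  · exact hT.succ hW ha (hom (mem_om.2 ⟨0, rfl⟩)) hβ
  · have h1 : gr (fun y => ap f (y ∩ om)) (pwr M (Xa a)) ∈ M := by
      refine gr_mem hW (F := fun y v => ap (v 0) (y ∩ om)) ?_ (const_mem hf) hY
      exact DF.ap hW (DF.v hW 1) (DF.inter hW (DF.v hW 0) (DF.om hW))
    obtain ⟨β, hβ, h2⟩ := hT.bd hM ha h1 (by
      intro y hy
      rw [ap_gr hy]
      refine hfκ _ (mem_pwr.2 ⟨?_, fun z hz => (ZFSet.mem_inter.1 hz).2⟩)
      exact (DF.inter hW (DF.v hW 0) (DF.v hW 1)).mem2 (F := fun x y => x ∩ y)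
        (mem_pwr.1 hy).1 (om_mem hW))
    refine ⟨β, hβ, fun x hx => ?_⟩
    obtain ⟨hxM, hxo⟩ := mem_pwr.1 hx
    have hxY : x ∈ pwr M (Xa a) := mem_pwr.2 ⟨hxM, fun z hz => homX (hxo hz)⟩
    have h3 := h2 x hxY
    rw [ap_gr hxY] at h3
    have e : x ∩ om = x := ZFSet.ext fun z => by
      rw [ZFSet.mem_inter]
      exact ⟨fun h => h.1, fun h => ⟨h, hxo h⟩⟩
    rw [e] at h3
    exact h3

/-- the value of a function (set of pairs) -/
theorem ap_of_func {x y f u : V} (hf : FnV x y f) (hu : u ∈ x) :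
    ap f u ∈ y ∧ ZFSet.pair u (ap f u) ∈ f ∧ ∀ w, ZFSet.pair u w ∈ f → w = ap f u := by
  obtain ⟨w, hw, huniq⟩ := hf.2 u hu
  have e : ap f u = w := ap_eq hw huniq
  rw [e]
  exact ⟨(ZFSet.pair_mem_prod.1 (hf.1 hw)).2, hw, huniq⟩

theorem Th.reg (hM : GM M) {a κ : V} (ha : a ∈ M) (hom : om ⊆ a)
    (hT : Th M (pwr M (Xa a)) κ) : RegIn M κ := by
  classical
  have hW := hM.zf
  have hK := hT.kap hM ha hom
  have hX := Xa_mem hW ha
  have hY := pwr_mem hW hX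
  refine ⟨hT.mem, hT.ord, hT.of_sub hW ha (om_mem hW) om_ord fun _ hz => Cl_base (hom hz), ?_⟩
  intro μ hμ f hf hff
  have hμM := hW.transitive _ hT.mem μ hμ
  obtain ⟨g, hg, hgs⟩ := hT.onto μ hμ
  have h1 : gr (fun y => if ap g y ∈ μ then ap f (ap g y) else ∅) (pwr M (Xa a)) ∈ M := by
    refine gr_mem hW (F := fun y v => if ap (v 0) y ∈ v 1 then ap (v 2) (ap (v 0) y) else ∅) ?_
      (v := cons g (cons μ fun _ => f)) (cons_mem hg (cons_mem hμM fun _ => hf)) hY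
    have h1 : DF M (fun v => ap (v 1) (v 0)) := DF.ap hW (DF.v hW 1) (DF.v hW 0)
    exact DF.ite (DP.mem h1 (DF.v hW 2)) (DF.ap hW (DF.v hW 3) h1) (DF.empty hW)
  obtain ⟨β, hβ, h2⟩ := hT.bd hM ha h1 (by
    intro y hy
    rw [ap_gr hy]
    split_ifs with h
    · exact (ap_of_func hff h).1
    · exact hK.zero)
  refine ⟨_, hT.succ hW ha (hom (mem_om.2 ⟨0, rfl⟩)) hβ, fun x y hxy => ?_⟩
  obtain ⟨hx, hy⟩ := ZFSet.pair_mem_prod.1 (hff.1 hxy)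
  obtain ⟨z, hz, h3⟩ := hgs x hx
  have h4 := h2 z hz
  rw [ap_gr hz, h3, if_pos hx, ← (ap_of_func hff hx).2.2 y hxy] at h4
  exact ZFSet.mem_insert_iff.2 (((hT.ord.mem hy).subset_iff_eq_or_mem (hT.ord.mem hβ)).1 h4)

/-- the length of an enumeration of `Y × Y` is smaller than `κ` -/
theorem Th.enum_prod (hM : GM M) {a κ : V} (ha : a ∈ M) (hT : Th M (pwr M (Xa a)) κ) :
    ∃ γ ∈ κ, ∃ e ∈ M, (∀ ξ ∈ γ, ap e ξ ∈ ZFSet.prod (pwr M (Xa a)) (pwr M (Xa a))) ∧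
      ∀ p ∈ ZFSet.prod (pwr M (Xa a)) (pwr M (Xa a)), ∃ ξ ∈ γ, ap e ξ = p := by
  have hW := hM.zf
  have hX := Xa_mem hW ha
  have hY := pwr_mem hW hX
  obtain ⟨γ, hγ, hγo, e, he, e1, e2, e3⟩ := enum hM (prod_mem hW hY hY)
  refine ⟨γ, ?_, e, he, e1, e2⟩
  refine hT.mem_of_onto hγo ⟨gr (fun c => mn (ZFSet.sep (fun ξ => ap e ξ =
    ZFSet.pair (dd (Xa a) (nat 0) c) (dd (Xa a) (nat 1) c)) γ)) (pwr M (Xa a)), ?_, fun ξ hξ => ?_⟩
  · refine gr_mem hW (F := fun c v => mn (ZFSet.sep (fun ξ => ap (v 0) ξ =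
      ZFSet.pair (dd (v 1) (nat 0) c) (dd (v 1) (nat 1) c)) (v 2))) ?_
      (v := cons e (cons (Xa a) fun _ => γ)) (cons_mem he (cons_mem hX fun _ => hγ)) hY
    refine DF.mn hW (DF.sep hW (DF.v hW 3) (P := fun ξ v => ap (v 1) ξ =
      ZFSet.pair (dd (v 2) (nat 0) (v 0)) (dd (v 2) (nat 1) (v 0))) ?_)
    exact DP.eq (DF.ap hW (DF.v hW 2) (DF.v hW 0)) (DF.pair hW
      (DF.dd hW (DF.v hW 3) (DF.nat hW 0) (DF.v hW 1))
      (DF.dd hW (DF.v hW 3) (DF.nat hW 1) (DF.v hW 1)))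
  · have h1 := e1 ξ hξ
    obtain ⟨x, hx, y, hy, hxy⟩ := ZFSet.mem_prod.1 h1
    obtain ⟨c, hc, c0, c1⟩ := code hW hx hy
    refine ⟨c, hc, ?_⟩
    rw [ap_gr hc, c0, c1, ← hxy]
    have h2 := (mn_spec (Z := ZFSet.sep (fun ξ' => ap e ξ' = ap e ξ) γ)
      (fun z hz => hγo.mem (ZFSet.mem_sep.1 hz).1) ⟨ξ, ZFSet.mem_sep.2 ⟨hξ, rfl⟩⟩).1
    obtain ⟨h3, h4⟩ := ZFSet.mem_sep.1 h2
    exact e3 _ h3 _ hξ h4

/-- `κ` is not measurable -/
theorem Th.not_meas (hM : GM M) {a κ : V} (ha : a ∈ M) (hom : om ⊆ a)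
    (hT : Th M (pwr M (Xa a)) κ) : ¬ MeasIn M κ := by
  classical
  rintro ⟨_, _, _, U, hU, hUs, _, hUe, _, hUu, hUn, hUc⟩
  have hW := hM.zf
  have hX := Xa_mem hW ha
  have hY := pwr_mem hW hX
  have hYY := prod_mem hW hY hY
  obtain ⟨Y, hYd⟩ : ∃ Y, Y = pwr M (Xa a) := ⟨_, rfl⟩
  have hsucc : ∀ β ∈ κ, insert β β ∈ κ := fun β hβ =>
    hT.succ hW ha (hom (mem_om.2 ⟨0, rfl⟩)) hβ
  -- surjections onto the successors
  obtain ⟨g, hg, hgs⟩ := hM.choose (R := fun β g v => (∀ y ∈ v 0, ap g y ∈ (insert β β : V)) ∧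
      ∀ ξ ∈ (insert β β : V), ∃ y ∈ v 0, ap g y = ξ)
    (by
      refine DP.and ?_ ?_
      · exact DP.ball hW (DF.v hW 2) (Q := fun y v => ap (v 1) y ∈ (insert (v 0) (v 0) : V))
          (DP.mem (DF.ap hW (DF.v hW 2) (DF.v hW 0)) (DF.ins hW (DF.v hW 1) (DF.v hW 1)))
      · refine DP.ball hW (DF.ins hW (DF.v hW 0) (DF.v hW 0))
          (Q := fun ξ v => ∃ y ∈ v 2, ap (v 1) y = ξ) ?_
        exact DP.bex hW (DF.v hW 3) (Q := fun y v => ap (v 2) y = v 0)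
          (DP.eq (DF.ap hW (DF.v hW 3) (DF.v hW 0)) (DF.v hW 1)))
    (v := fun _ => pwr M (Xa a)) (const_mem hY) hT.mem (fun β hβ => by
      obtain ⟨g, hg, h1, h2⟩ := onto_exact hW hY (hW.transitive _ hT.mem _ (hsucc β hβ))
        (ZFSet.mem_insert_iff.2 (Or.inl rfl)) (hT.onto _ (hsucc β hβ))
      exact ⟨g, hg, h1, h2⟩)
  rw [← hYd] at hgs hYY
  -- the codes
  let s : V → V := fun β => ZFSet.sep (fun p => ap (ap g β) (fst p) ∈ ap (ap g β) (snd p))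
    (ZFSet.prod Y Y)
  have hcod : ∀ β ∈ κ, Cod M Y (s β) (insert β β) := fun β hβ =>
    ⟨ap g β, (hgs β hβ).1, (hgs β hβ).2.1, (hgs β hβ).2.2, rfl⟩
  have hinj : ∀ β ∈ κ, ∀ β' ∈ κ, s β = s β' → β = β' := by
    intro β hβ β' hβ' h
    have h1 := hcod β hβ
    rw [h] at h1
    have h2 := cod_uniq (ord_succ (hT.ord.mem hβ)) (ord_succ (hT.ord.mem hβ')) h1 (hcod β' hβ')
    have h3 : β ∈ (insert β' β' : V) := by
      rw [← h2]
      exact ZFSet.mem_insert_iff.2 (Or.inl rfl)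
    have h4 : β' ∈ (insert β β : V) := by
      rw [h2]
      exact ZFSet.mem_insert_iff.2 (Or.inl rfl)
    rcases ZFSet.mem_insert_iff.1 h3 with h3 | h3
    · exact h3
    · rcases ZFSet.mem_insert_iff.1 h4 with h4 | h4
      · exact h4.symm
      · exact absurd h3 (ZFSet.mem_asymm h4)
  -- the measure one sets
  let A : V → V := fun p => ZFSet.sep (fun β => ap (ap g β) (fst p) ∈ ap (ap g β) (snd p)) κ
  let B : V → V := fun p => if A p ∈ U then A p else κ \ A p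
  have hAM : DF M (fun v => ZFSet.sep (fun β => ap (ap (v 1) β) (fst (v 0)) ∈
      ap (ap (v 1) β) (snd (v 0))) (v 2)) := by
    refine DF.sep hW (DF.v hW 2) (P := fun β v => ap (ap (v 1) β) (fst (v 0)) ∈
      ap (ap (v 1) β) (snd (v 0))) ?_
    exact DP.mem (DF.ap hW (DF.ap hW (DF.v hW 2) (DF.v hW 0)) (DF.fst hW (DF.v hW 1)))
      (DF.ap hW (DF.ap hW (DF.v hW 2) (DF.v hW 0)) (DF.snd hW (DF.v hW 1)))
  have hApM : ∀ p ∈ M, A p ∈ M := fun p hp =>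
    hAM.mem3 (F := fun p g κ => ZFSet.sep (fun β => ap (ap g β) (fst p) ∈
      ap (ap g β) (snd p)) κ) hp hg hT.mem
  have hBU : ∀ p ∈ M, B p ∈ U := by
    intro p hp
    show (if A p ∈ U then A p else κ \ A p) ∈ U
    split_ifs with h
    · exact h
    · rcases hUu (A p) (hApM p hp) sep_sub with h1 | h1
      · exact absurd h1 h
      · exact h1
  obtain ⟨γ, hγ, e, he, e1, e2⟩ := hT.enum_prod hM ha
  rw [← hYd] at e1 e2
  have hγM := hW.transitive _ hT.mem γ hγ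
  have hfM : gr (fun ξ => B (ap e ξ)) γ ∈ M := by
    refine gr_mem hW (F := fun ξ v => if ZFSet.sep (fun β => ap (ap (v 1) β) (fst (ap (v 0) ξ)) ∈
      ap (ap (v 1) β) (snd (ap (v 0) ξ))) (v 2) ∈ v 3 then ZFSet.sep (fun β =>
      ap (ap (v 1) β) (fst (ap (v 0) ξ)) ∈ ap (ap (v 1) β) (snd (ap (v 0) ξ))) (v 2) else
      v 2 \ ZFSet.sep (fun β => ap (ap (v 1) β) (fst (ap (v 0) ξ)) ∈
      ap (ap (v 1) β) (snd (ap (v 0) ξ))) (v 2)) ?_
      (v := cons e (cons g (cons κ fun _ => U)))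
      (cons_mem he (cons_mem hg (cons_mem hT.mem fun _ => hU))) hγM
    have h1 : DF M (fun v => ZFSet.sep (fun β => ap (ap (v 2) β) (fst (ap (v 1) (v 0))) ∈
      ap (ap (v 2) β) (snd (ap (v 1) (v 0)))) (v 3)) :=
      DF3.app (F := fun p g κ => ZFSet.sep (fun β => ap (ap g β) (fst p) ∈
        ap (ap g β) (snd p)) κ) hAM (DF.ap hW (DF.v hW 1) (DF.v hW 0)) (DF.v hW 2) (DF.v hW 3)
    exact DF.ite (DP.mem h1 (DF.v hW 4)) h1 (DF.diff hW (DF.v hW 3) h1)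
  have heM : ∀ ξ ∈ γ, ap e ξ ∈ M := fun ξ hξ => hW.transitive _ hYY _ (e1 ξ hξ)
  have hI := hUc γ hγ _ hfM (by
    refine ⟨fun p hp => ?_, fun ξ hξ => ⟨B (ap e ξ), pair_mem_gr.2 ⟨hξ, rfl⟩,
      fun y hy => (pair_mem_gr.1 hy).2.symm⟩⟩
    obtain ⟨ξ, hξ, rfl⟩ := mem_gr.1 hp
    exact ZFSet.pair_mem_prod.2 ⟨hξ, hBU _ (heM ξ hξ)⟩)
  obtain ⟨I, hId⟩ : ∃ I, I = ZFSet.sep (fun β => ∀ x y, ZFSet.pair x y ∈
    gr (fun ξ => B (ap e ξ)) γ → β ∈ y) κ := ⟨_, rfl⟩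
  rw [← hId] at hI
  have hmemB : ∀ β ∈ I, β ∈ κ ∧ ∀ p ∈ ZFSet.prod Y Y, β ∈ B p := by
    intro β hβ
    rw [hId] at hβ
    obtain ⟨h1, h2⟩ := ZFSet.mem_sep.1 hβ
    refine ⟨h1, fun p hp => ?_⟩
    obtain ⟨ξ, hξ, rfl⟩ := e2 p hp
    exact h2 ξ _ (pair_mem_gr.2 ⟨hξ, rfl⟩)
  have hIne : ∃ β, β ∈ I := by
    by_contra h
    push Not at h
    have : I = ∅ := (ZFSet.eq_empty I).2 h
    rw [this] at hI
    exact hUe hI
  obtain ⟨β, hβ⟩ := hIne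
  have hβκ := (hmemB β hβ).1
  refine hUn β hβκ ?_
  have : I = {β} := by
    refine ZFSet.ext fun β' => ?_
    rw [ZFSet.mem_singleton]
    constructor
    · intro hβ'
      have hβ'κ := (hmemB β' hβ').1
      refine hinj β' hβ'κ β hβκ ?_
      have hiff : ∀ p ∈ ZFSet.prod Y Y, (ap (ap g β') (fst p) ∈ ap (ap g β') (snd p) ↔
          ap (ap g β) (fst p) ∈ ap (ap g β) (snd p)) := by
        intro p hp
        have h1 := (hmemB β hβ).2 p hp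
        have h2 := (hmemB β' hβ').2 p hp
        change β ∈ (if A p ∈ U then A p else κ \ A p) at h1
        change β' ∈ (if A p ∈ U then A p else κ \ A p) at h2
        split_ifs at h1 h2 with h3
        · exact ⟨fun _ => (ZFSet.mem_sep.1 h1).2, fun _ => (ZFSet.mem_sep.1 h2).2⟩
        · refine ⟨fun h => ?_, fun h => ?_⟩
          · exact absurd (ZFSet.mem_sep.2 ⟨hβ'κ, h⟩) (ZFSet.mem_sdiff.1 h2).2
          · exact absurd (ZFSet.mem_sep.2 ⟨hβκ, h⟩) (ZFSet.mem_sdiff.1 h1).2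
      refine ZFSet.ext fun p => ?_
      rw [ZFSet.mem_sep, ZFSet.mem_sep]
      exact and_congr_right fun hp => hiff p hp
    · rintro rfl
      exact hβ
  rw [← this]
  exact hI

/-- there are arbitrarily large cardinals with the required properties -/
theorem exists_kappa (hM : GM M) {α : V} (hα : α ∈ M) (hαo : α.IsOrdinal) :
    ∃ κ, α ∈ κ ∧ Kap M κ (pwr M om) ∧ RegIn M κ ∧ ¬ MeasIn M κ := by
  have hW := hM.zf
  have ha : om ∪ insert α α ∈ M := un_mem hW (om_mem hW) (ins_mem hW hα hα)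
  have hom : om ⊆ om ∪ insert α α := fun z hz => ZFSet.mem_union.2 (Or.inl hz)
  obtain ⟨κ, hT⟩ := exists_Th hW (pwr_mem hW (Xa_mem hW ha))
  refine ⟨κ, ?_, hT.kap hM ha hom, hT.reg hM ha hom, hT.not_meas hM ha hom⟩
  have h1 : (insert α α : V) ∈ κ := hT.of_sub hW ha (ins_mem hW hα hα) (ord_succ hαo)
    fun z hz => Cl_base (ZFSet.mem_union.2 (Or.inr hz))
  exact hT.ord.mem_trans (ZFSet.mem_insert_iff.2 (Or.inl rfl)) h1

end Pool.Agent.CM
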