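import Mathlib
import Pool.Agent.Lib.MP_f8e9b8_lc.TDefs
import Pool.Agent.Lib.MP_f8e9b8_lc.Util

/-!
# MP_f8e9b8_lc : an extension without new reals preserves the uncountability of `κ`
-/

set_option autoImplicit false

namespace Pool.Agent.CM

open Pool.Agent.CR (V Fml cons Sat nat cons_zero cons_succ)

variable {M N : Set V}

open Classical in
/-- the successor in the enumeration of the pairs of natural numbers -/
noncomputable def nx (p : V) : V :=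
  if snd p = ∅ then ZFSet.pair ∅ (insert (fst p) (fst p)) else
    ZFSet.pair (insert (fst p) (fst p)) (sU (snd p))

open Classical in
/-- the enumeration of the pairs of natural numbers -/
noncomputable def enq : V → V :=
  rec0 fun x h => if x = ∅ then ZFSet.pair ∅ ∅ else nx (ap h (sU x))

theorem enq_zero : enq (nat 0) = ZFSet.pair (nat 0) (nat 0) := by
  rw [enq, rec0_eq]
  exact if_pos rfl

theorem nat_succ_ne0 (n : ℕ) : nat (n + 1) ≠ ∅ := by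
  intro h
  have : nat n ∈ nat (n + 1) := mem_nat_succ.2 (Or.inl rfl)
  rw [h] at this
  exact ZFSet.notMem_empty _ this

theorem enq_succ (n : ℕ) : enq (nat (n + 1)) = nx (enq (nat n)) := by
  rw [enq, rec0_eq, if_neg (nat_succ_ne0 n), sU_nat_succ, ap_gr (mem_nat_succ.2 (Or.inl rfl))]

theorem enq_surj : ∀ s a : ℕ, a ≤ s → ∃ k, enq (nat k) = ZFSet.pair (nat a) (nat (s - a)) := by
  intro s
  induction s with
  | zero =>
    intro a ha
    obtain rfl : a = 0 := by omega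
    exact ⟨0, enq_zero⟩
  | succ s ih =>
    intro a
    induction a with
    | zero =>
      intro _
      obtain ⟨k, hk⟩ := ih s le_rfl
      refine ⟨k + 1, ?_⟩
      rw [enq_succ, hk, Nat.sub_self, nx, snd_pair, fst_pair]
      exact if_pos rfl
    | succ a iha =>
      intro ha
      obtain ⟨k, hk⟩ := iha (by omega)
      refine ⟨k + 1, ?_⟩
      obtain ⟨b, hb⟩ : ∃ b, s + 1 - a = b + 1 := ⟨s - a, by omega⟩
      rw [enq_succ, hk, hb, nx, snd_pair, fst_pair, if_neg (nat_succ_ne0 b), sU_nat_succ,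
        show s + 1 - (a + 1) = b by omega]
      rfl

open Classical in
theorem DF.nx (hW : IsTransModelZF M) {f : (ℕ → V) → V} (hf : DF M f) :
    DF M (fun v => CM.nx (f v)) :=
  DF.ite (DP.eq (DF.snd hW hf) (DF.empty hW))
    (DF.pair hW (DF.empty hW) (DF.ins hW (DF.fst hW hf) (DF.fst hW hf)))
    (DF.pair hW (DF.ins hW (DF.fst hW hf) (DF.fst hW hf)) (DF.sU hW (DF.snd hW hf)))

open Classical in
theorem DF.enq (hW : IsTransModelZF M) {f : (ℕ → V) → V} (hf : DF M f) :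
    DF M (fun v => CM.enq (f v)) := by
  refine DF.rec0 hW (G := fun _ x h => if x = ∅ then ZFSet.pair ∅ ∅ else
    CM.nx (CM.ap h (CM.sU x))) ?_ hf
  exact DF.ite (DP.eq (DF.v hW 0) (DF.empty hW)) (DF.pair hW (DF.empty hW) (DF.empty hW))
    (DF.nx hW (DF.ap hW (DF.v hW 1) (DF.sU hW (DF.v hW 0))))

/-- no new relations on the natural numbers -/
theorem no_new_rel (hM : IsTransModelZF M) (hN : IsTransModelZF N)
    (hr : ∀ x ∈ N, x ⊆ om → x ∈ M) {E : V} (hE : E ∈ N) (hs : E ⊆ ZFSet.prod om om) : E ∈ M := by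
  have hX : ZFSet.sep (fun n => enq n ∈ E) om ∈ N :=
    sep_mem' hN (P := fun n v => enq n ∈ v 0) (DP.mem (DF.enq hN (DF.v hN 0)) (DF.v hN 1))
      (v := fun _ => E) (fun _ => hE) (om_mem hN) (fun _ _ => Iff.rfl)
  have hXM := hr _ hX sep_sub
  have h1 : ZFSet.sep (fun z => ∃ n ∈ ZFSet.sep (fun n => enq n ∈ E) om, enq n = z)
      (ZFSet.prod om om) ∈ M := by
    refine sep_mem' hM (P := fun z v => ∃ n ∈ v 0, enq n = z) ?_
      (v := fun _ => ZFSet.sep (fun n => enq n ∈ E) om) (fun _ => hXM)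
      (prod_mem hM (om_mem hM) (om_mem hM)) (fun _ _ => Iff.rfl)
    exact DP.bex hM (DF.v hM 1) (Q := fun n v => enq n = v 0)
      (DP.eq (DF.enq hM (DF.v hM 0)) (DF.v hM 1))
  have e : ZFSet.sep (fun z => ∃ n ∈ ZFSet.sep (fun n => enq n ∈ E) om, enq n = z)
      (ZFSet.prod om om) = E := by
    refine ZFSet.ext fun z => ?_
    rw [ZFSet.mem_sep]
    constructor
    · rintro ⟨_, n, hn, rfl⟩
      exact (ZFSet.mem_sep.1 hn).2
    · intro hz
      refine ⟨hs hz, ?_⟩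
      obtain ⟨a, ha, b, hb, rfl⟩ := ZFSet.mem_prod.1 (hs hz)
      obtain ⟨m, rfl⟩ := mem_om.1 ha
      obtain ⟨n, rfl⟩ := mem_om.1 hb
      obtain ⟨k, hk⟩ := enq_surj (m + n) m (by omega)
      rw [Nat.add_sub_cancel_left] at hk
      refine ⟨nat k, ZFSet.mem_sep.2 ⟨mem_om.2 ⟨k, rfl⟩, ?_⟩, hk⟩
      rw [hk]
      exact hz
  rw [← e]
  exact h1

/-- the sets of the numbers with given values, computed from the relation -/
noncomputable def Bx (A E : V) : V → V :=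
  rec0 fun x h => ZFSet.sep (fun n => ∀ m ∈ A, (ZFSet.pair m n ∈ E ↔ ∃ y ∈ x, m ∈ ap h y)) A

theorem mem_Bx {A E x n : V} : n ∈ Bx A E x ↔
    n ∈ A ∧ ∀ m ∈ A, (ZFSet.pair m n ∈ E ↔ ∃ y ∈ x, m ∈ Bx A E y) := by
  rw [Bx, rec0_eq, ZFSet.mem_sep]
  refine and_congr_right fun _ => forall₂_congr fun m _ => iff_congr Iff.rfl ?_
  exact ⟨fun ⟨y, hy, h⟩ => ⟨y, hy, by rwa [ap_gr hy] at h⟩,
    fun ⟨y, hy, h⟩ => ⟨y, hy, by rwa [ap_gr hy]⟩⟩

theorem DF.Bx (hW : IsTransModelZF M) {a e x : (ℕ → V) → V} (ha : DF M a) (he : DF M e)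
    (hx : DF M x) : DF M (fun v => CM.Bx (a v) (e v) (x v)) := by
  refine DF3.app (F := fun A E x => CM.Bx A E x) ?_ ha he hx
  refine DF.rec0 hW (G := fun v x h => ZFSet.sep (fun n => ∀ m ∈ v 0, (ZFSet.pair m n ∈ v 1 ↔
    ∃ y ∈ x, m ∈ CM.ap h y)) (v 0)) ?_ (DF.v hW 2)
  -- 0 x, 1 h, 2 A, 3 E
  refine DF.sep hW (DF.v hW 2) (P := fun n v => ∀ m ∈ v 2, (ZFSet.pair m n ∈ v 3 ↔
    ∃ y ∈ v 0, m ∈ CM.ap (v 1) y)) ?_
  refine DP.ball hW (DF.v hW 3) (Q := fun m v => (ZFSet.pair m (v 0) ∈ v 4 ↔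
    ∃ y ∈ v 1, m ∈ CM.ap (v 2) y)) ?_
  -- 0 m, 1 n, 2 x, 3 h, 4 A, 5 E
  refine DP.iff (DP.mem (DF.pair hW (DF.v hW 0) (DF.v hW 1)) (DF.v hW 5)) ?_
  refine DP.bex hW (DF.v hW 2) (Q := fun y v => v 0 ∈ CM.ap (v 3) y) ?_
  exact DP.mem (DF.v hW 1) (DF.ap hW (DF.v hW 4) (DF.v hW 0))

/-- `κ` is uncountable in an extension without new reals -/
theorem unc (hM : IsTransModelZF M) (hN : IsTransModelZF N) (hMN : M ⊆ N)
    (hr : ∀ x ∈ N, x ⊆ om → x ∈ M) {κ : V} (hK : Kap M κ (pwr M om)) :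
    ¬ ∃ f ∈ N, ∀ ξ ∈ κ, ∃ n ∈ om, ap f n = ξ := by
  rintro ⟨f, hf, hon⟩
  have hκN : κ ∈ N := hMN hK.mem
  have hA : ZFSet.sep (fun n => ap f n ∈ κ) om ∈ M := by
    refine hr _ ?_ sep_sub
    exact sep_mem' hN (P := fun n v => ap (v 0) n ∈ v 1)
      (DP.mem (DF.ap hN (DF.v hN 1) (DF.v hN 0)) (DF.v hN 2))
      (v := cons f fun _ => κ) (cons_mem hf fun _ => hκN) (om_mem hN) (fun _ _ => Iff.rfl)
  obtain ⟨A, hAd⟩ : ∃ A, A = ZFSet.sep (fun n => ap f n ∈ κ) om := ⟨_, rfl⟩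
  rw [← hAd] at hA
  have hE : ZFSet.sep (fun z => ap f (fst z) ∈ ap f (snd z)) (ZFSet.prod om om) ∈ M := by
    refine no_new_rel hM hN hr ?_ sep_sub
    refine sep_mem' hN (P := fun z v => ap (v 0) (fst z) ∈ ap (v 0) (snd z)) ?_
      (v := fun _ => f) (fun _ => hf) (prod_mem hN (om_mem hN) (om_mem hN)) (fun _ _ => Iff.rfl)
    exact DP.mem (DF.ap hN (DF.v hN 1) (DF.fst hN (DF.v hN 0)))
      (DF.ap hN (DF.v hN 1) (DF.snd hN (DF.v hN 0)))
  obtain ⟨E, hEd⟩ : ∃ E, E = ZFSet.sep (fun z => ap f (fst z) ∈ ap f (snd z))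
    (ZFSet.prod om om) := ⟨_, rfl⟩
  rw [← hEd] at hE
  have hAmem : ∀ n, n ∈ A ↔ n ∈ om ∧ ap f n ∈ κ := fun n => by rw [hAd, ZFSet.mem_sep]
  have hEmem : ∀ m ∈ A, ∀ n ∈ A, (ZFSet.pair m n ∈ E ↔ ap f m ∈ ap f n) := by
    intro m hm n hn
    rw [hEd, ZFSet.mem_sep, ZFSet.pair_mem_prod, fst_pair, snd_pair]
    exact ⟨fun h => h.2, fun h => ⟨⟨((hAmem m).1 hm).1, ((hAmem n).1 hn).1⟩, h⟩⟩
  -- every element of κ is a value
  have hval : ∀ z ∈ κ, ∃ m ∈ A, ap f m = z := by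
    intro z hz
    obtain ⟨m, hm, rfl⟩ := hon z hz
    exact ⟨m, (hAmem m).2 ⟨hm, hz⟩, rfl⟩
  have hB : ∀ ξ : V, ξ ∈ κ → ∀ n, n ∈ Bx A E ξ ↔ n ∈ A ∧ ap f n = ξ := by
    intro ξ
    induction ξ using ZFSet.inductionOn with
    | _ ξ ih =>
      intro hξ n
      rw [mem_Bx]
      refine and_congr_right fun hn => ?_
      have h1 : ∀ m ∈ A, (∃ y ∈ ξ, m ∈ Bx A E y) ↔ ap f m ∈ ξ := by
        intro m hm
        constructor
        · rintro ⟨y, hy, h⟩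
          rw [ih y hy (hK.ord.mem_trans hy hξ)] at h
          rw [h.2]
          exact hy
        · intro h
          exact ⟨_, h, (ih _ h (hK.ord.mem_trans h hξ) m).2 ⟨hm, rfl⟩⟩
      constructor
      · intro h
        refine ZFSet.ext fun z => ?_
        constructor
        · intro hz
          obtain ⟨m, hm, rfl⟩ := hval z (hK.ord.mem_trans hz ((hAmem n).1 hn).2)
          exact (h1 m hm).1 ((h m hm).1 ((hEmem m hm n hn).2 hz))
        · intro hz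
          obtain ⟨m, hm, rfl⟩ := hval z (hK.ord.mem_trans hz hξ)
          exact (hEmem m hm n hn).1 ((h m hm).2 ((h1 m hm).2 hz))
      · rintro rfl m hm
        rw [hEmem m hm n hn, h1 m hm]
  have hinj : ∀ ξ ∈ κ, ∀ η ∈ κ, Bx A E ξ = Bx A E η → ξ = η := by
    intro ξ hξ η hη h
    obtain ⟨m, hm, h1⟩ := hval ξ hξ
    have h2 : m ∈ Bx A E η := by
      rw [← h]
      exact (hB ξ hξ m).2 ⟨hm, h1⟩
    rw [← h1, ((hB η hη m).1 h2).2]
  have hBM : ∀ ξ ∈ κ, Bx A E ξ ∈ pwr M om := by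
    intro ξ hξ
    refine mem_pwr.2 ⟨?_, fun n hn => ((hAmem n).1 ((hB ξ hξ n).1 hn).1).1⟩
    exact (DF.Bx hM (DF.v hM 0) (DF.v hM 1) (DF.v hM 2)).mem3 (F := Bx) hA hE
      (hM.transitive κ hK.mem ξ hξ)
  have hg : gr (fun x => sU (ZFSet.sep (fun ξ => Bx A E ξ = x) κ)) (pwr M om) ∈ M := by
    refine gr_mem hM (F := fun x v => sU (ZFSet.sep (fun ξ => Bx (v 0) (v 1) ξ = x) (v 2))) ?_
      (v := cons A (cons E fun _ => κ)) (cons_mem hA (cons_mem hE fun _ => hK.mem)) hK.memH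
    refine DF.sU hM (DF.sep hM (DF.v hM 3) (P := fun ξ v => Bx (v 1) (v 2) ξ = v 0) ?_)
    exact DP.eq (DF.Bx hM (DF.v hM 2) (DF.v hM 3) (DF.v hM 0)) (DF.v hM 1)
  have hgv : ∀ ξ ∈ κ, sU (ZFSet.sep (fun η => Bx A E η = Bx A E ξ) κ) = ξ := by
    intro ξ hξ
    refine ZFSet.ext fun z => ?_
    rw [mem_sU]
    constructor
    · rintro ⟨η, hη, hz⟩
      obtain ⟨h1, h2⟩ := ZFSet.mem_sep.1 hη
      rwa [hinj η h1 ξ hξ h2] at hz
    · intro hz
      exact ⟨ξ, ZFSet.mem_sep.2 ⟨hξ, rfl⟩, hz⟩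
  obtain ⟨β, hβ, hbd⟩ := hK.bd _ hg (by
    intro x hx
    rw [ap_gr hx]
    by_cases h : ∃ ξ ∈ κ, Bx A E ξ = x
    · obtain ⟨ξ, hξ, rfl⟩ := h
      rw [hgv ξ hξ]
      exact hξ
    · have e : sU (ZFSet.sep (fun ξ => Bx A E ξ = x) κ) = ∅ := by
        rw [ZFSet.eq_empty]
        intro z hz
        obtain ⟨ξ, hξ, _⟩ := mem_sU.1 hz
        exact h ⟨ξ, (ZFSet.mem_sep.1 hξ).1, (ZFSet.mem_sep.1 hξ).2⟩
      rw [e]
      exact hK.zero)
  have h1 := hK.succ β hβ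
  have h2 := hbd _ (hBM _ h1)
  rw [ap_gr (hBM _ h1), hgv _ h1] at h2
  exact ZFSet.mem_irrefl _ (h2 (ZFSet.mem_insert_iff.2 (Or.inl rfl)))

end Pool.Agent.CM
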