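import Mathlib
import Pool.Agent.Lib.MP_f8e9b8_lc.Exist
import Pool.Agent.Lib.MP_f8e9b8_lc.Unc
import Pool.Agent.Lib.MP_f8e9b8_lc.Gbr
import Pool.Agent.Lib.MP_f8e9b8_lc.Reals
import Pool.Agent.Lib.MP_f8e9b8_lc.Theta
import Pool.Agent.Lib.MP_f8e9b8_lc.LWO

/-!
# MP_f8e9b8_lc : assembly
-/

set_option autoImplicit false

namespace Pool.Agent.CM

open Pool.Agent.CR (V Fml cons Sat nat cons_zero cons_succ)

/-- the ordinals of a countable transitive model form an ordinal -/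
theorem exists_hgt {W : Set V} (hW : IsTransModelZF W) (hc : W.Countable) :
    ∃ δ : V, δ.IsOrdinal ∧ ∀ z, z ∈ δ ↔ z ∈ W ∧ z.IsOrdinal := by
  obtain ⟨e, he⟩ := hc.exists_eq_range hW.nonempty
  refine ⟨ZFSet.sep (fun z => z.IsOrdinal) (ZFSet.range e), ?_, fun z => ?_⟩
  · rw [ZFSet.isOrdinal_iff_forall_mem_isTransitive]
    constructor
    · intro y hy z hz
      obtain ⟨h1, h2⟩ := ZFSet.mem_sep.1 hy
      obtain ⟨n, rfl⟩ := ZFSet.mem_range.1 h1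
      have h3 : z ∈ W := hW.transitive (e n) (by rw [he]; exact ⟨n, rfl⟩) z hz
      rw [he] at h3
      obtain ⟨m, hm⟩ := h3
      exact ZFSet.mem_sep.2 ⟨ZFSet.mem_range.2 ⟨m, hm⟩, h2.mem hz⟩
    · intro y hy
      exact (ZFSet.mem_sep.1 hy).2.isTransitive
  · rw [ZFSet.mem_sep, ZFSet.mem_range, he]
    exact Iff.rfl

/-- a countable transitive model of `ZF` such that no ordinal of it is the height of a countable
transitive model of `ZF` -/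
theorem exists_min_zf : ∃ W : Set V, W.Countable ∧ IsTransModelZF W ∧
    ∀ W' : Set V, W'.Countable → IsTransModelZF W' →
      ∀ δ ∈ W, ¬ ∀ z, z ∈ δ ↔ z ∈ W' ∧ z.IsOrdinal := by
  obtain ⟨δ, h1, ⟨W, h2, h3, h4⟩, h5⟩ := ord_min (P := fun δ => ∃ W : Set V, W.Countable ∧
    IsTransModelZF W ∧ ∀ z, z ∈ δ ↔ z ∈ W ∧ z.IsOrdinal) (by
      obtain ⟨W, h1, h2⟩ := exists_zf
      obtain ⟨δ, h3, h4⟩ := exists_hgt h2 h1
      exact ⟨δ, h3, W, h1, h2, h4⟩)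
  refine ⟨W, h2, h3, fun W' h6 h7 δ' h8 h9 => ?_⟩
  have h10 : δ'.IsOrdinal := by
    obtain ⟨δ'', h11, h12⟩ := exists_hgt h7 h6
    have : δ' = δ'' := ZFSet.ext fun z => by rw [h9, h12]
    rw [this]
    exact h11
  exact h5 δ' ((h4 δ').2 ⟨h8, h10⟩) ⟨W', h6, h7, h9⟩

/-- the main construction over a countable ground model -/
theorem main_gen {M : Set V} (hM : GM M) (hc : M.Countable) {α : V} (hα : α ∈ M)
    (hαo : α.IsOrdinal) : ∃ (N : Set V) (κ : V) (s : ℕ → V),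
      N.Countable ∧ GM N ∧ M ⊆ N ∧ (∀ β ∈ N, β.IsOrdinal → β ∈ M) ∧
      (∀ x ∈ N, x ⊆ om → x ∈ M) ∧
      α ∈ κ ∧ RegIn M κ ∧ ¬ MeasIn M κ ∧
      (∀ f ∈ N, FnV om κ f → ∃ ξ ∈ κ, ∀ n, ZFSet.pair n ξ ∉ f) ∧
      (∀ n, s n ∈ κ) ∧ seqV s ∈ N ∧ (∀ β ∈ κ, ∃ n, β ∈ s n) ∧
      ∀ W, IsTransModelZF W → M ⊆ W → seqV s ∈ W → N ⊆ W := by
  have hW := hM.zf
  obtain ⟨κ, h1, hK, h3, h4⟩ := exists_kappa hM hα hαo
  have hκM := hK.mem
  obtain ⟨htop, htop2⟩ := top_PL hW hκM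
  obtain ⟨G, hG, _⟩ := exists_gen hc ((DF.PL hW (DF.v hW 0)).mem1 (F := PL M) hκM) htop htop2 htop
  have hN := Ext_gm hM hG
  have hr : ∀ x ∈ Ext M G, x ⊆ om → x ∈ M := fun x hx hxo => no_new_reals hM hK hG hx hxo
  obtain ⟨s, hs1, hs2, hs3⟩ := fG_seq hM hK hG
  have hsub := sub_Ext hW hG
  refine ⟨Ext M G, κ, s, Ext_countable hc, hN, hsub, fun β hβ ho => Ext_ord hW hβ ho, hr, h1, h3, h4,
    ?_, hs1, ?_, ?_, ?_⟩
  · intro f hf hfn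
    by_contra hcon
    push Not at hcon
    refine unc hW hN.zf hsub hr hK ⟨f, hf, fun ξ hξ => ?_⟩
    obtain ⟨n, hn⟩ := hcon ξ hξ
    have hno : n ∈ om := (ZFSet.pair_mem_prod.1 (hfn.1 hn)).1
    exact ⟨n, hno, ((ap_of_func hfn hno).2.2 ξ hn).symm⟩
  · rw [← hs2]
    exact fG_mem hM hG hκM
  · intro β hβ
    obtain ⟨n, hn⟩ := hs3 _ (hK.succ β hβ)
    exact ⟨n, hn (ZFSet.mem_insert_iff.2 (Or.inl rfl))⟩
  · intro W hWW hMW hf
    rw [← hs2] at hf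
    have hg := Gs_of_fG hM hK hG hWW hMW hf
    refine Ext_least hWW hMW hg fun p => ?_
    rw [Gs, ZFSet.mem_sep]
    exact ⟨fun h => h.2, fun h => ⟨hG.sub p h, h⟩⟩

/-- the main construction over the least constructible model -/
theorem main_thm : ∃ M : Set V, M.Countable ∧ Pool.Agent.CR.IsTransModelZFC M ∧
    ∀ α ∈ M, α.IsOrdinal → ∃ (N : Set V) (κ : V) (s : ℕ → V),
      N.Countable ∧ Pool.Agent.CR.IsTransModelZFC N ∧
      IsChang N N ∧ IsLR N M ∧ (∀ x ∈ N, ¬ IsTransModelZF {y | y ∈ x}) ∧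
      α ∈ κ ∧ RegIn M κ ∧ ¬ MeasIn M κ ∧
      (∀ f ∈ N, FnV om κ f → ∃ ξ ∈ κ, ∀ n, ZFSet.pair n ξ ∉ f) ∧
      (∀ n, s n ∈ κ) ∧ seqV s ∈ N ∧ (∀ β ∈ κ, ∃ n, β ∈ s n) := by
  obtain ⟨W, hWc, hW, hmin⟩ := exists_min_zf
  have hM := Lc_gm hW
  have hMc : (Lc W).Countable := hWc.mono (Lc_sub_W hW)
  refine ⟨Lc W, hMc, hM.zfc, fun α hα hαo => ?_⟩
  obtain ⟨N, κ, s, h1, h2, h3, h4, h5, h6, h7, h8, h9, h10, h11, h12, h13⟩ :=
    main_gen hM hMc hα hαo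
  have hκo : κ.IsOrdinal := h7.2.1
  -- the inner models of `N` contain `M`
  have hsub : ∀ W', IsInner N W' → Lc W ⊆ W' := fun W' hW' =>
    Lc_sub hW'.2.1 fun β hβ ho => hW'.2.2 β (h3 (ord_Lc hW β hβ ho)) ho
  refine ⟨N, κ, s, h1, h2.zfc, ⟨⟨fun _ h => h, h2.zf, fun _ h _ => h⟩, fun _ _ h => h,
    fun W' hW' hs => ?_⟩, ⟨⟨h3, hM.zf, h4⟩, h5, fun W' hW' _ => hsub W' hW'⟩, fun x hx hxz => ?_,
    h6, h7, h8, h9, h10, h11, h12⟩
  · exact h13 W' hW'.2.1 (hsub W' hW') (hs s (fun n => hκo.mem (h10 n)) h11)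
  · have hxc : ({y | y ∈ x} : Set V).Countable := h1.mono fun y hy =>
      h2.zf.transitive x hx y hy
    have hδ : ZFSet.sep (fun z => z.IsOrdinal) x ∈ N :=
      sep_mem h2.zf (P := fun z _ => z.IsOrdinal) (DP.ord h2.zf (DF.v h2.zf 0)) (const_mem hx) hx
    obtain ⟨δ, h14, h15⟩ := exists_hgt hxz hxc
    have e : ZFSet.sep (fun z => z.IsOrdinal) x = δ := ZFSet.ext fun z => by
      rw [ZFSet.mem_sep, h15]
      exact Iff.rfl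
    rw [e] at hδ
    exact hmin _ hxc hxz δ (Lc_sub_W hW (h4 δ hδ h14)) h15

end Pool.Agent.CM
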