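import Mathlib
import Pool.Agent.Lib.MP_f8e9b8_lc.Theta

/-!
# MP_f8e9b8_lc : a measurable cardinal of a ground model is inaccessible in it

If `κ` is measurable in the ground model `M`, then the sets of `M` of rank smaller than `κ` form
a transitive model of `ZF`.
-/

set_option autoImplicit false

namespace Pool.Agent.CM

open Pool.Agent.CR (V Fml cons Sat nat cons_zero cons_succ)

variable {M : Set V} {κ U : V}

/-- `U` is a `κ`-complete nonprincipal ultrafilter of the ground model `M` -/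
structure Ms (M : Set V) (κ U : V) : Prop where
  gm : GM M
  mem : κ ∈ M
  ord : κ.IsOrdinal
  om : CM.om ∈ κ
  memU : U ∈ M
  sub : ∀ X ∈ U, X ⊆ κ
  bot : ∅ ∉ U
  ult : ∀ X ∈ M, X ⊆ κ → X ∈ U ∨ κ \ X ∈ U
  nonp : ∀ ξ ∈ κ, ({ξ} : V) ∉ U
  cmp : ∀ μ ∈ κ, ∀ f ∈ M, FnV μ U f →
      ZFSet.sep (fun β => ∀ x y, ZFSet.pair x y ∈ f → β ∈ y) κ ∈ U

theorem MeasIn.ms (hM : GM M) (h : MeasIn M κ) : ∃ U, Ms M κ U := by
  obtain ⟨h1, h2, h3, U, h4, h5, _, h7, _, h9, h10, h11⟩ := h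
  exact ⟨U, hM, h1, h2, h3, h4, h5, h7, h9, h10, h11⟩

namespace Ms

variable (h : Ms M κ U)

include h

theorem cmp' {μ : V} (hμ : μ ∈ κ) {F : V → V} (hg : gr F μ ∈ M) (hF : ∀ ξ ∈ μ, F ξ ∈ U) :
    ZFSet.sep (fun β => ∀ ξ ∈ μ, β ∈ F ξ) κ ∈ U := by
  have h1 := h.cmp μ hμ _ hg (by
    refine ⟨fun p hp => ?_, fun ξ hξ => ⟨F ξ, pair_mem_gr.2 ⟨hξ, rfl⟩,
      fun y hy => (pair_mem_gr.1 hy).2.symm⟩⟩
    obtain ⟨ξ, hξ, rfl⟩ := mem_gr.1 hp
    exact ZFSet.pair_mem_prod.2 ⟨hξ, hF ξ hξ⟩)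
  have e : ZFSet.sep (fun β => ∀ x y, ZFSet.pair x y ∈ gr F μ → β ∈ y) κ =
      ZFSet.sep (fun β => ∀ ξ ∈ μ, β ∈ F ξ) κ := by
    refine ZFSet.ext fun β => ?_
    rw [ZFSet.mem_sep, ZFSet.mem_sep]
    refine and_congr_right fun _ => ⟨fun h' ξ hξ => h' ξ _ (pair_mem_gr.2 ⟨hξ, rfl⟩), ?_⟩
    intro h' x y hxy
    obtain ⟨hx, rfl⟩ := pair_mem_gr.1 hxy
    exact h' x hx
  rw [← e]
  exact h1

theorem ne {X : V} (hX : X ∈ U) : ∃ β, β ∈ X := by
  by_contra hcon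
  push Not at hcon
  have : X = ∅ := (ZFSet.eq_empty X).2 hcon
  rw [this] at hX
  exact h.bot hX

theorem zero : (∅ : V) ∈ κ := h.ord.mem_trans (mem_om.2 ⟨0, rfl⟩) h.om

theorem memM {β : V} (hβ : β ∈ κ) : β ∈ M := h.gm.zf.transitive _ h.mem _ hβ

theorem compl_sgl {ξ : V} (hξ : ξ ∈ κ) : κ \ {ξ} ∈ U := by
  rcases h.ult {ξ} (sgl_mem h.gm.zf (h.memM hξ)) (by
    intro z hz
    rw [ZFSet.mem_singleton.1 hz]
    exact hξ) with h1 | h1
  · exact absurd h1 (h.nonp ξ hξ)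
  · exact h1

theorem compl_bdd {β : V} (hβ : β ∈ κ) : κ \ β ∈ U := by
  have hW := h.gm.zf
  have hg : gr (fun ξ => κ \ {ξ}) β ∈ M := gr_mem hW (F := fun ξ v => v 0 \ {ξ})
    (DF.diff hW (DF.v hW 1) (DF.sgl hW (DF.v hW 0))) (const_mem h.mem) (h.memM hβ)
  have h1 := h.cmp' hβ hg fun ξ hξ => h.compl_sgl (h.ord.mem_trans hξ hβ)
  have e : ZFSet.sep (fun γ => ∀ ξ ∈ β, γ ∈ κ \ {ξ}) κ = κ \ β := by
    refine ZFSet.ext fun γ => ?_
    rw [ZFSet.mem_sep, ZFSet.mem_sdiff]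
    refine and_congr_right fun hγ => ⟨fun h2 h3 => ?_, fun h2 ξ hξ => ?_⟩
    · exact (ZFSet.mem_sdiff.1 (h2 γ h3)).2 (ZFSet.mem_singleton.2 rfl)
    · refine ZFSet.mem_sdiff.2 ⟨hγ, fun h3 => h2 ?_⟩
      rw [ZFSet.mem_singleton.1 h3]
      exact hξ
  rw [← e]
  exact h1

theorem inter {X Y : V} (hX : X ∈ U) (hY : Y ∈ U) : ∃ β, β ∈ X ∧ β ∈ Y := by
  classical
  have hW := h.gm.zf
  have h2 : nat 2 ∈ κ := h.ord.mem_trans (mem_om.2 ⟨2, rfl⟩) h.om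
  have hXM := hW.transitive _ h.memU _ hX
  have hYM := hW.transitive _ h.memU _ hY
  have hg : gr (fun ξ => if ξ = ∅ then X else Y) (nat 2) ∈ M :=
    gr_mem hW (F := fun ξ v => if ξ = ∅ then v 0 else v 1)
      (DF.ite (DP.eq (DF.v hW 0) (DF.empty hW)) (DF.v hW 1) (DF.v hW 2))
      (v := cons X fun _ => Y) (cons_mem hXM fun _ => hYM) (nat_mem hW 2)
  have h3 := h.cmp' h2 hg (by
    intro ξ _
    show (if ξ = ∅ then X else Y) ∈ U
    split_ifs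
    · exact hX
    · exact hY)
  obtain ⟨β, hβ⟩ := h.ne h3
  obtain ⟨_, h4⟩ := ZFSet.mem_sep.1 hβ
  have h5 : β ∈ (if nat 0 = ∅ then X else Y) := h4 (nat 0) (mem_nat.2 ⟨0, by omega, rfl⟩)
  have h6 : β ∈ (if nat 1 = ∅ then X else Y) := h4 (nat 1) (mem_nat.2 ⟨1, by omega, rfl⟩)
  have h7 : nat 0 = ∅ := rfl
  rw [if_pos h7] at h5
  rw [if_neg (nat_succ_ne 0)] at h6
  exact ⟨β, h5, h6⟩

theorem succ {β : V} (hβ : β ∈ κ) : insert β β ∈ κ := by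
  rcases (ord_succ (h.ord.mem hβ)).mem_trichotomous h.ord with h1 | h1 | h1
  · exact h1
  · exfalso
    have h2 := h.compl_bdd hβ
    have e : κ \ β = {β} := by
      refine ZFSet.ext fun z => ?_
      rw [ZFSet.mem_sdiff, ZFSet.mem_singleton, ← h1, ZFSet.mem_insert_iff]
      constructor
      · rintro ⟨h3 | h3, h4⟩
        · exact h3
        · exact absurd h3 h4
      · rintro rfl
        exact ⟨Or.inl rfl, ZFSet.mem_irrefl _⟩
    rw [e] at h2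
    exact h.nonp β hβ h2
  · exfalso
    rcases ZFSet.mem_insert_iff.1 h1 with h2 | h2
    · rw [h2] at hβ
      exact ZFSet.mem_irrefl _ hβ
    · exact ZFSet.mem_asymm hβ h2

end Ms

/-- the functions of `M` from `Y` to `κ` are bounded -/
def Sml (M : Set V) (κ Y : V) : Prop :=
  ∀ f ∈ M, (∀ y ∈ Y, ap f y ∈ κ) → ∃ β ∈ κ, ∀ y ∈ Y, ap f y ∈ β

namespace Ms

variable (h : Ms M κ U)

include h

theorem sml_ord {μ : V} (hμ : μ ∈ κ) : Sml M κ μ := by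
  intro f hf hfκ
  have hW := h.gm.zf
  have hg : gr (fun ξ => κ \ insert (ap f ξ) (ap f ξ)) μ ∈ M := by
    have h1 : DF M (fun v => ap (v 2) (v 0)) := DF.ap hW (DF.v hW 2) (DF.v hW 0)
    exact gr_mem hW (F := fun ξ v => v 0 \ insert (ap (v 1) ξ) (ap (v 1) ξ))
      (DF.diff hW (DF.v hW 1) (DF.ins hW h1 h1))
      (v := cons κ fun _ => f) (cons_mem h.mem fun _ => hf) (h.memM hμ)
  have h1 := h.cmp' hμ hg fun ξ hξ => h.compl_bdd (h.succ (hfκ ξ hξ))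
  obtain ⟨β, hβ⟩ := h.ne h1
  obtain ⟨h2, h3⟩ := ZFSet.mem_sep.1 hβ
  refine ⟨β, h2, fun ξ hξ => ?_⟩
  have h4 : β ∉ (insert (ap f ξ) (ap f ξ) : V) := (ZFSet.mem_sdiff.1 (h3 ξ hξ)).2
  rcases (h.ord.mem h2).mem_trichotomous (h.ord.mem (hfκ ξ hξ)) with h5 | h5 | h5
  · exact absurd (ZFSet.mem_insert_iff.2 (Or.inr h5)) h4
  · exact absurd (ZFSet.mem_insert_iff.2 (Or.inl h5)) h4
  · exact h5

theorem sml_sub {Y Z : V} (hY : Y ∈ M) (hs : Sml M κ Y) (hZM : Z ∈ M) (hZ : Z ⊆ Y) :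
    Sml M κ Z := by
  classical
  intro f hf hfκ
  have hW := h.gm.zf
  have hg : gr (fun y => if y ∈ Z then ap f y else ∅) Y ∈ M :=
    gr_mem hW (F := fun y v => if y ∈ v 0 then ap (v 1) y else ∅)
      (DF.ite (DP.mem (DF.v hW 0) (DF.v hW 1)) (DF.ap hW (DF.v hW 2) (DF.v hW 0)) (DF.empty hW))
      (v := cons Z fun _ => f) (cons_mem hZM fun _ => hf) hY
  obtain ⟨β, hβ, h1⟩ := hs _ hg (by
    intro y hy
    rw [ap_gr hy]
    split_ifs with h2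
    · exact hfκ y h2
    · exact h.zero)
  refine ⟨β, hβ, fun y hy => ?_⟩
  have h2 := h1 y (hZ hy)
  rw [ap_gr (hZ hy), if_pos hy] at h2
  exact h2

theorem sml_enum {Y : V} (hY : Y ∈ M) (hs : Sml M κ Y) :
    ∃ γ ∈ κ, ∃ e ∈ M, (∀ ξ ∈ γ, ap e ξ ∈ Y) ∧ ∀ y ∈ Y, ∃ ξ ∈ γ, ap e ξ = y := by
  have hW := h.gm.zf
  obtain ⟨γ, hγ, hγo, e, he, e1, e2, e3⟩ := enum h.gm hY
  refine ⟨γ, ?_, e, he, e1, e2⟩
  rcases hγo.mem_or_subset h.ord with h1 | h1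
  · exact h1
  · exfalso
    have hg : gr (fun y => sU (ZFSet.sep (fun ξ => ap e ξ = y) κ)) Y ∈ M := by
      refine gr_mem hW (F := fun y v => sU (ZFSet.sep (fun ξ => ap (v 0) ξ = y) (v 1))) ?_
        (v := cons e fun _ => κ) (cons_mem he fun _ => h.mem) hY
      exact DF.sU hW (DF.sep hW (DF.v hW 2) (P := fun ξ v => ap (v 1) ξ = v 0)
        (DP.eq (DF.ap hW (DF.v hW 2) (DF.v hW 0)) (DF.v hW 1)))
    have hval : ∀ ξ ∈ κ, sU (ZFSet.sep (fun ξ' => ap e ξ' = ap e ξ) κ) = ξ := by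
      intro ξ hξ
      have : ZFSet.sep (fun ξ' => ap e ξ' = ap e ξ) κ = {ξ} := by
        refine ZFSet.ext fun z => ?_
        rw [ZFSet.mem_sep, ZFSet.mem_singleton]
        constructor
        · rintro ⟨h2, h3⟩
          exact e3 z (h1 h2) ξ (h1 hξ) h3
        · rintro rfl
          exact ⟨hξ, rfl⟩
      rw [this]
      exact ZFSet.sUnion_singleton
    obtain ⟨β, hβ, h2⟩ := hs _ hg (by
      intro y hy
      rw [ap_gr hy]
      by_cases h3 : ∃ ξ ∈ κ, ap e ξ = y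
      · obtain ⟨ξ, h4, rfl⟩ := h3
        rw [hval ξ h4]
        exact h4
      · have : ZFSet.sep (fun ξ => ap e ξ = y) κ = ∅ := by
          rw [ZFSet.eq_empty]
          intro z hz
          obtain ⟨h4, h5⟩ := ZFSet.mem_sep.1 hz
          exact h3 ⟨z, h4, h5⟩
        rw [this]
        have h4 : sU (∅ : V) = ∅ := by
          rw [ZFSet.eq_empty]
          intro z hz
          obtain ⟨w, hw, _⟩ := mem_sU.1 hz
          exact ZFSet.notMem_empty _ hw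
        rw [h4]
        exact h.zero)
    have h3 := h2 _ (e1 β (h1 hβ))
    rw [ap_gr (e1 β (h1 hβ)), hval β hβ] at h3
    exact ZFSet.mem_irrefl _ h3

theorem sml_pwr {Y : V} (hY : Y ∈ M) (hs : Sml M κ Y) : Sml M κ (pwr M Y) := by
  classical
  intro f hf hfκ
  have hW := h.gm.zf
  by_contra hcon
  push Not at hcon
  obtain ⟨g, hg, hgs⟩ := h.gm.choose (R := fun β x v => x ∈ pwr M (v 0) ∧ ap (v 1) x ∉ β)
    (by
      refine DP.and (DP.mem (DF.v hW 1) (DF.pwr hW (DF.v hW 2))) ?_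
      exact DP.not (DP.mem (DF.ap hW (DF.v hW 3) (DF.v hW 1)) (DF.v hW 0)))
    (v := cons Y fun _ => f) (cons_mem hY fun _ => hf) h.mem (fun β hβ => by
      obtain ⟨x, hx, h1⟩ := hcon β hβ
      exact ⟨x, (mem_pwr.1 hx).1, hx, h1⟩)
  obtain ⟨γ, hγ, e, he, e1, e2⟩ := h.sml_enum hY hs
  -- the measure one sets
  let A : V → V := fun y => ZFSet.sep (fun β => y ∈ ap g β) κ
  let B : V → V := fun y => if A y ∈ U then A y else κ \ A y
  have hAM : DF M (fun v => ZFSet.sep (fun β => v 0 ∈ ap (v 1) β) (v 2)) :=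
    DF.sep hW (DF.v hW 2) (P := fun β v => v 0 ∈ ap (v 1) β)
      (DP.mem (DF.v hW 1) (DF.ap hW (DF.v hW 2) (DF.v hW 0)))
  have hAyM : ∀ y ∈ M, A y ∈ M := fun y hy =>
    hAM.mem3 (F := fun y g κ => ZFSet.sep (fun β => y ∈ ap g β) κ) hy hg h.mem
  have hBU : ∀ y ∈ M, B y ∈ U := by
    intro y hy
    show (if A y ∈ U then A y else κ \ A y) ∈ U
    split_ifs with h1
    · exact h1
    · rcases h.ult (A y) (hAyM y hy) sep_sub with h2 | h2
      · exact absurd h2 h1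
      · exact h2
  have hBM : gr (fun ξ => B (ap e ξ)) γ ∈ M := by
    refine gr_mem hW (F := fun ξ v => if ZFSet.sep (fun β => ap (v 0) ξ ∈ ap (v 1) β) (v 2) ∈ v 3
      then ZFSet.sep (fun β => ap (v 0) ξ ∈ ap (v 1) β) (v 2) else
      v 2 \ ZFSet.sep (fun β => ap (v 0) ξ ∈ ap (v 1) β) (v 2)) ?_
      (v := cons e (cons g (cons κ fun _ => U)))
      (cons_mem he (cons_mem hg (cons_mem h.mem fun _ => h.memU))) (h.memM hγ)
    have h1 : DF M (fun v => ZFSet.sep (fun β => ap (v 1) (v 0) ∈ ap (v 2) β) (v 3)) :=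
      DF3.app (F := fun y g κ => ZFSet.sep (fun β => y ∈ ap g β) κ) hAM
        (DF.ap hW (DF.v hW 1) (DF.v hW 0)) (DF.v hW 2) (DF.v hW 3)
    exact DF.ite (DP.mem h1 (DF.v hW 4)) h1 (DF.diff hW (DF.v hW 3) h1)
  have hI := h.cmp' hγ hBM fun ξ hξ => hBU _ (hW.transitive _ hY _ (e1 ξ hξ))
  have hI' : ∀ β ∈ ZFSet.sep (fun β => ∀ ξ ∈ γ, β ∈ B (ap e ξ)) κ,
      β ∈ κ ∧ ∀ y ∈ Y, β ∈ B y := by
    intro β hβ
    obtain ⟨h1, h2⟩ := ZFSet.mem_sep.1 hβ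
    refine ⟨h1, fun y hy => ?_⟩
    obtain ⟨ξ, hξ, rfl⟩ := e2 y hy
    exact h2 ξ hξ
  obtain ⟨β0, hβ0⟩ := h.ne hI
  have hβ0κ := (hI' β0 hβ0).1
  -- the value at all elements of `I` is the same
  have hsame : ∀ β ∈ ZFSet.sep (fun β => ∀ ξ ∈ γ, β ∈ B (ap e ξ)) κ, ap g β = ap g β0 := by
    intro β hβ
    have hβκ := (hI' β hβ).1
    have hsub : ∀ β ∈ κ, ap g β ⊆ Y := fun β hβ => (mem_pwr.1 (hgs β hβ).2.1).2
    have hiff : ∀ y ∈ Y, (y ∈ ap g β ↔ y ∈ ap g β0) := by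
      intro y hy
      have h1 := (hI' β hβ).2 y hy
      have h2 := (hI' β0 hβ0).2 y hy
      change β ∈ (if A y ∈ U then A y else κ \ A y) at h1
      change β0 ∈ (if A y ∈ U then A y else κ \ A y) at h2
      split_ifs at h1 h2 with h3
      · exact ⟨fun _ => (ZFSet.mem_sep.1 h2).2, fun _ => (ZFSet.mem_sep.1 h1).2⟩
      · refine ⟨fun h4 => ?_, fun h4 => ?_⟩
        · exact absurd (ZFSet.mem_sep.2 ⟨hβκ, h4⟩) (ZFSet.mem_sdiff.1 h1).2
        · exact absurd (ZFSet.mem_sep.2 ⟨hβ0κ, h4⟩) (ZFSet.mem_sdiff.1 h2).2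
    refine ZFSet.ext fun y => ⟨fun hy => (hiff y (hsub β hβκ hy)).1 hy,
      fun hy => (hiff y (hsub β0 hβ0κ hy)).2 hy⟩
  have hδ : ap f (ap g β0) ∈ κ := hfκ _ (hgs β0 hβ0κ).2.1
  obtain ⟨β, hβ, hβ'⟩ := h.inter hI (h.compl_bdd (h.succ hδ))
  have hβκ := (hI' β hβ).1
  have h1 := (hgs β hβκ).2.2
  change ap f (ap g β) ∉ β at h1
  rw [hsame β hβ] at h1
  have h2 := (ZFSet.mem_sdiff.1 hβ').2
  rcases (h.ord.mem hβκ).mem_trichotomous (h.ord.mem hδ) with h5 | h5 | h5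
  · exact h2 (ZFSet.mem_insert_iff.2 (Or.inr h5))
  · exact h2 (ZFSet.mem_insert_iff.2 (Or.inl h5))
  · exact h1 h5

theorem sml_union {β : V} (hβ : β ∈ κ) {F : V → V} (hg : gr F β ∈ M)
    (hF : ∀ ξ ∈ β, Sml M κ (F ξ)) : Sml M κ (sU (img F β)) := by
  classical
  intro f hf hfκ
  have hW := h.gm.zf
  -- the least bound
  have hb : ∀ ξ ∈ β, ∃ δ ∈ κ, ∀ y ∈ F ξ, ap f y ∈ δ := fun ξ hξ =>
    hF ξ hξ f hf fun y hy => hfκ y (mem_sU.2 ⟨_, mem_img.2 ⟨ξ, hξ, rfl⟩, hy⟩)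
  have hm : ∀ ξ ∈ β, mn (ZFSet.sep (fun δ => ∀ y ∈ F ξ, ap f y ∈ δ) κ) ∈
      ZFSet.sep (fun δ => ∀ y ∈ F ξ, ap f y ∈ δ) κ := by
    intro ξ hξ
    refine (mn_spec (fun z hz => h.ord.mem (ZFSet.mem_sep.1 hz).1) ?_).1
    obtain ⟨δ, h1, h2⟩ := hb ξ hξ
    exact ⟨δ, ZFSet.mem_sep.2 ⟨h1, h2⟩⟩
  have hgm : gr (fun ξ => mn (ZFSet.sep (fun δ => ∀ y ∈ ap (gr F β) ξ, ap f y ∈ δ) κ)) β ∈ M := by
    refine gr_mem hW (F := fun ξ v => mn (ZFSet.sep (fun δ => ∀ y ∈ ap (v 0) ξ,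
      ap (v 1) y ∈ δ) (v 2))) ?_ (v := cons (gr F β) (cons f fun _ => κ))
      (cons_mem hg (cons_mem hf fun _ => h.mem)) (h.memM hβ)
    refine DF.mn hW (DF.sep hW (DF.v hW 3) (P := fun δ v => ∀ y ∈ ap (v 1) (v 0),
      ap (v 2) y ∈ δ) ?_)
    exact DP.ball hW (DF.ap hW (DF.v hW 2) (DF.v hW 1)) (Q := fun y v => ap (v 3) y ∈ v 0)
      (DP.mem (DF.ap hW (DF.v hW 4) (DF.v hW 0)) (DF.v hW 1))
  obtain ⟨δ, hδ, h1⟩ := h.sml_ord hβ _ hgm (by
    intro ξ hξ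
    rw [ap_gr hξ, ap_gr hξ]
    exact (ZFSet.mem_sep.1 (hm ξ hξ)).1)
  refine ⟨δ, hδ, fun y hy => ?_⟩
  obtain ⟨z, hz, hyz⟩ := mem_sU.1 hy
  obtain ⟨ξ, hξ, rfl⟩ := mem_img.1 hz
  have h2 := h1 ξ hξ
  rw [ap_gr hξ, ap_gr hξ] at h2
  exact (h.ord.mem hδ).mem_trans ((ZFSet.mem_sep.1 (hm ξ hξ)).2 y hyz) h2

theorem sml_vW : ∀ β : V, β ∈ κ → Sml M κ (vW M β) := by
  have hW := h.gm.zf
  intro β
  induction β using ZFSet.inductionOn with
  | _ β ih =>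
    intro hβ
    rw [vW_eq hW]
    refine h.sml_union hβ ?_ fun ξ hξ => ?_
    · exact gr_mem hW (F := fun y _ => pwr M (vW M y)) (DF.pwr hW (DF.vW hW (DF.v hW 0)))
        (const_mem h.mem) (h.memM hβ)
    · have hξκ := h.ord.mem_trans hξ hβ
      exact h.sml_pwr ((DF.vW hW (DF.v hW 0)).mem1 (F := vW M) (h.memM hξκ)) (ih ξ hξ hξκ)

/-! ### the model -/

theorem mem_iff_rank {α : V} (hα : α.IsOrdinal) : α ∈ κ ↔ ZFSet.rank α < ZFSet.rank κ := by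
  constructor
  · exact ZFSet.rank_lt_of_mem
  · intro h1
    have h2 : rk α ∈ rk κ := Ordinal.toZFSet_mem_toZFSet_iff.2 h1
    rwa [rk_of_ord hα, rk_of_ord h.ord] at h2

theorem rk_lt {x : V} (hx : ZFSet.rank x < ZFSet.rank κ) : rk x ∈ κ := by
  rw [h.mem_iff_rank (rk_ord x), rank_rk]
  exact hx

theorem rank_succ {x y : V} (hx : ZFSet.rank x < ZFSet.rank κ)
    (hy : ∀ z ∈ y, ZFSet.rank z ≤ ZFSet.rank x) : ZFSet.rank y < ZFSet.rank κ := by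
  have h1 := h.succ (h.rk_lt hx)
  have h2 := ZFSet.rank_lt_of_mem h1
  refine lt_of_le_of_lt (ZFSet.rank_le_iff.2 fun z hz => ?_) h2
  refine (hy z hz).trans_lt ?_
  rw [← rank_rk x]
  exact ZFSet.rank_lt_of_mem (ZFSet.mem_insert_iff.2 (Or.inl rfl))

theorem sml_mem {a : V} (ha : a ∈ vW M κ) : Sml M κ a := by
  have hW := h.gm.zf
  obtain ⟨h1, h2⟩ := mem_vW.1 ha
  have h3 := h.rk_lt h2
  refine h.sml_sub ((DF.vW hW (DF.v hW 0)).mem1 (F := vW M) (h.memM h3)) (h.sml_vW _ h3) h1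
    fun z hz => mem_vW.2 ⟨hW.transitive a h1 z hz, ?_⟩
  rw [rank_rk]
  exact ZFSet.rank_lt_of_mem hz

end Ms

/-- satisfaction in the sets of the model is definable over the model -/
theorem DP.SatA (hW : IsTransModelZF M) (φ : Fml) :
    DP M (fun v => Sat {x | x ∈ v 0} φ (fun n => v (n + 1))) := by
  induction φ with
  | bot => exact DP.bot hW.nonempty
  | mem i j => exact DP.mem (DF.v hW (i + 1)) (DF.v hW (j + 1))
  | eq i j => exact DP.eq (DF.v hW (i + 1)) (DF.v hW (j + 1))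
  | imp φ ψ h1 h2 => exact h1.imp h2
  | all φ ih =>
    refine DP.ball hW (DF.v hW 0) (Q := fun x v => Sat {z | z ∈ v 0} φ
      (cons x (fun n => v (n + 1)))) ?_
    refine (ih.ren fun n => match n with | 0 => 1 | 1 => 0 | n + 2 => n + 2).congr fun v _ => ?_
    have e : (fun n : ℕ => v (match n + 1 with | 0 => 1 | 1 => 0 | n + 2 => n + 2)) =
        cons (v 0) (fun n => v (n + 2)) := by
      funext n
      cases n <;> rfl
    show _ ↔ Sat {x | x ∈ v 1} φ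
      (fun n : ℕ => v (match n + 1 with | 0 => 1 | 1 => 0 | n + 2 => n + 2))
    rw [e]

/-- the sets of rank smaller than a measurable cardinal form a model of `ZF` -/
theorem Ms.zf (h : Ms M κ U) : IsTransModelZF {x | x ∈ vW M κ} := by
  have hW := h.gm.zf
  have htr : ∀ x ∈ vW M κ, ∀ y ∈ x, y ∈ vW M κ := fun x hx y hy =>
    mem_vW.2 ⟨hW.transitive x (mem_vW.1 hx).1 y hy,
      (ZFSet.rank_lt_of_mem hy).trans (mem_vW.1 hx).2⟩
  have hA : vW M κ ∈ M := (DF.vW hW (DF.v hW 0)).mem1 (F := vW M) h.mem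
  refine ⟨htr, ?_, ?_, ?_, ?_, ?_, ?_, ?_, ?_⟩
  · -- extensionality
    intro x hx y hy h1
    exact ZFSet.ext fun z => ⟨fun hz => (h1 z (htr x hx z hz)).1 hz,
      fun hz => (h1 z (htr y hy z hz)).2 hz⟩
  · -- foundation
    rintro x hx ⟨y, _, hyx⟩
    have hne : x ≠ ∅ := by
      rintro rfl
      exact ZFSet.notMem_empty _ hyx
    obtain ⟨z, hz, hzx⟩ := ZFSet.regularity x hne
    refine ⟨z, htr x hx z hz, hz, fun w _ hwz hwx => ?_⟩
    have : w ∈ x ∩ z := ZFSet.mem_inter.2 ⟨hwx, hwz⟩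
    rw [hzx] at this
    exact ZFSet.notMem_empty _ this
  · -- pairing
    intro x hx y hy
    obtain ⟨hx1, hx2⟩ := mem_vW.1 hx
    obtain ⟨hy1, hy2⟩ := mem_vW.1 hy
    refine ⟨{x, y}, mem_vW.2 ⟨dbl_mem hW hx1 hy1, ?_⟩, fun w _ => ZFSet.mem_pair⟩
    rcases le_total (ZFSet.rank x) (ZFSet.rank y) with h1 | h1
    · refine h.rank_succ hy2 fun z hz => ?_
      rcases ZFSet.mem_pair.1 hz with rfl | rfl
      · exact h1
      · exact le_rfl
    · refine h.rank_succ hx2 fun z hz => ?_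
      rcases ZFSet.mem_pair.1 hz with rfl | rfl
      · exact le_rfl
      · exact h1
  · -- union
    intro x hx
    obtain ⟨hx1, hx2⟩ := mem_vW.1 hx
    refine ⟨sU x, mem_vW.2 ⟨sU_mem hW hx1, ?_⟩, fun w _ => ?_⟩
    · refine lt_of_le_of_lt (ZFSet.rank_le_iff.2 fun z hz => ?_) hx2
      obtain ⟨y, hy, hz⟩ := mem_sU.1 hz
      exact (ZFSet.rank_lt_of_mem hz).trans (ZFSet.rank_lt_of_mem hy)
    · rw [mem_sU]
      exact ⟨fun ⟨y, hy, hw⟩ => ⟨y, htr x hx y hy, hy, hw⟩, fun ⟨y, _, hy, hw⟩ => ⟨y, hy, hw⟩⟩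
  · -- power set
    intro x hx
    obtain ⟨hx1, hx2⟩ := mem_vW.1 hx
    refine ⟨pwr M x, mem_vW.2 ⟨pwr_mem hW hx1, ?_⟩, fun w hw => ?_⟩
    · exact h.rank_succ hx2 fun z hz => ZFSet.rank_mono (mem_pwr.1 hz).2
    · rw [mem_pwr]
      constructor
      · rintro ⟨_, h1⟩ u _ hu
        exact h1 hu
      · intro h1
        exact ⟨(mem_vW.1 hw).1, fun u hu => h1 u (htr w hw u hu) hu⟩
  · -- infinity
    have hom : CM.om ∈ vW M κ := mem_vW.2 ⟨om_mem hW, ZFSet.rank_lt_of_mem h.om⟩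
    refine ⟨CM.om, hom, ⟨∅, htr _ hom _ (mem_om.2 ⟨0, rfl⟩), fun u _ => ZFSet.notMem_empty u,
      mem_om.2 ⟨0, rfl⟩⟩, fun y _ hy => ?_⟩
    obtain ⟨n, rfl⟩ := mem_om.1 hy
    have h1 : nat (n + 1) ∈ CM.om := mem_om.2 ⟨n + 1, rfl⟩
    refine ⟨nat (n + 1), htr _ hom _ h1, h1, fun w _ => ?_⟩
    rw [mem_nat_succ, or_comm]
  · -- separation
    intro φ v hv a ha
    obtain ⟨ha1, ha2⟩ := mem_vW.1 ha
    have hvM : ∀ n, v n ∈ M := fun n => (mem_vW.1 (hv n)).1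
    refine ⟨ZFSet.sep (fun x => Sat {x | x ∈ vW M κ} φ (cons x v)) a, mem_vW.2 ⟨?_, ?_⟩,
      fun x _ => ZFSet.mem_sep⟩
    · refine sep_mem' hW (P := fun x v => Sat {z | z ∈ v 0} φ (cons x fun n => v (n + 1))) ?_
        (v := cons (vW M κ) v) (cons_mem hA hvM) ha1 (fun _ _ => Iff.rfl)
      refine ((DP.SatA hW φ).ren fun n => match n with | 0 => 1 | 1 => 0 | n + 2 => n + 2).congr
        fun v _ => ?_
      have e : (fun n : ℕ => v (match n + 1 with | 0 => 1 | 1 => 0 | n + 2 => n + 2)) =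
          cons (v 0) (fun n => v (n + 2)) := by
        funext n
        cases n <;> rfl
      show _ ↔ Sat {x | x ∈ v 1} φ
        (fun n : ℕ => v (match n + 1 with | 0 => 1 | 1 => 0 | n + 2 => n + 2))
      rw [e]
    · exact lt_of_le_of_lt (ZFSet.rank_mono sep_sub) ha2
  · -- replacement
    intro φ v hv a ha hfun
    obtain ⟨ha1, ha2⟩ := mem_vW.1 ha
    have hvM : ∀ n, v n ∈ M := fun n => (mem_vW.1 (hv n)).1
    -- the function
    obtain ⟨F, hFd⟩ : ∃ F : V → V, F = fun x => sU (ZFSet.sep (fun y =>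
      Sat {x | x ∈ vW M κ} φ (cons y (cons x v))) (vW M κ)) := ⟨_, rfl⟩
    have hF : ∀ x ∈ a, F x ∈ vW M κ ∧ Sat {x | x ∈ vW M κ} φ (cons (F x) (cons x v)) ∧
        ∀ y ∈ vW M κ, Sat {x | x ∈ vW M κ} φ (cons y (cons x v)) → y = F x := by
      intro x hx
      obtain ⟨y, ⟨hy, h1⟩, h2⟩ := hfun x (htr a ha x hx) hx
      have e : F x = y := by
        rw [hFd]
        show sU (ZFSet.sep (fun y => Sat {x | x ∈ vW M κ} φ (cons y (cons x v))) (vW M κ)) = y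
        have : ZFSet.sep (fun y => Sat {x | x ∈ vW M κ} φ (cons y (cons x v))) (vW M κ) =
            {y} := by
          refine ZFSet.ext fun z => ?_
          rw [ZFSet.mem_sep, ZFSet.mem_singleton]
          constructor
          · rintro ⟨h3, h4⟩
            exact h2 z ⟨h3, h4⟩
          · rintro rfl
            exact ⟨hy, h1⟩
        rw [this]
        exact ZFSet.sUnion_singleton
      rw [e]
      exact ⟨hy, h1, fun y' h3 h4 => h2 y' ⟨h3, h4⟩⟩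
    have hFM : DF M (fun u => sU (ZFSet.sep (fun y => Sat {x | x ∈ u 1} φ
        (cons y (cons (u 0) fun n => u (n + 2)))) (u 1))) := by
      refine DF.sU hW (DF.sep hW (DF.v hW 1) (P := fun y u => Sat {x | x ∈ u 1} φ
        (cons y (cons (u 0) fun n => u (n + 2)))) ?_)
      refine ((DP.SatA hW φ).ren fun n => match n with
        | 0 => 2 | 1 => 0 | 2 => 1 | n + 3 => n + 3).congr fun v _ => ?_
      have e : (fun n : ℕ => v (match n + 1 with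
          | 0 => 2 | 1 => 0 | 2 => 1 | n + 3 => n + 3)) =
          cons (v 0) (cons (v 1) (fun n => v (n + 3))) := by
        funext n
        rcases n with _ | _ | n <;> rfl
      show _ ↔ Sat {x | x ∈ v 2} φ
        (fun n : ℕ => v (match n + 1 with | 0 => 2 | 1 => 0 | 2 => 1 | n + 3 => n + 3))
      rw [e]
    have hb : img F a ∈ M := by
      rw [hFd]
      exact img_mem hW (g := fun x u => sU (ZFSet.sep (fun y => Sat {x | x ∈ u 0} φ
        (cons y (cons x fun n => u (n + 1)))) (u 0))) hFM (v := cons (vW M κ) v)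
        (cons_mem hA hvM) ha1
    have hr : gr (fun x => rk (F x)) a ∈ M := by
      rw [hFd]
      exact gr_mem hW (F := fun x u => rk (sU (ZFSet.sep (fun y => Sat {x | x ∈ u 0} φ
        (cons y (cons x fun n => u (n + 1)))) (u 0)))) (DF.rk hW hFM) (v := cons (vW M κ) v)
        (cons_mem hA hvM) ha1
    obtain ⟨β, hβ, h1⟩ := h.sml_mem ha _ hr (by
      intro x hx
      rw [ap_gr hx]
      exact h.rk_lt (mem_vW.1 (hF x hx).1).2)
    refine ⟨img F a, mem_vW.2 ⟨hb, ?_⟩, fun y hy => ?_⟩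
    · refine lt_of_le_of_lt (ZFSet.rank_le_iff.2 fun z hz => ?_) (ZFSet.rank_lt_of_mem hβ)
      obtain ⟨x, hx, rfl⟩ := mem_img.1 hz
      have h2 := h1 x hx
      rw [ap_gr hx] at h2
      rw [← rank_rk]
      exact ZFSet.rank_lt_of_mem h2
    · rw [mem_img]
      constructor
      · rintro ⟨x, hx, rfl⟩
        exact ⟨x, htr a ha x hx, hx, (hF x hx).2.1⟩
      · rintro ⟨x, _, hx, h2⟩
        exact ⟨x, hx, ((hF x hx).2.2 y hy h2).symm⟩

/-- the ordinals of the model are the elements of `κ` -/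
theorem Ms.hgt (h : Ms M κ U) : ∀ z, z ∈ κ ↔ z ∈ ({x | x ∈ vW M κ} : Set V) ∧ z.IsOrdinal := by
  intro z
  constructor
  · intro hz
    exact ⟨mem_vW.2 ⟨h.memM hz, ZFSet.rank_lt_of_mem hz⟩, h.ord.mem hz⟩
  · rintro ⟨h1, h2⟩
    exact (h.mem_iff_rank h2).2 (mem_vW.1 h1).2

end Pool.Agent.CM
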