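import Mathlib
import Pool.Agent.Lib.MP_f8e9b8_lc.Fin
import Pool.Agent.Lib.MP_f8e9b8_lc.Inac

/-!
# MP_f8e9b8_lc : independence, assembly
-/

set_option autoImplicit false

namespace Pool.Agent.CM

open Pool.Agent.CR (V Fml cons Sat nat cons_zero cons_succ)

variable {M W : Set V}

/-- `κ` is greater than the continuum of `K` -/
def GtC (K : Set V) (κ : V) : Prop :=
  ∀ f ∈ K, FnV (pwr K om) κ f → ∃ ξ ∈ κ, ∀ x, ZFSet.pair x ξ ∉ f

theorem RegIn.succ (hW : IsTransModelZF M) {κ : V} (h : RegIn M κ) {β : V} (hβ : β ∈ κ) :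
    insert β β ∈ κ := by
  obtain ⟨hκ, ho, hom, hr⟩ := h
  rcases (ord_succ (ho.mem hβ)).mem_trichotomous ho with h1 | h1 | h1
  · exact h1
  · exfalso
    have hβM := hW.transitive _ hκ _ hβ
    have h2 : nat 1 ∈ κ := ho.mem_trans (mem_om.2 ⟨1, rfl⟩) hom
    have hg : gr (fun _ => β) (nat 1) ∈ M := gr_mem hW (F := fun _ v => v 0) (DF.v hW 1)
      (const_mem hβM) (nat_mem hW 1)
    obtain ⟨γ, hγ, h3⟩ := hr _ h2 _ hg (by
      refine ⟨fun p hp => ?_, fun ξ hξ => ⟨β, pair_mem_gr.2 ⟨hξ, rfl⟩,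
        fun y hy => (pair_mem_gr.1 hy).2.symm⟩⟩
      obtain ⟨ξ, hξ, rfl⟩ := mem_gr.1 hp
      exact ZFSet.pair_mem_prod.2 ⟨hξ, hβ⟩)
    have h4 := h3 (nat 0) β (pair_mem_gr.2 ⟨mem_nat.2 ⟨0, by omega, rfl⟩, rfl⟩)
    rw [← h1] at hγ
    rcases ZFSet.mem_insert_iff.1 hγ with h5 | h5
    · rw [h5] at h4
      exact ZFSet.mem_irrefl _ h4
    · exact ZFSet.mem_asymm h4 h5
  · exfalso
    rcases ZFSet.mem_insert_iff.1 h1 with h2 | h2
    · rw [h2] at hβ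
      exact ZFSet.mem_irrefl _ hβ
    · exact ZFSet.mem_asymm hβ h2

/-- the graph of a function with values in `b` is a function -/
theorem fnV_gr {F : V → V} {a b : V} (h : ∀ x ∈ a, F x ∈ b) : FnV a b (gr F a) := by
  refine ⟨fun p hp => ?_, fun ξ hξ => ⟨F ξ, pair_mem_gr.2 ⟨hξ, rfl⟩,
    fun y hy => (pair_mem_gr.1 hy).2.symm⟩⟩
  obtain ⟨ξ, hξ, rfl⟩ := mem_gr.1 hp
  exact ZFSet.pair_mem_prod.2 ⟨hξ, h ξ hξ⟩

/-- regular cardinals greater than the continuum: functions on the reals are bounded -/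
theorem kap_of_reg (hM : GM M) {κ : V} (h : RegIn M κ) (hc : GtC M κ) : Kap M κ (pwr M om) := by
  classical
  have hW := hM.zf
  have hH := pwr_mem hW (om_mem hW)
  have h' := h
  obtain ⟨hκ, ho, hom, hr⟩ := h'
  have h0 : (∅ : V) ∈ κ := ho.mem_trans (mem_om.2 ⟨0, rfl⟩) hom
  refine ⟨hκ, hH, ho, h0, fun β hβ => h.succ hW hβ, fun f hf hfκ => ?_⟩
  by_contra hcon
  push Not at hcon
  -- the range of the function
  have hR : img (fun x => ap f x) (pwr M om) ∈ M := img_mem hW (g := fun x v => ap (v 0) x)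
    (DF.ap hW (DF.v hW 1) (DF.v hW 0)) (const_mem hf) hH
  obtain ⟨γ, hγ, hγo, e, he, e1, e2, e3⟩ := enum hM hR
  have hRκ : ∀ z ∈ img (fun x => ap f x) (pwr M om), z ∈ κ := by
    intro z hz
    obtain ⟨x, hx, rfl⟩ := mem_img.1 hz
    exact hfκ x hx
  rcases hγo.mem_or_subset ho with h1 | h1
  · -- a short cofinal sequence
    have hg : gr (fun ξ => ap e ξ) γ ∈ M := gr_mem hW (F := fun ξ v => ap (v 0) ξ)
      (DF.ap hW (DF.v hW 1) (DF.v hW 0)) (const_mem he) hγ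
    obtain ⟨β, hβ, h2⟩ := hr γ h1 _ hg (fnV_gr fun ξ hξ => hRκ _ (e1 ξ hξ))
    obtain ⟨x, hx, h3⟩ := hcon β hβ
    obtain ⟨ξ, hξ, h4⟩ := e2 _ (mem_img.2 ⟨x, hx, rfl⟩)
    have h5 := h2 ξ (ap e ξ) (pair_mem_gr.2 ⟨hξ, rfl⟩)
    rw [h4] at h5
    exact h3 ((ho.mem hβ).subset_of_mem h5)
  · -- a surjection of the reals
    have hval : ∀ ξ ∈ κ, sU (ZFSet.sep (fun ξ' => ap e ξ' = ap e ξ) κ) = ξ := by
      intro ξ hξ
      have : ZFSet.sep (fun ξ' => ap e ξ' = ap e ξ) κ = {ξ} := by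
        refine ZFSet.ext fun z => ?_
        rw [ZFSet.mem_sep, ZFSet.mem_singleton]
        constructor
        · rintro ⟨h2, h3⟩
          exact e3 z (h1 h2) ξ (h1 hξ) h3
        · rintro rfl
          exact ⟨hξ, rfl⟩
      rw [this]
      exact ZFSet.sUnion_singleton
    have hg : gr (fun x => sU (ZFSet.sep (fun ξ => ap e ξ = ap f x) κ)) (pwr M om) ∈ M := by
      refine gr_mem hW (F := fun x v => sU (ZFSet.sep (fun ξ => ap (v 0) ξ = ap (v 1) x) (v 2))) ?_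
        (v := cons e (cons f fun _ => κ)) (cons_mem he (cons_mem hf fun _ => hκ)) hH
      exact DF.sU hW (DF.sep hW (DF.v hW 3) (P := fun ξ v => ap (v 1) ξ = ap (v 2) (v 0))
        (DP.eq (DF.ap hW (DF.v hW 2) (DF.v hW 0)) (DF.ap hW (DF.v hW 3) (DF.v hW 1))))
    obtain ⟨ξ, hξ, h2⟩ := hc _ hg (fnV_gr fun x hx => by
      by_cases h3 : ∃ ξ ∈ κ, ap e ξ = ap f x
      · obtain ⟨ξ, h4, h5⟩ := h3
        rw [← h5, hval ξ h4]
        exact h4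
      · have : ZFSet.sep (fun ξ => ap e ξ = ap f x) κ = ∅ := by
          rw [ZFSet.eq_empty]
          intro z hz
          obtain ⟨h4, h5⟩ := ZFSet.mem_sep.1 hz
          exact h3 ⟨z, h4, h5⟩
        rw [this]
        have h4 : sU (∅ : V) = ∅ := by
          rw [ZFSet.eq_empty]
          intro z hz
          obtain ⟨w, hw, _⟩ := mem_sU.1 hz
          exact ZFSet.notMem_empty _ hw
        rw [h4]
        exact h0)
    obtain ⟨x, hx, h3⟩ := mem_img.1 (e1 ξ (h1 hξ))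
    refine h2 x (pair_mem_gr.2 ⟨hx, ?_⟩)
    rw [show ap f x = ap e ξ from h3, hval ξ hξ]

theorem gtC_of_kap (hW : IsTransModelZF M) {κ : V} (h : Kap M κ (pwr M om)) : GtC M κ := by
  intro f hf hff
  obtain ⟨β, hβ, h1⟩ := h.bd f hf fun x hx => (ap_of_func hff hx).1
  refine ⟨insert β β, h.succ β hβ, fun x hx => ?_⟩
  have hxH : x ∈ pwr M om := (ZFSet.pair_mem_prod.1 (hff.1 hx)).1
  have h2 := h1 x hxH
  rw [← (ap_of_func hff hxH).2.2 _ hx] at h2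
  exact ZFSet.mem_irrefl β (h2 (ZFSet.mem_insert_iff.2 (Or.inl rfl)))

/-- the main construction over a countable ground model, at a given cardinal -/
theorem main_gen' {M : Set V} (hM : GM M) (hc : M.Countable) {κ : V} (hK : Kap M κ (pwr M om)) :
    ∃ (N : Set V) (s : ℕ → V),
      N.Countable ∧ GM N ∧ M ⊆ N ∧ (∀ β ∈ N, β.IsOrdinal → β ∈ M) ∧
      (∀ x ∈ N, x ⊆ om → x ∈ M) ∧
      (∀ f ∈ N, FnV om κ f → ∃ ξ ∈ κ, ∀ n, ZFSet.pair n ξ ∉ f) ∧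
      (∀ n, s n ∈ κ) ∧ seqV s ∈ N ∧ (∀ β ∈ κ, ∃ n, β ∈ s n) ∧
      ∀ W, IsTransModelZF W → M ⊆ W → seqV s ∈ W → N ⊆ W := by
  have hW := hM.zf
  have hκM := hK.mem
  obtain ⟨htop, htop2⟩ := top_PL hW hκM
  obtain ⟨G, hG, _⟩ := exists_gen hc ((DF.PL hW (DF.v hW 0)).mem1 (F := PL M) hκM) htop htop2 htop
  have hN := Ext_gm hM hG
  have hr : ∀ x ∈ Ext M G, x ⊆ om → x ∈ M := fun x hx hxo => no_new_reals hM hK hG hx hxo
  obtain ⟨s, hs1, hs2, hs3⟩ := fG_seq hM hK hG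
  have hsub := sub_Ext hW hG
  refine ⟨Ext M G, s, Ext_countable hc, hN, hsub, fun β hβ ho => Ext_ord hW hβ ho, hr,
    ?_, hs1, ?_, ?_, ?_⟩
  · intro f hf hfn
    by_contra hcon
    push Not at hcon
    refine unc hW hN.zf hsub hr hK ⟨f, hf, fun ξ hξ => ?_⟩
    obtain ⟨n, hn⟩ := hcon ξ hξ
    have hno : n ∈ om := (ZFSet.pair_mem_prod.1 (hfn.1 hn)).1
    exact ⟨n, hno, ((ap_of_func hfn hno).2.2 ξ hn).symm⟩
  · rw [← hs2]
    exact fG_mem hM hG hκM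
  · intro β hβ
    obtain ⟨n, hn⟩ := hs3 _ (hK.succ β hβ)
    exact ⟨n, hn (ZFSet.mem_insert_iff.2 (Or.inl rfl))⟩
  · intro W hWW hMW hf
    rw [← hs2] at hf
    have hg := Gs_of_fG hM hK hG hWW hMW hf
    refine Ext_least hWW hMW hg fun p => ?_
    rw [Gs, ZFSet.mem_sep]
    exact ⟨fun h => h.2, fun h => ⟨hG.sub p h, h⟩⟩

/-- in the least constructible model there is no measurable cardinal -/
theorem not_meas_Lc (hW : IsTransModelZF W) (hWc : W.Countable)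
    (hmin : ∀ W' : Set V, W'.Countable → IsTransModelZF W' →
      ∀ δ ∈ W, ¬ ∀ z, z ∈ δ ↔ z ∈ W' ∧ z.IsOrdinal) (κ : V) : ¬ MeasIn (Lc W) κ := by
  intro h
  obtain ⟨U, hU⟩ := h.ms (Lc_gm hW)
  refine hmin {x | x ∈ vW (Lc W) κ} ?_ hU.zf κ (Lc_sub_W hW hU.mem) hU.hgt
  exact hWc.mono fun x hx => Lc_sub_W hW (mem_vW.1 hx).1

/-- a regular cardinal of a model has no cofinal sequence of length `ω` in the model -/
theorem not_cof {κ : V} (h : RegIn M κ) {s : ℕ → V} (h1 : ∀ n, s n ∈ κ) (h2 : seqV s ∈ M)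
    (h3 : ∀ β ∈ κ, ∃ n, β ∈ s n) : False := by
  obtain ⟨hκ, ho, hom, hr⟩ := h
  have hmem : ∀ n, ZFSet.pair (nat n) (s n) ∈ seqV s := fun n => ZFSet.mem_range.2 ⟨n, rfl⟩
  obtain ⟨β, hβ, h4⟩ := hr om hom _ h2 (by
    refine ⟨fun p hp => ?_, fun x hx => ?_⟩
    · obtain ⟨n, rfl⟩ := ZFSet.mem_range.1 hp
      exact ZFSet.pair_mem_prod.2 ⟨mem_om.2 ⟨n, rfl⟩, h1 n⟩
    · obtain ⟨n, rfl⟩ := mem_om.1 hx
      refine ⟨s n, hmem n, fun y hy => ?_⟩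
      obtain ⟨m, hm⟩ := ZFSet.mem_range.1 hy
      obtain ⟨h5, h6⟩ := ZFSet.pair_inj.1 hm
      rw [← h6, nat_injective h5])
  obtain ⟨n, hn⟩ := h3 β hβ
  exact ZFSet.mem_asymm hn (h4 _ _ (hmem n))

/-- independence: the least constructible model and its extensions -/
theorem indep_thm : ∃ M : Set V, M.Countable ∧ Pool.Agent.CR.IsTransModelZFC M ∧
    IsChang M M ∧ IsLR M M ∧ (∀ x ∈ M, ¬ IsTransModelZF {y | y ∈ x}) ∧
    (∀ κ, ¬ MeasIn M κ) ∧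
    (∀ κ, RegIn M κ → ∀ s : ℕ → V, (∀ n, s n ∈ κ) → seqV s ∈ M → ¬ ∀ β ∈ κ, ∃ n, β ∈ s n) ∧
    (∀ α ∈ M, α.IsOrdinal → ∃ κ, α ∈ κ ∧ RegIn M κ ∧ GtC M κ) ∧
    ∀ κ, RegIn M κ → GtC M κ → ∃ (N : Set V) (s : ℕ → V),
      N.Countable ∧ Pool.Agent.CR.IsTransModelZFC N ∧
      IsChang N N ∧ IsLR N M ∧ (∀ x ∈ N, ¬ IsTransModelZF {y | y ∈ x}) ∧
      (∀ f ∈ N, FnV om κ f → ∃ ξ ∈ κ, ∀ n, ZFSet.pair n ξ ∉ f) ∧
      (∀ n, s n ∈ κ) ∧ seqV s ∈ N ∧ (∀ β ∈ κ, ∃ n, β ∈ s n) := by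
  obtain ⟨W, hWc, hW, hmin⟩ := exists_min_zf
  have hM := Lc_gm hW
  have hMc : (Lc W).Countable := hWc.mono (Lc_sub_W hW)
  -- the inner models of `N` contain `M`
  have hsub : ∀ N : Set V, Lc W ⊆ N → ∀ W', IsInner N W' → Lc W ⊆ W' := fun N h3 W' hW' =>
    Lc_sub hW'.2.1 fun β hβ ho => hW'.2.2 β (h3 (ord_Lc hW β hβ ho)) ho
  -- there are no transitive set models
  have hnone : ∀ N : Set V, N.Countable → IsTransModelZF N →
      (∀ β ∈ N, β.IsOrdinal → β ∈ Lc W) → ∀ x ∈ N, ¬ IsTransModelZF {y | y ∈ x} := by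
    intro N h1 h2 h4 x hx hxz
    have hxc : ({y | y ∈ x} : Set V).Countable := h1.mono fun y hy =>
      h2.transitive x hx y hy
    have hδ : ZFSet.sep (fun z => z.IsOrdinal) x ∈ N :=
      sep_mem h2 (P := fun z _ => z.IsOrdinal) (DP.ord h2 (DF.v h2 0)) (const_mem hx) hx
    obtain ⟨δ, h14, h15⟩ := exists_hgt hxz hxc
    have e : ZFSet.sep (fun z => z.IsOrdinal) x = δ := ZFSet.ext fun z => by
      rw [ZFSet.mem_sep, h15]
      exact Iff.rfl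
    rw [e] at hδ
    exact hmin _ hxc hxz δ (Lc_sub_W hW (h4 δ hδ h14)) h15
  have hinn : IsInner (Lc W) (Lc W) := ⟨fun _ h => h, hM.zf, fun _ h _ => h⟩
  refine ⟨Lc W, hMc, hM.zfc, ⟨hinn, fun _ _ h => h,
    fun W' hW' _ => hsub _ (fun _ h => h) W' hW'⟩, ⟨hinn, fun _ h _ => h,
    fun W' hW' _ => hsub _ (fun _ h => h) W' hW'⟩, hnone _ hMc hM.zf fun _ h _ => h,
    not_meas_Lc hW hWc hmin, fun κ hκ s h1 h2 h3 => not_cof hκ h1 h2 h3,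
    fun α hα hαo => ?_, fun κ hκ hκc => ?_⟩
  · obtain ⟨κ, h1, h2, h3, _⟩ := exists_kappa hM hα hαo
    exact ⟨κ, h1, h3, gtC_of_kap hM.zf h2⟩
  · obtain ⟨N, s, h1, h2, h3, h4, h5, h9, h10, h11, h12, h13⟩ :=
      main_gen' hM hMc (kap_of_reg hM hκ hκc)
    have hκo : κ.IsOrdinal := hκ.2.1
    exact ⟨N, s, h1, h2.zfc, ⟨⟨fun _ h => h, h2.zf, fun _ h _ => h⟩, fun _ _ h => h,
      fun W' hW' hs => h13 W' hW'.2.1 (hsub N h3 W' hW') (hs s (fun n => hκo.mem (h10 n)) h11)⟩,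
      ⟨⟨h3, hM.zf, h4⟩, h5, fun W' hW' _ => hsub N h3 W' hW'⟩, hnone N h1 h2.zf h4,
      h9, h10, h11, h12⟩

end Pool.Agent.CM
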